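import Pool.Agent.Work.MP_0f16e1_nt.HComm

/-! # MP_0f16e1_nt : a maximal ideal gives a field quotient -/

namespace MP0f16e1

theorem exists_field_aux {A : Type} [CommRing A] [Algebra ℚ A] {r : ℕ} (I : Ideal A)
    (hI : I.IsMaximal) (hr : r ≤ Module.finrank ℚ (A ⧸ I)) :
    ∃ (F : Type) (_ : Field F) (_ : Algebra ℚ F) (φ : A →ₐ[ℚ] F),
      Function.Surjective φ ∧ r ≤ Module.finrank ℚ F :=
  ⟨A ⧸ I, Ideal.Quotient.field I, Ideal.Quotient.algebra ℚ, Ideal.Quotient.mkₐ ℚ I,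
    Ideal.Quotient.mkₐ_surjective ℚ I, hr⟩

theorem exists_field_aux2 {A : Type} (R : Ring A) (hc : ∀ a b : A, a * b = b * a) [Algebra ℚ A]
    {r : ℕ} (I : Ideal A) (hI : I.IsMaximal) (hr : r ≤ Module.finrank ℚ (A ⧸ I)) :
    ∃ (F : Type) (_ : Field F) (_ : Algebra ℚ F) (φ : A →ₐ[ℚ] F),
      Function.Surjective φ ∧ r ≤ Module.finrank ℚ F := by
  let c : CommRing A := { R with mul_comm := hc }
  exact @exists_field_aux A c _ r I hI hr

theorem exists_field {k r : ℕ} {I : Ideal (HeckeAlg k)} (hI : I.IsMaximal)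
    (hr : r ≤ Module.finrank ℚ (HeckeAlg k ⧸ I)) :
    ∃ (F : Type) (_ : Field F) (_ : Algebra ℚ F) (φ : HeckeAlg k →ₐ[ℚ] F),
      Function.Surjective φ ∧ r ≤ Module.finrank ℚ F :=
  exists_field_aux2 _ (HeckeAlg_comm k) I hI hr

end MP0f16e1
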