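import Mathlib

/-! # Module `Alg` : linear algebra (Mathlib only) -/

open Polynomial

namespace MP0f16e1

/-- if `P ∣ charpoly` has positive degree (over a field), `P(M)` kills a nonzero vector. -/
private theorem exists_kernel {n : ℕ} (M : Matrix (Fin n) (Fin n) ℚ) (P : Polynomial ℚ)
    (hP : Irreducible P) (hd : P ∣ M.charpoly) : ∃ w : Fin n → ℚ, w ≠ 0 ∧ (aeval M P).mulVec w = 0 := by
  classical
  let K := AlgebraicClosure ℚ
  have hdeg : (P.map (algebraMap ℚ K)).degree ≠ 0 := by
    rw [degree_map]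
    exact (degree_pos_of_irreducible hP).ne'
  obtain ⟨z, hz⟩ := IsAlgClosed.exists_root _ hdeg
  have hz' : aeval z P = 0 := by
    rwa [IsRoot, eval_map_algebraMap] at hz
  -- `z` is a root of the charpoly of `M` over `K`
  have hroot : (M.map (algebraMap ℚ K)).charpoly.IsRoot z := by
    rw [Matrix.charpoly_map]
    obtain ⟨Q, hQ⟩ := hd
    rw [hQ, IsRoot, eval_map_algebraMap, map_mul, hz', zero_mul]
  -- so an eigenvalue
  have hdet0 : (Matrix.scalar (Fin n) z - M.map (algebraMap ℚ K)).det = 0 := by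
    rw [← Matrix.eval_charpoly]
    exact hroot
  obtain ⟨x, hx0, hx⟩ := Matrix.exists_mulVec_eq_zero_iff.2 hdet0
  have hev : (M.map (algebraMap ℚ K)).mulVec x = z • x := by
    rw [Matrix.sub_mulVec, sub_eq_zero] at hx
    rw [← hx]
    simp [Matrix.scalar_apply]
  -- `P(M) x = P(z) x = 0`
  have hpow : ∀ k : ℕ, ((M.map (algebraMap ℚ K)) ^ k).mulVec x = z ^ k • x := by
    intro k
    induction k with
    | zero => simp
    | succ k ih =>
      rw [pow_succ, ← Matrix.mulVec_mulVec, hev, Matrix.mulVec_smul, ih, smul_smul, pow_succ]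
      congr 1
      ring
  have hPx : (aeval (M.map (algebraMap ℚ K)) P).mulVec x = aeval z P • x := by
    rw [aeval_eq_sum_range, aeval_eq_sum_range, Finset.sum_smul, Matrix.sum_mulVec]
    refine Finset.sum_congr rfl fun k _ => ?_
    rw [Matrix.smul_mulVec, hpow, smul_assoc]
  rw [hz', zero_smul] at hPx
  have hmap : aeval (M.map (algebraMap ℚ K)) P = (aeval M P).map (algebraMap ℚ K) := by
    have h := (Polynomial.aeval_algHom_apply ((Algebra.ofId ℚ K).mapMatrix (m := Fin n)) M P)
    exact h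
  have hdet : (aeval M P).det = 0 := by
    have h1 : ((aeval M P).map (algebraMap ℚ K)).det = 0 := by
      rw [← hmap]
      exact Matrix.exists_mulVec_eq_zero_iff.1 ⟨x, hx0, hPx⟩
    have h2 : algebraMap ℚ K (aeval M P).det = 0 := by
      rw [← h1, RingHom.map_det]
      rfl
    exact (map_eq_zero _).1 h2
  exact Matrix.exists_mulVec_eq_zero_iff.2 hdet

theorem alg (n : ℕ) (M : Matrix (Fin n) (Fin n) ℤ) (ℓ : ℕ) [Fact ℓ.Prime]
    (p : Polynomial (ZMod ℓ)) (hp : Irreducible p) (v : Fin n → ZMod ℓ) (hv : v ≠ 0)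
    (hpv : (aeval (M.map (Int.castRingHom (ZMod ℓ))) p).mulVec v = 0) :
    ∃ P : Polynomial ℚ, Irreducible P ∧ p.natDegree ≤ P.natDegree ∧
      ∃ w : Fin n → ℚ, w ≠ 0 ∧ (aeval (M.map (Int.castRingHom ℚ)) P).mulVec w = 0 := by
  classical
  let N : Matrix (Fin n) (Fin n) (ZMod ℓ) := M.map (Int.castRingHom (ZMod ℓ))
  -- `p` divides the charpoly of `N`
  have hpN : p ∣ N.charpoly := by
    by_contra hnd
    obtain ⟨a, b, hab⟩ := (hp.coprime_iff_not_dvd).2 hnd
    apply hv
    have h1 : (aeval N (a * p + b * N.charpoly)).mulVec v = v := by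
      rw [hab]
      simp
    rw [← h1, map_add, map_mul, map_mul, Matrix.aeval_self_charpoly, mul_zero, add_zero,
      ← Matrix.mulVec_mulVec, hpv, Matrix.mulVec_zero]
  have hcN : N.charpoly = M.charpoly.map (Int.castRingHom (ZMod ℓ)) := by
    exact Matrix.charpoly_map M _
  have hprime : Prime p := hp.prime
  -- factor of the integral charpoly
  have key : ∀ f : ℤ[X], f.Monic → f ≠ 1 → p ∣ f.map (Int.castRingHom (ZMod ℓ)) →
      ∃ q : ℤ[X], q.Monic ∧ Irreducible q ∧ q ∣ f ∧ p ∣ q.map (Int.castRingHom (ZMod ℓ)) := by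
    intro f
    induction hd : f.natDegree using Nat.strong_induction_on generalizing f with
    | _ d ih =>
      intro hf hf1 hpf
      by_cases hirr : Irreducible f
      · exact ⟨f, hf, hirr, dvd_rfl, hpf⟩
      · rw [hf.irreducible_iff_natDegree] at hirr
        push Not at hirr
        obtain ⟨a, b, ha, hb, hab, h1, h2⟩ := hirr hf1
        have hsum : a.natDegree + b.natDegree = f.natDegree := by
          rw [← hab, ha.natDegree_mul hb]
        rw [← hab, Polynomial.map_mul] at hpf
        rcases hprime.dvd_or_dvd hpf with h | h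
        · obtain ⟨q, hq1, hq2, hq3, hq4⟩ := ih a.natDegree (by omega) a rfl ha
            (by rintro rfl; simp at h1) h
          exact ⟨q, hq1, hq2, hq3.trans ⟨b, hab.symm⟩, hq4⟩
        · obtain ⟨q, hq1, hq2, hq3, hq4⟩ := ih b.natDegree (by omega) b rfl hb
            (by rintro rfl; simp at h2) h
          exact ⟨q, hq1, hq2, hq3.trans ⟨a, by rw [mul_comm]; exact hab.symm⟩, hq4⟩
  have hM1 : M.charpoly ≠ 1 := by
    intro h
    rw [hcN, h, Polynomial.map_one] at hpN
    exact hp.not_isUnit (isUnit_of_dvd_one hpN)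
  obtain ⟨q, hqm, hqi, hqd, hpq⟩ := key M.charpoly (Matrix.charpoly_monic M) hM1 (hcN ▸ hpN)
  refine ⟨q.map (Int.castRingHom ℚ), ?_, ?_, ?_⟩
  · have := (hqm.irreducible_iff_irreducible_map_fraction_map (K := ℚ)).1 hqi
    exact this
  · rw [hqm.natDegree_map]
    have h1 : (q.map (Int.castRingHom (ZMod ℓ))).natDegree = q.natDegree := hqm.natDegree_map _
    rw [← h1]
    exact natDegree_le_of_dvd hpq (hqm.map _).ne_zero
  · apply exists_kernel
    · have := (hqm.irreducible_iff_irreducible_map_fraction_map (K := ℚ)).1 hqi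
      exact this
    · rw [Matrix.charpoly_map]
      exact Polynomial.map_dvd _ hqd

end MP0f16e1
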