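import Pool.Agent.Work.MP_0f16e1_nt.WinD

/-! # MP_0f16e1_nt : base certificates with irreducibility data -/

namespace MP0f16e1

/-- a base certificate. -/
structure CertB where
  l : ℕ
  w : ℕ
  iv : ℕ
  cs : List ℕ
  ps : List ℕ
  gs : List ℕ
  us : List ℕ
  s : ℕ
  bits : List Bool

/-- numerical side conditions. -/
def sideC (B : ℕ) (PL LL : List ℕ) (c : CertB) : Bool :=
  match Nat.beq (1728 * c.iv % c.l) 1, Nat.blt (8 * (nS c.w + 1) * (c.l * c.l)) B, ltL c.l c.cs,
    ltL c.l c.ps, Nat.ble c.ps.length (nS c.w), Nat.beq (c.w % 2) 0, memB c.l LL with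
  | true, true, true, true, true, true, true =>
    match c.ps with
    | [] => false
    | [_] => true
    | _ => match memB c.s PL with
      | true => irrP B c.l c.ps c.gs c.us c.s c.bits
      | false => false
  | _, _, _, _, _, _, _ => false

/-- the complete check. -/
def certP (B : ℕ) (PL LL : List ℕ) (c : CertB) : Bool :=
  match sideC B PL LL c with
  | true => baseP B c.l c.w c.iv c.cs c.ps
  | false => false

/-- all certificates of a list. -/
def allC (B : ℕ) (PL LL : List ℕ) (L : List CertB) : Bool :=
  List.rec (motive := fun _ => Bool) true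
    (fun c _ ih => match certP B PL LL c with | true => ih | false => false) L

end MP0f16e1
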