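import Pool.Agent.Work.MP_0f16e1_nt.Dl

/-! # Module `Basis` : triangular basis of `SF R k`, `MF R k`

PROOF.  `dl = X * unit-ish` (`dl_coeff_zero`, `dl_coeff_one`), `e4`, `e6` have constant term `1`, so
`mono R j a b` has `coeff i = 0` for `i < j` and `coeff j = 1` (write `dl = X * d'` with `d'` of
constant term `1`; `PowerSeries.coeff_X_pow_mul'`).  Reduction `e6^2 = e4^3 - 1728 dl`: by induction
on `b`, `mono R j a (b+2) = mono R j (a+3) b - 1728 • mono R (j+1) a b`, so every generator of weight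
`k` is a combination of generators with `b ≤ 1`; for `k` even `b ≤ 1` and `12j+4a+6b = k` force
`b = k/2 % 2` and `a = (k-12j-6b)/4` (omega), `1 ≤ j ≤ nS k`.  This gives `SF_repr` (for `k` odd there
is no generator, `SF R k = ⊥`).  `SF_ext`: in `f = ∑ c_j g_j` the coefficients `c_1, c_2, ...` vanish
one after the other (triangularity).  `SF_sat`: if `f.map φ = ∑ c_j g R' k j` then by triangularity
`c_j ∈ range φ` one after the other: `c_j = coeff j (f.map φ) - ∑_{i<j} c_i coeff j (g R' k i)`,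
so `c_j = φ b_j`, and `f = ∑ b_j g R k j` by injectivity (`g R' k j = (g R k j).map φ`).
`SF_lift`: lift the coefficients `c_j` (or `Submodule.span_induction`).  `MF`: same with `j ≥ 0`
(for `k = 2` there is no generator). -/

open PowerSeries

namespace MP0f16e1

variable (R : Type*) [CommRing R]

theorem Basis_toR_mul (f h : PowerSeries ℤ) : toR R (f * h) = toR R f * toR R h := by
  unfold toR; rw [map_mul]

theorem Basis_map_toR {R R' : Type*} [CommRing R] [CommRing R'] (φ : R →+* R')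
    (f : PowerSeries ℤ) : (toR R f).map φ = toR R' f := by
  ext n
  unfold toR
  simp

theorem Basis_coeff_toR (f : PowerSeries ℤ) (n : ℕ) : coeff n (toR R f) = ((coeff n f : ℤ) : R) := by
  unfold toR
  simp

theorem mono_map {R R' : Type*} [CommRing R] [CommRing R'] (φ : R →+* R') (j a b : ℕ) :
    (mono R j a b).map φ = mono R' j a b := Basis_map_toR φ _

theorem g_map {R R' : Type*} [CommRing R] [CommRing R'] (φ : R →+* R') (k j : ℕ) :
    (g R k j).map φ = g R' k j := mono_map φ _ _ _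

private lemma Basis_dl : ∃ d : PowerSeries ℤ, dl = X * d ∧ constantCoeff d = 1 := by
  have h0 : constantCoeff dl = 0 := by
    rw [← coeff_zero_eq_constantCoeff_apply]; exact dl_coeff_zero
  obtain ⟨d, hd⟩ := X_dvd_iff.2 h0
  refine ⟨d, hd, ?_⟩
  have h := dl_coeff_one
  rw [hd, show (1 : ℕ) = 0 + 1 from rfl, coeff_succ_X_mul] at h
  rw [← coeff_zero_eq_constantCoeff_apply]
  exact h

private lemma Basis_form (j a b : ℕ) : ∃ u : PowerSeries ℤ,
    dl ^ j * e4 ^ a * e6 ^ b = X ^ j * u ∧ constantCoeff u = 1 := by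
  obtain ⟨d, hd, hd1⟩ := Basis_dl
  refine ⟨d ^ j * e4 ^ a * e6 ^ b, ?_, ?_⟩
  · rw [hd]; ring
  · have h4 : constantCoeff e4 = 1 := by
      rw [← coeff_zero_eq_constantCoeff_apply]; exact e4_coeff_zero
    have h6 : constantCoeff e6 = 1 := by
      rw [← coeff_zero_eq_constantCoeff_apply]; exact e6_coeff_zero
    simp [hd1, h4, h6]

theorem Basis_mono_lt {j i : ℕ} (a b : ℕ) (h : i < j) : coeff i (mono R j a b) = 0 := by
  unfold mono
  obtain ⟨u, hu, -⟩ := Basis_form j a b
  rw [Basis_coeff_toR, hu, coeff_X_pow_mul', if_neg (by omega)]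
  simp

theorem Basis_mono_self (j a b : ℕ) : coeff j (mono R j a b) = 1 := by
  unfold mono
  obtain ⟨u, hu, hu1⟩ := Basis_form j a b
  rw [Basis_coeff_toR, hu, coeff_X_pow_mul', if_pos le_rfl, Nat.sub_self,
    coeff_zero_eq_constantCoeff_apply, hu1]
  simp

theorem g_coeff_lt {k j i : ℕ} (h : i < j) : coeff i (g R k j) = 0 := Basis_mono_lt R _ _ h

theorem g_coeff_self (k j : ℕ) : coeff j (g R k j) = 1 := Basis_mono_self R _ _ _

theorem Basis_arith {k j : ℕ} (hk : Even k) (hj : j ≤ nS k) (h6 : 6 * (k / 2 % 2) ≤ k) :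
    12 * j + 4 * ((k - 12 * j - 6 * (k / 2 % 2)) / 4) + 6 * (k / 2 % 2) = k := by
  obtain ⟨m, rfl⟩ := hk
  unfold nS at hj
  omega

theorem g_mem {k j : ℕ} (hk : Even k) (h1 : 1 ≤ j) (hj : j ≤ nS k) : g R k j ∈ SF R k := by
  apply Submodule.subset_span
  refine ⟨j, _, _, h1, Basis_arith hk hj ?_, rfl⟩
  unfold nS at hj
  omega

theorem Basis_mono_red (j a b : ℕ) :
    mono R j a (b + 2) = mono R j (a + 3) b - (1728 : R) • mono R (j + 1) a b := by
  have h : dl ^ j * e4 ^ a * e6 ^ (b + 2) =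
      dl ^ j * e4 ^ (a + 3) * e6 ^ b - 1728 * (dl ^ (j + 1) * e4 ^ a * e6 ^ b) := by
    linear_combination (dl ^ j * e4 ^ a * e6 ^ b) * dl_spec
  unfold mono
  rw [h]
  ext n
  rw [map_sub, Basis_coeff_toR, map_sub, coeff_smul, Basis_coeff_toR, Basis_coeff_toR,
    show (1728 : PowerSeries ℤ) = C (1728 : ℤ) from rfl, coeff_C_mul]
  push_cast
  rfl

theorem Basis_red (k j0 : ℕ) : ∀ b a j, j0 ≤ j → 12 * j + 4 * a + 6 * b = k →
    mono R j a b ∈ Submodule.span R (g R k '' (Finset.Icc j0 (nS k) : Finset ℕ)) := by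
  intro b
  induction b using Nat.strong_induction_on with
  | _ b ih =>
  intro a j hj hk
  rcases Nat.lt_or_ge b 2 with hb | hb
  · apply Submodule.subset_span
    have h1 : k / 2 % 2 = b := by omega
    refine ⟨j, ?_, ?_⟩
    · rw [Finset.coe_Icc, Set.mem_Icc]
      refine ⟨hj, ?_⟩
      unfold nS
      rw [h1]
      omega
    · unfold g
      have h2 : (k - 12 * j - 6 * (k / 2 % 2)) / 4 = a := by rw [h1]; omega
      rw [h2, h1]
  · obtain ⟨c, rfl⟩ : ∃ c, b = c + 2 := ⟨b - 2, by omega⟩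
    rw [Basis_mono_red]
    apply Submodule.sub_mem
    · exact ih c (by omega) (a + 3) j hj (by omega)
    · exact Submodule.smul_mem _ _ (ih c (by omega) a (j + 1) (by omega) (by omega))

theorem Basis_repr {k j0 : ℕ} {f : PowerSeries R}
    (hf : f ∈ Submodule.span R {f | ∃ j a b : ℕ, j0 ≤ j ∧ 12 * j + 4 * a + 6 * b = k ∧
      f = mono R j a b}) :
    ∃ c : ℕ → R, f = ∑ j ∈ Finset.Icc j0 (nS k), c j • g R k j := by
  have h1 : Submodule.span R {f | ∃ j a b : ℕ, j0 ≤ j ∧ 12 * j + 4 * a + 6 * b = k ∧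
      f = mono R j a b} ≤ Submodule.span R (g R k '' (Finset.Icc j0 (nS k) : Finset ℕ)) := by
    rw [Submodule.span_le]
    rintro f ⟨j, a, b, hj, hk, rfl⟩
    exact Basis_red R k j0 b a j hj hk
  have h2 := h1 hf
  clear hf h1
  induction h2 using Submodule.span_induction with
  | mem f hf =>
    obtain ⟨j, hj, rfl⟩ := hf
    refine ⟨fun i => if i = j then 1 else 0, ?_⟩
    rw [Finset.sum_eq_single j]
    · simp
    · intro i _ hij
      simp [hij]
    · intro h
      exact absurd (by simpa using hj) h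
  | zero => exact ⟨0, by simp⟩
  | add f h _ _ hf hh =>
    obtain ⟨c, hc⟩ := hf
    obtain ⟨d, hd⟩ := hh
    refine ⟨c + d, ?_⟩
    rw [hc, hd, ← Finset.sum_add_distrib]
    apply Finset.sum_congr rfl
    intro j _
    rw [Pi.add_apply, add_smul]
  | smul r f _ hf =>
    obtain ⟨c, hc⟩ := hf
    refine ⟨r • c, ?_⟩
    rw [hc, Finset.smul_sum]
    apply Finset.sum_congr rfl
    intro j _
    rw [Pi.smul_apply, smul_eq_mul, mul_smul]

theorem Basis_tri {k j0 n : ℕ} {c : ℕ → R} (h : ∀ i, j0 ≤ i → i ≤ n →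
    coeff i (∑ j ∈ Finset.Icc j0 n, c j • g R k j) = 0) : ∀ i, j0 ≤ i → i ≤ n → c i = 0 := by
  intro i
  induction i using Nat.strong_induction_on with
  | _ i ih =>
  intro h1 h2
  have h3 := h i h1 h2
  rw [map_sum, Finset.sum_eq_single i] at h3
  · rw [coeff_smul, g_coeff_self, smul_eq_mul, mul_one] at h3
    exact h3
  · intro j hj hji
    rw [Finset.mem_Icc] at hj
    rcases Nat.lt_or_ge j i with h4 | h4
    · rw [ih j h4 hj.1 hj.2]; simp
    · rw [coeff_smul, g_coeff_lt R (by omega), smul_zero]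
  · intro h4
    exact absurd (Finset.mem_Icc.2 ⟨h1, h2⟩) h4

theorem Basis_sat {R R' : Type*} [CommRing R] [CommRing R'] (φ : R →+* R')
    (hφ : Function.Injective φ) {k j0 n : ℕ} {f : PowerSeries R} {c : ℕ → R'}
    (hf : f.map φ = ∑ j ∈ Finset.Icc j0 n, c j • g R' k j) :
    ∃ b : ℕ → R, f = ∑ j ∈ Finset.Icc j0 n, b j • g R k j := by
  have h1 : ∀ i, j0 ≤ i → i ≤ n → ∃ b : R, φ b = c i := by
    intro i
    induction i using Nat.strong_induction_on with
    | _ i ih =>
    intro h1 h2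
    have h3 : coeff i (f.map φ) = ∑ j ∈ Finset.Icc j0 n, c j * coeff i (g R' k j) := by
      rw [hf, map_sum]
      simp only [coeff_smul, smul_eq_mul]
    have h4 : ∑ j ∈ Finset.Icc j0 n, c j * coeff i (g R' k j) =
        c i + ∑ j ∈ (Finset.Icc j0 n).filter (fun j => j < i), c j * coeff i (g R' k j) := by
      rw [← Finset.add_sum_erase _ _ (Finset.mem_Icc.2 ⟨h1, h2⟩), g_coeff_self, mul_one]
      congr 1
      symm
      apply Finset.sum_subset
      · intro j hj
        rw [Finset.mem_filter] at hj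
        rw [Finset.mem_erase]
        exact ⟨by omega, hj.1⟩
      · intro j hj hj'
        rw [Finset.mem_erase] at hj
        rw [Finset.mem_filter, not_and] at hj'
        have h5 := hj' hj.2
        rw [g_coeff_lt R' (by omega), mul_zero]
    have h5 : ∃ s : R, φ s = ∑ j ∈ (Finset.Icc j0 n).filter (fun j => j < i),
        c j * coeff i (g R' k j) := by
      have h6 : ∀ j ∈ (Finset.Icc j0 n).filter (fun j => j < i), ∃ s : R,
          φ s = c j * coeff i (g R' k j) := by
        intro j hj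
        rw [Finset.mem_filter, Finset.mem_Icc] at hj
        obtain ⟨b, hb⟩ := ih j hj.2 hj.1.1 hj.1.2
        refine ⟨b * coeff i (g R k j), ?_⟩
        rw [map_mul, hb, ← coeff_map, g_map]
      choose! s hs using h6
      refine ⟨∑ j ∈ (Finset.Icc j0 n).filter (fun j => j < i), s j, ?_⟩
      rw [map_sum]
      exact Finset.sum_congr rfl hs
    obtain ⟨s, hs⟩ := h5
    refine ⟨coeff i f - s, ?_⟩
    rw [map_sub, hs, ← coeff_map, h3, h4]
    ring
  have h2 : ∀ i, ∃ b : R, i ∈ Finset.Icc j0 n → φ b = c i := by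
    intro i
    by_cases hi : i ∈ Finset.Icc j0 n
    · obtain ⟨b, hb⟩ := h1 i (Finset.mem_Icc.1 hi).1 (Finset.mem_Icc.1 hi).2
      exact ⟨b, fun _ => hb⟩
    · exact ⟨0, fun h => absurd h hi⟩
  choose b hb using h2
  refine ⟨b, ?_⟩
  apply PowerSeries.map_injective φ hφ
  rw [hf, map_sum]
  apply Finset.sum_congr rfl
  intro j hj
  ext i
  rw [coeff_map, coeff_smul, coeff_smul, smul_eq_mul, smul_eq_mul, map_mul, hb j hj, ← g_map φ,
    coeff_map]

theorem SF_repr {k : ℕ} (hk : Even k) {f : PowerSeries R} (hf : f ∈ SF R k) :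
    ∃ c : ℕ → R, f = ∑ j ∈ Finset.Icc 1 (nS k), c j • g R k j := Basis_repr R hf

theorem SF_odd {k : ℕ} (hk : ¬ Even k) : SF R k = ⊥ := by
  unfold SF
  rw [Submodule.span_eq_bot]
  rintro f ⟨j, a, b, -, h, -⟩
  exact absurd ⟨6 * j + 2 * a + 3 * b, by omega⟩ hk

theorem SF_ext {k : ℕ} {f : PowerSeries R} (hf : f ∈ SF R k)
    (h : ∀ i, 1 ≤ i → i ≤ nS k → coeff i f = 0) : f = 0 := by
  obtain ⟨c, rfl⟩ := Basis_repr R hf
  have h1 := Basis_tri R h
  apply Finset.sum_eq_zero
  intro j hj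
  rw [Finset.mem_Icc] at hj
  rw [h1 j hj.1 hj.2, zero_smul]

theorem SF_coeff_zero {k : ℕ} {f : PowerSeries R} (hf : f ∈ SF R k) : coeff 0 f = 0 := by
  obtain ⟨c, rfl⟩ := Basis_repr R hf
  rw [map_sum]
  apply Finset.sum_eq_zero
  intro j hj
  rw [Finset.mem_Icc] at hj
  rw [coeff_smul, g_coeff_lt R (by omega), smul_zero]

theorem SF_map {R R' : Type*} [CommRing R] [CommRing R'] (φ : R →+* R') {k : ℕ}
    {f : PowerSeries R} (hf : f ∈ SF R k) : f.map φ ∈ SF R' k := by
  induction hf using Submodule.span_induction with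
  | mem f hf =>
    obtain ⟨j, a, b, hj, hk, rfl⟩ := hf
    rw [mono_map]
    exact Submodule.subset_span ⟨j, a, b, hj, hk, rfl⟩
  | zero => rw [map_zero]; exact Submodule.zero_mem _
  | add f h _ _ hf hh => rw [map_add]; exact Submodule.add_mem _ hf hh
  | smul c f _ hf =>
    have : (c • f).map φ = φ c • f.map φ := by
      ext n; simp
    rw [this]
    exact Submodule.smul_mem _ _ hf

theorem SF_sat {R R' : Type*} [CommRing R] [CommRing R'] (φ : R →+* R')
    (hφ : Function.Injective φ) {k : ℕ} {f : PowerSeries R} (hf : f.map φ ∈ SF R' k) :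
    f ∈ SF R k := by
  by_cases hk : Even k
  · obtain ⟨c, hc⟩ := Basis_repr R' hf
    obtain ⟨b, hb⟩ := Basis_sat φ hφ hc
    rw [hb]
    apply Submodule.sum_mem
    intro j hj
    rw [Finset.mem_Icc] at hj
    exact Submodule.smul_mem _ _ (g_mem R hk hj.1 hj.2)
  · rw [SF_odd R' hk, Submodule.mem_bot] at hf
    have : f = 0 := by
      apply PowerSeries.map_injective φ hφ
      rw [hf, map_zero]
    rw [this]
    exact Submodule.zero_mem _

theorem SF_lift {R R' : Type*} [CommRing R] [CommRing R'] (φ : R →+* R')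
    (hφ : Function.Surjective φ) {k : ℕ} {f : PowerSeries R'} (hf : f ∈ SF R' k) :
    ∃ F ∈ SF R k, F.map φ = f := by
  induction hf using Submodule.span_induction with
  | mem f hf =>
    obtain ⟨j, a, b, hj, hk, rfl⟩ := hf
    exact ⟨mono R j a b, Submodule.subset_span ⟨j, a, b, hj, hk, rfl⟩, mono_map φ _ _ _⟩
  | zero => exact ⟨0, Submodule.zero_mem _, map_zero _⟩
  | add f h _ _ hf hh =>
    obtain ⟨F, hF, hF'⟩ := hf
    obtain ⟨H, hH, hH'⟩ := hh
    exact ⟨F + H, Submodule.add_mem _ hF hH, by rw [map_add, hF', hH']⟩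
  | smul c f _ hf =>
    obtain ⟨F, hF, hF'⟩ := hf
    obtain ⟨c', rfl⟩ := hφ c
    refine ⟨c' • F, Submodule.smul_mem _ _ hF, ?_⟩
    rw [← hF']
    ext n
    simp

theorem SF_lt {k : ℕ} (hk : k < 12) : SF R k = ⊥ := by
  unfold SF
  rw [Submodule.span_eq_bot]
  rintro f ⟨j, a, b, h1, h, -⟩
  omega

end MP0f16e1
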