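import Pool.Agent.Work.MP_0f16e1_nt.Basis

/-! # Module `BasisM` : `MF R k` and products

PROOF.  As in `Basis` (see its header): reduction `e6^2 = e4^3 - 1728 dl`, so for `k` even `MF R k` is
spanned by the triangular family `mono R j ((k-12j-6b)/4) b = q^j + ...`, `b = k/2 % 2`,
`0 ≤ j ≤ nS k` (`6 b ≤ k`; for `k = 2` and for `k` odd there is no generator, `MF R k = ⊥`).
`MF_sat`, `MF_lift`: as `SF_sat`, `SF_lift`.  Products: `mono R j a b * mono R j' a' b' = mono R (j+j')
(a+a') (b+b')` and `Submodule.span_induction` twice.  `SF_dl`: `mono R (j+1) a b = dl * mono R j a b`. -/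

open PowerSeries

namespace MP0f16e1

variable (R : Type*) [CommRing R]

private lemma BasisM_repr {k : ℕ} {f : PowerSeries R} (hf : f ∈ MF R k) :
    ∃ c : ℕ → R, f = ∑ j ∈ Finset.Icc 0 (nS k), c j • g R k j := by
  apply Basis_repr R
  have h : {f : PowerSeries R | ∃ j a b : ℕ, 0 ≤ j ∧ 12 * j + 4 * a + 6 * b = k ∧
      f = mono R j a b} = {f | ∃ j a b : ℕ, 12 * j + 4 * a + 6 * b = k ∧ f = mono R j a b} := by
    ext f
    simp
  rw [h]
  exact hf

private lemma BasisM_mem {k : ℕ} (hk : Even k) (h6 : 6 * (k / 2 % 2) ≤ k) {j : ℕ}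
    (hj : j ≤ nS k) : g R k j ∈ MF R k :=
  Submodule.subset_span ⟨j, _, _, Basis_arith hk hj h6, rfl⟩

private lemma BasisM_bot {k : ℕ} (h : ¬ (Even k ∧ 6 * (k / 2 % 2) ≤ k)) : MF R k = ⊥ := by
  unfold MF
  rw [Submodule.span_eq_bot]
  rintro f ⟨j, a, b, h1, -⟩
  exfalso
  apply h
  refine ⟨⟨6 * j + 2 * a + 3 * b, by omega⟩, ?_⟩
  have h2 : k / 2 % 2 = b % 2 := by omega
  rw [h2]
  omega

theorem MF_map {R R' : Type*} [CommRing R] [CommRing R'] (φ : R →+* R') {k : ℕ}
    {f : PowerSeries R} (hf : f ∈ MF R k) : f.map φ ∈ MF R' k := by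
  induction hf using Submodule.span_induction with
  | mem f hf =>
    obtain ⟨j, a, b, hk, rfl⟩ := hf
    rw [mono_map]
    exact Submodule.subset_span ⟨j, a, b, hk, rfl⟩
  | zero => rw [map_zero]; exact Submodule.zero_mem _
  | add f h _ _ hf hh => rw [map_add]; exact Submodule.add_mem _ hf hh
  | smul c f _ hf =>
    have : (c • f).map φ = φ c • f.map φ := by
      ext n; simp
    rw [this]
    exact Submodule.smul_mem _ _ hf

theorem MF_sat {R R' : Type*} [CommRing R] [CommRing R'] (φ : R →+* R')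
    (hφ : Function.Injective φ) {k : ℕ} {f : PowerSeries R} (hf : f.map φ ∈ MF R' k) :
    f ∈ MF R k := by
  by_cases hk : Even k ∧ 6 * (k / 2 % 2) ≤ k
  · obtain ⟨c, hc⟩ := BasisM_repr R' hf
    obtain ⟨b, hb⟩ := Basis_sat φ hφ hc
    rw [hb]
    apply Submodule.sum_mem
    intro j hj
    rw [Finset.mem_Icc] at hj
    exact Submodule.smul_mem _ _ (BasisM_mem R hk.1 hk.2 hj.2)
  · rw [BasisM_bot R' hk, Submodule.mem_bot] at hf
    have : f = 0 := by
      apply PowerSeries.map_injective φ hφ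
      rw [hf, map_zero]
    rw [this]
    exact Submodule.zero_mem _

theorem MF_ext {k : ℕ} {f : PowerSeries R} (hf : f ∈ MF R k)
    (h : ∀ i, i ≤ nS k → coeff i f = 0) : f = 0 := by
  obtain ⟨c, rfl⟩ := BasisM_repr R hf
  have h1 := Basis_tri R (j0 := 0) (fun i _ hi => h i hi)
  apply Finset.sum_eq_zero
  intro j hj
  rw [Finset.mem_Icc] at hj
  rw [h1 j hj.1 hj.2, zero_smul]

theorem MF_lift {R R' : Type*} [CommRing R] [CommRing R'] (φ : R →+* R')
    (hφ : Function.Surjective φ) {k : ℕ} {f : PowerSeries R'} (hf : f ∈ MF R' k) :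
    ∃ F ∈ MF R k, F.map φ = f := by
  induction hf using Submodule.span_induction with
  | mem f hf =>
    obtain ⟨j, a, b, hk, rfl⟩ := hf
    exact ⟨mono R j a b, Submodule.subset_span ⟨j, a, b, hk, rfl⟩, mono_map φ _ _ _⟩
  | zero => exact ⟨0, Submodule.zero_mem _, map_zero _⟩
  | add f h _ _ hf hh =>
    obtain ⟨F, hF, hF'⟩ := hf
    obtain ⟨H, hH, hH'⟩ := hh
    exact ⟨F + H, Submodule.add_mem _ hF hH, by rw [map_add, hF', hH']⟩
  | smul c f _ hf =>
    obtain ⟨F, hF, hF'⟩ := hf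
    obtain ⟨c', rfl⟩ := hφ c
    refine ⟨c' • F, Submodule.smul_mem _ _ hF, ?_⟩
    rw [← hF']
    ext n
    simp

theorem SF_le_MF (k : ℕ) : SF R k ≤ MF R k := by
  apply Submodule.span_mono
  rintro f ⟨j, a, b, -, h, rfl⟩
  exact ⟨j, a, b, h, rfl⟩

theorem BasisM_mono_mul (j a b j' a' b' : ℕ) :
    mono R j a b * mono R j' a' b' = mono R (j + j') (a + a') (b + b') := by
  unfold mono
  rw [← Basis_toR_mul]
  congr 1
  ring

theorem MF_mul {k k' : ℕ} {f f' : PowerSeries R} (hf : f ∈ MF R k) (hf' : f' ∈ MF R k') :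
    f * f' ∈ MF R (k + k') := by
  induction hf using Submodule.span_induction with
  | mem f hf =>
    obtain ⟨j, a, b, hk, rfl⟩ := hf
    induction hf' using Submodule.span_induction with
    | mem f hf =>
      obtain ⟨j', a', b', hk', rfl⟩ := hf
      rw [BasisM_mono_mul]
      exact Submodule.subset_span ⟨_, _, _, by omega, rfl⟩
    | zero => rw [mul_zero]; exact Submodule.zero_mem _
    | add f h _ _ hf hh => rw [mul_add]; exact Submodule.add_mem _ hf hh
    | smul c f _ hf => rw [mul_smul_comm]; exact Submodule.smul_mem _ _ hf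
  | zero => rw [zero_mul]; exact Submodule.zero_mem _
  | add f h _ _ hf hh => rw [add_mul]; exact Submodule.add_mem _ hf hh
  | smul c f _ hf => rw [smul_mul_assoc]; exact Submodule.smul_mem _ _ hf

theorem MF_mul_SF {k k' : ℕ} {f f' : PowerSeries R} (hf : f ∈ MF R k) (hf' : f' ∈ SF R k') :
    f * f' ∈ SF R (k + k') := by
  induction hf using Submodule.span_induction with
  | mem f hf =>
    obtain ⟨j, a, b, hk, rfl⟩ := hf
    induction hf' using Submodule.span_induction with
    | mem f hf =>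
      obtain ⟨j', a', b', hj', hk', rfl⟩ := hf
      rw [BasisM_mono_mul]
      exact Submodule.subset_span ⟨_, _, _, by omega, by omega, rfl⟩
    | zero => rw [mul_zero]; exact Submodule.zero_mem _
    | add f h _ _ hf hh => rw [mul_add]; exact Submodule.add_mem _ hf hh
    | smul c f _ hf => rw [mul_smul_comm]; exact Submodule.smul_mem _ _ hf
  | zero => rw [zero_mul]; exact Submodule.zero_mem _
  | add f h _ _ hf hh => rw [add_mul]; exact Submodule.add_mem _ hf hh
  | smul c f _ hf => rw [smul_mul_assoc]; exact Submodule.smul_mem _ _ hf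

private lemma BasisM_dl : toR R dl = mono R 1 0 0 := by
  unfold mono
  congr 1
  ring

theorem dl_mul {k : ℕ} {f : PowerSeries R} (hf : f ∈ MF R k) : toR R dl * f ∈ SF R (k + 12) := by
  rw [mul_comm]
  apply MF_mul_SF R hf
  rw [BasisM_dl]
  exact Submodule.subset_span ⟨1, 0, 0, le_rfl, rfl, rfl⟩

/-- every cusp form of weight `k + 12` is `Δ` times a form of weight `k`. -/
theorem SF_dl {k : ℕ} {f : PowerSeries R} (hf : f ∈ SF R (k + 12)) :
    ∃ h ∈ MF R k, f = toR R dl * h := by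
  induction hf using Submodule.span_induction with
  | mem f hf =>
    obtain ⟨j, a, b, hj, hk, rfl⟩ := hf
    obtain ⟨i, rfl⟩ : ∃ i, j = i + 1 := ⟨j - 1, by omega⟩
    refine ⟨mono R i a b, Submodule.subset_span ⟨i, a, b, by omega, rfl⟩, ?_⟩
    rw [BasisM_dl, BasisM_mono_mul]
    congr 1
    · ring
    · ring
    · ring
  | zero => exact ⟨0, Submodule.zero_mem _, by rw [mul_zero]⟩
  | add f h _ _ hf hh =>
    obtain ⟨F, hF, rfl⟩ := hf
    obtain ⟨H, hH, rfl⟩ := hh
    exact ⟨F + H, Submodule.add_mem _ hF hH, by rw [mul_add]⟩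
  | smul c f _ hf =>
    obtain ⟨F, hF, rfl⟩ := hf
    exact ⟨c • F, Submodule.smul_mem _ _ hF, by rw [mul_smul_comm]⟩

end MP0f16e1
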