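import Pool.Agent.Work.MP_0f16e1_nt.BridgeX

/-! # Module `Bridge` : Mathlib's level one forms are in `MF ℂ k`, `SF ℂ k`

PROOF.  `form_mem`: strong induction on `k`.  `k = 2`: the space is zero
(`ModularForm.levelOne_weight_two_rank_zero`).  `k ≠ 2` even: there are `a, b` with `4a + 6b = k`
(`b = k/2 % 2`); `G = E₄^a E₆^b` has constant coefficient `1`; `F - a₀(F) G` has constant
coefficient `0`, hence is a cusp form (`toCuspForm`), so it is `0` if `k < 12`
(`CuspForm.rank_eq_zero_of_weight_lt_twelve`) and else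
`qExpansion = qExpansion Δ * qExpansion (form of weight k - 12)`
(`ModularForm.qExpansion_eq_qExpansion_discriminant_mul`), apply the induction hypothesis and
`dl * mono R j a b = mono R (j+1) a b`.
`cusp_mem`: same last step.  `S_eq`: `f ∈ S k ↔ f.map (algebraMap ℚ ℂ) ∈ SF ℂ k ↔ f ∈ SF ℚ k`
(`SF_sat`, `SF_map`). -/

open UpperHalfPlane ModularForm ModularFormClass EisensteinSeries
open scoped MatrixGroups

namespace MP0f16e1

private lemma Bridge_cusp (k : ℕ)
    (ih : ∀ m : ℕ, m + 12 ≤ k → Even m → ∀ F : ModularForm 𝒮ℒ (m : ℤ), qExpansion 1 F ∈ MF ℂ m)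
    (hk : Even k) (F : ModularForm 𝒮ℒ (k : ℤ)) (h0 : (qExpansion 1 F).coeff 0 = 0) :
    qExpansion 1 F ∈ SF ℂ k := by
  rw [ModularForm.qExpansion_eq_qExpansion_discriminant_mul F h0]
  rcases lt_or_ge k 12 with hk12 | hk12
  · have hz : CuspForm.discriminantEquiv (toCuspForm F h0) = 0 :=
      rank_zero_iff_forall_zero.mp (ModularForm.levelOne_neg_weight_rank_zero (by lia)) _
    rw [hz]
    have h1 : qExpansion 1 ((0 : ModularForm 𝒮ℒ ((k : ℤ) - 12)) : ℍ → ℂ) = 0 := qExpansion_zero 1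
    rw [h1, mul_zero]
    exact zero_mem _
  · have he : (k : ℤ) - 12 = ((k - 12 : ℕ) : ℤ) := by lia
    have h1 := ih (k - 12) (by lia) (by grind)
      (ModularForm.mcast he (CuspForm.discriminantEquiv (toCuspForm F h0)) rfl)
    have h2 := dl_mul ℂ h1
    rw [show k - 12 + 12 = k by lia, ← qDelta] at h2
    exact h2

theorem form_mem (k : ℕ) (hk : Even k) (F : ModularForm 𝒮ℒ (k : ℤ)) :
    qExpansion 1 F ∈ MF ℂ k := by
  induction k using Nat.strong_induction_on with
  | _ k ih =>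
    by_cases h2 : k = 2
    · subst h2
      have hz : F = 0 := rank_zero_iff_forall_zero.mp ModularForm.levelOne_weight_two_rank_zero F
      rw [hz]
      have h1 : qExpansion 1 ((0 : ModularForm 𝒮ℒ ((2 : ℕ) : ℤ)) : ℍ → ℂ) = 0 := qExpansion_zero 1
      rw [h1]
      exact zero_mem _
    · have hab : 12 * 0 + 4 * ((k - 6 * (k / 2 % 2)) / 4) + 6 * (k / 2 % 2) = k := by
        obtain ⟨m, hm⟩ := hk
        omega
      have hG : mono ℂ 0 ((k - 6 * (k / 2 % 2)) / 4) (k / 2 % 2) ∈ MF ℂ k :=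
        Submodule.subset_span ⟨0, _, _, hab, rfl⟩
      have hG0 := Basis_mono_self ℂ 0 ((k - 6 * (k / 2 % 2)) / 4) (k / 2 % 2)
      obtain ⟨G, hGq⟩ := exists_form k hG
      rw [← hGq] at hG hG0
      have hq : qExpansion 1 ((F - (qExpansion 1 F).coeff 0 • G : ModularForm 𝒮ℒ (k : ℤ)) : ℍ → ℂ)
          = qExpansion 1 F - (qExpansion 1 F).coeff 0 • qExpansion 1 G := by
        rw [FunLike.coe_sub, ModularForm.qExpansion_sub,
          FunLike.coe_smul, ModularForm.qExpansion_smul]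
        all_goals simp
      have h0 : (qExpansion 1 ((F - (qExpansion 1 F).coeff 0 • G : ModularForm 𝒮ℒ (k : ℤ)) :
          ℍ → ℂ)).coeff 0 = 0 := by
        rw [hq, map_sub, PowerSeries.coeff_smul, hG0, smul_eq_mul, mul_one, sub_self]
      have h3 := Bridge_cusp k (fun m hm he => ih m (by omega) he) hk _ h0
      rw [hq] at h3
      have h4 := (MF ℂ k).add_mem (SF_le_MF ℂ k h3)
        ((MF ℂ k).smul_mem ((qExpansion 1 F).coeff 0) hG)
      rwa [sub_add_cancel] at h4

theorem cusp_mem (k : ℕ) (hk : Even k) (F : CuspForm 𝒮ℒ (k : ℤ)) :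
    qExpansion 1 F ∈ SF ℂ k := by
  rw [show (F : ℍ → ℂ) = discriminant * F.discriminantEquiv from
      (discriminant_mul_discriminantEquiv F).symm, ← CuspForm.coe_discriminant]
  rw [ModularForm.qExpansion_mul_coe one_pos one_mem_strictPeriods_SL _ _]
  rcases lt_or_ge k 12 with hk12 | hk12
  · have hz : CuspForm.discriminantEquiv F = 0 :=
      rank_zero_iff_forall_zero.mp (ModularForm.levelOne_neg_weight_rank_zero (by lia)) _
    rw [hz]
    have h1 : qExpansion 1 ((0 : ModularForm 𝒮ℒ ((k : ℤ) - 12)) : ℍ → ℂ) = 0 := qExpansion_zero 1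
    rw [h1, mul_zero]
    exact zero_mem _
  · have he : (k : ℤ) - 12 = ((k - 12 : ℕ) : ℤ) := by lia
    have h1 := form_mem (k - 12) (by grind)
      (ModularForm.mcast he (CuspForm.discriminantEquiv F) rfl)
    have h2 := dl_mul ℂ h1
    rw [show k - 12 + 12 = k by lia, ← qDelta] at h2
    exact h2

theorem S_eq (k : ℕ) (hk : Even k) : S k = SF ℚ k := by
  ext f
  constructor
  · rintro ⟨F, hF⟩
    have h1 := cusp_mem k hk F
    rw [hF] at h1
    exact SF_sat (algebraMap ℚ ℂ) (algebraMap ℚ ℂ).injective h1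
  · intro hf
    obtain ⟨F, hF⟩ := exists_cusp k (SF_map (algebraMap ℚ ℂ) hf)
    exact ⟨F, hF⟩

end MP0f16e1
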