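import Pool.Agent.Work.MP_0f16e1_nt.Dl

/-! # Module `BridgeE` : `q`-expansions of `E₄`, `E₆`, `Δ` in Mathlib

PROOF.  `EisensteinSeries.E_qExpansion_coeff` with `bernoulli 4 = -1/30`, `bernoulli 6 = 1/42`
(`by decide +kernel`, see `ModularForm.E₄_qExpansion_coeff_one` in
`Mathlib/NumberTheory/ModularForms/LevelOne/DimensionFormula.lean`).  For `Δ` use
`ModularForm.discriminant_eq_E₄_cube_sub_E₆_sq` (or the graded version) and `dl_spec`
(`1728` is invertible in `ℂ⟦X⟧`); the file
`Mathlib/NumberTheory/ModularForms/LevelOne/GradedRing.lean` shows how to compute the `q`-expansion of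
`E₄^3 - E₆^2` (`ModularForm.qExpansion_sub`, `qExpansion_pow`, `one_mem_strictPeriods_SL`). -/

open UpperHalfPlane ModularForm ModularFormClass EisensteinSeries
open scoped MatrixGroups

namespace MP0f16e1

theorem qE4 : qExpansion 1 (E₄ : ℍ → ℂ) = toR ℂ e4 := by
  ext n
  rw [E_qExpansion_coeff _ ⟨2, rfl⟩, show bernoulli 4 = -1 / 30 by decide +kernel]
  simp only [toR, e4, PowerSeries.coeff_map, PowerSeries.coeff_mk]
  split_ifs with h
  · simp
  · norm_num
  
theorem qE6 : qExpansion 1 (E₆ : ℍ → ℂ) = toR ℂ e6 := by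
  ext n
  rw [E_qExpansion_coeff _ ⟨3, rfl⟩, show bernoulli 6 = 1 / 42 by decide +kernel]
  simp only [toR, e6, PowerSeries.coeff_map, PowerSeries.coeff_mk]
  split_ifs with h
  · simp
  · norm_num

theorem qDelta : qExpansion 1 (CuspForm.discriminant : ℍ → ℂ) = toR ℂ dl := by
  let F : ModularForm 𝒮ℒ 12 :=
    ModularForm.mcast (by decide) (E₄.pow 3) - ModularForm.mcast (by decide) (E₆.pow 2)
  have h1 : qExpansion 1 F = qExpansion 1 E₄ ^ 3 - qExpansion 1 E₆ ^ 2 := by
    simp only [F, FunLike.coe_sub, coe_mcast,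
      ModularForm.qExpansion_sub one_pos one_mem_strictPeriods_SL,
      ModularForm.qExpansion_pow one_pos one_mem_strictPeriods_SL]
  have h2 : ((1728 : ℂ) • CuspForm.discriminant : ℍ → ℂ) = F := by
    funext z
    have := discriminant_eq_E₄_cube_sub_E₆_sq z
    simp only [F, Pi.smul_apply, smul_eq_mul, sub_apply, coe_mcast, coe_pow,
      Pi.pow_apply]
    rw [show (CuspForm.discriminant : ℍ → ℂ) z = ModularForm.discriminant z from rfl, this]
    ring
  have h3 := ModularForm.qExpansion_smul one_pos one_mem_strictPeriods_SL (1728 : ℂ)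
      CuspForm.discriminant
  rw [h2, h1, qE4, qE6] at h3
  have h4 : toR ℂ e4 ^ 3 - toR ℂ e6 ^ 2 = (1728 : ℂ) • toR ℂ dl := by
    have h5 : toR ℂ e4 ^ 3 - toR ℂ e6 ^ 2 = toR ℂ (e4 ^ 3 - e6 ^ 2) := by
      unfold toR
      rw [map_sub, map_pow, map_pow]
    have h6 : toR ℂ (1728 * dl) = toR ℂ 1728 * toR ℂ dl := by
      unfold toR
      rw [map_mul]
    have h7 : toR ℂ (1728 : PowerSeries ℤ) = PowerSeries.C (1728 : ℂ) := by
      unfold toR
      rw [map_ofNat, map_ofNat]
    rw [h5, ← dl_spec, h6, h7, PowerSeries.smul_eq_C_mul]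
  rw [h4] at h3
  exact (smul_right_injective _ (by norm_num : (1728 : ℂ) ≠ 0) h3).symm

end MP0f16e1
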