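import Pool.Agent.Work.MP_0f16e1_nt.BasisM
import Pool.Agent.Work.MP_0f16e1_nt.BridgeE

/-! # Module `BridgeX` : Mathlib's level one forms are `MF ℂ k`, `SF ℂ k`

PROOF.  `exists_form`, `exists_cusp`: span induction; the monomial `Δ^j E₄^a E₆^b` is the
`q`-expansion of a modular form (`ModularForm.mul`, `ModularForm.pow`, `CuspForm.mulModularForm`,
`ModularForm.mcast` / `CuspForm.mcast`, `ModularForm.qExpansion_mul`, `qExpansion_pow`), sums and
scalar multiples by `ModularForm.qExpansion_add`, `qExpansion_smul`. -/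

open UpperHalfPlane ModularForm ModularFormClass EisensteinSeries
open scoped MatrixGroups

namespace MP0f16e1

private theorem bx_form (j a b : ℕ) : ∃ F : ModularForm 𝒮ℒ ((j : ℤ) * 12 + a * 4 + b * 6),
    qExpansion 1 F = mono ℂ j a b := by
  refine ⟨(((CuspForm.discriminant : ModularForm 𝒮ℒ 12).pow j).mul (E₄.pow a)).mul (E₆.pow b), ?_⟩
  have h1 : qExpansion 1 ((CuspForm.discriminant : ModularForm 𝒮ℒ 12) : ℍ → ℂ) = toR ℂ dl := qDelta
  rw [ModularForm.qExpansion_mul one_pos one_mem_strictPeriods_SL,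
    ModularForm.qExpansion_mul one_pos one_mem_strictPeriods_SL,
    ModularForm.qExpansion_pow one_pos one_mem_strictPeriods_SL,
    ModularForm.qExpansion_pow one_pos one_mem_strictPeriods_SL,
    ModularForm.qExpansion_pow one_pos one_mem_strictPeriods_SL, h1, qE4, qE6]
  unfold mono toR
  rw [map_mul, map_mul, map_pow, map_pow, map_pow]

private theorem bx_cusp (j a b : ℕ) : ∃ F : CuspForm 𝒮ℒ (12 + ((j : ℤ) * 12 + a * 4 + b * 6)),
    qExpansion 1 F = mono ℂ (j + 1) a b := by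
  obtain ⟨G, hG⟩ := bx_form j a b
  refine ⟨CuspForm.discriminant.mulModularForm G, ?_⟩
  have h1 := ModularForm.qExpansion_mul_coe one_pos one_mem_strictPeriods_SL
    (CuspForm.discriminant) G
  have h2 : ((CuspForm.discriminant.mulModularForm G : CuspForm 𝒮ℒ _) : ℍ → ℂ) =
    (CuspForm.discriminant : ℍ → ℂ) * (G : ℍ → ℂ) := rfl
  rw [h2, h1, hG, qDelta]
  unfold mono toR
  rw [← map_mul]
  congr 1
  ring

theorem exists_form (k : ℕ) {f : PowerSeries ℂ} (hf : f ∈ MF ℂ k) :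
    ∃ F : ModularForm 𝒮ℒ (k : ℤ), qExpansion 1 F = f := by
  induction hf using Submodule.span_induction with
  | mem f hf =>
    obtain ⟨j, a, b, hk, rfl⟩ := hf
    obtain ⟨F, hF⟩ := bx_form j a b
    exact ⟨ModularForm.mcast (by rw [← hk]; push_cast; ring) F, hF⟩
  | zero => exact ⟨0, qExpansion_zero 1⟩
  | add f g _ _ hf hg =>
    obtain ⟨F, rfl⟩ := hf
    obtain ⟨G, rfl⟩ := hg
    exact ⟨F + G, ModularForm.qExpansion_add one_pos one_mem_strictPeriods_SL F G⟩
  | smul c f _ hf =>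
    obtain ⟨F, rfl⟩ := hf
    exact ⟨c • F, ModularForm.qExpansion_smul one_pos one_mem_strictPeriods_SL c F⟩

theorem exists_cusp (k : ℕ) {f : PowerSeries ℂ} (hf : f ∈ SF ℂ k) :
    ∃ F : CuspForm 𝒮ℒ (k : ℤ), qExpansion 1 F = f := by
  induction hf using Submodule.span_induction with
  | mem f hf =>
    obtain ⟨j, a, b, hj, hk, rfl⟩ := hf
    obtain ⟨j, rfl⟩ : ∃ i, j = i + 1 := ⟨j - 1, by omega⟩
    obtain ⟨F, hF⟩ := bx_cusp j a b
    exact ⟨CuspForm.mcast (by rw [← hk]; push_cast; ring) F, hF⟩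
  | zero => exact ⟨0, qExpansion_zero 1⟩
  | add f g _ _ hf hg =>
    obtain ⟨F, rfl⟩ := hf
    obtain ⟨G, rfl⟩ := hg
    exact ⟨F + G, ModularForm.qExpansion_add one_pos one_mem_strictPeriods_SL F G⟩
  | smul c f _ hf =>
    obtain ⟨F, rfl⟩ := hf
    exact ⟨c • F, ModularForm.qExpansion_smul one_pos one_mem_strictPeriods_SL c F⟩

end MP0f16e1
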