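import Pool.Agent.Work.MP_0f16e1_nt.BaseD

/-! # MP_0f16e1_nt : primes of the base certificates -/

namespace MP0f16e1

/-- the auxiliary primes -/
def PLb : List ℕ := [3, 5, 7, 11, 13, 17, 19, 23, 29, 31, 37, 41, 43, 47, 53, 59, 61, 67, 71, 73, 79, 83, 89, 97, 101, 103, 109, 113, 127, 131, 139, 149, 151, 157, 181, 193, 199, 211, 271, 277, 281, 307, 313, 349, 397, 401, 409, 419, 421, 433, 443, 457, 461, 547, 659, 673, 683, 691, 751, 757, 811, 859, 941, 967, 1033, 1061, 1103, 1117, 1151, 1223, 1297, 1301, 1321, 1451, 1553, 1667, 1723, 1783, 1861, 2003, 2143, 2281, 2521, 2689, 2887, 3041, 3109, 3169, 3221, 3329, 3331, 3361, 3637, 4219, 4831, 4861, 5107, 5153, 6211, 6883, 7001, 8741, 8933, 9463, 9551, 10627, 12601, 13921, 14197, 15511, 18089, 19183]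

/-- the primes `l` -/
def LLb : List ℕ := [23, 29, 37, 41, 53, 61, 67, 71, 83, 89, 97, 101, 103, 107, 109, 113, 127, 137, 139, 149, 151, 163, 179, 193, 197, 199, 211, 223, 227, 233, 239, 241, 251, 263, 269, 271, 277, 281, 283, 293, 307, 311, 313, 317, 331, 337, 347, 349, 353, 359, 367, 373, 379, 383, 389, 397, 401, 409, 419, 421, 431, 433, 439, 443, 449, 457, 461, 463, 467, 479, 487, 491, 499, 503, 509, 521, 523, 541, 547, 557, 563, 569, 571, 577, 587, 593, 599, 613, 661, 743, 809, 823]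

end MP0f16e1
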