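import Pool.Agent.Work.MP_0f16e1_nt.Defs

/-! # Module `CBLem` : chain bounds

`CB T U W s`: every monotone sequence of `T`-stable subspaces between `U` and `W` jumps at most `s`
times. -/

open Polynomial

namespace MP0f16e1

variable {F V V' : Type*} [Field F] [AddCommGroup V] [Module F V] [AddCommGroup V'] [Module F V']

theorem CB_self (T : V →ₗ[F] V) (U : Submodule F V) : CB T U U 0 := by
  intro m C hC hT hUW
  have h : ∀ i, C i = U := fun i => le_antisymm (hUW i).2 (hUW i).1
  simp [h]

theorem CB_mono {T : V →ₗ[F] V} {U W : Submodule F V} {s t : ℕ} (h : CB T U W s) (hst : s ≤ t) :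
    CB T U W t := fun m C h1 h2 h3 => (h m C h1 h2 h3).trans hst

theorem CB_add {T : V →ₗ[F] V} {U W X : Submodule F V} {s t : ℕ} (hUW : U ≤ W) (hWX : W ≤ X)
    (hW : ∀ x ∈ W, T x ∈ W) (h1 : CB T U W s) (h2 : CB T W X t) : CB T U X (s + t) := by
  intro m C hC hT hUX
  classical
  have hA := h1 m (fun i => C i ⊓ W) (fun i j hij => inf_le_inf_right _ (hC hij))
    (fun i x hx => ⟨hT i x hx.1, hW x hx.2⟩) (fun i => ⟨le_inf (hUX i).1 hUW, inf_le_right⟩)
  have hB := h2 m (fun i => C i ⊔ W) (fun i j hij => sup_le_sup_right (hC hij) _)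
    (by
      intro i x hx
      obtain ⟨y, hy, z, hz, rfl⟩ := Submodule.mem_sup.1 hx
      rw [map_add]
      exact Submodule.add_mem_sup (hT i y hy) (hW z hz))
    (fun i => ⟨le_sup_right, sup_le (hUX i).2 hWX⟩)
  calc ((Finset.range m).filter fun i => C i ≠ C (i + 1)).card
      ≤ (((Finset.range m).filter fun i => C i ⊓ W ≠ C (i + 1) ⊓ W) ∪
          ((Finset.range m).filter fun i => C i ⊔ W ≠ C (i + 1) ⊔ W)).card := by
        apply Finset.card_le_card
        intro i hi
        rw [Finset.mem_filter] at hi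
        rw [Finset.mem_union, Finset.mem_filter, Finset.mem_filter]
        by_contra hcon
        push Not at hcon
        have e1 := hcon.1 hi.1
        have e2 := hcon.2 hi.1
        exact hi.2 (eq_of_le_of_inf_le_of_sup_le (hC (Nat.le_succ i)) e1.ge e2.ge)
    _ ≤ _ := (Finset.card_union_le _ _).trans (Nat.add_le_add hA hB)

theorem CB_dim {T : V →ₗ[F] V} {U W : Submodule F V} {s : ℕ} (v : Fin s → V)
    (h : W ≤ U ⊔ Submodule.span F (Set.range v)) : CB T U W s := by
  intro m C hC hT hUW
  classical
  -- dimensions in the quotient by `U`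
  let D : ℕ → Submodule F (V ⧸ U) := fun i => (C i).map U.mkQ
  let Y : Submodule F (V ⧸ U) := Submodule.span F (Set.range fun i => U.mkQ (v i))
  have hDY : ∀ i, D i ≤ Y := by
    intro i
    have : D i ≤ (U ⊔ Submodule.span F (Set.range v)).map U.mkQ :=
      Submodule.map_mono ((hUW i).2.trans h)
    refine this.trans ?_
    rw [Submodule.map_sup, Submodule.mkQ_map_self, bot_sup_eq, Submodule.map_span]
    apply Submodule.span_mono
    rintro _ ⟨_, ⟨j, rfl⟩, rfl⟩
    exact ⟨j, rfl⟩
  have hfY : Module.Finite F Y := by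
    apply Module.Finite.span_of_finite
    exact Set.finite_range _
  have hYs : Module.finrank F Y ≤ s := by
    have h1 := finrank_range_le_card (R := F) (fun i => U.mkQ (v i))
    rw [Fintype.card_fin] at h1
    exact h1
  have hfin : ∀ i, Module.Finite F (D i) := fun i =>
    Submodule.finiteDimensional_of_le (hDY i)
  have hDs : ∀ i, Module.finrank F (D i) ≤ s := fun i =>
    (Submodule.finrank_mono (hDY i)).trans hYs
  have hDinj : ∀ i, D i = D (i + 1) → C i = C (i + 1) := by
    intro i hi
    have h1 : (D i).comap U.mkQ = C i := by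
      simp only [D]
      rw [Submodule.comap_map_mkQ]
      exact sup_eq_right.2 (hUW i).1
    have h2 : (D (i + 1)).comap U.mkQ = C (i + 1) := by
      simp only [D]
      rw [Submodule.comap_map_mkQ]
      exact sup_eq_right.2 (hUW (i + 1)).1
    rw [← h1, ← h2, hi]
  have hDmono : Monotone D := fun i j hij => Submodule.map_mono (hC hij)
  have key : ∀ n, ((Finset.range n).filter fun i => C i ≠ C (i + 1)).card
      ≤ Module.finrank F (D n) := by
    intro n
    induction n with
    | zero => simp
    | succ n ih =>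
      have := hfin (n + 1)
      have := hfin n
      rw [Finset.range_add_one, Finset.filter_insert]
      split_ifs with hn
      · rw [Finset.card_insert_of_notMem (by simp)]
        have hlt : D n < D (n + 1) :=
          lt_of_le_of_ne (hDmono (Nat.le_succ n)) fun e => hn (hDinj n e)
        have := Submodule.finrank_lt_finrank_of_lt hlt
        omega
      · exact ih.trans (Submodule.finrank_mono (hDmono (Nat.le_succ n)))
  exact (key m).trans (hDs m)

theorem CB_cyc {T : V →ₗ[F] V} {U W : Submodule F V} (hU : ∀ x ∈ U, T x ∈ U) {v : V}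
    (p : F[X]) (hp : Irreducible p) (hv : aeval T p v ∈ U)
    (hW : W ≤ U ⊔ Submodule.span F (Set.range fun i : ℕ => (T ^ i) v)) : CB T U W 1 := by
  classical
  -- stable subspaces are stable under polynomials in `T`
  have hst : ∀ (C : Submodule F V), (∀ x ∈ C, T x ∈ C) → ∀ (q : F[X]), ∀ x ∈ C, aeval T q x ∈ C := by
    intro C hC q x hx
    induction q using Polynomial.induction_on' with
    | add a b ha hb =>
      rw [map_add, LinearMap.add_apply]
      exact C.add_mem ha hb
    | monomial n a =>
      rw [aeval_monomial]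
      have : ∀ n : ℕ, (T ^ n) x ∈ C := by
        intro n
        induction n with
        | zero => simpa using hx
        | succ n ih =>
          rw [pow_succ', Module.End.mul_apply]
          exact hC _ ih
      have h2 : (algebraMap F (Module.End F V) a * T ^ n) x = a • (T ^ n) x := by
        simp [Module.End.mul_apply, Module.algebraMap_end_apply]
      rw [h2]
      exact C.smul_mem _ (this n)
  -- elements of `W`
  have hrep : ∀ x ∈ W, ∃ u ∈ U, ∃ q : F[X], x = u + aeval T q v := by
    intro x hx
    obtain ⟨u, hu, y, hy, rfl⟩ := Submodule.mem_sup.1 (hW hx)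
    refine ⟨u, hu, ?_⟩
    have : ∃ q : F[X], aeval T q v = y := by
      refine Submodule.span_induction (p := fun y _ => ∃ q : F[X], aeval T q v = y) ?_ ?_ ?_ ?_ hy
      · rintro _ ⟨i, rfl⟩
        exact ⟨X ^ i, by simp⟩
      · exact ⟨0, by simp⟩
      · rintro a b _ _ ⟨q, rfl⟩ ⟨r, rfl⟩
        exact ⟨q + r, by simp⟩
      · rintro c a _ ⟨q, rfl⟩
        exact ⟨c • q, by simp⟩
    obtain ⟨q, hq⟩ := this
    exact ⟨q, by rw [hq]⟩
  -- a stable `C` between is `U` or contains `W`
  have hdich : ∀ C : Submodule F V, (∀ x ∈ C, T x ∈ C) → U ≤ C → C ≤ W → C = U ∨ C = W := by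
    intro C hC hUC hCW
    by_cases hCU : C ≤ U
    · exact Or.inl (le_antisymm hCU hUC)
    · right
      refine le_antisymm hCW ?_
      obtain ⟨x, hxC, hxU⟩ := Set.not_subset.1 hCU
      obtain ⟨u, hu, q, rfl⟩ := hrep x (hCW hxC)
      have hqC : aeval T q v ∈ C := by
        have := C.sub_mem hxC (hUC hu)
        simpa using this
      have hndvd : ¬ p ∣ q := by
        rintro ⟨r, rfl⟩
        apply hxU
        refine U.add_mem hu ?_
        rw [mul_comm, map_mul, Module.End.mul_apply]
        exact hst U hU r _ hv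
      have hcop : IsCoprime p q := (hp.coprime_iff_not_dvd).2 hndvd
      obtain ⟨a, b, hab⟩ := hcop
      have hvC : v ∈ C := by
        have h1 : aeval T (a * p + b * q) v = v := by
          rw [hab]
          simp
        rw [← h1, map_add, map_mul, map_mul, LinearMap.add_apply, Module.End.mul_apply,
          Module.End.mul_apply]
        exact C.add_mem (hst C hC a _ (hUC hv)) (hst C hC b _ hqC)
      refine hW.trans (sup_le hUC (Submodule.span_le.2 ?_))
      rintro _ ⟨i, rfl⟩
      have := hst C hC (X ^ i) v hvC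
      simpa using this
  intro m C hC hT hUW
  rw [Finset.card_le_one]
  intro i hi j hj
  rw [Finset.mem_filter] at hi hj
  have hjump : ∀ i, C i ≠ C (i + 1) → C i = U ∧ C (i + 1) = W := by
    intro i hi
    rcases hdich (C i) (hT i) (hUW i).1 (hUW i).2 with h1 | h1
    · refine ⟨h1, ?_⟩
      rcases hdich (C (i + 1)) (hT _) (hUW _).1 (hUW _).2 with h2 | h2
      · exact absurd (h1.trans h2.symm) hi
      · exact h2
    · exfalso
      apply hi
      refine le_antisymm (hC (Nat.le_succ i)) ?_
      rw [h1]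
      exact (hUW _).2
  have hlt : ∀ i j, i < j → C i ≠ C (i + 1) → C j ≠ C (j + 1) → False := by
    intro i j hij hi hj
    have e1 := (hjump i hi).2
    have e2 := (hjump j hj).1
    have h3 : C (i + 1) ≤ C j := hC hij
    rw [e1, e2] at h3
    have hUW' : U = W := le_antisymm ((hUW i).1.trans (hUW i).2) h3
    apply hi
    rw [(hjump i hi).1, e1, hUW']
  rcases lt_trichotomy i j with h | h | h
  · exact (hlt i j h hi.2 hj.2).elim
  · exact h
  · exact (hlt j i h hj.2 hi.2).elim

theorem CB_push {T : V →ₗ[F] V} {T' : V' →ₗ[F] V'} {U W : Submodule F V} {U' W' : Submodule F V'}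
    (φ : V →ₗ[F] V') (c : F) (hc : c ≠ 0) (hUW : U ≤ W) (hTW : ∀ x ∈ W, T x ∈ W)
    (hφU : ∀ x ∈ U, φ x ∈ U') (hW' : W' ≤ W.map φ ⊔ U') (hT : ∀ x ∈ W, T' (φ x) - c • φ (T x) ∈ U')
    {s : ℕ} (h : CB T U W s) : CB T' U' W' s := by
  intro m C hC hTC hUC
  have key := h m (fun i => (C i).comap φ ⊓ W)
    (fun i j hij => inf_le_inf_right _ (Submodule.comap_mono (hC hij)))
    (by
      intro i x hx
      refine ⟨?_, hTW x hx.2⟩
      have h1 : T' (φ x) ∈ C i := hTC i _ hx.1
      have h2 : T' (φ x) - c • φ (T x) ∈ C i := (hUC i).1 (hT x hx.2)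
      have h3 : c • φ (T x) ∈ C i := by
        have := (C i).sub_mem h1 h2
        simpa using this
      show φ (T x) ∈ C i
      have := (C i).smul_mem c⁻¹ h3
      rwa [smul_smul, inv_mul_cancel₀ hc, one_smul] at this)
    (fun i => ⟨le_inf (fun x hx => (hUC i).1 (hφU x hx)) hUW, inf_le_right⟩)
  refine le_trans (Finset.card_le_card ?_) key
  intro i hi
  rw [Finset.mem_filter] at hi ⊢
  refine ⟨hi.1, fun e => hi.2 ?_⟩
  have hrec : ∀ i, C i = ((C i).comap φ ⊓ W).map φ ⊔ U' := by
    intro i
    apply le_antisymm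
    · intro y hy
      obtain ⟨z, hz, u, hu, rfl⟩ := Submodule.mem_sup.1 (hW' ((hUC i).2 hy))
      obtain ⟨x, hx, rfl⟩ := hz
      refine Submodule.add_mem_sup ⟨x, ⟨?_, hx⟩, rfl⟩ hu
      show φ x ∈ C i
      have := (C i).sub_mem hy ((hUC i).1 hu)
      simpa using this
    · refine sup_le ?_ (hUC i).1
      rintro _ ⟨x, hx, rfl⟩
      exact hx.1
  rw [hrec i, hrec (i + 1)]
  exact congrArg (fun Z => Submodule.map φ Z ⊔ U') e

end MP0f16e1
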