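import Pool.Agent.Work.MP_0f16e1_nt.BaseD

/-! # MP_0f16e1_nt : two base certificates of large degree -/

namespace MP0f16e1

set_option maxRecDepth 100000

def cx50 : List CertB := [
  ⟨631, 612, 348, [1,489,46,28,78,192,283,203,310,347,342,573,61,343,490,72,148,356,590,607,549,84,222,311,19,66,548,442,165,174,387,385,182,530,70,547,98,207,307,585,609,284,207,250,240,423,281,78,540,209,26],
    [108,149,220,201,295,272,96,383,510,539,584,191,325,189,581,25,506,520,62,379,216,289,273,115,268,531,358,292,150,531,184,164,37,320,545,6,143,408,357,503,354,474,120,541,522,566,10,280,596,217],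
    [104,183,502,207,375,358,476,298,349,500,26,239,103,563,259,230,333,590,189,286,465,376,15,233,541,285,307,449,258,535,416,524,154,503,443,491,196,53,373,605,81,441,92,346,577,442,436,19,136,93],
    [529,491,481,123,170,72,69,250,299,421,287,249,114,64,198,302,433,546,308,430,584,560,396,537,451,284,84,140,89,47,510,309,447,258,380,172,547,490,42,25,337,280,123,567,468,327,462,301,181,383], 151, [true,false,false,true,false,true,true,true]⟩]

theorem cx50_ok : allC 268435459 [151] [631] cx50 = true := by decide +kernel

def cx111 : List CertB := [
  ⟨1381, 1340, 987, [1],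
    [1056,78,775,1018,155,189,910,791,940,211,491,561,610,163,624,1188,1013,201,249,382,1171,438,323,56,1312,820,1006,964,1211,382,888,274,570,227,270,1109,1033,856,1276,8,985,268,503,976,944,239,588,1098,380,194,979,894,620,856,1308,288,75,1079,1290,428,1060,381,254,1149,863,968,1087,77,786,959,168,287,877,423,121,296,689,15,723,1264,183,531,642,720,870,1281,107,255,797,1292,1003,235,890,1103,142,403,381,166,829,677,1155,1060,908,776,4,578,946,395,890,197,1148],
    [277,534,439,246,1133,392,530,226,780,1321,894,1082,218,406,530,152,1042,1039,112,1,1206,326,1215,818,784,607,918,1357,887,279,108,229,932,327,1336,246,683,815,956,488,1220,620,645,716,738,1227,495,284,43,455,586,732,739,1099,1319,583,125,865,356,751,720,168,482,625,874,825,1194,1378,131,83,1124,1346,804,319,318,270,213,668,233,1277,1168,655,1280,732,27,100,239,57,1333,96,685,1069,599,731,363,630,609,1234,216,1379,633,613,140,599,466,86,735,688,1109,258,200],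
    [1004,1096,660,1353,382,511,1280,1191,71,475,676,578,644,1288,720,1213,1051,1373,786,817,1333,1069,1301,493,802,1144,303,908,1107,1125,21,1345,610,678,1066,1268,838,548,708,1017,1231,520,178,310,1222,295,91,364,398,37,1108,848,140,63,1310,986,671,1142,338,544,513,126,679,1273,669,98,1174,687,232,453,545,926,862,1123,21,536,134,1144,102,1164,272,234,1316,463,1185,576,1269,1187,34,1342,728,536,562,165,1327,1129,530,1160,329,1236,525,851,1233,1149,382,80,20,248,969,735,963], 223, [true,true,false,true,true,true,true,true]⟩]

theorem cx111_ok : allC 4294967311 [223] [1381] cx111 = true := by decide +kernel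

end MP0f16e1
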