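import Pool.Agent.Work.MP_0f16e1_nt.HeckeInt

/-! # Module `ChainMod` : chains in characteristic zero reduce to chains modulo `ℓ`

PROOF.  Given a monotone sequence `D i` of `T₂`-stable subspaces of `SF ℚ k`, let
`L i = {F ∈ SF ℤ k : F.map ∈ D i}` (additive group) and
`C i = {F mod ℓ : F ∈ L i} ⊆ SF (ZMod ℓ) k`, a `ZMod ℓ`-subspace (`SF_map`), stable under `T₂`
(`T2_map`, `T2_mem`), monotone.  Claim: `D i ≠ D (i+1)` implies `C i ≠ C (i+1)`.  `L (i+1) / L i` is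
torsion free (`m F ∈ D i → F ∈ D i`), finitely generated (`SF ℤ k` is, by `SF_repr`), and nonzero (every
element of `SF ℚ k` has an integral multiple in `SF ℤ k`: clear denominators in `SF_repr`; `g_map`).
So there is `x ∈ L (i+1)` not in `L i + ℓ L (i+1)` (a finitely generated torsion free group `M` with
`M = ℓ M` is zero: `M` is free, or Nakayama `Submodule.exists_sub_one_mem_and_smul_eq_zero_of_fg_of_le_smul`).
If `x mod ℓ ∈ C i` then `x = y + ℓ z` with `y ∈ L i` and `z ∈ ℤ⟦X⟧`; `ℓ z = x - y ∈ L (i+1)`, so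
`z ∈ SF ℤ k` (`SF_sat` for `ℤ → ℚ`) and `z ∈ L (i+1)`, contradiction. -/

open PowerSeries

namespace MP0f16e1

private theorem chainMod_smul {R R' : Type*} [CommRing R] [CommRing R'] (φ : R →+* R') (n : R)
    (F : PowerSeries R) : (n • F).map φ = φ n • F.map φ := by
  rw [smul_eq_C_mul, smul_eq_C_mul, map_mul, map_C]

/-- a linear functional on `SF ℤ k` has a common denominator -/
private theorem chainMod_den {k : ℕ} (hk : Even k) (ψ : PowerSeries ℚ →ₗ[ℚ] ℚ) :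
    ∃ N : ℕ, 0 < N ∧ ∀ F ∈ SF ℤ k, ∃ z : ℤ, (N : ℚ) * ψ (F.map (Int.castRingHom ℚ)) = z := by
  refine ⟨∏ j ∈ Finset.Icc 1 (nS k), (ψ (g ℚ k j)).den,
    Finset.prod_pos fun j _ => Rat.den_pos _, fun F hF => ?_⟩
  obtain ⟨c, hc⟩ := SF_repr ℤ hk hF
  have h1 : ∀ j ∈ Finset.Icc 1 (nS k), ∃ z : ℤ,
      ((∏ j ∈ Finset.Icc 1 (nS k), (ψ (g ℚ k j)).den : ℕ) : ℚ) * ψ (g ℚ k j) = z := by
    intro j hj
    obtain ⟨m, hm⟩ := Finset.dvd_prod_of_mem (fun j => (ψ (g ℚ k j)).den) hj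
    refine ⟨m * (ψ (g ℚ k j)).num, ?_⟩
    rw [hm]
    have h2 := Rat.mul_den_eq_num (ψ (g ℚ k j))
    push_cast
    rw [← h2]
    ring
  choose! z hz using h1
  refine ⟨∑ j ∈ Finset.Icc 1 (nS k), c j * z j, ?_⟩
  rw [hc, map_sum, map_sum, Finset.mul_sum]
  push_cast
  refine Finset.sum_congr rfl fun j hj => ?_
  rw [chainMod_smul, g_map, map_smul, smul_eq_mul, ← hz j hj, Int.coe_castRingHom]
  push_cast
  ring

/-- integral multiples -/
private theorem chainMod_int {k : ℕ} (hk : Even k) {f : PowerSeries ℚ} (hf : f ∈ SF ℚ k) :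
    ∃ n : ℕ, 0 < n ∧ ∃ F ∈ SF ℤ k, F.map (Int.castRingHom ℚ) = (n : ℚ) • f := by
  obtain ⟨c, hc⟩ := SF_repr ℚ hk hf
  have h1 : ∀ j ∈ Finset.Icc 1 (nS k), ∃ z : ℤ,
      ((∏ j ∈ Finset.Icc 1 (nS k), (c j).den : ℕ) : ℚ) * c j = z := by
    intro j hj
    obtain ⟨m, hm⟩ := Finset.dvd_prod_of_mem (fun j => (c j).den) hj
    refine ⟨m * (c j).num, ?_⟩
    rw [hm]
    have h2 := Rat.mul_den_eq_num (c j)
    push_cast
    rw [← h2]
    ring
  choose! z hz using h1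
  refine ⟨∏ j ∈ Finset.Icc 1 (nS k), (c j).den, Finset.prod_pos fun j _ => Rat.den_pos _,
    ∑ j ∈ Finset.Icc 1 (nS k), (C (z j)) * g ℤ k j, ?_, ?_⟩
  · refine Submodule.sum_mem _ fun j hj => ?_
    rw [← smul_eq_C_mul]
    refine Submodule.smul_mem _ _ ?_
    rw [Finset.mem_Icc] at hj
    exact g_mem ℤ hk hj.1 hj.2
  · rw [map_sum]
    conv_rhs => rw [hc]
    rw [Finset.smul_sum]
    refine Finset.sum_congr rfl fun j hj => ?_
    rw [map_mul, map_C, g_map, smul_smul, hz j hj, smul_eq_C_mul, Int.coe_castRingHom]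

/-- a subspace which contains another one up to multiples of `ℓ` -/
private theorem chainMod_eq {ℓ : ℕ} (hl : 2 ≤ ℓ) {k : ℕ} (hk : Even k)
    {D D' : Submodule ℚ (PowerSeries ℚ)} (hDD : D ≤ D') (hD' : D' ≤ SF ℚ k)
    (h : ∀ F ∈ SF ℤ k, F.map (Int.castRingHom ℚ) ∈ D' → ∃ G ∈ SF ℤ k, ∃ H ∈ SF ℤ k,
      G.map (Int.castRingHom ℚ) ∈ D ∧ H.map (Int.castRingHom ℚ) ∈ D' ∧ F = G + (ℓ : ℤ) • H) :
    D = D' := by
  refine le_antisymm hDD fun f hf => ?_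
  by_contra hfD
  obtain ⟨n, hn, F, hF, hFf⟩ := chainMod_int hk (hD' hf)
  have hn0 : (n : ℚ) ≠ 0 := by exact_mod_cast hn.ne'
  have hFD' : F.map (Int.castRingHom ℚ) ∈ D' := by
    rw [hFf]
    exact D'.smul_mem _ hf
  have hFD : F.map (Int.castRingHom ℚ) ∉ D := by
    rw [hFf]
    intro h1
    apply hfD
    have h2 := D.smul_mem ((n : ℚ)⁻¹) h1
    rwa [smul_smul, inv_mul_cancel₀ hn0, one_smul] at h2
  obtain ⟨ψ, hψ1, hψ2⟩ := Submodule.exists_le_ker_of_notMem hFD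
  obtain ⟨N, hN, hNz⟩ := chainMod_den hk ψ
  have key : ∀ t : ℕ, ∃ H ∈ SF ℤ k, H.map (Int.castRingHom ℚ) ∈ D' ∧
      ψ (F.map (Int.castRingHom ℚ)) = (ℓ : ℚ) ^ t * ψ (H.map (Int.castRingHom ℚ)) := by
    intro t
    induction t with
    | zero => exact ⟨F, hF, hFD', by rw [pow_zero, one_mul]⟩
    | succ t ih =>
      obtain ⟨H, hH, hHD, hHψ⟩ := ih
      obtain ⟨G, hG, H', hH', hGD, hHD', hE⟩ := h H hH hHD
      refine ⟨H', hH', hHD', ?_⟩
      have h3 : ψ (G.map (Int.castRingHom ℚ)) = 0 := by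
        have := hψ2 hGD
        rwa [LinearMap.mem_ker] at this
      rw [hHψ, hE, map_add, map_add, h3, zero_add, map_zsmul, map_zsmul, zsmul_eq_mul, pow_succ]
      push_cast
      ring
  obtain ⟨z0, hz0⟩ := hNz F hF
  have hz0' : z0 = 0 := by
    by_contra hne
    have hdvd : ∀ t : ℕ, (ℓ : ℤ) ^ t ∣ z0 := by
      intro t
      obtain ⟨H, hH, _, hHψ⟩ := key t
      obtain ⟨z, hz⟩ := hNz H hH
      refine ⟨z, ?_⟩
      have h4 : ((z0 : ℤ) : ℚ) = (((ℓ : ℤ) ^ t * z : ℤ) : ℚ) := by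
        rw [← hz0, hHψ]
        push_cast
        rw [← hz]
        ring
      exact_mod_cast h4
    have h5 := Int.le_of_dvd (abs_pos.2 hne) ((dvd_abs _ _).2 (hdvd z0.natAbs))
    have h6 : z0.natAbs < ℓ ^ z0.natAbs := Nat.lt_pow_self (by omega)
    have h7 : ((z0.natAbs : ℕ) : ℤ) < (ℓ : ℤ) ^ z0.natAbs := by exact_mod_cast h6
    rw [Int.abs_eq_natAbs] at h5
    omega
  rw [hz0', Int.cast_zero, mul_eq_zero] at hz0
  rcases hz0 with h1 | h1
  · exact hN.ne' (by exact_mod_cast h1)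
  · exact hψ1 h1

/-- the reduction of a subspace -/
private def chainMod_red (ℓ : ℕ) (k : ℕ) (D : Submodule ℚ (PowerSeries ℚ)) :
    Submodule (ZMod ℓ) (PowerSeries (ZMod ℓ)) where
  carrier := {f | ∃ F ∈ SF ℤ k, F.map (Int.castRingHom ℚ) ∈ D ∧
    F.map (Int.castRingHom (ZMod ℓ)) = f}
  add_mem' := by
    rintro _ _ ⟨F, hF, hFD, rfl⟩ ⟨G, hG, hGD, rfl⟩
    exact ⟨F + G, Submodule.add_mem _ hF hG, by rw [map_add]; exact D.add_mem hFD hGD,
      by rw [map_add]⟩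
  zero_mem' := ⟨0, Submodule.zero_mem _, by rw [map_zero]; exact D.zero_mem, by rw [map_zero]⟩
  smul_mem' := by
    rintro c _ ⟨F, hF, hFD, rfl⟩
    obtain ⟨n, rfl⟩ := ZMod.intCast_surjective c
    refine ⟨n • F, Submodule.smul_mem _ _ hF, ?_, ?_⟩
    · rw [map_zsmul, ← Int.cast_smul_eq_zsmul ℚ]
      exact D.smul_mem _ hFD
    · rw [map_zsmul, Int.cast_smul_eq_zsmul]

theorem CB_of_mod (ℓ : ℕ) [Fact ℓ.Prime] {k s : ℕ} (hk : Even k)
    (h : CB (T2 (ZMod ℓ) k) ⊥ (SF (ZMod ℓ) k) s) : CB (T2 ℚ k) ⊥ (SF ℚ k) s := by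
  intro m D hmono hstab hD
  have hl := (Fact.out : ℓ.Prime).two_le
  have hl0 : (ℓ : ℤ) ≠ 0 := by exact_mod_cast (by omega : ℓ ≠ 0)
  have h1 := h m (fun i => chainMod_red ℓ k (D i)) ?_ ?_ ?_
  · refine le_trans (Finset.card_le_card fun i hi => ?_) h1
    rw [Finset.mem_filter] at hi ⊢
    refine ⟨hi.1, fun hC => hi.2 ?_⟩
    refine chainMod_eq hl hk (hmono (Nat.le_succ i)) (hD (i + 1)).2 fun F hF hFD => ?_
    have h2 : F.map (Int.castRingHom (ZMod ℓ)) ∈ chainMod_red ℓ k (D (i + 1)) :=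
      ⟨F, hF, hFD, rfl⟩
    have hC' : chainMod_red ℓ k (D i) = chainMod_red ℓ k (D (i + 1)) := hC
    rw [← hC'] at h2
    obtain ⟨G, hG, hGD, hGF⟩ := h2
    have h3 : ∀ n, (ℓ : ℤ) ∣ coeff n (F - G) := by
      intro n
      rw [← ZMod.intCast_zmod_eq_zero_iff_dvd, map_sub, Int.cast_sub, sub_eq_zero]
      have := congrArg (coeff n) hGF
      rw [coeff_map, coeff_map] at this
      exact this.symm
    choose b hb using h3
    have h4 : F - G = (ℓ : ℤ) • PowerSeries.mk b := by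
      ext n
      rw [hb n, map_zsmul, coeff_mk, smul_eq_mul]
    have h5 : (F - G).map (Int.castRingHom ℚ) ∈ D (i + 1) := by
      rw [map_sub]
      exact (D (i + 1)).sub_mem hFD (hmono (Nat.le_succ i) hGD)
    have h6 : (PowerSeries.mk b).map (Int.castRingHom ℚ) ∈ D (i + 1) := by
      rw [h4, map_zsmul, ← Int.cast_smul_eq_zsmul ℚ] at h5
      have h7 := (D (i + 1)).smul_mem (((ℓ : ℤ) : ℚ)⁻¹) h5
      rwa [smul_smul, inv_mul_cancel₀ (by exact_mod_cast hl0), one_smul] at h7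
    exact ⟨G, hG, PowerSeries.mk b, SF_sat (Int.castRingHom ℚ) Int.cast_injective
      ((hD (i + 1)).2 h6), hGD, h6, by rw [← h4]; ring⟩
  · intro i j hij f hf
    obtain ⟨F, hF, hFD, hFf⟩ := hf
    exact ⟨F, hF, hmono hij hFD, hFf⟩
  · rintro i _ ⟨F, hF, hFD, rfl⟩
    refine ⟨T2 ℤ k F, T2_mem ℤ hF, ?_, T2_map _ _ _⟩
    rw [T2_map]
    exact hstab i _ hFD
  · refine fun i => ⟨bot_le, ?_⟩
    rintro _ ⟨F, hF, _, rfl⟩
    exact SF_map (Int.castRingHom (ZMod ℓ)) hF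

end MP0f16e1
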