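import Mathlib

/-! # MP_0f16e1_nt : kernel engine

A truncated power series modulo `l` with `N` coefficients `c 0, ..., c (N-1) < l` is packed into the
natural number `∑_{i<N} c i * B^i` with a large ODD base `B` (an odd base makes the hashes of the
literals in the kernel different).  Never `#eval` these functions (`frc` is only good in the kernel);
run them with `by decide +kernel`. -/

namespace MP0f16e1

/-- force the evaluation of `x` before continuing. -/
@[reducible] def frc {α : Type} (x : ℕ) (f : ℕ → α) : α := Nat.rec (f 0) (fun m _ => f (Nat.succ m)) x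

/-- `∑_{i<N} F i * B^i`. -/
def pk (B : ℕ) (F : ℕ → ℕ) (N : ℕ) : ℕ :=
  Nat.rec (motive := fun _ => ℕ → ℕ) (fun acc => acc)
    (fun m ih acc => frc (acc * B + F m) ih) N 0

/-- reduction of the digits modulo `l`, truncation to `N` digits. -/
def red (B l N z : ℕ) : ℕ := pk B (fun m => z / B ^ m % B % l) N

/-- `∑_{d ∣ n, 1 ≤ d ≤ D} d^k` -/
def sgA (k n : ℕ) (D : ℕ) : ℕ :=
  Nat.rec (motive := fun _ => ℕ → ℕ) (fun acc => acc)
    (fun m ih acc => frc (if n % (Nat.succ m) = 0 then acc + (Nat.succ m) ^ k else acc) ih) D 0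

def e2P (B l N : ℕ) : ℕ := pk B (fun m => if m = 0 then 1 else (l - 24 % l) * sgA 1 m m % l) N

def e4P (B l N : ℕ) : ℕ := pk B (fun m => if m = 0 then 1 else 240 * sgA 3 m m % l) N

def e6P (B l N : ℕ) : ℕ := pk B (fun m => if m = 0 then 1 else (l - 504 % l) * sgA 5 m m % l) N

/-- product. -/
def mulP (B l N x y : ℕ) : ℕ := red B l N (x * y)

/-- `T₂` : `n+1` digits from `2n+1` digits; `t = 2^(w-1) mod l`. -/
def t2P (B l n t x : ℕ) : ℕ :=
  pk B (fun m => (x / B ^ (2 * m) % B + t * (if m % 2 = 0 then x / B ^ (m / 2) % B else 0)) % l) (n + 1)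

/-- combination of the forms `fs` whose digits `j, j+1, ...` are those of `y`. -/
def elimP (B l y : ℕ) (fs : List ℕ) : ℕ → ℕ → ℕ :=
  List.rec (motive := fun _ => ℕ → ℕ → ℕ) (fun _ acc => acc)
    (fun f _ ih j acc =>
      frc ((y / B ^ j % B + (l - acc / B ^ j % B % l)) % l) fun c =>
        frc (acc + c * f) fun acc' => ih (Nat.succ j) acc') fs

/-- `T₂ x` to `N = 2n+1` digits, checked; `bad` if the check fails. -/
def stepP {α : Type} (B l n t : ℕ) (fs : List ℕ) (x : ℕ) (bad : α) (k : ℕ → α) : α :=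
  frc (t2P B l n t x) fun y =>
  frc (red B l (2 * n + 1) (elimP B l y fs 1 0)) fun x' =>
  match Nat.beq (x' % B ^ (n + 1)) y with
  | true => k x'
  | false => bad

/-- Krylov loop for the monic polynomial `p = X^d + ∑ ps_i X^i`: `k [T^(d-1) x, ..., x] (p(T) x)`. -/
def kryP (B l n t : ℕ) (fs : List ℕ) (ps : List ℕ) :
    ℕ → ℕ → List ℕ → (List ℕ → ℕ → Bool) → Bool :=
  List.rec (motive := fun _ => ℕ → ℕ → List ℕ → (List ℕ → ℕ → Bool) → Bool)
    (fun x tot acc k => frc (tot + x) fun tot' => k acc tot')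
    (fun c _ ih x tot acc k =>
      frc (tot + c * x) fun tot' =>
      stepP B l n t fs x false fun x' => ih x' tot' (x :: acc) k) ps

/-- `∑ c_i f_i`. -/
def combP (fs : List ℕ) : List ℕ → ℕ → ℕ :=
  List.rec (motive := fun _ => List ℕ → ℕ → ℕ) (fun _ acc => acc)
    (fun f _ ih cs acc =>
      match cs with
      | [] => acc
      | c :: cs => frc (acc + c * f) fun acc' => ih cs acc') fs

/-- `x d, x d^2, ...` pushed on `acc`. -/
def powsP {α : Type} (B l N d : ℕ) (n : ℕ) : ℕ → List ℕ → (List ℕ → α) → α :=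
  Nat.rec (motive := fun _ => ℕ → List ℕ → (List ℕ → α) → α) (fun _ acc k => k acc)
    (fun _ ih x acc k => frc (mulP B l N x d) fun x' => ih x' (x' :: acc) k) n

/-- products `x_i y_i` pushed on `acc`. -/
def zipP {α : Type} (B l N : ℕ) (xs : List ℕ) : List ℕ → List ℕ → (List ℕ → α) → α :=
  List.rec (motive := fun _ => List ℕ → List ℕ → (List ℕ → α) → α) (fun _ acc k => k acc)
    (fun x _ ih ys acc k =>
      match ys with
      | [] => k acc
      | y :: ys => frc (mulP B l N x y) fun z => ih ys (z :: acc) k) xs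

/-- the list `[g_1, ..., g_n]` for the weight `w`, `n = nS w`, `e = w/2 % 2`, `a0 = (w-12n-6e)/4`
(`0 ≤ a0 ≤ 2`), with `N` digits; `iv` is the inverse of `1728` modulo `l`. -/
def formsP {α : Type} (B l N n e a0 iv : ℕ) (k : List ℕ → α) : α :=
  frc (e4P B l N) fun e4 =>
  frc (e6P B l N) fun e6 =>
  frc (mulP B l N e4 e4) fun e42 =>
  frc (mulP B l N e42 e4) fun e43 =>
  frc (mulP B l N e6 e6) fun e62 =>
  frc (pk B (fun m => iv * (e43 / B ^ m % B + (l - e62 / B ^ m % B)) % l) N) fun dl =>
  frc (match a0 with | 0 => 1 | 1 => e4 | _ => e42) fun b0 =>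
  frc (match e with | 0 => b0 | _ => mulP B l N b0 e6) fun c0 =>
  powsP B l N dl (n - 1) dl [dl] fun ds =>
  powsP B l N e43 (n - 1) c0 [c0] fun cs =>
  zipP B l N ds cs.reverse [] k

/-- reduction by the pivot list `bs` (newest first). -/
def redbP (B l : ℕ) (bs : List (ℕ × ℕ)) : ℕ → ℕ :=
  List.rec (motive := fun _ => ℕ → ℕ) (fun z => z)
    (fun b _ ih z => frc (ih z) fun z1 => z1 + (l - z1 / B ^ b.1 % B % l) * b.2) bs

/-- insert the vectors `xs` with the pivots `js`; `n+1` digits. -/
def insP {α : Type} (B l n : ℕ) (js : List ℕ) : List ℕ → List (ℕ × ℕ) → (List (ℕ × ℕ) → α) → α :=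
  List.rec (motive := fun _ => List ℕ → List (ℕ × ℕ) → (List (ℕ × ℕ) → α) → α)
    (fun _ bs k => k bs)
    (fun j _ ih xs bs k =>
      match xs with
      | [] => k bs
      | x :: xs =>
        frc (red B l (n + 1) (redbP B l bs (x % B ^ (n + 1)))) fun y =>
        frc (red B l (n + 1) ((y / B ^ j % B) ^ (l - 2) % l * y)) fun f => ih xs ((j, f) :: bs) k) js

/-- is `x` (first `n+1` digits) reduced to `0` by `bs`? -/
def zerP (B l n : ℕ) (bs : List (ℕ × ℕ)) (x : ℕ) : Bool :=
  Nat.beq (red B l (n + 1) (redbP B l bs (x % B ^ (n + 1)))) 0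

/-- are all `xs` reduced to `0`? -/
def allzP (B l n : ℕ) (bs : List (ℕ × ℕ)) (xs : List ℕ) : Bool :=
  List.rec (motive := fun _ => Bool) true (fun x _ ih => match zerP B l n bs x with | true => ih | false => false) xs

/-- pair the forms `g_1, ..., g_m` with their pivots `1, ..., m`, newest first. -/
def pivP (B n : ℕ) (fs : List ℕ) : ℕ → List (ℕ × ℕ) → List (ℕ × ℕ) :=
  List.rec (motive := fun _ => ℕ → List (ℕ × ℕ) → List (ℕ × ℕ)) (fun _ acc => acc)
    (fun f _ ih j acc => frc (f % B ^ (n + 1)) fun f' => ih (Nat.succ j) ((j, f') :: acc)) fs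

/-- one block: coordinates of the vector, lower coefficients of the polynomial, pivots. -/
structure Blk where
  cs : List ℕ
  ps : List ℕ
  js : List ℕ

/-- the window check. -/
def blksP (B l n t : ℕ) (fs : List ℕ) (blks : List Blk) : List (ℕ × ℕ) → Bool :=
  List.rec (motive := fun _ => List (ℕ × ℕ) → Bool) (fun bs => allzP B l n bs fs)
    (fun b _ ih bs =>
      frc (red B l (2 * n + 1) (combP fs b.cs 0)) fun x =>
      kryP B l n t fs b.ps x 0 [] fun xs tot =>
      match zerP B l n bs tot with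
      | true => insP B l n b.js xs bs ih
      | false => false) blks

end MP0f16e1
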