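import Pool.Agent.Work.MP_0f16e1_nt.Defs
import Pool.Agent.Work.MP_0f16e1_nt.Eng

/-! # MP_0f16e1_nt : the boolean checks -/

namespace MP0f16e1

/-- forms of weight `w` (`nS w ≥ 1`), `N` digits. -/
def formsW {α : Type} (B l N w iv : ℕ) (k : List ℕ → α) : α :=
  frc (nS w) fun n => frc (w / 2 % 2) fun e => frc ((w - 12 * n - 6 * e) / 4) fun a0 =>
  match n with
  | 0 => k []
  | Nat.succ n' => formsP B l N (Nat.succ n') e a0 iv k

/-- check of a base certificate. -/
def baseP (B l w iv : ℕ) (cs ps : List ℕ) : Bool :=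
  frc (nS w) fun n => frc (2 ^ (w - 1) % l) fun t =>
  formsW B l (2 * n + 1) w iv fun fs =>
  frc (red B l (2 * n + 1) (combP fs cs 0)) fun x =>
  match Nat.beq (x / B % B) 1 with
  | false => false
  | true => kryP B l n t fs ps x 0 [] fun _ tot => Nat.beq (red B l (n + 1) tot) 0

/-- check of a window certificate: `SF b / SF d`, `b = d + (l-1)`. -/
def winP (B l b d iv : ℕ) (blks : List Blk) : Bool :=
  frc (nS b) fun n => frc (2 ^ (b - 1) % l) fun t =>
  formsW B l (2 * n + 1) b iv fun fs =>
  formsW B l (n + 1) d iv fun gs =>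
  blksP B l n t fs blks (pivP B n gs 1 [])

/-- check that every cusp form of weight `k` is `f + E₂ h`, weights `k-(l-1)`, `k-(l+1)`. -/
def genP (B l k iv : ℕ) (js : List ℕ) : Bool :=
  frc (nS k) fun n =>
  formsW B l (n + 1) k iv fun fs =>
  formsW B l (n + 1) (k - (l - 1)) iv fun gs =>
  formsW B l (n + 1) (k - (l + 1)) iv fun hs =>
  frc (e2P B l (n + 1)) fun e2 =>
  zipP B l (n + 1) hs (List.replicate n e2) [] fun hs' =>
  insP B l n js hs' (pivP B n gs 1 []) fun bs => allzP B l n bs fs

/-! ## polynomials -/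

/-- `∑ L_i B^i` -/
def packL (B : ℕ) (L : List ℕ) : ℕ → ℕ → ℕ :=
  List.rec (motive := fun _ => ℕ → ℕ → ℕ) (fun acc _ => acc)
    (fun c _ ih acc pw => frc (acc + c * pw) fun acc' => frc (pw * B) fun pw' => ih acc' pw') L

/-- multiplication modulo the monic polynomial packed as `pp` (degree `r`). -/
def mmP (B l r pp x y : ℕ) : ℕ :=
  frc (x * y) fun z =>
  (Nat.rec (motive := fun _ => ℕ → ℕ) (fun z => red B l r z)
    (fun m ih z => frc (z + (l - z / B ^ (r + m) % B % l) * (pp * B ^ m)) ih) (r - 1)) z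

/-- power, bits MSB first. -/
def powP (B l r pp x : ℕ) (bits : List Bool) : ℕ → ℕ :=
  List.rec (motive := fun _ => ℕ → ℕ) (fun acc => acc)
    (fun b _ ih acc => frc (mmP B l r pp acc acc) fun a =>
      match b with
      | true => frc (mmP B l r pp a x) ih
      | false => ih a) bits

/-- value of a list of bits, MSB first. -/
def valB (bits : List Bool) : ℕ → ℕ :=
  List.rec (motive := fun _ => ℕ → ℕ) (fun acc => acc)
    (fun b _ ih acc => ih (match b with | true => 2 * acc + 1 | false => 2 * acc)) bits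

/-- all entries are `< l`. -/
def ltL (l : ℕ) (L : List ℕ) : Bool :=
  List.rec (motive := fun _ => Bool) true (fun c _ ih => match Nat.blt c l with | true => ih | false => false) L

/-- `l^d % s ≠ 1` for `1 ≤ d < r`. -/
def ordP (l s r : ℕ) : Bool :=
  Nat.rec (motive := fun _ => Bool) true
    (fun m ih => match Nat.beq (l ^ (Nat.succ m) % s) 1 with | true => false | false => ih) (r - 1)

/-- irreducibility of `X^r + ∑ ps_i X^i`: `g^s = 1`, `u (g - 1) = 1`, `s` prime, `l` of order at least
`r` modulo `s`. -/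
def irrP (B l : ℕ) (ps gs us : List ℕ) (s : ℕ) (bits : List Bool) : Bool :=
  frc ps.length fun r =>
  frc (packL B ps 0 1 + B ^ r) fun pp =>
  frc (packL B gs 0 1) fun x =>
  frc (packL B us 0 1) fun u =>
  match ltL l ps, ltL l gs, ltL l us, Nat.ble gs.length r, Nat.ble us.length r,
    Nat.beq (valB bits 0) s, ordP l s r with
  | true, true, true, true, true, true, true =>
    frc (powP B l r pp x bits 1) fun a =>
    frc (mmP B l r pp u (red B l r (x + (l - 1)))) fun b =>
    match Nat.beq a 1, Nat.beq b 1 with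
    | true, true => true
    | _, _ => false
  | _, _, _, _, _, _, _ => false

open Polynomial in
/-- `∑ ps_i X^i` -/
noncomputable def lowL (l : ℕ) : List ℕ → (ZMod l)[X]
  | [] => 0
  | c :: ps => C (c : ZMod l) + X * lowL l ps

open Polynomial in
/-- `X^r + ∑ ps_i X^i` -/
noncomputable def ofL (l : ℕ) (ps : List ℕ) : (ZMod l)[X] := X ^ ps.length + lowL l ps

end MP0f16e1
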