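import Pool.Agent.Work.MP_0f16e1_nt.Defs

/-! # Module `Commute` : the Hecke operators commute

PROOF.  `(T_m T_n f)(r) = ∑_{d ∣ (m,r)} ∑_{e ∣ (n, mr/d²)} (de)^(k-1) f(mnr/(de)²)`.  Put `c = de`
and `x = gcd(c,n)/e`.  Then `(d,e) ↦ (c,x)` is a bijection from the index set to the set of the pairs
`(c,x)` with `x c² ∣ gcd(c,m) gcd(c,n) gcd(c,r)`, which is symmetric in `m`, `n`: with
`e x = gcd(c,n)` the condition is `d c ∣ gcd(c,m) gcd(c,r) = gcd(c²,cr,mc,mr)`, i.e. `d ∣ r`, `d ∣ m`,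
`d² e ∣ m r`. -/

namespace MP0f16e1

private theorem dvd_gcd_mul_gcd (a x y z w : ℕ) : a ∣ Nat.gcd x y * Nat.gcd z w ↔
    a ∣ x * z ∧ a ∣ x * w ∧ a ∣ y * z ∧ a ∣ y * w := by
  rw [← Nat.gcd_mul_right, Nat.dvd_gcd_iff, ← Nat.gcd_mul_left, ← Nat.gcd_mul_left,
    Nat.dvd_gcd_iff, Nat.dvd_gcd_iff]
  tauto

private theorem key_iff {c d e m n r x : ℕ} (hc : 0 < c) (hde : d * e = c)
    (hex : e * x = Nat.gcd c n) :
    x * c ^ 2 ∣ Nat.gcd c m * Nat.gcd c n * Nat.gcd c r ↔ d ∣ m ∧ d ∣ r ∧ d ^ 2 * e ∣ m * r := by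
  have hg : 0 < Nat.gcd c n := Nat.gcd_pos_of_pos_left _ hc
  have h1 : x * c ^ 2 = Nat.gcd c n * (d * c) := by
    rw [← hex]
    calc x * c ^ 2 = x * (c * c) := by ring
      _ = x * ((d * e) * c) := by rw [hde]
      _ = e * x * (d * c) := by ring
  have h2 : Nat.gcd c m * Nat.gcd c n * Nat.gcd c r = Nat.gcd c n * (Nat.gcd c m * Nat.gcd c r) := by
    ring
  rw [h1, h2, Nat.mul_dvd_mul_iff_left hg, dvd_gcd_mul_gcd]
  constructor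
  · rintro ⟨-, h4, h5, h6⟩
    refine ⟨?_, ?_, ?_⟩
    · exact Nat.dvd_of_mul_dvd_mul_right hc h5
    · rw [mul_comm c r] at h4
      exact Nat.dvd_of_mul_dvd_mul_right hc h4
    · have : d ^ 2 * e = d * c := by rw [← hde]; ring
      rw [this]; exact h6
  · rintro ⟨h4, h5, h6⟩
    refine ⟨?_, ?_, ?_, ?_⟩
    · exact Nat.mul_dvd_mul_right (Dvd.intro e hde) c
    · rw [mul_comm c r]; exact Nat.mul_dvd_mul_right h5 c
    · exact Nat.mul_dvd_mul_right h4 c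
    · have : d ^ 2 * e = d * c := by rw [← hde]; ring
      rwa [this] at h6

/-- the symmetric index set -/
private def Q (m n r : ℕ) : Finset (ℕ × ℕ) :=
  ((Finset.range (m * n + 1)) ×ˢ (Finset.range (m * n + 1))).filter fun q =>
    0 < q.1 ∧ 0 < q.2 ∧ q.2 * q.1 ^ 2 ∣ Nat.gcd q.1 m * Nat.gcd q.1 n * Nat.gcd q.1 r

private theorem Q_comm (m n r : ℕ) : Q m n r = Q n m r := by
  unfold Q
  rw [mul_comm m n]
  refine Finset.filter_congr fun q _ => ?_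
  rw [mul_comm (Nat.gcd q.1 m) (Nat.gcd q.1 n)]

private theorem mem_Q {m n r : ℕ} (hm : 1 ≤ m) (hn : 1 ≤ n) (q : ℕ × ℕ) :
    q ∈ Q m n r ↔ 0 < q.1 ∧ 0 < q.2 ∧
      q.2 * q.1 ^ 2 ∣ Nat.gcd q.1 m * Nat.gcd q.1 n * Nat.gcd q.1 r := by
  unfold Q
  rw [Finset.mem_filter]
  constructor
  · exact fun h => h.2
  · intro h
    refine ⟨?_, h⟩
    obtain ⟨h1, h2, h3⟩ := h
    have h4 : q.2 * q.1 ^ 2 ∣ (m * n) * q.1 := by
      refine h3.trans ?_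
      exact Nat.mul_dvd_mul (Nat.mul_dvd_mul (Nat.gcd_dvd_right _ _) (Nat.gcd_dvd_right _ _))
        (Nat.gcd_dvd_left _ _)
    have h5 : q.2 * q.1 ∣ m * n := by
      have h6 : q.2 * q.1 ^ 2 = (q.2 * q.1) * q.1 := by ring
      rw [h6] at h4
      exact Nat.dvd_of_mul_dvd_mul_right h1 h4
    have h7 : q.2 * q.1 ≤ m * n := Nat.le_of_dvd (Nat.mul_pos hm hn) h5
    have h8 : q.1 ≤ q.2 * q.1 := Nat.le_mul_of_pos_left _ h2
    have h9 : q.2 ≤ q.2 * q.1 := Nat.le_mul_of_pos_right _ h1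
    rw [Finset.mem_product, Finset.mem_range, Finset.mem_range]
    constructor <;> omega

private theorem hecke_hecke (R : Type*) [CommRing R] (k m n : ℕ) (hm : 1 ≤ m) (hn : 1 ≤ n)
    (f : PowerSeries R) (r : ℕ) : PowerSeries.coeff r (hecke R k m (hecke R k n f)) =
      ∑ q ∈ Q m n r, (q.1 : R) ^ (k - 1) * PowerSeries.coeff (m * n * r / q.1 ^ 2) f := by
  have h1 : ∀ (m : ℕ) (f : PowerSeries R) (r : ℕ), PowerSeries.coeff r (hecke R k m f) =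
      ∑ d ∈ (Nat.gcd m r).divisors, (d : R) ^ (k - 1) * PowerSeries.coeff (m * r / d ^ 2) f := by
    intro m f r
    simp [hecke]
  rw [h1]
  simp only [h1, Finset.mul_sum]
  rw [Finset.sum_sigma']
  have hmem : ∀ p : (_ : ℕ) × ℕ, p ∈ (Nat.gcd m r).divisors.sigma
      (fun d => (Nat.gcd n (m * r / d ^ 2)).divisors) →
      0 < p.1 ∧ 0 < p.2 ∧ p.1 ∣ m ∧ p.1 ∣ r ∧ p.2 ∣ n ∧ p.1 ^ 2 * p.2 ∣ m * r ∧ p.1 ^ 2 ∣ m * r := by
    rintro ⟨d, e⟩ h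
    rw [Finset.mem_sigma] at h
    obtain ⟨h2, h3⟩ := h
    simp only [Nat.mem_divisors] at h2 h3
    have h4 : d ∣ m := h2.1.trans (Nat.gcd_dvd_left _ _)
    have h5 : d ∣ r := h2.1.trans (Nat.gcd_dvd_right _ _)
    have h6 : e ∣ n := h3.1.trans (Nat.gcd_dvd_left _ _)
    have h7 : e ∣ m * r / d ^ 2 := h3.1.trans (Nat.gcd_dvd_right _ _)
    have h8 : d ^ 2 ∣ m * r := by rw [pow_two]; exact Nat.mul_dvd_mul h4 h5
    refine ⟨Nat.pos_of_dvd_of_pos h4 hm, Nat.pos_of_dvd_of_pos h6 hn, h4, h5, h6, ?_, h8⟩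
    exact (Nat.dvd_div_iff_mul_dvd h8).mp h7
  refine Finset.sum_nbij' (fun p => (p.1 * p.2, Nat.gcd (p.1 * p.2) n / p.2))
    (fun q => ⟨q.1 / (Nat.gcd q.1 n / q.2), Nat.gcd q.1 n / q.2⟩) ?_ ?_ ?_ ?_ ?_
  · intro p hp
    obtain ⟨h2, h3, h4, h5, h6, h7, h8⟩ := hmem p hp
    have hc : 0 < p.1 * p.2 := Nat.mul_pos h2 h3
    have h9 : p.2 ∣ Nat.gcd (p.1 * p.2) n := Nat.dvd_gcd (Dvd.intro_left _ rfl) h6
    have h10 : p.2 * (Nat.gcd (p.1 * p.2) n / p.2) = Nat.gcd (p.1 * p.2) n := Nat.mul_div_cancel' h9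
    rw [mem_Q hm hn]
    refine ⟨hc, ?_, ?_⟩
    · exact Nat.div_pos (Nat.le_of_dvd (Nat.gcd_pos_of_pos_left _ hc) h9) h3
    · exact (key_iff hc rfl h10).mpr ⟨h4, h5, h7⟩
  · intro q hq
    rw [mem_Q hm hn] at hq
    obtain ⟨h2, h3, h4⟩ := hq
    have hx : q.2 ∣ Nat.gcd q.1 n := by
      have h5 : q.2 * q.1 ^ 2 ∣ Nat.gcd q.1 n * q.1 ^ 2 := by
        refine h4.trans ?_
        have h6 : Nat.gcd q.1 m * Nat.gcd q.1 n * Nat.gcd q.1 r =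
          Nat.gcd q.1 n * (Nat.gcd q.1 m * Nat.gcd q.1 r) := by ring
        rw [h6, pow_two]
        exact Nat.mul_dvd_mul_left _ (Nat.mul_dvd_mul (Nat.gcd_dvd_left _ _) (Nat.gcd_dvd_left _ _))
      exact Nat.dvd_of_mul_dvd_mul_right (by positivity) h5
    have hg : 0 < Nat.gcd q.1 n := Nat.gcd_pos_of_pos_left _ h2
    have he : 0 < Nat.gcd q.1 n / q.2 := Nat.div_pos (Nat.le_of_dvd hg hx) h3
    have hex : Nat.gcd q.1 n / q.2 * q.2 = Nat.gcd q.1 n := Nat.div_mul_cancel hx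
    have he2 : Nat.gcd q.1 n / q.2 ∣ Nat.gcd q.1 n := Dvd.intro _ hex
    have he3 : Nat.gcd q.1 n / q.2 ∣ q.1 := he2.trans (Nat.gcd_dvd_left _ _)
    have hde : q.1 / (Nat.gcd q.1 n / q.2) * (Nat.gcd q.1 n / q.2) = q.1 := Nat.div_mul_cancel he3
    obtain ⟨h7, h8, h9⟩ := (key_iff h2 hde hex).mp h4
    have h10 : (q.1 / (Nat.gcd q.1 n / q.2)) ^ 2 ∣ m * r := (Dvd.intro _ rfl).trans h9
    rw [Finset.mem_sigma]
    simp only [Nat.mem_divisors]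
    refine ⟨⟨Nat.dvd_gcd h7 h8, ?_⟩, ⟨Nat.dvd_gcd (he2.trans (Nat.gcd_dvd_right _ _)) ?_, ?_⟩⟩
    · exact (Nat.gcd_pos_of_pos_left _ hm).ne'
    · exact (Nat.dvd_div_iff_mul_dvd h10).mpr h9
    · exact (Nat.gcd_pos_of_pos_left _ hn).ne'
  · intro p hp
    obtain ⟨h2, h3, h4, h5, h6, h7, h8⟩ := hmem p hp
    have hc : 0 < p.1 * p.2 := Nat.mul_pos h2 h3
    have h9 : p.2 ∣ Nat.gcd (p.1 * p.2) n := Nat.dvd_gcd (Dvd.intro_left _ rfl) h6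
    have h10 : Nat.gcd (p.1 * p.2) n / (Nat.gcd (p.1 * p.2) n / p.2) = p.2 :=
      Nat.div_div_self h9 (Nat.gcd_pos_of_pos_left _ hc).ne'
    obtain ⟨d, e⟩ := p
    simp only at h10 h3 ⊢
    rw [h10, Nat.mul_div_cancel _ h3]
  · intro q hq
    rw [mem_Q hm hn] at hq
    obtain ⟨h2, h3, h4⟩ := hq
    have hx : q.2 ∣ Nat.gcd q.1 n := by
      have h5 : q.2 * q.1 ^ 2 ∣ Nat.gcd q.1 n * q.1 ^ 2 := by
        refine h4.trans ?_
        have h6 : Nat.gcd q.1 m * Nat.gcd q.1 n * Nat.gcd q.1 r =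
          Nat.gcd q.1 n * (Nat.gcd q.1 m * Nat.gcd q.1 r) := by ring
        rw [h6, pow_two]
        exact Nat.mul_dvd_mul_left _ (Nat.mul_dvd_mul (Nat.gcd_dvd_left _ _) (Nat.gcd_dvd_left _ _))
      exact Nat.dvd_of_mul_dvd_mul_right (by positivity) h5
    have hg : 0 < Nat.gcd q.1 n := Nat.gcd_pos_of_pos_left _ h2
    have hex : Nat.gcd q.1 n / q.2 * q.2 = Nat.gcd q.1 n := Nat.div_mul_cancel hx
    have he3 : Nat.gcd q.1 n / q.2 ∣ q.1 := (Dvd.intro _ hex).trans (Nat.gcd_dvd_left _ _)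
    have hde : q.1 / (Nat.gcd q.1 n / q.2) * (Nat.gcd q.1 n / q.2) = q.1 := Nat.div_mul_cancel he3
    simp only
    rw [hde, Nat.div_div_self hx hg.ne']
  · intro p hp
    obtain ⟨h2, h3, h4, h5, h6, h7, h8⟩ := hmem p hp
    have h9 : n * (m * r / p.1 ^ 2) / p.2 ^ 2 = m * n * r / (p.1 * p.2) ^ 2 := by
      rw [← Nat.mul_div_assoc _ h8, Nat.div_div_eq_div_mul, mul_pow]
      congr 1
      ring
    simp only
    rw [h9]
    push_cast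
    ring

theorem hecke_comm (R : Type*) [CommRing R] (k m n : ℕ) (hm : 1 ≤ m) (hn : 1 ≤ n)
    (f : PowerSeries R) : hecke R k m (hecke R k n f) = hecke R k n (hecke R k m f) := by
  ext r
  rw [hecke_hecke R k m n hm hn, hecke_hecke R k n m hn hm, Q_comm, mul_comm m n]

end MP0f16e1
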