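import Pool.Agent.Work.MP_0f16e1_nt.Rec

/-! # Module `Count` : summing the chain bounds -/

open PowerSeries

namespace MP0f16e1

private theorem sum_block (L : ℕ) (hL : 2 ≤ L) (ν : ℕ → ℕ) (hν : ∀ t, ν (t + L) = ν t) (s : ℕ) :
    ∑ i ∈ Finset.range L, ν (s + (L - 1) * i) = ∑ t ∈ Finset.range L, ν t := by
  have hmod : ∀ t, ν t = ν (t % L) := by
    intro t
    have h1 : ∀ m r, ν (r + L * m) = ν r := by
      intro m
      induction m with
      | zero => simp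
      | succ m ih =>
        intro r
        rw [show r + L * (m + 1) = r + L * m + L by ring, hν, ih]
    conv_lhs => rw [← Nat.mod_add_div t L]
    exact h1 _ _
  have hmaps : Set.MapsTo (fun i => (s + (L - 1) * i) % L) (Finset.range L : Set ℕ)
      (Finset.range L : Set ℕ) := by
    intro i _
    simp only [Finset.coe_range, Set.mem_Iio]
    exact Nat.mod_lt _ (by omega)
  have hinj : Set.InjOn (fun i => (s + (L - 1) * i) % L) (Finset.range L : Set ℕ) := by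
    intro i hi j hj hij
    simp only [Finset.coe_range, Set.mem_Iio] at hi hj
    have h1 : s + (L - 1) * i ≡ s + (L - 1) * j [MOD L] := hij
    have h2 : (L - 1) * i ≡ (L - 1) * j [MOD L] := Nat.ModEq.add_left_cancel' s h1
    have h3 : i ≡ j [MOD L] := by
      refine Nat.ModEq.cancel_left_of_coprime ?_ h2
      have : Nat.Coprime L (L - 1) := by
        have := (Nat.coprime_self_sub_right (m := 1) (n := L) (by omega)).2 (Nat.coprime_one_right L)
        exact this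
      exact this
    exact Nat.ModEq.eq_of_lt_of_lt h3 hi hj
  refine Finset.sum_nbij (fun i => (s + (L - 1) * i) % L) hmaps hinj ?_ ?_
  · exact Finset.surjOn_of_injOn_of_card_le _ hmaps hinj le_rfl
  · intro i _
    exact hmod _

private theorem sum_le_blocks (L : ℕ) (hL : 2 ≤ L) (ν : ℕ → ℕ) (hν : ∀ t, ν (t + L) = ν t)
    (s q : ℕ) :
    ∑ i ∈ Finset.range q, ν (s + (L - 1) * i)
      ≤ (∑ t ∈ Finset.range L, ν t) * (q / L + 1) := by
  have hblocks : ∀ m, ∑ i ∈ Finset.range (L * m), ν (s + (L - 1) * i)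
      = (∑ t ∈ Finset.range L, ν t) * m := by
    intro m
    induction m with
    | zero => simp
    | succ m ih =>
      rw [show L * (m + 1) = L * m + L by ring, Finset.sum_range_add, ih, mul_add, mul_one]
      congr 1
      rw [← sum_block L hL ν hν (s + (L - 1) * (L * m))]
      refine Finset.sum_congr rfl fun i _ => ?_
      congr 1
      ring
  rw [← hblocks]
  apply Finset.sum_le_sum_of_subset
  apply Finset.range_subset_range.2
  have := Nat.lt_mul_div_succ q (show 0 < L by omega)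
  exact this.le

variable (ℓ : ℕ) [Fact ℓ.Prime]

theorem count (h5 : 11 ≤ ℓ) (hG : ∀ m, 2 * ℓ - 8 ≤ m → Even m → Gen ℓ m) (μ : ℕ → ℕ)
    (hμ : ∀ d, μ (d + (ℓ + 1)) = μ d)
    (hP : ∀ d, 4 ≤ d → d ≤ ℓ + 3 → Even d →
      CB (T2 (ZMod ℓ) (d + (ℓ - 1))) (SF (ZMod ℓ) d) (SF (ZMod ℓ) (d + (ℓ - 1))) (μ d))
    (k : ℕ) (hk : Even k) :
    CB (T2 (ZMod ℓ) k) ⊥ (SF (ZMod ℓ) k)
      ((∑ i ∈ Finset.range ((ℓ + 1) / 2), μ (4 + 2 * i)) * (k / ((ℓ - 1) * ((ℓ + 1) / 2)) + 1) + ℓ) := by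
  have h5' : 5 ≤ ℓ := by omega
  have hodd : ℓ % 2 = 1 := by
    rcases (Fact.out : ℓ.Prime).eq_two_or_odd with h | h
    · omega
    · exact h
  -- `P d` for all even `d ≥ 4`
  have hPall : ∀ d, 4 ≤ d → Even d →
      CB (T2 (ZMod ℓ) (d + (ℓ - 1))) (SF (ZMod ℓ) d) (SF (ZMod ℓ) (d + (ℓ - 1))) (μ d) := by
    intro d
    induction d using Nat.strong_induction_on with
    | _ d ih =>
      intro hd he
      by_cases hle : d ≤ ℓ + 3
      · exact hP d hd hle he
      · obtain ⟨t, ht⟩ := he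
        have hd' : 4 ≤ d - (ℓ + 1) := by omega
        have he' : Even (d - (ℓ + 1)) := by
          rw [Nat.even_iff]
          omega
        have h1 := CB_rec ℓ h5 hG hd' he' (ih (d - (ℓ + 1)) (by omega) hd' he')
        have e1 : d - (ℓ + 1) + (ℓ + 1) = d := by omega
        have e2 : d - (ℓ + 1) + 2 * ℓ = d + (ℓ - 1) := by omega
        have e3 : μ (d - (ℓ + 1)) = μ d := by
          rw [← hμ (d - (ℓ + 1)), e1]
        rwa [e1, e2, e3] at h1
  by_cases hk4 : k < 4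
  · rw [SF_lt (ZMod ℓ) (by omega : k < 12)]
    exact CB_mono (CB_self _ _) (Nat.zero_le _)
  -- decomposition
  obtain ⟨t, ht⟩ := hk
  obtain ⟨q, hq0⟩ : ∃ q, q = (k - 4) / (ℓ - 1) := ⟨_, rfl⟩
  obtain ⟨k₀, hk₀0⟩ : ∃ k₀, k₀ = 4 + (k - 4) % (ℓ - 1) := ⟨_, rfl⟩
  have hkq : k = k₀ + (ℓ - 1) * q := by
    have := Nat.mod_add_div (k - 4) (ℓ - 1)
    rw [← hq0] at this
    omega
  have hk₀ : k₀ < ℓ + 3 := by
    have := Nat.mod_lt (k - 4) (show ℓ - 1 > 0 by omega)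
    omega
  have hk₀4 : 4 ≤ k₀ := by omega
  obtain ⟨L, hL⟩ : ∃ L, ℓ + 1 = 2 * L := ⟨(ℓ + 1) / 2, by omega⟩
  have hℓ1 : ℓ - 1 = 2 * (L - 1) := by omega
  have hk₀e : Even k₀ := by
    have h1 : (ℓ - 1) * q = 2 * ((L - 1) * q) := by rw [hℓ1]; ring
    rw [h1] at hkq
    rw [Nat.even_iff]
    omega
  have hmain : ∀ q : ℕ, CB (T2 (ZMod ℓ) (k₀ + (ℓ - 1) * q)) ⊥ (SF (ZMod ℓ) (k₀ + (ℓ - 1) * q))
      (nS k₀ + ∑ i ∈ Finset.range q, μ (k₀ + (ℓ - 1) * i)) := by
    intro q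
    induction q with
    | zero =>
      rw [mul_zero, add_zero, Finset.range_zero, Finset.sum_empty, add_zero]
      refine CB_dim (fun j : Fin (nS k₀) => g (ZMod ℓ) k₀ (j + 1)) ?_
      intro f hf
      rw [bot_sup_eq]
      obtain ⟨c, rfl⟩ := SF_repr (ZMod ℓ) hk₀e hf
      refine Submodule.sum_mem _ fun j hj => Submodule.smul_mem _ _ (Submodule.subset_span ?_)
      rw [Finset.mem_Icc] at hj
      exact ⟨⟨j - 1, by omega⟩, by
        show g (ZMod ℓ) k₀ (j - 1 + 1) = _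
        rw [show j - 1 + 1 = j by omega]⟩
    | succ q ih =>
      have e1 : k₀ + (ℓ - 1) * (q + 1) = k₀ + (ℓ - 1) * q + (ℓ - 1) := by ring
      have hT : T2 (ZMod ℓ) (k₀ + (ℓ - 1) * q + (ℓ - 1)) = T2 (ZMod ℓ) (k₀ + (ℓ - 1) * q) :=
        T2_period ℓ h5' (by omega)
      have hstep := hPall (k₀ + (ℓ - 1) * q) (by omega) (by
        have h1 : (ℓ - 1) * q = 2 * ((L - 1) * q) := by rw [hℓ1]; ring
        rw [h1]
        rw [Nat.even_iff] at hk₀e ⊢
        omega)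
      rw [e1, Finset.sum_range_succ, ← add_assoc]
      rw [hT] at hstep ⊢
      exact CB_add bot_le (SF_step ℓ h5' _) (fun x hx => T2_mem (ZMod ℓ) hx) ih hstep
  have h1 := hmain q
  rw [← hkq] at h1
  refine CB_mono h1 ?_
  have hnS : nS k₀ ≤ ℓ := by
    simp only [nS]
    omega
  have hsum : ∑ i ∈ Finset.range q, μ (k₀ + (ℓ - 1) * i)
      ≤ (∑ i ∈ Finset.range L, μ (4 + 2 * i)) * (q / L + 1) := by
    obtain ⟨t₀, ht₀⟩ : ∃ t₀, k₀ = 4 + 2 * t₀ := by
      rw [Nat.even_iff] at hk₀e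
      exact ⟨(k₀ - 4) / 2, by omega⟩
    have h2 := sum_le_blocks L (by omega) (fun t => μ (4 + 2 * t)) (by
      intro t
      show μ (4 + 2 * (t + L)) = μ (4 + 2 * t)
      rw [show 4 + 2 * (t + L) = 4 + 2 * t + (ℓ + 1) by omega, hμ]) t₀ q
    refine le_trans (le_of_eq ?_) h2
    refine Finset.sum_congr rfl fun i _ => ?_
    congr 1
    rw [ht₀, hℓ1]
    ring
  have hL' : (ℓ + 1) / 2 = L := by omega
  rw [hL']
  have hq : q / L ≤ k / ((ℓ - 1) * L) := by
    rw [← Nat.div_div_eq_div_mul]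
    apply Nat.div_le_div_right
    rw [hq0]
    exact Nat.div_le_div_right (by omega)
  calc nS k₀ + ∑ i ∈ Finset.range q, μ (k₀ + (ℓ - 1) * i)
      ≤ ℓ + (∑ i ∈ Finset.range L, μ (4 + 2 * i)) * (q / L + 1) := Nat.add_le_add hnS hsum
    _ ≤ ℓ + (∑ i ∈ Finset.range L, μ (4 + 2 * i)) * (k / ((ℓ - 1) * L) + 1) := by
        apply Nat.add_le_add_left
        exact Nat.mul_le_mul_left _ (Nat.add_le_add_right hq 1)
    _ = _ := by ring

end MP0f16e1
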