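import Pool.Agent.Work.MP_0f16e1_nt.HAlg

/-! # Module `Dim` : the dimension of `S_k` -/

open PowerSeries
open scoped MatrixGroups

namespace MP0f16e1

theorem finrank_Sk (k : ℕ) (hk : Even k) : Module.finrank ℚ (Sk k) = nS k := by
  classical
  have hS := S_eq k hk
  -- the family of the basis
  have hmem : ∀ j : Fin (nS k), g ℚ k (j + 1) ∈ S k := fun j => by
    rw [hS]
    exact g_mem ℚ hk (by omega) (by have := j.2; omega)
  let v : Fin (nS k) → Sk k := fun j => (⟨g ℚ k (j + 1), hmem j⟩ : S k)
  have hv : ∀ j, (ser (v j) : PowerSeries ℚ) = g ℚ k (j + 1) := fun j => rfl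
  have hinj : Function.Injective (ser : Sk k →ₗ[ℚ] PowerSeries ℚ) := Subtype.val_injective
  have hli : LinearIndependent ℚ v := by
    rw [Fintype.linearIndependent_iff]
    intro c hc i
    have h1 : ∑ j ∈ Finset.Icc 1 (nS k), (fun n => if h : n - 1 < nS k then c ⟨n - 1, h⟩ else 0) j •
        g ℚ k j = 0 := by
      have h2 := congrArg ser hc
      rw [map_sum, map_zero] at h2
      rw [← h2]
      symm
      refine Finset.sum_bij (fun (j : Fin (nS k)) _ => (j : ℕ) + 1) ?_ ?_ ?_ ?_
      · intro j _
        rw [Finset.mem_Icc]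
        have := j.2
        omega
      · intro a _ b _ hab
        exact Fin.ext (by omega)
      · intro b hb
        rw [Finset.mem_Icc] at hb
        exact ⟨⟨b - 1, by omega⟩, Finset.mem_univ _, by
          show b - 1 + 1 = b
          omega⟩
      · intro j _
        have h3 : (j : ℕ) + 1 - 1 < nS k := by have := j.2; omega
        rw [map_smul, hv]
        simp only [dif_pos h3]
        congr 2
    have h4 := Basis_tri ℚ (fun n _ _ => by rw [h1]; simp) (i + 1) (by omega) (by have := i.2; omega)
    simp only [Nat.add_sub_cancel] at h4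
    rw [dif_pos i.2] at h4
    exact h4
  have hsp : ⊤ ≤ Submodule.span ℚ (Set.range v) := by
    intro x _
    have hx : ser x ∈ SF ℚ k := by
      rw [← hS]
      exact x.2
    obtain ⟨c, hc⟩ := SF_repr ℚ hk hx
    have h1 : x = ∑ j : Fin (nS k), c (j + 1) • v j := by
      apply hinj
      rw [hc, map_sum]
      symm
      refine Finset.sum_bij (fun (j : Fin (nS k)) _ => (j : ℕ) + 1) ?_ ?_ ?_ ?_
      · intro j _
        rw [Finset.mem_Icc]
        have := j.2
        omega
      · intro a _ b _ hab
        exact Fin.ext (by omega)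
      · intro b hb
        rw [Finset.mem_Icc] at hb
        exact ⟨⟨b - 1, by omega⟩, Finset.mem_univ _, by
          show b - 1 + 1 = b
          omega⟩
      · intro j _
        rw [map_smul, hv]
    rw [h1]
    exact Submodule.sum_mem _ fun j _ => Submodule.smul_mem _ _ (Submodule.subset_span ⟨j, rfl⟩)
  have b := Module.Basis.mk hli hsp
  rw [Module.finrank_eq_card_basis b, Fintype.card_fin]

theorem S_odd (k : ℕ) (hk : ¬ Even k) : S k = ⊥ := by
  rw [eq_bot_iff]
  rintro f ⟨F, hF⟩
  have hodd : Odd (k : ℤ) := by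
    rw [Nat.not_even_iff_odd] at hk
    exact_mod_cast hk
  have h1 : CuspForm.toModularFormₗ F = 0 := ModularForm.levelOne_odd_weight_eq_zero hodd _
  have h3 : F = 0 := by
    apply CuspForm.toModularFormₗ_injective
    rw [h1, map_zero]
  rw [h3] at hF
  have h4 : UpperHalfPlane.qExpansion 1 (0 : CuspForm 𝒮ℒ (k : ℤ)) = 0 :=
    UpperHalfPlane.qExpansion_zero 1
  rw [h4] at hF
  rw [Submodule.mem_bot]
  apply PowerSeries.map_injective (algebraMap ℚ ℂ) (algebraMap ℚ ℂ).injective
  rw [← hF, map_zero]

/-- every `𝕋_k`-quotient: `Sk k = 0` in odd weight, so `𝕋_k` has no maximal ideal. -/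
theorem max_odd (k : ℕ) (hk : ¬ Even k) : {I : Ideal (HeckeAlg k) | I.IsMaximal} = ∅ := by
  have h1 : Subsingleton (Sk k) := by
    have h2 : Subsingleton (S k) := by
      rw [S_odd k hk]
      infer_instance
    exact h2
  have h2 : Subsingleton (HeckeAlg k) := by
    constructor
    intro a b
    apply Subtype.ext
    apply LinearMap.ext
    intro x
    exact Subsingleton.elim _ _
  rw [Set.eq_empty_iff_forall_notMem]
  intro I hI
  exact hI.ne_top (Subsingleton.elim _ _)

end MP0f16e1
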