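import Pool.Agent.Work.MP_0f16e1_nt.Commute

/-! # Module `HComm` : the Hecke algebra is commutative

PROOF.  `Algebra.adjoin` of a commuting set is commutative (`Algebra.adjoinCommRingOfComm`,
`Subalgebra.centralizer`, or `Algebra.adjoin_induction₂`); two generators commute by `hecke_comm`
(`ser` is injective, it is a `Submodule.subtype`). -/

namespace MP0f16e1

theorem HeckeAlg_comm (k : ℕ) (s t : HeckeAlg k) : s * t = t * s := by
  have hinj : Function.Injective (ser : Sk k →ₗ[ℚ] PowerSeries ℚ) := by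
    intro a b h
    exact Subtype.ext h
  have hgen : ∀ a ∈ {t : Module.End ℚ (Sk k) | ∃ m : ℕ, 1 ≤ m ∧ ∀ f : Sk k, ser (t f) = hecke ℚ k m (ser f)},
      ∀ b ∈ {t : Module.End ℚ (Sk k) | ∃ m : ℕ, 1 ≤ m ∧ ∀ f : Sk k, ser (t f) = hecke ℚ k m (ser f)},
      a * b = b * a := by
    rintro a ⟨m, hm, ha⟩ b ⟨n, hn, hb⟩
    refine LinearMap.ext fun f => hinj ?_
    rw [Module.End.mul_apply, Module.End.mul_apply, ha, hb, hb, ha, hecke_comm ℚ k m n hm hn]
  have h := Algebra.isMulCommutative_adjoin ℚ hgen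
  exact h.is_comm.comm s t

end MP0f16e1
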