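import Pool.Agent.Work.MP_0f16e1_nt.HeckeInt
import Pool.Agent.Work.MP_0f16e1_nt.Alg

/-! # Module `ModToQ` : from `ℓ` to characteristic zero -/

open PowerSeries Polynomial

namespace MP0f16e1

/-- linear combination of the triangular basis. -/
private noncomputable def lc (R : Type*) [CommRing R] (k : ℕ) :
    (Fin (nS k) → R) →ₗ[R] PowerSeries R where
  toFun v := ∑ j, v j • g R k (j + 1)
  map_add' v w := by
    simp [add_smul, Finset.sum_add_distrib]
  map_smul' c v := by
    simp [mul_smul, Finset.smul_sum]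

private theorem lc_apply (R : Type*) [CommRing R] (k : ℕ) (v : Fin (nS k) → R) :
    lc R k v = ∑ j, v j • g R k (j + 1) := rfl

private theorem lc_inj (R : Type*) [CommRing R] (k : ℕ) (v : Fin (nS k) → R)
    (h : lc R k v = 0) : v = 0 := by
  have key : ∀ m : ℕ, ∀ (hm : m < nS k), v ⟨m, hm⟩ = 0 := by
    intro m
    induction m using Nat.strong_induction_on with
    | _ m ih =>
      intro hm
      have h1 := congrArg (PowerSeries.coeff (m + 1)) h
      rw [lc_apply, map_sum, map_zero] at h1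
      rw [Finset.sum_eq_single ⟨m, hm⟩] at h1
      · rw [PowerSeries.coeff_smul, g_coeff_self, smul_eq_mul, mul_one] at h1
        exact h1
      · intro b _ hb
        rw [PowerSeries.coeff_smul]
        rcases lt_trichotomy (b : ℕ) m with h2 | h2 | h2
        · rw [show v b = 0 from ih b h2 b.2, zero_smul]
        · exact absurd (Fin.ext h2) hb
        · rw [g_coeff_lt R (by omega), smul_zero]
      · intro h2
        exact absurd (Finset.mem_univ _) h2
  funext j
  exact key j j.2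

private theorem lc_mem (R : Type*) [CommRing R] {k : ℕ} (hk : Even k) (v : Fin (nS k) → R) :
    lc R k v ∈ SF R k := by
  rw [lc_apply]
  refine Submodule.sum_mem _ fun j _ => Submodule.smul_mem _ _ ?_
  exact g_mem R hk (by omega) (by have := j.2; omega)

private theorem lc_repr (R : Type*) [CommRing R] {k : ℕ} (hk : Even k) {f : PowerSeries R}
    (hf : f ∈ SF R k) : ∃ v : Fin (nS k) → R, lc R k v = f := by
  obtain ⟨c, hc⟩ := SF_repr R hk hf
  refine ⟨fun j => c (j + 1), ?_⟩
  rw [lc_apply, hc]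
  have h1 : (∑ j : Fin (nS k), c (j + 1) • g R k (j + 1))
      = ∑ j ∈ Finset.range (nS k), c (j + 1) • g R k (j + 1) := by
    rw [Finset.sum_range]
  rw [h1, Finset.range_eq_Ico, Finset.sum_Ico_add' (fun j => c j • g R k j) 0 (nS k) 1]
  rfl

private theorem lc_T2 {k : ℕ} (M : Matrix (Fin (nS k)) (Fin (nS k)) ℤ)
    (hM : ∀ j : Fin (nS k), T2 ℤ k (g ℤ k (j + 1)) = lc ℤ k (fun i => M i j)) (R : Type*) [CommRing R]
    (v : Fin (nS k) → R) :
    T2 R k (lc R k v) = lc R k ((M.map (Int.castRingHom R)).mulVec v) := by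
  have h1 : ∀ j : Fin (nS k), T2 R k (g R k (j + 1))
      = ∑ i, ((M i j : ℤ) : R) • g R k (i + 1) := by
    intro j
    rw [← g_map (Int.castRingHom R), ← T2_map, hM j, lc_apply]
    ext n
    rw [PowerSeries.coeff_map, map_sum, map_sum, map_sum]
    refine Finset.sum_congr rfl fun i _ => ?_
    rw [PowerSeries.coeff_smul, PowerSeries.coeff_smul, ← g_map (Int.castRingHom R) k (i + 1),
      PowerSeries.coeff_map, smul_eq_mul, smul_eq_mul, map_mul]
    rfl
  rw [lc_apply, map_sum, lc_apply]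
  simp only [map_smul, h1, Matrix.mulVec, dotProduct, Finset.smul_sum, Finset.sum_smul,
    Matrix.map_apply, smul_smul]
  rw [Finset.sum_comm]
  refine Finset.sum_congr rfl fun i _ => Finset.sum_congr rfl fun j _ => ?_
  congr 1
  rw [mul_comm]
  rfl

private theorem lc_aeval {k : ℕ} (M : Matrix (Fin (nS k)) (Fin (nS k)) ℤ)
    (hM : ∀ j : Fin (nS k), T2 ℤ k (g ℤ k (j + 1)) = lc ℤ k (fun i => M i j)) (R : Type*) [CommRing R]
    (p : Polynomial R) (v : Fin (nS k) → R) :
    aeval (T2 R k) p (lc R k v)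
      = lc R k ((aeval (M.map (Int.castRingHom R)) p).mulVec v) := by
  have hpow : ∀ (n : ℕ) (v : Fin (nS k) → R), ((T2 R k) ^ n) (lc R k v)
      = lc R k (((M.map (Int.castRingHom R)) ^ n).mulVec v) := by
    intro n
    induction n with
    | zero => intro v; simp
    | succ n ih =>
      intro v
      rw [pow_succ, Module.End.mul_apply, lc_T2 M hM, ih, Matrix.mulVec_mulVec, pow_succ]
  rw [aeval_eq_sum_range, aeval_eq_sum_range, LinearMap.sum_apply, Matrix.sum_mulVec, map_sum]
  refine Finset.sum_congr rfl fun n _ => ?_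
  rw [LinearMap.smul_apply, hpow, Matrix.smul_mulVec, map_smul]

theorem irr_of_base (ℓ : ℕ) [Fact ℓ.Prime] {k r : ℕ} (hk : Even k) (h : Base ℓ k r) :
    ∃ P : Polynomial ℚ, Irreducible P ∧ r ≤ P.natDegree ∧
      ∃ f ∈ SF ℚ k, f ≠ 0 ∧ aeval (T2 ℚ k) P f = 0 := by
  obtain ⟨f, hf, hf1, p, hp, hpr, hpf⟩ := h
  have hex : ∀ j : Fin (nS k), ∃ v : Fin (nS k) → ℤ, lc ℤ k v = T2 ℤ k (g ℤ k (j + 1)) := by
    intro j
    apply lc_repr ℤ hk
    apply T2_mem
    exact g_mem ℤ hk (by omega) (by have := j.2; omega)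
  choose c hc using hex
  let M : Matrix (Fin (nS k)) (Fin (nS k)) ℤ := fun i j => c j i
  have hM : ∀ j : Fin (nS k), T2 ℤ k (g ℤ k (j + 1)) = lc ℤ k (fun i => M i j) := fun j => (hc j).symm
  obtain ⟨v, rfl⟩ := lc_repr (ZMod ℓ) hk hf
  have hv : v ≠ 0 := by
    rintro rfl
    rw [map_zero, map_zero] at hf1
    exact zero_ne_one hf1
  have hpv : (aeval (M.map (Int.castRingHom (ZMod ℓ))) p).mulVec v = 0 := by
    apply lc_inj
    rw [← lc_aeval M hM]
    exact hpf
  obtain ⟨P, hP, hdeg, w, hw, hPw⟩ := alg (nS k) M ℓ p hp v hv hpv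
  refine ⟨P, hP, hpr ▸ hdeg, lc ℚ k w, lc_mem ℚ hk w, fun h0 => hw (lc_inj ℚ k w h0), ?_⟩
  rw [lc_aeval M hM, hPw, map_zero]

end MP0f16e1
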