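import Pool.Agent.Work.MP_0f16e1_nt.Mod

/-! # Module `Transfer` : one weight gives all weights `w + i (ℓ-1) + j (ℓ+1)`

PROOF.  (`SF w ≠ 0` forces `w ≥ 12`, `SF_lt`.)  `Base_A`: the same `f`, `p`
(`SF_step`, `T2_period`).  `Base_theta`: `θ f` has `coeff 1 = 1 * coeff 1 f = 1` and is killed by
`p'(T₂)`, `p'(x) = p(x/2)` (`Polynomial.scaleRoots`, or `p.comp (C 2⁻¹ * X)`, which is irreducible of
the same degree because composition with `C 2⁻¹ * X` is an automorphism of the polynomial ring, e.g.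
`Polynomial.algEquivCMulXAddC`), since `T₂ θ = 2 θ T₂` gives `(2⁻¹ T₂)^i θ f = θ T₂^i f`. -/

open PowerSeries

namespace MP0f16e1

variable (ℓ : ℕ) [Fact ℓ.Prime]

private theorem Base_ge {w r : ℕ} (h : Base ℓ w r) : 12 ≤ w := by
  by_contra hw
  obtain ⟨f, hf, h1, -⟩ := h
  rw [SF_lt (ZMod ℓ) (by omega), Submodule.mem_bot] at hf
  rw [hf, map_zero] at h1
  exact zero_ne_one h1

theorem Base_A (h5 : 5 ≤ ℓ) {w r : ℕ} (h : Base ℓ w r) : Base ℓ (w + (ℓ - 1)) r := by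
  have hw := Base_ge ℓ h
  obtain ⟨f, hf, h1, p, hp, hd, h0⟩ := h
  refine ⟨f, SF_step ℓ h5 w hf, h1, p, hp, hd, ?_⟩
  rw [T2_period ℓ h5 (by omega)]
  exact h0

theorem Base_theta (h5 : 5 ≤ ℓ) {w r : ℕ} (h : Base ℓ w r) : Base ℓ (w + (ℓ + 1)) r := by
  have hw := Base_ge ℓ h
  obtain ⟨f, hf, h1, p, hp, hd, h0⟩ := h
  have h2 : (2 : ZMod ℓ) ≠ 0 := by
    have h3 : ((2 : ℕ) : ZMod ℓ) ≠ 0 := by
      intro h
      rw [ZMod.natCast_eq_zero_iff] at h
      exact absurd (Nat.le_of_dvd (by norm_num) h) (by omega)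
    exact_mod_cast h3
  have hu : IsUnit ((2 : ZMod ℓ)⁻¹) := (isUnit_iff_ne_zero.mpr (inv_ne_zero h2))
  refine ⟨theta (ZMod ℓ) f, theta_SF ℓ h5 hf, ?_, p.comp (Polynomial.C ((2 : ZMod ℓ)⁻¹) * Polynomial.X), ?_,
    ?_, ?_⟩
  · simp [theta, h1]
  · let _ := hu.invertible
    have h4 := (MulEquiv.irreducible_iff
      (Polynomial.algEquivCMulXAddC ((2 : ZMod ℓ)⁻¹) 0)).mpr hp
    convert h4 using 1
    simp [Polynomial.algEquivCMulXAddC, Polynomial.aeval_def, Polynomial.comp, Polynomial.eval₂_eq_eval_map]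
  · rw [Polynomial.natDegree_comp, Polynomial.natDegree_C_mul_X _ (inv_ne_zero h2), mul_one, hd]
  · rw [Polynomial.aeval_comp]
    have h4 : Polynomial.aeval (T2 (ZMod ℓ) (w + (ℓ + 1))) (Polynomial.C ((2 : ZMod ℓ)⁻¹) * Polynomial.X) =
        ((2 : ZMod ℓ)⁻¹) • T2 (ZMod ℓ) (w + (ℓ + 1)) := by
      simp [Algebra.smul_def]
    rw [h4]
    have h6 : ∀ x : PowerSeries (ZMod ℓ), (((2 : ZMod ℓ)⁻¹) • T2 (ZMod ℓ) (w + (ℓ + 1))) (theta (ZMod ℓ) x) =
        theta (ZMod ℓ) (T2 (ZMod ℓ) w x) := by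
      intro x
      rw [LinearMap.smul_apply, T2_theta ℓ h5 (by omega), smul_smul, inv_mul_cancel₀ h2, one_smul]
    have h5' : ∀ (q : Polynomial (ZMod ℓ)) (x : PowerSeries (ZMod ℓ)),
        Polynomial.aeval (((2 : ZMod ℓ)⁻¹) • T2 (ZMod ℓ) (w + (ℓ + 1))) q (theta (ZMod ℓ) x) =
        theta (ZMod ℓ) (Polynomial.aeval (T2 (ZMod ℓ) w) q x) := by
      intro q
      induction q using Polynomial.induction_on' with
      | add a b ha hb => intro x; simp only [map_add, LinearMap.add_apply, ha, hb]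
      | monomial n a =>
        intro x
        rw [Polynomial.aeval_monomial, Polynomial.aeval_monomial]
        simp only [Module.End.mul_apply, Module.algebraMap_end_apply, map_smul]
        congr 1
        induction n generalizing x with
        | zero => simp
        | succ n ih => rw [pow_succ, pow_succ, Module.End.mul_apply, Module.End.mul_apply, h6, ih]
    rw [h5', h0, map_zero]

theorem Base_all (h5 : 5 ≤ ℓ) {w r : ℕ} (h : Base ℓ w r) (i j : ℕ) :
    Base ℓ (w + i * (ℓ - 1) + j * (ℓ + 1)) r := by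
  have h1 : Base ℓ (w + i * (ℓ - 1)) r := by
    induction i with
    | zero => simpa using h
    | succ i ih =>
      have := Base_A ℓ h5 ih
      have h2 : w + i * (ℓ - 1) + (ℓ - 1) = w + (i + 1) * (ℓ - 1) := by ring
      rwa [h2] at this
  induction j with
  | zero => simpa using h1
  | succ j ih =>
    have := Base_theta ℓ h5 ih
    have h2 : w + i * (ℓ - 1) + j * (ℓ + 1) + (ℓ + 1) = w + i * (ℓ - 1) + (j + 1) * (ℓ + 1) := by ring
    rwa [h2] at this

end MP0f16e1
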