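import Pool.Agent.Work.MP_0f16e1_nt.DataI
import Pool.Agent.Work.MP_0f16e1_nt.Transfer
import Pool.Agent.Work.MP_0f16e1_nt.ModToQ
import Pool.Agent.Work.MP_0f16e1_nt.HComm
import Pool.Agent.Work.MP_0f16e1_nt.Dim

/-! # MP_0f16e1_nt : covering the weights by base certificates -/

namespace MP0f16e1

/-- `k = w + i (l-1) + j (l+1)` for some `i, j`. -/
def crit (l w k : ℕ) : Bool :=
  match Nat.ble w k with
  | true => frc ((k - w) / 2) fun m => frc ((l - 1) / 2) fun h => Nat.ble (m % h) (m / h)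
  | false => false

theorem crit_spec {l w k : ℕ} (hl : l % 2 = 1) (hw : Even w) (hk : Even k) (h : crit l w k = true) :
    ∃ i j, k = w + i * (l - 1) + j * (l + 1) := by
  unfold crit at h
  cases h1 : Nat.ble w k with
  | false => rw [h1] at h; exact absurd h (by simp)
  | true =>
    rw [h1] at h
    have hwk : w ≤ k := Nat.le_of_ble_eq_true h1
    have h2 : Nat.ble ((k - w) / 2 % ((l - 1) / 2)) ((k - w) / 2 / ((l - 1) / 2)) = true := by
      rw [frc_eq, frc_eq] at h
      exact h
    have h3 := Nat.le_of_ble_eq_true h2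
    obtain ⟨m, hm⟩ : ∃ m, m = (k - w) / 2 := ⟨_, rfl⟩
    obtain ⟨n, hn⟩ : ∃ n, n = (l - 1) / 2 := ⟨_, rfl⟩
    rw [← hm, ← hn] at h3
    have h4 := Nat.mod_add_div m n
    obtain ⟨a, ha⟩ := hw
    obtain ⟨b, hb⟩ := hk
    refine ⟨m / n - m % n, m % n, ?_⟩
    have e1 : l - 1 = 2 * n := by omega
    have e2 : l + 1 = 2 * n + 2 := by omega
    have e3 : k = w + 2 * m := by omega
    rw [e1, e2, e3]
    obtain ⟨c, hc⟩ : ∃ c, m / n = m % n + c := ⟨m / n - m % n, by omega⟩
    rw [hc] at h4 ⊢
    have e4 : m % n + c - m % n = c := by omega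
    rw [e4]
    generalize m % n = q at h4 ⊢
    have : m = q + n * (q + c) := h4.symm
    rw [this]
    ring

/-- large weights. -/
theorem crit_tail {l w k : ℕ} (hl : l % 2 = 1) (h3 : 3 ≤ l) (hk : w + (l - 1) * (l - 1) / 2 ≤ k) :
    crit l w k = true := by
  unfold crit
  have h1 : Nat.ble w k = true := Nat.ble_eq_true_of_le (by omega)
  rw [h1]
  show frc ((k - w) / 2) (fun m => frc ((l - 1) / 2) fun h => Nat.ble (m % h) (m / h)) = true
  rw [frc_eq, frc_eq]
  apply Nat.ble_eq_true_of_le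
  obtain ⟨n, hn⟩ : ∃ n, l = 2 * n + 1 := ⟨l / 2, by omega⟩
  subst hn
  have e1 : (2 * n + 1 - 1) / 2 = n := by omega
  have e2 : (2 * n + 1 - 1) * (2 * n + 1 - 1) / 2 = 2 * (n * n) := by
    have : (2 * n + 1 - 1) * (2 * n + 1 - 1) = 2 * (2 * (n * n)) := by
      rw [Nat.add_sub_cancel]; ring
    omega
  rw [e1]
  rw [e2] at hk
  have h5 : n ≤ (k - w) / 2 / n := by
    rw [Nat.le_div_iff_mul_le (by omega)]
    omega
  have h6 := Nat.mod_lt ((k - w) / 2) (show n > 0 by omega)
  omega

/-- the weight `k` is covered by a triple of the list with degree `≥ need`. -/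
def covK (need k : ℕ) (T : List (ℕ × ℕ × ℕ)) : Bool :=
  List.rec (motive := fun _ => Bool) false
    (fun t _ ih => match Nat.ble need t.2.2, crit t.1 t.2.1 k with
      | true, true => true
      | _, _ => ih) T

theorem covK_spec {need k : ℕ} {T : List (ℕ × ℕ × ℕ)} (h : covK need k T = true) :
    ∃ t ∈ T, need ≤ t.2.2 ∧ crit t.1 t.2.1 k = true := by
  induction T with
  | nil => exact absurd h (by simp [covK])
  | cons t T ih =>
    have h' : (match Nat.ble need t.2.2, crit t.1 t.2.1 k with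
      | true, true => true
      | _, _ => covK need k T) = true := h
    cases h1 : Nat.ble need t.2.2 with
    | false =>
      rw [h1] at h'
      obtain ⟨t', ht', h''⟩ := ih h'
      exact ⟨t', List.mem_cons_of_mem _ ht', h''⟩
    | true =>
      cases h2 : crit t.1 t.2.1 k with
      | false =>
        rw [h1, h2] at h'
        obtain ⟨t', ht', h''⟩ := ih h'
        exact ⟨t', List.mem_cons_of_mem _ ht', h''⟩
      | true => exact ⟨t, List.mem_cons_self, Nat.le_of_ble_eq_true h1, h2⟩

/-- `min n 20` -/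
def min20 (n : ℕ) : ℕ := match Nat.ble n 20 with | true => n | false => 20

theorem min20_eq (n : ℕ) : min20 n = min n 20 := by
  unfold min20
  cases h : Nat.ble n 20 with
  | true => rw [min_eq_left (Nat.le_of_ble_eq_true h)]
  | false =>
    have : ¬ n ≤ 20 := fun h' => by rw [Nat.ble_eq_true_of_le h'] at h; exact absurd h (by simp)
    rw [min_eq_right (by omega)]

/-- all even weights `lo, lo+2, ..., lo + 2(n-1)` are covered. -/
def covR (T : List (ℕ × ℕ × ℕ)) (lo n : ℕ) : Bool :=
  Nat.rec (motive := fun _ => Bool) true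
    (fun m ih => match frc (lo + 2 * m) (fun k => frc (min20 (nS k)) fun need => covK need k T) with
      | true => ih
      | false => false) n

theorem covR_spec {T : List (ℕ × ℕ × ℕ)} {lo n : ℕ} (h : covR T lo n = true) :
    ∀ m < n, ∃ t ∈ T, min (nS (lo + 2 * m)) 20 ≤ t.2.2 ∧ crit t.1 t.2.1 (lo + 2 * m) = true := by
  induction n with
  | zero => intro m hm; omega
  | succ n ih =>
    have h' : (match frc (lo + 2 * n) (fun k => frc (min20 (nS k)) fun need => covK need k T) with
      | true => covR T lo n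
      | false => false) = true := h
    rw [frc_eq, frc_eq] at h'
    cases h1 : covK (min20 (nS (lo + 2 * n))) (lo + 2 * n) T with
    | false => rw [h1] at h'; exact absurd h' (by simp)
    | true =>
      rw [h1] at h'
      intro m hm
      rcases Nat.lt_or_ge m n with h2 | h2
      · exact ih h' m h2
      · have : m = n := by omega
        subst this
        have := covK_spec h1
        rwa [min20_eq] at this

/-- a triple is realised by a certificate. -/
def Real (t : ℕ × ℕ × ℕ) : Prop :=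
  ∃ hp : Fact t.1.Prime, t.1 % 2 = 1 ∧ 5 ≤ t.1 ∧ Even t.2.1 ∧ @Base t.1 t.2.1 t.2.2 hp

/-- the triple of a certificate is in the list. -/
def memT (t : ℕ × ℕ × ℕ) (L : List CertB) : Bool :=
  List.rec (motive := fun _ => Bool) false
    (fun c _ ih => match Nat.beq c.l t.1, Nat.beq c.w t.2.1, Nat.beq c.ps.length t.2.2 with
      | true, true, true => true
      | _, _, _ => ih) L

theorem memT_spec {t : ℕ × ℕ × ℕ} {L : List CertB} (h : memT t L = true) :
    ∃ c ∈ L, c.l = t.1 ∧ c.w = t.2.1 ∧ c.ps.length = t.2.2 := by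
  induction L with
  | nil => exact absurd h (by simp [memT])
  | cons c L ih =>
    have h' : (match Nat.beq c.l t.1, Nat.beq c.w t.2.1, Nat.beq c.ps.length t.2.2 with
      | true, true, true => true
      | _, _, _ => memT t L) = true := h
    have key : memT t L = true → ∃ c' ∈ c :: L, c'.l = t.1 ∧ c'.w = t.2.1 ∧ c'.ps.length = t.2.2 := by
      intro h2
      obtain ⟨c', hc', h3⟩ := ih h2
      exact ⟨c', List.mem_cons_of_mem _ hc', h3⟩
    cases h1 : Nat.beq c.l t.1 with
    | false => rw [h1] at h'; exact key h'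
    | true =>
    cases h2 : Nat.beq c.w t.2.1 with
    | false => rw [h1, h2] at h'; exact key h'
    | true =>
    cases h3 : Nat.beq c.ps.length t.2.2 with
    | false => rw [h1, h2, h3] at h'; exact key h'
    | true =>
      exact ⟨c, List.mem_cons_self, Nat.eq_of_beq_eq_true h1, Nat.eq_of_beq_eq_true h2,
        Nat.eq_of_beq_eq_true h3⟩

theorem real_of_cert {B : ℕ} {PL LL : List ℕ} {L : List CertB} {t : ℕ × ℕ × ℕ}
    (hPL : ∀ s ∈ PL, s.Prime) (hLL : ∀ l ∈ LL, l.Prime ∧ 5 ≤ l) (h : allC B PL LL L = true)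
    (ht : memT t L = true) : Real t := by
  obtain ⟨c, hc, e1, e2, e3⟩ := memT_spec ht
  obtain ⟨hp, hl, hw, hb⟩ := base_of_cert hPL (fun l hl => (hLL l hl).1) (allC_spec L h c hc)
  obtain ⟨a, b, d⟩ := t
  simp only at e1 e2 e3
  subst e1 e2 e3
  have h5 := (hLL _ hl).2
  refine ⟨hp, ?_, h5, hw, hb⟩
  rcases hp.out.eq_two_or_odd with h | h
  · omega
  · exact h

/-- the degree bound from a triple. -/
theorem factor_of_real {t : ℕ × ℕ × ℕ} (ht : Real t) {k : ℕ} (hk : Even k)
    (hc : crit t.1 t.2.1 k = true) :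
    ∃ I : Ideal (HeckeAlg k), I.IsMaximal ∧ t.2.2 ≤ Module.finrank ℚ (HeckeAlg k ⧸ I) := by
  obtain ⟨hp, hodd, h5, hw, hb⟩ := ht
  obtain ⟨i, j, hij⟩ := crit_spec hodd hw hk hc
  have h1 := @Base_all t.1 hp h5 _ _ hb i j
  rw [← hij] at h1
  obtain ⟨P, hP, hr, f, hf, hf0, hPf⟩ := @irr_of_base t.1 hp k t.2.2 hk h1
  exact max_of_irr hk P hP hr f hf hf0 hPf

/-- `𝕋_k` has a maximal ideal with nonzero quotient when `S_k ≠ 0`. -/
theorem factor_one {k : ℕ} (hk : Even k) (hS : 1 ≤ nS k) :
    ∃ I : Ideal (HeckeAlg k), I.IsMaximal ∧ 1 ≤ Module.finrank ℚ (HeckeAlg k ⧸ I) := by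
  have hfinS : Module.Finite ℚ (Sk k) := finite_S k hk
  have hfinA : Module.Finite ℚ (HeckeAlg k) :=
    FiniteDimensional.finiteDimensional_submodule (Subalgebra.toSubmodule (HeckeAlg k))
  have hnt : Nontrivial (Sk k) := by
    apply Module.nontrivial_of_finrank_pos (R := ℚ)
    rw [finrank_Sk k hk]
    omega
  have hnA : Nontrivial (HeckeAlg k) := inferInstance
  obtain ⟨I, hI⟩ := Ideal.exists_maximal (HeckeAlg k)
  refine ⟨I, hI, ?_⟩
  have hq : Nontrivial (HeckeAlg k ⧸ I) := Submodule.Quotient.nontrivial_iff.2 hI.ne_top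
  have hf : Module.Finite ℚ (HeckeAlg k ⧸ I) :=
    Module.Finite.of_surjective ((Submodule.mkQ I).restrictScalars ℚ) (Submodule.mkQ_surjective I)
  exact Module.finrank_pos

end MP0f16e1
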