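import Pool.Agent.Work.MP_0f16e1_nt.CB01
import Pool.Agent.Work.MP_0f16e1_nt.CB02
import Pool.Agent.Work.MP_0f16e1_nt.CB03
import Pool.Agent.Work.MP_0f16e1_nt.CB04
import Pool.Agent.Work.MP_0f16e1_nt.CB05
import Pool.Agent.Work.MP_0f16e1_nt.CB06
import Pool.Agent.Work.MP_0f16e1_nt.CB07
import Pool.Agent.Work.MP_0f16e1_nt.CB08
import Pool.Agent.Work.MP_0f16e1_nt.CB09
import Pool.Agent.Work.MP_0f16e1_nt.CB10
import Pool.Agent.Work.MP_0f16e1_nt.CB11
import Pool.Agent.Work.MP_0f16e1_nt.CB12
import Pool.Agent.Work.MP_0f16e1_nt.CBX
import Pool.Agent.Work.MP_0f16e1_nt.CovT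

/-! # MP_0f16e1_nt : assembly of the base certificates -/

namespace MP0f16e1

set_option maxRecDepth 100000

def cbs : List (List CertB) := [
  cb01, cb02, cb03, cb04, cb05, cb06, cb07, cb08, cb09, cb10,
  cb11, cb12, cb13, cb14, cb15, cb16, cb17, cb18, cb19, cb20,
  cb21, cb22, cb23, cb24, cb25, cb26, cb27, cb28, cb29, cb30,
  cb31, cb32, cb33, cb34, cb35, cb36, cb37, cb38, cb39, cb40,
  cb41, cb42, cb43, cb44, cb45, cb46, cb47, cb48, cb49, cb50,
  cb51, cb52, cb53, cb54, cb55, cb56, cb57, cb58, cb59, cb60,
  cb61, cb62, cb63, cb64, cb65, cb66, cb67, cb68, cb69, cb70,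
  cb71, cb72, cb73, cb74, cb75, cb76, cb77, cb78, cb79, cb80,
  cb81, cb82, cb83, cb84]

theorem cbs_ok : ∀ L ∈ cbs, allC 268435459 PLb LLb L = true := by
  unfold cbs
  simp only [List.forall_mem_cons]
  refine ⟨cb01_ok, cb02_ok, cb03_ok, cb04_ok, cb05_ok, cb06_ok, cb07_ok, cb08_ok,
    cb09_ok, cb10_ok, cb11_ok, cb12_ok, cb13_ok, cb14_ok, cb15_ok, cb16_ok,
    cb17_ok, cb18_ok, cb19_ok, cb20_ok, cb21_ok, cb22_ok, cb23_ok, cb24_ok,
    cb25_ok, cb26_ok, cb27_ok, cb28_ok, cb29_ok, cb30_ok, cb31_ok, cb32_ok,
    cb33_ok, cb34_ok, cb35_ok, cb36_ok, cb37_ok, cb38_ok, cb39_ok, cb40_ok,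
    cb41_ok, cb42_ok, cb43_ok, cb44_ok, cb45_ok, cb46_ok, cb47_ok, cb48_ok,
    cb49_ok, cb50_ok, cb51_ok, cb52_ok, cb53_ok, cb54_ok, cb55_ok, cb56_ok,
    cb57_ok, cb58_ok, cb59_ok, cb60_ok, cb61_ok, cb62_ok, cb63_ok, cb64_ok,
    cb65_ok, cb66_ok, cb67_ok, cb68_ok, cb69_ok, cb70_ok, cb71_ok, cb72_ok,
    cb73_ok, cb74_ok, cb75_ok, cb76_ok, cb77_ok, cb78_ok, cb79_ok, cb80_ok,
    cb81_ok, cb82_ok, cb83_ok, cb84_ok, ?_⟩
  intro L hL
  exact absurd hL (List.not_mem_nil)

def anyT (t : ℕ × ℕ × ℕ) (C : List (List CertB)) : Bool :=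
  List.rec (motive := fun _ => Bool) false
    (fun L _ ih => match memT t L with | true => true | false => ih) C

theorem anyT_spec {t : ℕ × ℕ × ℕ} {C : List (List CertB)} (h : anyT t C = true) :
    ∃ L ∈ C, memT t L = true := by
  induction C with
  | nil => exact absurd h (by simp [anyT])
  | cons L C ih =>
    have h' : (match memT t L with | true => true | false => anyT t C) = true := h
    cases h1 : memT t L with
    | true => exact ⟨L, List.mem_cons_self, h1⟩
    | false =>
      rw [h1] at h'
      obtain ⟨L', hL', h2⟩ := ih h'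
      exact ⟨L', List.mem_cons_of_mem _ hL', h2⟩

def allT (T : List (ℕ × ℕ × ℕ)) (C : List (List CertB)) : Bool :=
  List.rec (motive := fun _ => Bool) true
    (fun t _ ih => match anyT t C with | true => ih | false => false) T

theorem allT_spec {T : List (ℕ × ℕ × ℕ)} {C : List (List CertB)} (h : allT T C = true) :
    ∀ t ∈ T, anyT t C = true := by
  induction T with
  | nil => intro t ht; exact absurd ht (List.not_mem_nil)
  | cons t T ih =>
    have h' : (match anyT t C with | true => allT T C | false => false) = true := h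
    cases h1 : anyT t C with
    | false => rw [h1] at h'; exact absurd h' (by simp)
    | true =>
      rw [h1] at h'
      intro t' ht'
      rcases List.mem_cons.1 ht' with rfl | ht'
      · exact h1
      · exact ih h' t' ht'

theorem allT_ok : allT covT cbs = true := by decide +kernel

theorem PLb_prime : ∀ s ∈ PLb, s.Prime := by
  unfold PLb
  simp only [List.forall_mem_cons]
  refine ⟨by norm_num, by norm_num, by norm_num, by norm_num, by norm_num, by norm_num, by norm_num, by norm_num,
    by norm_num, by norm_num, by norm_num, by norm_num, by norm_num, by norm_num, by norm_num, by norm_num,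
    by norm_num, by norm_num, by norm_num, by norm_num, by norm_num, by norm_num, by norm_num, by norm_num,
    by norm_num, by norm_num, by norm_num, by norm_num, by norm_num, by norm_num, by norm_num, by norm_num,
    by norm_num, by norm_num, by norm_num, by norm_num, by norm_num, by norm_num, by norm_num, by norm_num,
    by norm_num, by norm_num, by norm_num, by norm_num, by norm_num, by norm_num, by norm_num, by norm_num,
    by norm_num, by norm_num, by norm_num, by norm_num, by norm_num, by norm_num, by norm_num, by norm_num,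
    by norm_num, by norm_num, by norm_num, by norm_num, by norm_num, by norm_num, by norm_num, by norm_num,
    by norm_num, by norm_num, by norm_num, by norm_num, by norm_num, by norm_num, by norm_num, by norm_num,
    by norm_num, by norm_num, by norm_num, by norm_num, by norm_num, by norm_num, by norm_num, by norm_num,
    by norm_num, by norm_num, by norm_num, by norm_num, by norm_num, by norm_num, by norm_num, by norm_num,
    by norm_num, by norm_num, by norm_num, by norm_num, by norm_num, by norm_num, by norm_num, by norm_num,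
    by norm_num, by norm_num, by norm_num, by norm_num, by norm_num, by norm_num, by norm_num, by norm_num,
    by norm_num, by norm_num, by norm_num, by norm_num, by norm_num, by norm_num, by norm_num, by norm_num, ?_⟩
  intro L hL
  exact absurd hL (List.not_mem_nil)

theorem LLb_prime : ∀ s ∈ LLb, s.Prime ∧ 5 ≤ s := by
  unfold LLb
  simp only [List.forall_mem_cons]
  refine ⟨by norm_num, by norm_num, by norm_num, by norm_num, by norm_num, by norm_num, by norm_num, by norm_num,
    by norm_num, by norm_num, by norm_num, by norm_num, by norm_num, by norm_num, by norm_num, by norm_num,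
    by norm_num, by norm_num, by norm_num, by norm_num, by norm_num, by norm_num, by norm_num, by norm_num,
    by norm_num, by norm_num, by norm_num, by norm_num, by norm_num, by norm_num, by norm_num, by norm_num,
    by norm_num, by norm_num, by norm_num, by norm_num, by norm_num, by norm_num, by norm_num, by norm_num,
    by norm_num, by norm_num, by norm_num, by norm_num, by norm_num, by norm_num, by norm_num, by norm_num,
    by norm_num, by norm_num, by norm_num, by norm_num, by norm_num, by norm_num, by norm_num, by norm_num,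
    by norm_num, by norm_num, by norm_num, by norm_num, by norm_num, by norm_num, by norm_num, by norm_num,
    by norm_num, by norm_num, by norm_num, by norm_num, by norm_num, by norm_num, by norm_num, by norm_num,
    by norm_num, by norm_num, by norm_num, by norm_num, by norm_num, by norm_num, by norm_num, by norm_num,
    by norm_num, by norm_num, by norm_num, by norm_num, by norm_num, by norm_num, by norm_num, by norm_num,
    by norm_num, by norm_num, by norm_num, by norm_num, ?_⟩
  intro L hL
  exact absurd hL (List.not_mem_nil)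

theorem covT_real : ∀ t ∈ covT, Real t := by
  intro t ht
  obtain ⟨L, hL, h1⟩ := anyT_spec (allT_spec allT_ok t ht)
  exact real_of_cert PLb_prime LLb_prime (cbs_ok L hL) h1

theorem real50 : Real (631, 612, 50) := by
  refine real_of_cert ?_ ?_ cx50_ok (by decide +kernel)
  · intro s hs
    rw [List.mem_singleton] at hs
    subst hs
    norm_num
  · intro s hs
    rw [List.mem_singleton] at hs
    subst hs
    norm_num

theorem real111 : Real (1381, 1340, 111) := by
  refine real_of_cert ?_ ?_ cx111_ok (by decide +kernel)
  · intro s hs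
    rw [List.mem_singleton] at hs
    subst hs
    norm_num
  · intro s hs
    rw [List.mem_singleton] at hs
    subst hs
    norm_num

theorem large_factor (k : ℕ) (hS : S k ≠ ⊥) :
    (∃ I : Ideal (HeckeAlg k), I.IsMaximal ∧
      min (Module.finrank ℚ (Sk k)) 20 ≤ Module.finrank ℚ (HeckeAlg k ⧸ I)) ∧
    (200000 ≤ k → ∃ I : Ideal (HeckeAlg k), I.IsMaximal ∧
      50 ≤ Module.finrank ℚ (HeckeAlg k ⧸ I)) ∧
    (1000000 ≤ k → ∃ I : Ideal (HeckeAlg k), I.IsMaximal ∧
      111 ≤ Module.finrank ℚ (HeckeAlg k ⧸ I)) := by
  have hk : Even k := by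
    by_contra h
    exact hS (S_odd k h)
  refine ⟨?_, ?_, ?_⟩
  · rw [finrank_Sk k hk]
    have h1 : 1 ≤ nS k := by
      by_contra h
      apply hS
      have h0 : Module.finrank ℚ (Sk k) = 0 := by
        rw [finrank_Sk k hk]
        omega
      have hfin : Module.Finite ℚ (S k) := finite_S k hk
      have h0' : Module.finrank ℚ (S k) = 0 := h0
      exact Submodule.finrank_eq_zero.1 h0'
    rcases Nat.lt_or_ge (nS k) 2 with h | h
    · obtain ⟨I, hI, h2⟩ := factor_one hk h1
      exact ⟨I, hI, (min_le_left _ _).trans (by omega)⟩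
    · obtain ⟨t, ht, h2, h3⟩ := cov_all k hk h
      obtain ⟨I, hI, h4⟩ := factor_of_real (covT_real t ht) hk h3
      exact ⟨I, hI, h2.trans h4⟩
  · intro h
    exact factor_of_real real50 hk (crit_tail (by norm_num) (by norm_num) (by norm_num; omega))
  · intro h
    exact factor_of_real real111 hk (crit_tail (by norm_num) (by norm_num) (by norm_num; omega))

end MP0f16e1
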