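import Pool.Agent.Work.MP_0f16e1_nt.Cov

/-! # MP_0f16e1_nt : the covering triples (l, w, r) -/

namespace MP0f16e1

set_option maxRecDepth 100000

def covT : List (ℕ × ℕ × ℕ) := [
  (271, 256, 21), (277, 252, 20), (281, 274, 21), (283, 274, 21), (281, 250, 20), (313, 260, 20),
  (311, 256, 21), (293, 258, 21), (313, 638, 24), (277, 272, 20), (347, 282, 22), (353, 300, 21),
  (317, 308, 21), (349, 282, 23), (293, 292, 23), (307, 288, 20), (397, 282, 23), (313, 290, 22),
  (383, 378, 29), (367, 348, 28), (359, 302, 23), (367, 320, 21), (379, 302, 23), (359, 326, 21),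
  (379, 350, 22), (419, 366, 22), (353, 290, 23), (409, 346, 25), (491, 362, 20), (353, 310, 21),
  (347, 260, 20), (281, 264, 20), (421, 322, 23), (367, 300, 20), (313, 240, 20), (313, 304, 24),
  (383, 364, 25), (383, 308, 25), (379, 290, 22), (563, 398, 28), (313, 280, 20), (359, 340, 28),
  (397, 372, 23), (433, 424, 28), (401, 390, 21), (487, 334, 24), (311, 302, 23), (409, 286, 23),
  (347, 276, 21), (433, 384, 28), (443, 336, 21), (397, 312, 21), (409, 342, 28), (439, 432, 31),
  (587, 560, 37), (313, 268, 20), (571, 458, 22), (383, 330, 20), (443, 388, 28), (443, 396, 32),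
  (409, 402, 26), (397, 360, 20), (313, 248, 20), (443, 406, 31), (347, 316, 21), (349, 324, 26),
  (349, 338, 26), (359, 346, 26), (379, 354, 29), (443, 418, 31), (487, 278, 20), (499, 448, 25),
  (503, 408, 30), (347, 306, 20), (373, 352, 22), (571, 394, 30), (401, 380, 20), (419, 358, 28),
  (389, 332, 20), (443, 294, 22), (499, 486, 36), (503, 434, 33), (503, 488, 25), (401, 400, 30),
  (421, 374, 26), (313, 296, 23), (433, 422, 28), (461, 412, 25), (331, 316, 26), (347, 266, 21),
  (347, 330, 20), (349, 344, 20), (373, 368, 29), (379, 256, 20), (389, 384, 29), (397, 260, 21),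
  (397, 392, 28), (431, 414, 30), (443, 410, 26), (443, 440, 20), (461, 430, 27), (461, 438, 32),
  (467, 466, 30), (509, 480, 30), (563, 524, 22), (431, 406, 21), (23, 24, 2), (29, 28, 2),
  (29, 30, 2), (29, 32, 2), (37, 36, 3), (37, 40, 3), (41, 34, 2), (41, 38, 2),
  (41, 42, 3), (53, 46, 3), (53, 48, 4), (53, 50, 3), (61, 44, 3), (61, 58, 4),
  (67, 52, 4), (71, 56, 4), (71, 62, 4), (83, 54, 4), (89, 60, 5), (97, 66, 5),
  (97, 68, 5), (97, 70, 5), (101, 74, 5), (103, 80, 6), (103, 86, 6), (107, 64, 5),
  (107, 72, 6), (107, 92, 7), (107, 98, 7), (109, 90, 7), (109, 102, 8), (113, 82, 6),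
  (127, 104, 8), (127, 110, 8), (127, 112, 9), (137, 76, 6), (137, 94, 7), (137, 114, 9),
  (139, 78, 6), (139, 136, 11), (149, 96, 8), (149, 128, 10), (149, 140, 11), (151, 106, 8),
  (163, 124, 10), (163, 144, 12), (163, 148, 12), (163, 154, 12), (163, 158, 12), (179, 100, 8),
  (179, 118, 9), (179, 122, 9), (179, 176, 14), (179, 178, 14), (179, 182, 14), (193, 170, 13),
  (193, 172, 14), (197, 146, 11), (199, 152, 12), (199, 194, 15), (211, 126, 10), (223, 108, 9),
  (223, 138, 11), (223, 166, 13), (227, 188, 15), (227, 192, 16), (233, 164, 13), (239, 134, 10),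
  (241, 196, 16), (241, 222, 18), (241, 238, 19), (251, 150, 12), (251, 198, 16), (251, 228, 19),
  (251, 234, 19), (263, 116, 9), (263, 180, 15), (263, 184, 15), (269, 142, 11), (269, 214, 17),
  (277, 202, 16), (277, 226, 18), (281, 130, 10), (293, 120, 10), (293, 242, 19), (307, 84, 7),
  (311, 200, 16), (311, 206, 16), (313, 168, 14), (313, 244, 20), (317, 210, 17), (331, 218, 17),
  (337, 220, 18), (347, 190, 15), (349, 230, 18), (353, 156, 13), (373, 204, 17), (379, 236, 19),
  (397, 88, 7), (439, 246, 20), (443, 174, 14), (479, 132, 11), (499, 216, 18), (569, 160, 13),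
  (599, 224, 18), (613, 186, 15), (613, 232, 19), (661, 162, 13), (743, 208, 17), (809, 254, 20),
  (823, 212, 17), (311, 284, 21), (479, 470, 34), (277, 270, 22), (283, 260, 21), (331, 310, 24),
  (347, 318, 20), (353, 350, 28), (359, 356, 28), (367, 262, 20), (373, 314, 22), (389, 330, 20),
  (389, 372, 20), (397, 328, 20), (397, 370, 27), (397, 386, 20), (409, 382, 28), (421, 404, 28),
  (431, 416, 24), (433, 376, 30), (443, 420, 23), (449, 446, 31), (457, 428, 35), (457, 436, 22),
  (457, 456, 21), (461, 426, 20), (461, 442, 26), (461, 450, 28), (461, 452, 34), (461, 454, 27),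
  (461, 460, 26), (463, 444, 32), (467, 462, 33), (467, 464, 29), (479, 468, 36), (479, 472, 36),
  (487, 478, 39), (491, 482, 20), (499, 476, 35), (499, 484, 20), (503, 490, 35), (503, 496, 25),
  (503, 498, 30), (509, 474, 33), (509, 502, 41), (521, 494, 40), (521, 504, 23), (521, 506, 22),
  (521, 510, 27), (521, 514, 24), (521, 516, 29), (521, 520, 41), (523, 522, 26), (541, 298, 22),
  (541, 500, 35), (541, 508, 20), (541, 512, 40), (541, 518, 22), (541, 538, 39), (541, 540, 29),
  (547, 534, 21), (547, 536, 27), (557, 492, 28), (571, 564, 45), (571, 570, 35), (577, 576, 26),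
  (593, 590, 39), (599, 578, 43), (599, 598, 43), (599, 600, 29), (293, 588, 23), (521, 620, 24),
  (311, 650, 21)]

theorem cov24 : covR covT 24 1 = true := by decide +kernel

theorem covc0 : covR covT 28 1000 = true := by decide +kernel

theorem covc1 : covR covT 2028 1000 = true := by decide +kernel

theorem covc2 : covR covT 4028 1000 = true := by decide +kernel

theorem covc3 : covR covT 6028 1000 = true := by decide +kernel

theorem covc4 : covR covT 8028 1000 = true := by decide +kernel

theorem covc5 : covR covT 10028 1000 = true := by decide +kernel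

theorem covc6 : covR covT 12028 1000 = true := by decide +kernel

theorem covc7 : covR covT 14028 1000 = true := by decide +kernel

theorem covc8 : covR covT 16028 1000 = true := by decide +kernel

theorem covc9 : covR covT 18028 1000 = true := by decide +kernel

theorem covc10 : covR covT 20028 1000 = true := by decide +kernel

theorem covc11 : covR covT 22028 1000 = true := by decide +kernel

theorem covc12 : covR covT 24028 1000 = true := by decide +kernel

theorem covc13 : covR covT 26028 1000 = true := by decide +kernel

theorem covc14 : covR covT 28028 1000 = true := by decide +kernel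

theorem covc15 : covR covT 30028 1000 = true := by decide +kernel

theorem covc16 : covR covT 32028 1000 = true := by decide +kernel

theorem covc17 : covR covT 34028 1000 = true := by decide +kernel

theorem covc18 : covR covT 36028 1000 = true := by decide +kernel

theorem cov_chunk (c : ℕ) (hc : c < 19) : covR covT (28 + 2000 * c) 1000 = true := by
  interval_cases c
  · exact covc0
  · exact covc1
  · exact covc2
  · exact covc3
  · exact covc4
  · exact covc5
  · exact covc6
  · exact covc7
  · exact covc8
  · exact covc9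
  · exact covc10
  · exact covc11
  · exact covc12
  · exact covc13
  · exact covc14
  · exact covc15
  · exact covc16
  · exact covc17
  · exact covc18

theorem tail_mem : (271, 256, 21) ∈ covT := by decide +kernel

/-- every even weight `k` with `nS k ≥ 2` is covered. -/
theorem cov_all (k : ℕ) (hk : Even k) (h2 : 2 ≤ nS k) :
    ∃ t ∈ covT, min (nS k) 20 ≤ t.2.2 ∧ crit t.1 t.2.1 k = true := by
  obtain ⟨a, ha⟩ := hk
  have h24 : 24 ≤ k ∧ k ≠ 26 := by
    unfold nS at h2
    omega
  rcases Nat.lt_or_ge k 38028 with h | h
  · rcases Nat.lt_or_ge k 28 with h3 | h3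
    · have : k = 24 := by omega
      subst this
      exact covR_spec cov24 0 (by norm_num)
    · obtain ⟨c, hc⟩ : ∃ c, c = (k - 28) / 2000 := ⟨_, rfl⟩
      obtain ⟨m, hm⟩ : ∃ m, m = (k - 28) % 2000 / 2 := ⟨_, rfl⟩
      have h4 := covR_spec (cov_chunk c (by omega)) m (by omega)
      have e : 28 + 2000 * c + 2 * m = k := by omega
      rwa [e] at h4
  · refine ⟨_, tail_mem, ?_, ?_⟩
    · exact (min_le_right _ _).trans (by norm_num)
    · exact crit_tail (by norm_num) (by norm_num) (by norm_num; omega)

end MP0f16e1
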