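import Pool.Agent.Work.MP_0f16e1_nt.Defs

/-! # Module `HeckeTwo` : `T₂` preserves cusp forms of level one (analytic part)

PROOF.  For `g` with positive determinant Mathlib's slash is
`(F ∣[k] g) τ = det(g)^(k-1) (cτ+d)^(-k) F (gτ)`.  Let
`A = !![2,0;0,1]`, `B₀ = !![1,0;0,2]`, `B₁ = !![1,1;0,2]` in `GL (Fin 2) ℝ` and
`G = F ∣[k] A + F ∣[k] B₀ + F ∣[k] B₁`, so `G τ = 2^(k-1) F(2τ) + ½ F(τ/2) + ½ F((τ+1)/2)`.
(1) `G ∣[k] T = G`: `A T = T² A`, `B₀ T = B₁`, `B₁ T = T B₀`.  `G ∣[k] S = G`: `A S = S B₀`,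
`B₀ S = S A`, `B₁ S = !![1,-1;2,-1] B₁`.  (`SlashAction.slash_mul`, `slash_action_eqn`.)  Then
`slash_action_generators_SL2Z` gives invariance under `SL(2,ℤ)`.
(2) holomorphic: `MDifferentiable.slash` / `CuspForm.translate`.
(3) zero at the cusps: all cusps are equivalent, so only `G → 0` at `i∞`
(`isZeroAt_iff_forall_SL2Z`, see how `ModularForm.isZeroAt_of_coeffZero_eq_zero` or
`CuspForm.discriminantEquiv` in `LevelOne/DimensionFormula.lean` do it); each of the three terms tends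
to `0` at `i∞`.  (Alternatively `CuspForm.translate` and `CuspForm.trace` of
`Mathlib/NumberTheory/ModularForms/NormTrace.lean`.)
(4) `q`-expansion: from `hasSum_qExpansion` for `F` at `2τ`, `τ/2`, `(τ+1)/2`, with
`q = exp(2πiτ)`, `q₂ = exp(πiτ)`: `F(2τ) = ∑ a(n) q^(2n)`,
`½(F(τ/2) + F((τ+1)/2)) = ½ ∑ a(n) (1 + (-1)^n) q₂^n = ∑ a(2n) q^n`; conclude with
`ModularFormClass.qExpansion_coeff_unique`.  The coefficient of `hecke ℂ k 2` at `n` is
`a(2n) + 2^(k-1) a(n/2)` if `2 ∣ n`, `a(2n)` otherwise (`gcd 2 n` is `2` or `1`). -/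

open UpperHalfPlane ModularForm ModularFormClass
open scoped MatrixGroups

namespace MP0f16e1

private noncomputable def HeckeTwo_A : GL (Fin 2) ℝ :=
  Matrix.GeneralLinearGroup.mkOfDetNeZero !![2, 0; 0, 1] (by simp [Matrix.det_fin_two])

private noncomputable def HeckeTwo_B : GL (Fin 2) ℝ :=
  Matrix.GeneralLinearGroup.mkOfDetNeZero !![1, 0; 0, 2] (by simp [Matrix.det_fin_two])

private noncomputable def HeckeTwo_C : GL (Fin 2) ℝ :=
  Matrix.GeneralLinearGroup.mkOfDetNeZero !![1, 1; 0, 2] (by simp [Matrix.det_fin_two])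

private lemma HeckeTwo_val (γ : SL(2, ℤ)) :
    ((γ : GL (Fin 2) ℝ) : Matrix (Fin 2) (Fin 2) ℝ) = (γ : Matrix (Fin 2) (Fin 2) ℤ).map (fun x : ℤ => (x : ℝ)) := by
  ext i j
  rfl

private lemma HeckeTwo_T : (((ModularGroup.T : SL(2, ℤ)) : GL (Fin 2) ℝ) : Matrix (Fin 2) (Fin 2) ℝ) =
    !![1, 1; 0, 1] := by
  rw [HeckeTwo_val]
  ext i j
  fin_cases i <;> fin_cases j <;> simp [ModularGroup.T]

private lemma HeckeTwo_S : (((ModularGroup.S : SL(2, ℤ)) : GL (Fin 2) ℝ) : Matrix (Fin 2) (Fin 2) ℝ) =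
    !![0, -1; 1, 0] := by
  rw [HeckeTwo_val]
  ext i j
  fin_cases i <;> fin_cases j <;> simp [ModularGroup.S]

private lemma HeckeTwo_AT : HeckeTwo_A * ((ModularGroup.T : SL(2, ℤ)) : GL (Fin 2) ℝ) =
    ((ModularGroup.T : SL(2, ℤ)) : GL (Fin 2) ℝ) * (((ModularGroup.T : SL(2, ℤ)) : GL (Fin 2) ℝ) *
      HeckeTwo_A) := by
  apply Units.ext
  rw [Units.val_mul, Units.val_mul, Units.val_mul, HeckeTwo_T]
  ext i j
  fin_cases i <;> fin_cases j <;>
    simp [HeckeTwo_A, Matrix.mul_apply, Fin.sum_univ_two]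
  norm_num

private lemma HeckeTwo_BT : HeckeTwo_B * ((ModularGroup.T : SL(2, ℤ)) : GL (Fin 2) ℝ) = HeckeTwo_C := by
  apply Units.ext
  rw [Units.val_mul, HeckeTwo_T]
  ext i j
  fin_cases i <;> fin_cases j <;>
    simp [HeckeTwo_B, HeckeTwo_C, Matrix.mul_apply, Fin.sum_univ_two]

private lemma HeckeTwo_CT : HeckeTwo_C * ((ModularGroup.T : SL(2, ℤ)) : GL (Fin 2) ℝ) =
    ((ModularGroup.T : SL(2, ℤ)) : GL (Fin 2) ℝ) * HeckeTwo_B := by
  apply Units.ext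
  rw [Units.val_mul, Units.val_mul, HeckeTwo_T]
  ext i j
  fin_cases i <;> fin_cases j <;>
    simp [HeckeTwo_B, HeckeTwo_C, Matrix.mul_apply, Fin.sum_univ_two]
  norm_num

private lemma HeckeTwo_AS : HeckeTwo_A * ((ModularGroup.S : SL(2, ℤ)) : GL (Fin 2) ℝ) =
    ((ModularGroup.S : SL(2, ℤ)) : GL (Fin 2) ℝ) * HeckeTwo_B := by
  apply Units.ext
  rw [Units.val_mul, Units.val_mul, HeckeTwo_S]
  ext i j
  fin_cases i <;> fin_cases j <;>
    simp [HeckeTwo_A, HeckeTwo_B, Matrix.mul_apply, Fin.sum_univ_two]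

private lemma HeckeTwo_BS : HeckeTwo_B * ((ModularGroup.S : SL(2, ℤ)) : GL (Fin 2) ℝ) =
    ((ModularGroup.S : SL(2, ℤ)) : GL (Fin 2) ℝ) * HeckeTwo_A := by
  apply Units.ext
  rw [Units.val_mul, Units.val_mul, HeckeTwo_S]
  ext i j
  fin_cases i <;> fin_cases j <;>
    simp [HeckeTwo_A, HeckeTwo_B, Matrix.mul_apply, Fin.sum_univ_two]

private def HeckeTwo_M : SL(2, ℤ) := ⟨!![1, -1; 2, -1], by simp [Matrix.det_fin_two]⟩

private lemma HeckeTwo_CS : HeckeTwo_C * ((ModularGroup.S : SL(2, ℤ)) : GL (Fin 2) ℝ) =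
    (HeckeTwo_M : GL (Fin 2) ℝ) * HeckeTwo_C := by
  apply Units.ext
  rw [Units.val_mul, Units.val_mul, HeckeTwo_S, HeckeTwo_val]
  ext i j
  fin_cases i <;> fin_cases j <;>
    simp [HeckeTwo_C, HeckeTwo_M, Matrix.mul_apply, Fin.sum_univ_two]
  norm_num

variable {k : ℤ}

private noncomputable def HeckeTwo_G (k : ℤ) (f : ℍ → ℂ) : ℍ → ℂ :=
  f ∣[k] HeckeTwo_A + f ∣[k] HeckeTwo_B + f ∣[k] HeckeTwo_C

private lemma HeckeTwo_inv {f : ℍ → ℂ} (hf : ∀ γ : SL(2, ℤ), f ∣[k] (γ : GL (Fin 2) ℝ) = f) :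
    ∀ γ : SL(2, ℤ), HeckeTwo_G k f ∣[k] γ = HeckeTwo_G k f := by
  apply SlashInvariantForm.slash_action_generators_SL2Z
  · rw [SL_slash]
    unfold HeckeTwo_G
    rw [SlashAction.add_slash, SlashAction.add_slash, ← SlashAction.slash_mul,
      ← SlashAction.slash_mul, ← SlashAction.slash_mul, HeckeTwo_AS, HeckeTwo_BS, HeckeTwo_CS,
      SlashAction.slash_mul, SlashAction.slash_mul, SlashAction.slash_mul, hf, hf]
    ring
  · rw [SL_slash]
    unfold HeckeTwo_G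
    rw [SlashAction.add_slash, SlashAction.add_slash, ← SlashAction.slash_mul,
      ← SlashAction.slash_mul, ← SlashAction.slash_mul, HeckeTwo_AT, HeckeTwo_BT, HeckeTwo_CT,
      SlashAction.slash_mul, SlashAction.slash_mul, SlashAction.slash_mul, hf, hf]
    ring

private noncomputable def HeckeTwo_form (F : CuspForm 𝒮ℒ k) : CuspForm 𝒮ℒ k where
  toFun := HeckeTwo_G k F
  slash_action_eq' := fun _ ⟨γ, hγ⟩ ↦ hγ ▸ HeckeTwo_inv
    (fun γ => SlashInvariantForm.slash_action_eqn F _ ⟨γ, rfl⟩) γ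
  holo' := by
    have h := CuspFormClass.holo F
    exact ((h.slash k _).add (h.slash k _)).add (h.slash k _)
  zero_at_cusps' {c} hc := by
    rw [Subgroup.IsArithmetic.isCusp_iff_isCusp_SL2Z] at hc
    rw [OnePoint.isZeroAt_iff_forall_SL2Z hc]
    intro γ _
    rw [HeckeTwo_inv (fun γ => SlashInvariantForm.slash_action_eqn F _ ⟨γ, rfl⟩)]
    have h0 : IsZeroAtImInfty F := CuspFormClass.zero_at_infty F
    refine ((h0.slash k ?_).add (h0.slash k ?_)).add (h0.slash k ?_)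
    · simp [HeckeTwo_A]
    · simp [HeckeTwo_B]
    · simp [HeckeTwo_C]

private lemma HeckeTwo_coeA (τ : ℍ) : ((HeckeTwo_A • τ : ℍ) : ℂ) = 2 * τ := by
  rw [coe_smul_of_det_pos (by simp [HeckeTwo_A])]
  simp [HeckeTwo_A, num, denom]

private lemma HeckeTwo_coeB (τ : ℍ) : ((HeckeTwo_B • τ : ℍ) : ℂ) = τ / 2 := by
  rw [coe_smul_of_det_pos (by simp [HeckeTwo_B])]
  simp [HeckeTwo_B, num, denom]

private lemma HeckeTwo_coeC (τ : ℍ) : ((HeckeTwo_C • τ : ℍ) : ℂ) = (τ + 1) / 2 := by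
  rw [coe_smul_of_det_pos (by simp [HeckeTwo_C])]
  simp [HeckeTwo_C, num, denom]

private lemma HeckeTwo_slA (f : ℍ → ℂ) (τ : ℍ) :
    (f ∣[k] HeckeTwo_A) τ = 2 ^ (k - 1) * f (HeckeTwo_A • τ) := by
  rw [slash_apply]
  simp [HeckeTwo_A, denom, σ]
  ring

private lemma HeckeTwo_slB (f : ℍ → ℂ) (τ : ℍ) :
    (f ∣[k] HeckeTwo_B) τ = 2⁻¹ * f (HeckeTwo_B • τ) := by
  rw [slash_apply]
  have h : (2 : ℂ) ^ (k - 1) * (2 ^ k)⁻¹ = 2⁻¹ := by
    rw [zpow_sub₀ two_ne_zero, zpow_one]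
    have : (2 : ℂ) ^ k ≠ 0 := zpow_ne_zero _ two_ne_zero
    field_simp
  simp [HeckeTwo_B, denom, σ]
  rw [mul_assoc, h, mul_comm]

private lemma HeckeTwo_slC (f : ℍ → ℂ) (τ : ℍ) :
    (f ∣[k] HeckeTwo_C) τ = 2⁻¹ * f (HeckeTwo_C • τ) := by
  rw [slash_apply]
  have h : (2 : ℂ) ^ (k - 1) * (2 ^ k)⁻¹ = 2⁻¹ := by
    rw [zpow_sub₀ two_ne_zero, zpow_one]
    have : (2 : ℂ) ^ k ≠ 0 := zpow_ne_zero _ two_ne_zero
    field_simp
  simp [HeckeTwo_C, denom, σ]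
  rw [mul_assoc, h, mul_comm]

private lemma HeckeTwo_qA (τ : ℍ) : Function.Periodic.qParam 1 ((HeckeTwo_A • τ : ℍ) : ℂ) =
    Function.Periodic.qParam 1 (τ : ℂ) ^ 2 := by
  rw [HeckeTwo_coeA, Function.Periodic.qParam, Function.Periodic.qParam, ← Complex.exp_nat_mul]
  congr 1
  push_cast
  ring

private lemma HeckeTwo_qB (τ : ℍ) : Function.Periodic.qParam 1 ((HeckeTwo_B • τ : ℍ) : ℂ) ^ 2 =
    Function.Periodic.qParam 1 (τ : ℂ) := by
  rw [HeckeTwo_coeB, Function.Periodic.qParam, Function.Periodic.qParam, ← Complex.exp_nat_mul]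
  congr 1
  push_cast
  ring

private lemma HeckeTwo_qC (τ : ℍ) : Function.Periodic.qParam 1 ((HeckeTwo_C • τ : ℍ) : ℂ) =
    - Function.Periodic.qParam 1 ((HeckeTwo_B • τ : ℍ) : ℂ) := by
  rw [HeckeTwo_coeB, HeckeTwo_coeC, Function.Periodic.qParam, Function.Periodic.qParam]
  rw [← mul_neg_one, ← Complex.exp_pi_mul_I, ← Complex.exp_add]
  congr 1
  push_cast
  ring

private lemma HeckeTwo_even {a : ℕ → ℂ} {r x y : ℂ} (hx : HasSum (fun n => a n * r ^ n) x)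
    (hy : HasSum (fun n => a n * (-r) ^ n) y) :
    HasSum (fun n => a (2 * n) * (r ^ 2) ^ n) (2⁻¹ * x + 2⁻¹ * y) := by
  have h1 := (hx.mul_left 2⁻¹).add (hy.mul_left 2⁻¹)
  have hinj : Function.Injective fun n : ℕ => 2 * n := fun a b h => by
    simpa using h
  rw [← hinj.hasSum_iff] at h1
  · convert! h1 using 1
    funext n
    simp only [Function.comp_apply, pow_mul, neg_sq]
    ring
  · intro n hn
    have hodd : Odd n := by
      rw [← Nat.not_even_iff_odd]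
      rintro ⟨m, hm⟩
      exact hn ⟨m, by simp only; omega⟩
    rw [hodd.neg_pow]
    ring

private lemma HeckeTwo_double {a : ℕ → ℂ} {q x : ℂ} (c : ℂ)
    (hx : HasSum (fun n => a n * (q ^ 2) ^ n) x) :
    HasSum (fun n => (if 2 ∣ n then c * a (n / 2) else 0) * q ^ n) (c * x) := by
  have hinj : Function.Injective fun n : ℕ => 2 * n := fun a b h => by
    simpa using h
  rw [← hinj.hasSum_iff]
  · convert! hx.mul_left c using 1
    funext n
    simp only [Function.comp_apply, pow_mul]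
    rw [if_pos (Dvd.intro _ rfl), Nat.mul_div_cancel_left _ two_pos]
    ring
  · intro n hn
    rw [if_neg, zero_mul]
    rintro ⟨m, hm⟩
    exact hn ⟨m, hm.symm⟩

private lemma HeckeTwo_coeff (k : ℕ) (f : PowerSeries ℂ) (n : ℕ) :
    (hecke ℂ k 2 f).coeff n =
      (if 2 ∣ n then 2 ^ (k - 1) * f.coeff (n / 2) else 0) + f.coeff (2 * n) := by
  simp only [hecke, LinearMap.coe_mk, AddHom.coe_mk, PowerSeries.coeff_mk]
  split_ifs with h
  · rw [Nat.gcd_eq_left h, Nat.Prime.divisors Nat.prime_two, Finset.sum_pair (by norm_num)]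
    have h2 : 2 * n / 2 ^ 2 = n / 2 := by
      omega
    rw [h2]
    simp
    ring
  · have h1 : Nat.gcd 2 n = 1 := (Nat.Prime.coprime_iff_not_dvd Nat.prime_two).2 h
    rw [h1]
    simp

theorem hecke_two (k : ℕ) (hk : 1 ≤ k) (F : CuspForm 𝒮ℒ (k : ℤ)) :
    ∃ G : CuspForm 𝒮ℒ (k : ℤ), qExpansion 1 G = hecke ℂ k 2 (qExpansion 1 F) := by
  refine ⟨HeckeTwo_form F, ?_⟩
  ext m
  symm
  refine ModularFormClass.qExpansion_coeff_unique (f := HeckeTwo_form F)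
    (c := fun m => (hecke ℂ k 2 (qExpansion 1 F)).coeff m) one_pos one_mem_strictPeriods_SL ?_ m
  intro τ
  have hF : ∀ σ : ℍ, HasSum (fun m : ℕ => (qExpansion 1 F).coeff m *
      Function.Periodic.qParam 1 (σ : ℂ) ^ m) (F σ) := fun σ =>
    ModularForm.hasSum_qExpansion (h := 1) F one_pos one_mem_strictPeriods_SL σ
  have hA := hF (HeckeTwo_A • τ)
  have hB := hF (HeckeTwo_B • τ)
  have hC := hF (HeckeTwo_C • τ)
  rw [HeckeTwo_qA] at hA
  rw [HeckeTwo_qC] at hC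
  have h1 := HeckeTwo_even hB hC
  rw [HeckeTwo_qB] at h1
  have h2 := (HeckeTwo_double (2 ^ (k - 1)) hA).add h1
  have h3 : (HeckeTwo_form F) τ = 2 ^ (k - 1) * F (HeckeTwo_A • τ) +
      (2⁻¹ * F (HeckeTwo_B • τ) + 2⁻¹ * F (HeckeTwo_C • τ)) := by
    change HeckeTwo_G (k : ℤ) F τ = _
    unfold HeckeTwo_G
    rw [Pi.add_apply, Pi.add_apply, HeckeTwo_slA, HeckeTwo_slB, HeckeTwo_slC,
      show ((k : ℤ) - 1) = ((k - 1 : ℕ) : ℤ) by omega, zpow_natCast, add_assoc]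
  rw [h3]
  convert! h2 using 1
  funext n
  rw [HeckeTwo_coeff, smul_eq_mul, add_mul]

end MP0f16e1
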