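import Pool.Agent.Work.MP_0f16e1_nt.Bridge
import Pool.Agent.Work.MP_0f16e1_nt.HeckeTwo

/-! # Module `HeckeInt` : `T₂` preserves `SF R k` for every ring `R`

PROOF.  `T2_coeff`: `gcd 2 n ∈ {1, 2}`.  `T2_map`: coefficientwise.  `T2_mem`: for `k` odd or
`k < 12` the space is `⊥`; else by linearity it suffices to treat `mono R j a b = (mono ℤ j a b).map`,
so by `T2_map` and `SF_map` it suffices to treat `R = ℤ`, and by `SF_sat` (`ℤ → ℂ` injective)
`R = ℂ`: there `exists_cusp`, `hecke_two`, `cusp_mem`. -/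

open PowerSeries

namespace MP0f16e1

theorem T2_coeff (R : Type*) [CommRing R] (k n : ℕ) (f : PowerSeries R) :
    coeff n (T2 R k f) = coeff (2 * n) f + 2 ^ (k - 1) * (if 2 ∣ n then coeff (n / 2) f else 0) := by
  have h1 : coeff n (T2 R k f) = ∑ d ∈ (Nat.gcd 2 n).divisors, (d : R) ^ (k - 1) *
      PowerSeries.coeff (2 * n / d ^ 2) f := by
    simp [T2, hecke]
  rw [h1]
  by_cases h : 2 ∣ n
  · rw [if_pos h, Nat.gcd_eq_left h, Nat.prime_two.divisors, Finset.sum_pair (by norm_num)]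
    obtain ⟨m, rfl⟩ := h
    have h2 : 2 * (2 * m) / 2 ^ 2 = 2 * m / 2 := by omega
    rw [h2]
    norm_num
  · rw [if_neg h]
    have h3 : Nat.gcd 2 n = 1 := by
      have : Nat.Coprime 2 n := (Nat.Prime.coprime_iff_not_dvd Nat.prime_two).mpr h
      exact this
    rw [h3]
    simp

theorem T2_map {R R' : Type*} [CommRing R] [CommRing R'] (φ : R →+* R') (k : ℕ)
    (f : PowerSeries R) : (T2 R k f).map φ = T2 R' k (f.map φ) := by
  ext n
  rw [PowerSeries.coeff_map, T2_coeff, T2_coeff]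
  simp only [map_add, map_mul, map_pow, map_ofNat, PowerSeries.coeff_map]
  congr 2
  split_ifs <;> simp

theorem T2_mem (R : Type*) [CommRing R] {k : ℕ} {f : PowerSeries R} (hf : f ∈ SF R k) :
    T2 R k f ∈ SF R k := by
  -- reduce to the complex numbers
  have hC : ∀ {j a b : ℕ}, 1 ≤ j → 12 * j + 4 * a + 6 * b = k → T2 ℂ k (mono ℂ j a b) ∈ SF ℂ k := by
    intro j a b hj hk
    have he : Even k := by rw [← hk]; exact ⟨6 * j + 2 * a + 3 * b, by ring⟩
    obtain ⟨F, hF⟩ := exists_cusp k (f := mono ℂ j a b)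
      (Submodule.subset_span ⟨j, a, b, hj, hk, rfl⟩)
    obtain ⟨G, hG⟩ := hecke_two k (by omega) F
    have h1 := cusp_mem k he G
    rw [hG, hF] at h1
    exact h1
  have hZ : ∀ {j a b : ℕ}, 1 ≤ j → 12 * j + 4 * a + 6 * b = k → T2 ℤ k (mono ℤ j a b) ∈ SF ℤ k := by
    intro j a b hj hk
    refine SF_sat (Int.castRingHom ℂ) (RingHom.injective_int _) ?_
    rw [T2_map, mono_map]
    exact hC hj hk
  induction hf using Submodule.span_induction with
  | mem x hx =>
    obtain ⟨j, a, b, hj, hk, rfl⟩ := hx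
    rw [← mono_map (Int.castRingHom R), ← T2_map]
    exact SF_map _ (hZ hj hk)
  | zero => rw [map_zero]; exact Submodule.zero_mem _
  | add x y _ _ hx hy => rw [map_add]; exact Submodule.add_mem _ hx hy
  | smul c x _ hx => rw [map_smul]; exact Submodule.smul_mem _ _ hx

end MP0f16e1
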