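import Pool.Agent.Work.MP_0f16e1_nt.EngA
import Pool.Agent.Work.MP_0f16e1_nt.HeckeInt

/-! # Module `EngC` : packed `T₂`, elimination, Krylov loop

PROOF.  `t2P_rep`: `Rep.of_pk` with `T2_coeff` and `Rep.dig`.  `elimP_rep`: induction on `fs`
(`frc_eq`, `Rep.add_mul`; `c < l`, so the bound grows by at most `l * (l-1) ≤ l * l` per step).
`stepP_spec`: the result `x'` represents an element `v` of `SF w` (`elimP_rep` with `acc = 0`,
`Rep.red`), and if the check `x' % B^(n+1) = y` succeeds then the coefficients `0..n` of `v` are those of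
`T₂ f` (`Rep.coeff_eq`), so `v = T₂ f` by `SF_ext` (`n = nS w`, `T2_mem`).  `kryP_spec`: induction on
`ps`; general statement with accumulators: `tot` represents `u`, `x` represents `T^i f`, ...; note
`aeval T (ofL l ps) f = ∑ ps_i T^i f + T^r f` (`ofL`, `lowL`; `lowL l (c :: ps) = C c + X * lowL l ps`). -/

open PowerSeries

namespace MP0f16e1

/-- the numerical condition on the base. -/
def Good (B l n : ℕ) : Prop := 8 * (n + 1) * (l * l) < B

variable {B l : ℕ}

theorem t2P_rep {n w t x : ℕ} {f : PowerSeries (ZMod l)} (hl : 0 < l) (hB : l < B)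
    (H : Rep B l (2 * n + 1) (l - 1) x f) (ht : t = 2 ^ (w - 1) % l) :
    Rep B l (n + 1) (l - 1) (t2P B l n t x) (T2 (ZMod l) w f) := by
  refine Rep.of_pk (fun i => ?_) (fun i hi => ?_)
  · have := Nat.mod_lt (x / B ^ (2 * i) % B + t * (if i % 2 = 0 then x / B ^ (i / 2) % B else 0)) hl
    omega
  · rw [T2_coeff, ZMod.natCast_mod]
    have hM : l - 1 < B := by omega
    rw [H.dig hM (show 2 * i < 2 * n + 1 by omega)]
    have ht' : (t : ZMod l) = 2 ^ (w - 1) := by
      rw [ht, ZMod.natCast_mod]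
      push_cast
      rfl
    push_cast
    rw [ht']
    by_cases h : 2 ∣ i
    · rw [if_pos h, if_pos (Nat.mod_eq_zero_of_dvd h), H.dig hM (show i / 2 < 2 * n + 1 by omega)]
    · rw [if_neg h, if_neg (fun h' => h (Nat.dvd_of_mod_eq_zero h'))]

theorem elimP_rep {N M : ℕ} (hl : 0 < l) (V : Submodule (ZMod l) (PowerSeries (ZMod l))) (y : ℕ)
    (fs : List ℕ) (hfs : ∀ x ∈ fs, ∃ v ∈ V, Rep B l N (l - 1) x v) (j acc : ℕ)
    (hacc : ∃ v ∈ V, Rep B l N M acc v) :
    ∃ v ∈ V, Rep B l N (M + fs.length * (l * l)) (elimP B l y fs j acc) v := by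
  induction fs generalizing j acc M with
  | nil =>
    obtain ⟨v, hv, h⟩ := hacc
    exact ⟨v, hv, h.mono (by simp)⟩
  | cons f fs ih =>
    have e : elimP B l y (f :: fs) j acc =
        frc ((y / B ^ j % B + (l - acc / B ^ j % B % l)) % l) fun c =>
          frc (acc + c * f) fun acc' => elimP B l y fs (Nat.succ j) acc' := rfl
    rw [e, frc_eq, frc_eq]
    set c := (y / B ^ j % B + (l - acc / B ^ j % B % l)) % l with hc
    have hcl : c < l := Nat.mod_lt _ hl
    obtain ⟨v, hv, h⟩ := hacc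
    obtain ⟨u, hu, h'⟩ := hfs f List.mem_cons_self
    have h2 := (h.add_mul h' c).mono (M' := M + l * l)
      (Nat.add_le_add_left (Nat.mul_le_mul hcl.le (Nat.sub_le l 1)) M)
    obtain ⟨w, hw, h3⟩ := ih (fun x hx => hfs x (List.mem_cons_of_mem _ hx)) (Nat.succ j)
      (acc + c * f) ⟨_, V.add_mem hv (V.smul_mem _ hu), h2⟩
    refine ⟨w, hw, h3.mono (le_of_eq ?_)⟩
    rw [List.length_cons]
    ring

private theorem engC_ltL_cons {l c : ℕ} {cs : List ℕ} (h : ltL l (c :: cs) = true) :
    c < l ∧ ltL l cs = true := by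
  have e : ltL l (c :: cs) = match Nat.blt c l with | true => ltL l cs | false => false := rfl
  rw [e] at h
  cases hb : Nat.blt c l with
  | true =>
    rw [hb] at h
    rw [Nat.blt_eq] at hb
    exact ⟨hb, h⟩
  | false =>
    rw [hb] at h
    exact absurd h Bool.false_ne_true

theorem combP_rep {N M : ℕ} (hl : 0 < l) (V : Submodule (ZMod l) (PowerSeries (ZMod l)))
    (fs : List ℕ) (hfs : ∀ x ∈ fs, ∃ v ∈ V, Rep B l N (l - 1) x v) (cs : List ℕ)
    (hcs : ltL l cs = true) (acc : ℕ) (hacc : ∃ v ∈ V, Rep B l N M acc v) :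
    ∃ v ∈ V, Rep B l N (M + fs.length * (l * l)) (combP fs cs acc) v := by
  induction fs generalizing cs acc M with
  | nil =>
    obtain ⟨v, hv, h⟩ := hacc
    exact ⟨v, hv, h.mono (by simp)⟩
  | cons f fs ih =>
    cases cs with
    | nil =>
      obtain ⟨v, hv, h⟩ := hacc
      exact ⟨v, hv, h.mono (Nat.le_add_right _ _)⟩
    | cons c cs =>
      have e : combP (f :: fs) (c :: cs) acc = frc (acc + c * f) fun acc' => combP fs cs acc' := rfl
      rw [e, frc_eq]
      obtain ⟨hcl, hcs'⟩ := engC_ltL_cons hcs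
      obtain ⟨v, hv, h⟩ := hacc
      obtain ⟨u, hu, h'⟩ := hfs f List.mem_cons_self
      have h2 := (h.add_mul h' c).mono (M' := M + l * l)
        (Nat.add_le_add_left (Nat.mul_le_mul hcl.le (Nat.sub_le l 1)) M)
      obtain ⟨w, hw, h3⟩ := ih (fun x hx => hfs x (List.mem_cons_of_mem _ hx)) cs hcs'
        (acc + c * f) ⟨_, V.add_mem hv (V.smul_mem _ hu), h2⟩
      refine ⟨w, hw, h3.mono (le_of_eq ?_)⟩
      rw [List.length_cons]
      ring

private theorem engC_zero (B l N : ℕ) : Rep B l N 0 0 (0 : PowerSeries (ZMod l)) :=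
  ⟨fun _ => 0, fun _ => le_rfl, by simp, fun i _ => by simp⟩

theorem stepP_spec {α : Type} [Fact l.Prime] {w n t x : ℕ} {f : PowerSeries (ZMod l)}
    (hn : n = nS w) (ht : t = 2 ^ (w - 1) % l) (hG : Good B l n) (fs : List ℕ)
    (hfs : ∀ x ∈ fs, ∃ v ∈ SF (ZMod l) w, Rep B l (2 * n + 1) (l - 1) x v) (hlen : fs.length ≤ n)
    (hf : f ∈ SF (ZMod l) w) (H : Rep B l (2 * n + 1) (l - 1) x f) (bad : α) (k : ℕ → α) :
    stepP B l n t fs x bad k = bad ∨
      ∃ x', stepP B l n t fs x bad k = k x' ∧ Rep B l (2 * n + 1) (l - 1) x' (T2 (ZMod l) w f) := by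
  have hl : 0 < l := (Fact.out : l.Prime).pos
  have hll : l ≤ l * l := Nat.le_mul_of_pos_left l hl
  have hG' : 8 * (n + 1) * (l * l) < B := hG
  have hB1 : n * (l * l) < B := lt_of_le_of_lt (Nat.mul_le_mul_right _ (by omega)) hG'
  have hB2 : l < B := by nlinarith
  have e : stepP B l n t fs x bad k = frc (t2P B l n t x) fun y =>
      frc (red B l (2 * n + 1) (elimP B l y fs 1 0)) fun x' =>
      match Nat.beq (x' % B ^ (n + 1)) y with
      | true => k x'
      | false => bad := rfl
  rw [e, frc_eq, frc_eq]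
  set y := t2P B l n t x with hy
  have hyR : Rep B l (n + 1) (l - 1) y (T2 (ZMod l) w f) := t2P_rep hl hB2 H ht
  obtain ⟨v, hv, hvR⟩ := elimP_rep (N := 2 * n + 1) hl (SF (ZMod l) w) y fs hfs 1 0
    ⟨0, Submodule.zero_mem _, engC_zero B l _⟩
  have hb : 0 + fs.length * (l * l) < B := by
    rw [zero_add]
    exact lt_of_le_of_lt (Nat.mul_le_mul_right _ hlen) hB1
  have hR := hvR.red hb hl le_rfl
  set x' := red B l (2 * n + 1) (elimP B l y fs 1 0) with hx'
  cases hq : Nat.beq (x' % B ^ (n + 1)) y with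
  | false => exact Or.inl rfl
  | true =>
    right
    refine ⟨x', rfl, ?_⟩
    have hq' : x' % B ^ (n + 1) = y := Nat.eq_of_beq_eq_true hq
    have hvT : v - T2 (ZMod l) w f = 0 := by
      refine SF_ext (ZMod l) (Submodule.sub_mem _ hv (T2_mem (ZMod l) hf)) fun i _ hi => ?_
      rw [map_sub, sub_eq_zero]
      exact hR.coeff_eq (by omega) (by omega) hyR (by omega) hq' (by omega)
    rw [sub_eq_zero] at hvT
    rw [← hvT]
    exact hR

private theorem engC_ofL_cons (l c : ℕ) (ps : List ℕ) :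
    ofL l (c :: ps) = Polynomial.C (c : ZMod l) + ofL l ps * Polynomial.X := by
  unfold ofL
  show Polynomial.X ^ (ps.length + 1) + (Polynomial.C (c : ZMod l) + Polynomial.X * lowL l ps) = _
  ring

theorem kryP_spec [Fact l.Prime] {w n t x : ℕ} {f : PowerSeries (ZMod l)}
    (hn : n = nS w) (ht : t = 2 ^ (w - 1) % l) (hG : Good B l n) (fs : List ℕ)
    (hfs : ∀ x ∈ fs, ∃ v ∈ SF (ZMod l) w, Rep B l (2 * n + 1) (l - 1) x v) (hlen : fs.length ≤ n)
    (hf : f ∈ SF (ZMod l) w) (H : Rep B l (2 * n + 1) (l - 1) x f) (ps : List ℕ)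
    (hps : ltL l ps = true) (hps' : ps.length ≤ n) (k : List ℕ → ℕ → Bool)
    (hk : kryP B l n t fs ps x 0 [] k = true) :
    ∃ (xs : List ℕ) (tot : ℕ), k xs tot = true ∧
      (∀ z ∈ xs, ∃ i : ℕ, Rep B l (2 * n + 1) (l - 1) z ((T2 (ZMod l) w ^ i) f)) ∧
      Rep B l (2 * n + 1) ((n + 1) * (l * l)) tot
        (Polynomial.aeval (T2 (ZMod l) w) (ofL l ps) f) := by
  have hl : 0 < l := (Fact.out : l.Prime).pos
  have hll : l ≤ l * l := Nat.le_mul_of_pos_left l hl
  have hTmem : ∀ i : ℕ, (T2 (ZMod l) w ^ i) f ∈ SF (ZMod l) w := by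
    intro i
    induction i with
    | zero => simpa using hf
    | succ i ih =>
      rw [pow_succ', Module.End.mul_apply]
      exact T2_mem (ZMod l) ih
  have key : ∀ (ps : List ℕ), ltL l ps = true → ∀ (x tot : ℕ) (acc : List ℕ) (i M : ℕ)
      (u : PowerSeries (ZMod l)),
      Rep B l (2 * n + 1) (l - 1) x ((T2 (ZMod l) w ^ i) f) → Rep B l (2 * n + 1) M tot u →
      (∀ z ∈ acc, ∃ i : ℕ, Rep B l (2 * n + 1) (l - 1) z ((T2 (ZMod l) w ^ i) f)) →
      kryP B l n t fs ps x tot acc k = true →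
      ∃ (xs : List ℕ) (tot' : ℕ), k xs tot' = true ∧
        (∀ z ∈ xs, ∃ i : ℕ, Rep B l (2 * n + 1) (l - 1) z ((T2 (ZMod l) w ^ i) f)) ∧
        Rep B l (2 * n + 1) (M + (ps.length + 1) * (l * l)) tot'
          (u + Polynomial.aeval (T2 (ZMod l) w) (ofL l ps) ((T2 (ZMod l) w ^ i) f)) := by
    intro ps
    induction ps with
    | nil =>
      intro _ x tot acc i M u hx htot hacc hk
      have e : kryP B l n t fs [] x tot acc k = frc (tot + x) fun tot' => k acc tot' := rfl
      rw [e, frc_eq] at hk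
      refine ⟨acc, tot + x, hk, hacc, ?_⟩
      have h1 := htot.add_mul hx 1
      rw [one_mul, one_mul, Nat.cast_one, one_smul] at h1
      have h2 : Polynomial.aeval (T2 (ZMod l) w) (ofL l []) = 1 := by
        have : ofL l [] = 1 := by
          unfold ofL
          show Polynomial.X ^ 0 + 0 = (1 : Polynomial (ZMod l))
          simp
        rw [this, map_one]
      rw [h2, Module.End.one_apply]
      refine h1.mono ?_
      rw [List.length_nil, zero_add, one_mul]
      omega
    | cons c ps ih =>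
      intro hps x tot acc i M u hx htot hacc hk
      obtain ⟨hcl, hps'⟩ := engC_ltL_cons hps
      have e : kryP B l n t fs (c :: ps) x tot acc k = frc (tot + c * x) fun tot' =>
          stepP B l n t fs x false fun x' => kryP B l n t fs ps x' tot' (x :: acc) k := rfl
      rw [e, frc_eq] at hk
      rcases stepP_spec hn ht hG fs hfs hlen (hTmem i) hx false
        (fun x' => kryP B l n t fs ps x' (tot + c * x) (x :: acc) k) with h | ⟨x', h, hx'⟩
      · rw [h] at hk
        exact absurd hk Bool.false_ne_true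
      · rw [h] at hk
        have hx'' : Rep B l (2 * n + 1) (l - 1) x' ((T2 (ZMod l) w ^ (i + 1)) f) := by
          rw [pow_succ', Module.End.mul_apply]
          exact hx'
        have htot' := (htot.add_mul hx c).mono (M' := M + l * l)
          (Nat.add_le_add_left (Nat.mul_le_mul hcl.le (Nat.sub_le l 1)) M)
        obtain ⟨xs, tot', hk', hxs, hR⟩ := ih hps' x' (tot + c * x) (x :: acc) (i + 1) (M + l * l)
          _ hx'' htot' (by
            intro z hz
            rcases List.mem_cons.1 hz with rfl | hz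
            · exact ⟨i, hx⟩
            · exact hacc z hz) hk
        refine ⟨xs, tot', hk', hxs, ?_⟩
        have e2 : u + Polynomial.aeval (T2 (ZMod l) w) (ofL l (c :: ps)) ((T2 (ZMod l) w ^ i) f) =
            u + (c : ZMod l) • (T2 (ZMod l) w ^ i) f +
              Polynomial.aeval (T2 (ZMod l) w) (ofL l ps) ((T2 (ZMod l) w ^ (i + 1)) f) := by
          rw [engC_ofL_cons, map_add, map_mul, Polynomial.aeval_C, Polynomial.aeval_X,
            LinearMap.add_apply, Module.End.mul_apply, pow_succ', Module.End.mul_apply,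
            Module.algebraMap_end_apply, add_assoc]
        rw [e2]
        refine hR.mono (le_of_eq ?_)
        rw [List.length_cons]
        ring
  obtain ⟨xs, tot, h1, h2, h3⟩ := key ps hps x 0 [] 0 0 0 (by simpa using H) (engC_zero B l _)
    (by simp) hk
  refine ⟨xs, tot, h1, h2, ?_⟩
  rw [pow_zero, Module.End.one_apply, zero_add, zero_add] at h3
  refine h3.mono ?_
  exact Nat.mul_le_mul_right _ (by omega)

end MP0f16e1
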