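import Pool.Agent.Work.MP_0f16e1_nt.EngB
import Pool.Agent.Work.MP_0f16e1_nt.EngC

/-! # Module `EngD` : base certificates

PROOF.  Unfold `baseP` (`frc_eq`), `formsW_spec` gives the list of forms (each in `SF w` by `g_mem`),
`combP_rep` + `Rep.red` the starting vector `f ∈ SF w`, with `coeff 1 f = 1` (`Rep.dig`), `kryP_spec`
the vector `p(T₂) f ∈ SF w` whose coefficients `0..n` vanish (`Rep.coeff_zero`), so it is `0` (`SF_ext`).
`ofL l ps` has degree `ps.length` (`X^r + lower terms`, `natDegree (lowL l ps) < r` for `r ≥ 1`). -/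

open PowerSeries

namespace MP0f16e1

private theorem engD_lowL (l : ℕ) (ps : List ℕ) :
    (lowL l ps).degree < (ps.length : WithBot ℕ) := by
  induction ps with
  | nil =>
    show (0 : Polynomial (ZMod l)).degree < _
    rw [Polynomial.degree_zero]
    exact WithBot.bot_lt_coe 0
  | cons c ps ih =>
    rw [Polynomial.degree_lt_iff_coeff_zero] at ih ⊢
    intro m hm
    rw [List.length_cons] at hm
    obtain ⟨k, rfl⟩ : ∃ k, m = k + 1 := ⟨m - 1, by omega⟩
    show (Polynomial.C (c : ZMod l) + Polynomial.X * lowL l ps).coeff (k + 1) = 0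
    rw [Polynomial.coeff_add, Polynomial.coeff_C_succ, Polynomial.coeff_X_mul, zero_add]
    exact ih k (by omega)

theorem natDegree_ofL (l : ℕ) [Fact l.Prime] (ps : List ℕ) : (ofL l ps).natDegree = ps.length := by
  unfold ofL
  have h1 : (lowL l ps).degree < ((Polynomial.X : Polynomial (ZMod l)) ^ ps.length).degree := by
    rw [Polynomial.degree_X_pow]
    exact engD_lowL l ps
  rw [Polynomial.natDegree_add_eq_left_of_degree_lt h1, Polynomial.natDegree_X_pow]

private theorem engD_zero (B l N : ℕ) : Rep B l N 0 0 (0 : PowerSeries (ZMod l)) :=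
  ⟨fun _ => 0, fun _ => le_rfl, by simp, fun i _ => by simp⟩

private theorem engD_aeval {l w : ℕ} (p : Polynomial (ZMod l)) {v : PowerSeries (ZMod l)}
    (hv : v ∈ SF (ZMod l) w) : Polynomial.aeval (T2 (ZMod l) w) p v ∈ SF (ZMod l) w := by
  induction p using Polynomial.induction_on generalizing v with
  | C a =>
    rw [Polynomial.aeval_C, Module.algebraMap_end_apply]
    exact Submodule.smul_mem _ _ hv
  | add p q hp hq =>
    rw [map_add, LinearMap.add_apply]
    exact Submodule.add_mem _ (hp hv) (hq hv)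
  | monomial n a h =>
    rw [pow_succ, ← mul_assoc, map_mul, Module.End.mul_apply, Polynomial.aeval_X]
    exact h (T2_mem (ZMod l) hv)

theorem base_of_check {B l w iv : ℕ} [Fact l.Prime] {cs ps : List ℕ} (hw : Even w)
    (hiv : 1728 * iv % l = 1) (hG : Good B l (nS w)) (hcs : ltL l cs = true)
    (hps : ltL l ps = true) (hlen : ps.length ≤ nS w) (hirr : Irreducible (ofL l ps))
    (h : baseP B l w iv cs ps = true) : Base l w ps.length := by
  have hl1 : 1 < l := (Fact.out : l.Prime).one_lt
  have hl : 0 < l := by omega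
  have hll : l ≤ l * l := Nat.le_mul_of_pos_left l hl
  have hG' : 8 * (nS w + 1) * (l * l) < B := hG
  have hB1 : (2 * nS w + 1) * (l * l) < B :=
    lt_of_le_of_lt (Nat.mul_le_mul_right _ (by omega)) hG'
  have hB2 : nS w * (l * l) < B := lt_of_le_of_lt (Nat.mul_le_mul_right _ (by omega)) hG'
  have hB3 : (nS w + 1) * (l * l) < B := lt_of_le_of_lt (Nat.mul_le_mul_right _ (by omega)) hG'
  have hlB : l < B := by nlinarith
  have e : baseP B l w iv cs ps = frc (nS w) fun n => frc (2 ^ (w - 1) % l) fun t =>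
      formsW B l (2 * n + 1) w iv fun fs =>
      frc (red B l (2 * n + 1) (combP fs cs 0)) fun x =>
      match Nat.beq (x / B % B) 1 with
      | false => false
      | true => kryP B l n t fs ps x 0 [] fun _ tot => Nat.beq (red B l (n + 1) tot) 0 := rfl
  rw [e, frc_eq, frc_eq] at h
  obtain ⟨L, hL, hF⟩ := formsW_spec (α := Bool) hl1 hw hiv hB1 (by omega) (fun fs =>
      frc (red B l (2 * nS w + 1) (combP fs cs 0)) fun x =>
      match Nat.beq (x / B % B) 1 with
      | false => false
      | true => kryP B l (nS w) (2 ^ (w - 1) % l) fs ps x 0 []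
          fun _ tot => Nat.beq (red B l (nS w + 1) tot) 0)
  rw [hL, frc_eq] at h
  have hlenL : L.length = nS w := by
    rw [hF.length_eq, List.length_range']
  have hfs : ∀ x ∈ L, ∃ v ∈ SF (ZMod l) w, Rep B l (2 * nS w + 1) (l - 1) x v := by
    intro x hx
    obtain ⟨i, hi, rfl⟩ := List.mem_iff_getElem.1 hx
    have h1 := hF.get (i := i) hi (by rw [← hF.length_eq]; exact hi)
    rw [List.get_eq_getElem, List.get_eq_getElem] at h1
    have h2 : (List.range' 1 (nS w))[i]'(by rw [← hF.length_eq]; exact hi) = 1 + i := by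
      rw [List.getElem_range']
      ring
    have h3 : i < nS w := by omega
    refine ⟨_, ?_, h1⟩
    show g (ZMod l) w ((List.range' 1 (nS w))[i]'(by rw [← hF.length_eq]; exact hi)) ∈ _
    rw [h2]
    exact g_mem (ZMod l) hw (by omega) (by omega)
  obtain ⟨v, hv, hvR⟩ := combP_rep (N := 2 * nS w + 1) hl (SF (ZMod l) w) L hfs cs hcs 0
    ⟨0, Submodule.zero_mem _, engD_zero B l _⟩
  have hb : 0 + L.length * (l * l) < B := by
    rw [zero_add, hlenL]
    exact hB2
  have hR := hvR.red hb hl le_rfl
  set x := red B l (2 * nS w + 1) (combP L cs 0) with hx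
  cases hq : Nat.beq (x / B % B) 1 with
  | false =>
    rw [hq] at h
    exact absurd h Bool.false_ne_true
  | true =>
    rw [hq] at h
    have hq' : x / B % B = 1 := Nat.eq_of_beq_eq_true hq
    have hN : 1 < 2 * nS w + 1 := by
      obtain ⟨c, h1, h2, h3⟩ := hR
      have h4 := dig_sum (B := B) (N := 2 * nS w + 1) (c := c) (fun i _ => (h1 i).trans_lt
        (by omega)) 1
      rw [← h2, pow_one, hq'] at h4
      by_contra hcon
      rw [if_neg hcon] at h4
      exact absurd h4 one_ne_zero
    have hc1 : coeff 1 v = 1 := by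
      rw [hR.dig (by omega) hN, pow_one, hq', Nat.cast_one]
    obtain ⟨xs, tot, h1, -, h3⟩ := kryP_spec rfl rfl hG L hfs hlenL.le hv hR ps hps hlen
      (fun _ tot => Nat.beq (red B l (nS w + 1) tot) 0) h
    have h4 : red B l (nS w + 1) tot = 0 := Nat.eq_of_beq_eq_true h1
    refine ⟨v, hv, hc1, ofL l ps, hirr, natDegree_ofL l ps, ?_⟩
    refine SF_ext (ZMod l) (engD_aeval _ hv) fun i _ hi => ?_
    exact h3.coeff_zero hB3 hl (by omega) h4 (by omega)

end MP0f16e1
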