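import Pool.Agent.Work.MP_0f16e1_nt.EngB
import Pool.Agent.Work.MP_0f16e1_nt.EngC
import Pool.Agent.Work.MP_0f16e1_nt.CBLem

/-! # Module `EngE` : window certificates

PROOF.  Invariant of `blksP`: a `T₂`-stable subspace `U` of `SF b` (`b` the weight, `n = nS b`) with
`SF d ≤ U`, and every `(j, z) ∈ bs` has `z` representing (to `n+1` digits, digits `≤ l-1`) an element of
`U`; `bs.length ≤ ...` (each reduction adds at most `l * l` per element of `bs`; require
`bs.length + (number of vectors still to be inserted) ≤ n`, which is the hypothesis `hlen` below).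
`redb_spec`: if `z` represents `u` to `n+1` digits with bound `M` then `redbP B l bs z` represents `u + u'` with
`u' ∈ U` with bound `M + bs.length * (l * l)`.  So `zerP B l n bs x = true` and `u ∈ SF b` give
`u ∈ U` (`Rep.coeff_zero`, `SF_ext`: `u + u' ∈ SF b` has zero coefficients `0..n`).
A block: `x` represents `v ∈ SF b` (`combP_rep`), `kryP_spec` gives `tot` representing `p(T₂) v`, and
`zerP` gives `p(T₂) v ∈ U`; put `U' = U ⊔ span (range fun i => T₂^i v)`, stable, `CB T₂ U U' 1` by
`CB_cyc`, and `insP` inserts elements of `U'` (`T₂^i v` plus elements of `U`, times a scalar).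
At the end `allzP B l n bs fs = true` gives `g_j ∈ U` for all `j`, so `U = SF b` (`SF_repr`);
`CB_add` adds up.  Start: `U = SF d ≤ SF b` (hypothesis `hle`), `gs` represents the `g_j` of weight `d` to
`n+1` digits; stability of `SF d` under `T₂^{(b)}` is the hypothesis `hst`. -/

open PowerSeries

namespace MP0f16e1

/-- every element of the pivot list represents an element of `U` -/
def EngE_Inv (B l n : ℕ) (U : Submodule (ZMod l) (PowerSeries (ZMod l))) (bs : List (ℕ × ℕ)) :
    Prop := ∀ b ∈ bs, ∃ u ∈ U, Rep B l (n + 1) (l - 1) b.2 u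

theorem EngE_Rep_zero (B l N M : ℕ) : Rep B l N M 0 (0 : PowerSeries (ZMod l)) :=
  ⟨fun _ => 0, fun _ => Nat.zero_le _, by simp, fun i _ => by simp⟩

theorem EngE_redb {B l n M z : ℕ} (hl : 0 < l) (U : Submodule (ZMod l) (PowerSeries (ZMod l)))
    {u : PowerSeries (ZMod l)} (H : Rep B l (n + 1) M z u) :
    ∀ bs : List (ℕ × ℕ), EngE_Inv B l n U bs → ∃ u' ∈ U,
      Rep B l (n + 1) (M + bs.length * (l * l)) (redbP B l bs z) (u + u') := by
  intro bs
  induction bs with
  | nil =>
    intro _
    refine ⟨0, U.zero_mem, ?_⟩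
    rw [add_zero, List.length_nil, Nat.zero_mul, Nat.add_zero]
    exact H
  | cons b bs ih =>
    intro hinv
    obtain ⟨u', hu', hR⟩ := ih fun c hc => hinv c (List.mem_cons_of_mem _ hc)
    obtain ⟨w, hw, hRw⟩ := hinv b (List.mem_cons_self)
    have e1 : redbP B l (b :: bs) z = frc (redbP B l bs z) fun z1 =>
        z1 + (l - z1 / B ^ b.1 % B % l) * b.2 := rfl
    rw [e1, frc_eq]
    set a := l - redbP B l bs z / B ^ b.1 % B % l with ha
    refine ⟨u' + (a : ZMod l) • w, U.add_mem hu' (U.smul_mem _ hw), ?_⟩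
    rw [← add_assoc]
    refine Rep.mono (Rep.add_mul hR hRw a) ?_
    rw [List.length_cons, Nat.succ_mul]
    have h1 : a ≤ l := Nat.sub_le _ _
    have h2 : a * (l - 1) ≤ l * l := Nat.mul_le_mul h1 (Nat.sub_le _ _)
    omega

theorem EngE_zer {B l b M x : ℕ} (hl : 0 < l)
    (U : Submodule (ZMod l) (PowerSeries (ZMod l))) (hU : U ≤ SF (ZMod l) b)
    {u : PowerSeries (ZMod l)} (hu : u ∈ SF (ZMod l) b) (bs : List (ℕ × ℕ))
    (hinv : EngE_Inv B l (nS b) U bs) {N : ℕ} (hN : nS b + 1 ≤ N) (H : Rep B l N M x u)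
    (hM : M + bs.length * (l * l) < B) (h : zerP B l (nS b) bs x = true) : u ∈ U := by
  have h1 := Rep.trunc H (by omega) hN
  obtain ⟨u', hu', hR⟩ := EngE_redb hl U h1 bs hinv
  have h2 : MP0f16e1.red B l (nS b + 1) (redbP B l bs (x % B ^ (nS b + 1))) = 0 :=
    Nat.eq_of_beq_eq_true h
  have h3 : u + u' = 0 := by
    refine SF_ext (ZMod l) ((SF (ZMod l) b).add_mem hu (hU hu')) fun i _ hi => ?_
    exact Rep.coeff_zero hR hM hl le_rfl h2 (by omega)
  rw [eq_neg_of_add_eq_zero_left h3]
  exact U.neg_mem hu'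

theorem EngE_allz {B l n : ℕ} {bs : List (ℕ × ℕ)} : ∀ {xs : List ℕ},
    allzP B l n bs xs = true → ∀ x ∈ xs, zerP B l n bs x = true := by
  intro xs
  induction xs with
  | nil => intro _ x hx; simp at hx
  | cons y ys ih =>
    intro h x hx
    have e1 : allzP B l n bs (y :: ys) =
        match zerP B l n bs y with | true => allzP B l n bs ys | false => false := rfl
    rw [e1] at h
    cases hy : zerP B l n bs y with
    | false => rw [hy] at h; simp at h
    | true =>
      rw [hy] at h
      rcases List.mem_cons.1 hx with rfl | hx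
      · exact hy
      · exact ih h x hx

theorem EngE_ins {α : Type} {B l n : ℕ} (hl : 0 < l) (hG : Good B l n)
    (U : Submodule (ZMod l) (PowerSeries (ZMod l))) (k : List (ℕ × ℕ) → α) :
    ∀ (js xs : List ℕ) (bs : List (ℕ × ℕ)), EngE_Inv B l n U bs →
      (∀ z ∈ xs, ∃ u ∈ U, ∃ N, n + 1 ≤ N ∧ Rep B l N (l - 1) z u) → bs.length + js.length ≤ n →
      ∃ bs', insP B l n js xs bs k = k bs' ∧ EngE_Inv B l n U bs' ∧
        bs'.length ≤ bs.length + js.length := by
  intro js
  induction js with
  | nil =>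
    intro xs bs hinv _ _
    exact ⟨bs, rfl, hinv, by simp⟩
  | cons j js ih =>
    intro xs bs hinv hxs hlen
    cases xs with
    | nil => exact ⟨bs, rfl, hinv, by simp⟩
    | cons x xs =>
      unfold Good at hG
      rw [List.length_cons] at hlen
      obtain ⟨u, hu, N, hN, hR⟩ := hxs x List.mem_cons_self
      have hlB : l - 1 < B := by
        have h1 := Nat.le_mul_self l
        have h2 : l * l ≤ 8 * (n + 1) * (l * l) := Nat.le_mul_of_pos_left _ (by omega)
        omega
      have h1 := Rep.trunc hR hlB hN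
      obtain ⟨u', hu', hR2⟩ := EngE_redb hl U h1 bs hinv
      have hb1 : l - 1 + bs.length * (l * l) < B := by
        have h2 : bs.length * (l * l) ≤ n * (l * l) := Nat.mul_le_mul_right _ (by omega)
        have h3 := Nat.le_mul_self l
        have h4 : (n + 1) * (l * l) ≤ 8 * (n + 1) * (l * l) := Nat.mul_le_mul_right _ (by omega)
        have h5 : (n + 1) * (l * l) = n * (l * l) + l * l := Nat.succ_mul _ _
        omega
      have hR3 := Rep.red hR2 hb1 hl le_rfl
      generalize hy : MP0f16e1.red B l (n + 1) (redbP B l bs (x % B ^ (n + 1))) = y at hR3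
      set c := (y / B ^ j % B) ^ (l - 2) % l with hc
      have hcl : c < l := Nat.mod_lt _ hl
      have hR4 := Rep.add_mul (EngE_Rep_zero B l (n + 1) 0) hR3 c
      rw [zero_add, zero_add, zero_add] at hR4
      have hb2 : c * (l - 1) < B := by
        have h2 : c * (l - 1) ≤ l * l := Nat.mul_le_mul hcl.le (Nat.sub_le _ _)
        have h3 : 2 * (l * l) ≤ 8 * (n + 1) * (l * l) := Nat.mul_le_mul_right _ (by omega)
        have h4 : 0 < l * l := Nat.mul_pos hl hl
        omega
      have hR5 := Rep.red hR4 hb2 hl le_rfl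
      set f := MP0f16e1.red B l (n + 1) (c * y) with hf
      have hinv' : EngE_Inv B l n U ((j, f) :: bs) := by
        intro b hb
        rcases List.mem_cons.1 hb with rfl | hb
        · exact ⟨_, U.smul_mem _ (U.add_mem hu hu'), hR5⟩
        · exact hinv b hb
      obtain ⟨bs', h6, h7, h8⟩ := ih xs ((j, f) :: bs) hinv'
        (fun z hz => hxs z (List.mem_cons_of_mem _ hz)) (by rw [List.length_cons]; omega)
      refine ⟨bs', ?_, h7, ?_⟩
      · have e1 : insP B l n (j :: js) (x :: xs) bs k =
            frc (MP0f16e1.red B l (n + 1) (redbP B l bs (x % B ^ (n + 1)))) fun y =>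
            frc (MP0f16e1.red B l (n + 1) ((y / B ^ j % B) ^ (l - 2) % l * y)) fun f =>
              insP B l n js xs ((j, f) :: bs) k := rfl
        rw [e1, frc_eq, hy, frc_eq, ← hc, ← hf]
        exact h6
      · rw [List.length_cons] at h8 ⊢
        omega

theorem EngE_piv {B l n : ℕ} (hlB : l - 1 < B)
    (U : Submodule (ZMod l) (PowerSeries (ZMod l))) : ∀ (fs : List ℕ) (j : ℕ)
    (acc : List (ℕ × ℕ)), EngE_Inv B l n U acc →
      (∀ z ∈ fs, ∃ u ∈ U, Rep B l (n + 1) (l - 1) z u) →
      EngE_Inv B l n U (pivP B n fs j acc) ∧ (pivP B n fs j acc).length = acc.length + fs.length := by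
  intro fs
  induction fs with
  | nil => intro j acc h _; exact ⟨h, rfl⟩
  | cons f fs ih =>
    intro j acc h hfs
    have e1 : pivP B n (f :: fs) j acc = frc (f % B ^ (n + 1)) fun f' =>
      pivP B n fs (Nat.succ j) ((j, f') :: acc) := rfl
    rw [e1, frc_eq]
    obtain ⟨u, hu, hR⟩ := hfs f List.mem_cons_self
    have hinv' : EngE_Inv B l n U ((j, f % B ^ (n + 1)) :: acc) := by
      intro b hb
      rcases List.mem_cons.1 hb with rfl | hb
      · exact ⟨u, hu, Rep.trunc hR hlB le_rfl⟩
      · exact h b hb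
    obtain ⟨h1, h2⟩ := ih (Nat.succ j) ((j, f % B ^ (n + 1)) :: acc) hinv'
      fun z hz => hfs z (List.mem_cons_of_mem _ hz)
    refine ⟨h1, ?_⟩
    rw [h2, List.length_cons, List.length_cons]
    omega

private theorem EngE_aeval {F V : Type*} [Field F] [AddCommGroup V] [Module F V] (T : V →ₗ[F] V)
    (W : Submodule F V) (hW : ∀ x ∈ W, T x ∈ W) (p : Polynomial F) {v : V} (hv : v ∈ W) :
    Polynomial.aeval T p v ∈ W := by
  have hpow : ∀ i : ℕ, (T ^ i) v ∈ W := by
    intro i
    induction i with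
    | zero => simpa using hv
    | succ i ih =>
      rw [pow_succ']
      exact hW _ ih
  rw [Polynomial.aeval_eq_sum_range, LinearMap.sum_apply]
  exact W.sum_mem fun i _ => W.smul_mem _ (hpow i)

private theorem EngE_blks {B l b t : ℕ} [Fact l.Prime] (hb : Even b) (ht : t = 2 ^ (b - 1) % l)
    (hG : Good B l (nS b)) (fs : List ℕ)
    (hfs : List.Forall₂ (fun x j => Rep B l (2 * nS b + 1) (l - 1) x (g (ZMod l) b j)) fs
      (List.range' 1 (nS b))) :
    ∀ (blks : List Blk) (U : Submodule (ZMod l) (PowerSeries (ZMod l))) (bs : List (ℕ × ℕ)),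
      (∀ c ∈ blks, ltL l c.cs = true ∧ ltL l c.ps = true ∧ c.ps.length ≤ nS b ∧
        Irreducible (ofL l c.ps)) →
      (∀ x ∈ U, T2 (ZMod l) b x ∈ U) → U ≤ SF (ZMod l) b → EngE_Inv B l (nS b) U bs →
      bs.length + (blks.map fun c => c.js.length).sum ≤ nS b →
      blksP B l (nS b) t fs blks bs = true →
      CB (T2 (ZMod l) b) U (SF (ZMod l) b) blks.length := by
  have hlp : l.Prime := Fact.out
  have hl : 0 < l := hlp.pos
  have hG' := hG
  unfold Good at hG'
  have hst : ∀ x ∈ SF (ZMod l) b, T2 (ZMod l) b x ∈ SF (ZMod l) b := fun x hx => T2_mem _ hx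
  have hlen : fs.length = nS b := by
    rw [hfs.length_eq, List.length_range']
  have hmem : ∀ x ∈ fs, ∃ v ∈ SF (ZMod l) b, Rep B l (2 * nS b + 1) (l - 1) x v := by
    intro x hx
    obtain ⟨i, hi, rfl⟩ := List.getElem_of_mem hx
    have hi' : i < nS b := by rw [← hlen]; exact hi
    have h1 := hfs.get hi (by rw [List.length_range']; exact hi')
    refine ⟨_, ?_, h1⟩
    simp only [List.get_eq_getElem, List.getElem_range']
    exact g_mem (ZMod l) hb (by omega) (by omega)
  intro blks
  induction blks with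
  | nil =>
    intro U bs _ _ hUle hinv hbs h
    have h1 : allzP B l (nS b) bs fs = true := h
    have h2 := EngE_allz h1
    have hgU : ∀ j, 1 ≤ j → j ≤ nS b → g (ZMod l) b j ∈ U := by
      intro j h1j hj
      have hi : j - 1 < fs.length := by rw [hlen]; omega
      have h3 := hfs.get hi (by rw [List.length_range']; omega)
      simp only [List.get_eq_getElem, List.getElem_range'] at h3
      have e1 : 1 + 1 * (j - 1) = j := by omega
      rw [e1] at h3
      refine EngE_zer hl U hUle (g_mem (ZMod l) hb h1j hj) bs hinv (by omega) h3 ?_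
        (h2 _ (List.getElem_mem hi))
      simp only [List.map_nil, List.sum_nil, Nat.add_zero] at hbs
      have h4 : bs.length * (l * l) ≤ nS b * (l * l) := Nat.mul_le_mul_right _ hbs
      have h5 := Nat.le_mul_self l
      have h6 : (nS b + 1) * (l * l) ≤ 8 * (nS b + 1) * (l * l) := Nat.mul_le_mul_right _ (by omega)
      have h7 : (nS b + 1) * (l * l) = nS b * (l * l) + l * l := Nat.succ_mul _ _
      omega
    have hU : U = SF (ZMod l) b := by
      refine le_antisymm hUle fun f hf => ?_
      obtain ⟨c, rfl⟩ := SF_repr (ZMod l) hb hf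
      refine U.sum_mem fun j hj => U.smul_mem _ ?_
      rw [Finset.mem_Icc] at hj
      exact hgU j hj.1 hj.2
    rw [hU]
    exact CB_self _ _
  | cons c blks ih =>
    intro U bs hblk hUst hUle hinv hbs h
    obtain ⟨hcs, hps, hplen, hirr⟩ := hblk c List.mem_cons_self
    rw [List.map_cons, List.sum_cons] at hbs
    -- the vector
    obtain ⟨v, hv, hRv⟩ := combP_rep (M := 0) hl (SF (ZMod l) b) fs hmem c.cs hcs 0
      ⟨0, Submodule.zero_mem _, EngE_Rep_zero _ _ _ _⟩
    rw [zero_add, hlen] at hRv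
    have hb1 : nS b * (l * l) < B := by
      have h6 : nS b * (l * l) ≤ 8 * (nS b + 1) * (l * l) := Nat.mul_le_mul_right _ (by omega)
      omega
    have hRx := Rep.red hRv hb1 hl le_rfl
    have e1 : blksP B l (nS b) t fs (c :: blks) bs =
        frc (MP0f16e1.red B l (2 * nS b + 1) (combP fs c.cs 0)) fun x =>
          kryP B l (nS b) t fs c.ps x 0 [] fun xs tot =>
          match zerP B l (nS b) bs tot with
          | true => insP B l (nS b) c.js xs bs (blksP B l (nS b) t fs blks)
          | false => false := rfl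
    rw [e1, frc_eq] at h
    obtain ⟨xs, tot, hk, hxs, hRtot⟩ := kryP_spec rfl ht hG fs hmem hlen.le hv hRx c.ps hps hplen _ h
    have hzer : zerP B l (nS b) bs tot = true := by
      cases hz : zerP B l (nS b) bs tot with
      | true => rfl
      | false => rw [hz] at hk; simp at hk
    rw [hzer] at hk
    have hk' : insP B l (nS b) c.js xs bs (blksP B l (nS b) t fs blks) = true := hk
    -- p(T) v is in U
    have hpv : Polynomial.aeval (T2 (ZMod l) b) (ofL l c.ps) v ∈ U := by
      refine EngE_zer hl U hUle (EngE_aeval _ _ hst _ hv) bs hinv (by omega) hRtot ?_ hzer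
      have h4 : bs.length * (l * l) ≤ nS b * (l * l) := Nat.mul_le_mul_right _ (by omega)
      have h6 : 2 * ((nS b + 1) * (l * l)) ≤ 8 * (nS b + 1) * (l * l) := by
        rw [← Nat.mul_assoc]
        exact Nat.mul_le_mul_right _ (by omega)
      have h7 : (nS b + 1) * (l * l) = nS b * (l * l) + l * l := Nat.succ_mul _ _
      omega
    -- the larger subspace
    set S' := Submodule.span (ZMod l) (Set.range fun i : ℕ => (T2 (ZMod l) b ^ i) v) with hS'
    have hpow : ∀ i : ℕ, (T2 (ZMod l) b ^ i) v ∈ SF (ZMod l) b := by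
      intro i
      induction i with
      | zero => simpa using hv
      | succ i ih =>
        rw [pow_succ']
        exact hst _ ih
    have hU'le : U ⊔ S' ≤ SF (ZMod l) b := by
      refine sup_le hUle (Submodule.span_le.2 ?_)
      rintro _ ⟨i, rfl⟩
      exact hpow i
    have hS'st : ∀ x ∈ S', T2 (ZMod l) b x ∈ S' := by
      intro x hx
      induction hx using Submodule.span_induction with
      | mem x hx =>
        obtain ⟨i, rfl⟩ := hx
        refine Submodule.subset_span ⟨i + 1, ?_⟩
        show (T2 (ZMod l) b ^ (i + 1)) v = T2 (ZMod l) b ((T2 (ZMod l) b ^ i) v)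
        rw [pow_succ']
        rfl
      | zero => rw [map_zero]; exact Submodule.zero_mem _
      | add x y _ _ hx hy => rw [map_add]; exact Submodule.add_mem _ hx hy
      | smul a x _ hx => rw [map_smul]; exact Submodule.smul_mem _ _ hx
    have hU'st : ∀ x ∈ U ⊔ S', T2 (ZMod l) b x ∈ U ⊔ S' := by
      intro x hx
      obtain ⟨y, hy, z, hz, rfl⟩ := Submodule.mem_sup.1 hx
      rw [map_add]
      exact Submodule.add_mem_sup (hUst y hy) (hS'st z hz)
    have hinv' : EngE_Inv B l (nS b) (U ⊔ S') bs := by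
      intro p hp
      obtain ⟨u, hu, hR⟩ := hinv p hp
      exact ⟨u, Submodule.mem_sup_left hu, hR⟩
    obtain ⟨bs', hbs1, hbs2, hbs3⟩ := EngE_ins hl hG (U ⊔ S') (blksP B l (nS b) t fs blks) c.js xs
      bs hinv' (fun z hz => by
        obtain ⟨i, hi⟩ := hxs z hz
        exact ⟨_, Submodule.mem_sup_right (Submodule.subset_span ⟨i, rfl⟩), _, by omega, hi⟩)
      (by omega)
    rw [hbs1] at hk'
    have hrec := ih (U ⊔ S') bs' (fun c' hc' => hblk c' (List.mem_cons_of_mem _ hc')) hU'st hU'le
      hbs2 (by omega) hk'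
    have hcyc : CB (T2 (ZMod l) b) U (U ⊔ S') 1 := CB_cyc hUst (ofL l c.ps) hirr hpv le_rfl
    have hfin := CB_add le_sup_left hU'le hU'st hcyc hrec
    rw [List.length_cons, Nat.add_comm]
    exact hfin

theorem win_of_check {B l b d iv : ℕ} [Fact l.Prime] {blks : List Blk} (hb : Even b) (hd : Even d)
    (hiv : 1728 * iv % l = 1) (hG : Good B l (nS b)) (hle : SF (ZMod l) d ≤ SF (ZMod l) b)
    (hst : ∀ x ∈ SF (ZMod l) d, T2 (ZMod l) b x ∈ SF (ZMod l) d)
    (hlen : nS d + (blks.map fun c => c.js.length).sum ≤ nS b)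
    (hblk : ∀ c ∈ blks, ltL l c.cs = true ∧ ltL l c.ps = true ∧ c.ps.length ≤ nS b ∧
      Irreducible (ofL l c.ps))
    (h : winP B l b d iv blks = true) :
    CB (T2 (ZMod l) b) (SF (ZMod l) d) (SF (ZMod l) b) blks.length := by
  have hlp : l.Prime := Fact.out
  have hl : 0 < l := hlp.pos
  have hG' := hG
  unfold Good at hG'
  unfold winP at h
  rw [frc_eq, frc_eq] at h
  have hB1 : (2 * nS b + 1) * (l * l) < B := by
    have h6 : (2 * nS b + 1) * (l * l) ≤ 8 * (nS b + 1) * (l * l) :=
      Nat.mul_le_mul_right _ (by omega)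
    omega
  have hB2 : (nS b + 1) * (l * l) < B := by
    have h6 : (nS b + 1) * (l * l) ≤ 8 * (nS b + 1) * (l * l) := Nat.mul_le_mul_right _ (by omega)
    omega
  obtain ⟨fs, hfs1, hfs2⟩ := formsW_spec (N := 2 * nS b + 1) hlp.one_lt hb hiv hB1 (by omega)
    (fun fs => formsW B l (nS b + 1) d iv fun gs =>
      blksP B l (nS b) (2 ^ (b - 1) % l) fs blks (pivP B (nS b) gs 1 []))
  rw [hfs1] at h
  obtain ⟨gs, hgs1, hgs2⟩ := formsW_spec (N := nS b + 1) hlp.one_lt hd hiv hB2 (by omega)
    (fun gs => blksP B l (nS b) (2 ^ (b - 1) % l) fs blks (pivP B (nS b) gs 1 []))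
  rw [hgs1] at h
  have hlB : l - 1 < B := by
    have h1 := Nat.le_mul_self l
    have h2 : l * l ≤ 8 * (nS b + 1) * (l * l) := Nat.le_mul_of_pos_left _ (by omega)
    omega
  have hglen : gs.length = nS d := by rw [hgs2.length_eq, List.length_range']
  have hgmem : ∀ z ∈ gs, ∃ u ∈ SF (ZMod l) d, Rep B l (nS b + 1) (l - 1) z u := by
    intro x hx
    obtain ⟨i, hi, rfl⟩ := List.getElem_of_mem hx
    have hi' : i < nS d := by rw [← hglen]; exact hi
    have h1 := hgs2.get hi (by rw [List.length_range']; exact hi')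
    refine ⟨_, ?_, h1⟩
    simp only [List.get_eq_getElem, List.getElem_range']
    exact g_mem (ZMod l) hd (by omega) (by omega)
  obtain ⟨hp1, hp2⟩ := EngE_piv hlB (SF (ZMod l) d) gs 1 [] (by intro b hb; simp at hb) hgmem
  refine EngE_blks hb rfl hG fs hfs2 blks (SF (ZMod l) d) _ hblk hst hle hp1 ?_ h
  rw [hp2, List.length_nil, hglen]
  omega

end MP0f16e1
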