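import Pool.Agent.Work.MP_0f16e1_nt.WMap
import Pool.Agent.Work.MP_0f16e1_nt.CBLem

/-! # Module `Rec` : periodicity of the chain bounds modulo `ℓ`

`Gen ℓ m`: every form of weight `m` modulo `ℓ` is `A f + B h`, `A = E_{ℓ-1} ≡ 1`, `B ≡ E₂`. -/

open PowerSeries

namespace MP0f16e1

/-- every form of weight `m` is `f + E₂ h` with `f`, `h` of weight `m - (ℓ-1)`, `m - (ℓ+1)`. -/
def Gen (ℓ m : ℕ) : Prop :=
  ∀ x ∈ MF (ZMod ℓ) m, ∃ f ∈ MF (ZMod ℓ) (m - (ℓ - 1)), ∃ h ∈ MF (ZMod ℓ) (m - (ℓ + 1)),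
    x = f + toR (ZMod ℓ) e2 * h

variable (ℓ : ℕ) [Fact ℓ.Prime]

private theorem mono_mem (R : Type*) [CommRing R] {j a b k : ℕ} (h : 12 * j + 4 * a + 6 * b = k) :
    mono R j a b ∈ MF R k := Submodule.subset_span ⟨j, a, b, h, rfl⟩

private theorem toR_mul' (R : Type*) [CommRing R] (f g : PowerSeries ℤ) :
    toR R (f * g) = toR R f * toR R g := map_mul _ _ _

private theorem toR_e4_mem (R : Type*) [CommRing R] : toR R e4 ∈ MF R 4 := by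
  have h := mono_mem R (j := 0) (a := 1) (b := 0) (k := 4) (by norm_num)
  simpa [mono] using h

private theorem toR_e6_mem (R : Type*) [CommRing R] : toR R e6 ∈ MF R 6 := by
  have h := mono_mem R (j := 0) (a := 0) (b := 1) (k := 6) (by norm_num)
  simpa [mono] using h

/-- `MF m = e4 MF (m-4) + e6 MF (m-6)` modulo `ℓ ≥ 5`, for monomials. -/
private theorem mono_dec (h5 : 5 ≤ ℓ) {m j a b : ℕ} (hm : 1 ≤ m) (h : 12 * j + 4 * a + 6 * b = m) :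
    ∃ u ∈ MF (ZMod ℓ) (m - 4), ∃ v ∈ MF (ZMod ℓ) (m - 6),
      mono (ZMod ℓ) j a b = toR (ZMod ℓ) e4 * u + toR (ZMod ℓ) e6 * v := by
  rcases Nat.eq_zero_or_pos a with ha | ha
  · rcases Nat.eq_zero_or_pos b with hb | hb
    · -- `Δ^j`
      subst ha hb
      obtain ⟨i, rfl⟩ : ∃ i, j = i + 1 := ⟨j - 1, by omega⟩
      have hspec : (1728 : PowerSeries ℤ) * dl = e4 ^ 3 - e6 ^ 2 := dl_spec
      have hinv : ((1728 : ℕ) : ZMod ℓ) ≠ 0 := by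
        intro h0
        rw [ZMod.natCast_eq_zero_iff] at h0
        have h1 : ℓ ∣ 2 ^ 6 * 3 ^ 3 := by norm_num at h0 ⊢; exact h0
        have hℓ : ℓ.Prime := Fact.out
        rcases (Nat.Prime.dvd_mul hℓ).1 h1 with h2 | h2
        · have := (Nat.prime_dvd_prime_iff_eq hℓ Nat.prime_two).1 (hℓ.dvd_of_dvd_pow h2)
          omega
        · have := (Nat.prime_dvd_prime_iff_eq hℓ Nat.prime_three).1 (hℓ.dvd_of_dvd_pow h2)
          omega
      refine ⟨((1728 : ℕ) : ZMod ℓ)⁻¹ • mono (ZMod ℓ) i 2 0, Submodule.smul_mem _ _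
        (mono_mem _ (by omega)), (-((1728 : ℕ) : ZMod ℓ)⁻¹) • mono (ZMod ℓ) i 0 1,
        Submodule.smul_mem _ _ (mono_mem _ (by omega)), ?_⟩
      have h2 : ((1728 : ℕ) : ZMod ℓ) • mono (ZMod ℓ) (i + 1) 0 0
          = toR (ZMod ℓ) e4 * mono (ZMod ℓ) i 2 0 - toR (ZMod ℓ) e6 * mono (ZMod ℓ) i 0 1 := by
        rw [Nat.cast_smul_eq_nsmul, nsmul_eq_mul]
        have h3 : ((1728 : ℕ) : PowerSeries (ZMod ℓ)) = toR (ZMod ℓ) (1728 : PowerSeries ℤ) := by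
          simp only [toR]
          rw [map_ofNat]
          norm_num
        rw [h3]
        simp only [mono, ← toR_mul']
        rw [show (1728 : PowerSeries ℤ) * (dl ^ (i + 1) * e4 ^ 0 * e6 ^ 0)
          = (1728 * dl) * dl ^ i by ring, hspec]
        simp only [toR, ← map_sub]
        congr 1
        ring
      rw [mul_smul_comm, neg_smul, mul_neg, mul_smul_comm, ← sub_eq_add_neg, ← smul_sub, ← h2,
        smul_smul, inv_mul_cancel₀ hinv, one_smul]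
    · refine ⟨0, Submodule.zero_mem _, mono (ZMod ℓ) j a (b - 1), mono_mem _ (by omega), ?_⟩
      obtain ⟨c, rfl⟩ : ∃ c, b = c + 1 := ⟨b - 1, by omega⟩
      simp only [mono, mul_zero, zero_add, ← toR_mul', Nat.add_sub_cancel]
      congr 1
      ring
  · refine ⟨mono (ZMod ℓ) j (a - 1) b, mono_mem _ (by omega), 0, Submodule.zero_mem _, ?_⟩
    obtain ⟨c, rfl⟩ : ∃ c, a = c + 1 := ⟨a - 1, by omega⟩
    simp only [mono, mul_zero, add_zero, ← toR_mul', Nat.add_sub_cancel]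
    congr 1
    ring

private theorem MF_dec (h5 : 5 ≤ ℓ) {m : ℕ} (hm : 1 ≤ m) {x : PowerSeries (ZMod ℓ)}
    (hx : x ∈ MF (ZMod ℓ) m) :
    ∃ u ∈ MF (ZMod ℓ) (m - 4), ∃ v ∈ MF (ZMod ℓ) (m - 6),
      x = toR (ZMod ℓ) e4 * u + toR (ZMod ℓ) e6 * v := by
  refine Submodule.span_induction (p := fun x _ => ∃ u ∈ MF (ZMod ℓ) (m - 4),
    ∃ v ∈ MF (ZMod ℓ) (m - 6), x = toR (ZMod ℓ) e4 * u + toR (ZMod ℓ) e6 * v) ?_ ?_ ?_ ?_ hx
  · rintro _ ⟨j, a, b, h, rfl⟩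
    exact mono_dec ℓ h5 hm h
  · exact ⟨0, Submodule.zero_mem _, 0, Submodule.zero_mem _, by simp⟩
  · rintro y z _ _ ⟨u, hu, v, hv, rfl⟩ ⟨u', hu', v', hv', rfl⟩
    exact ⟨u + u', Submodule.add_mem _ hu hu', v + v', Submodule.add_mem _ hv hv', by ring⟩
  · rintro c y _ ⟨u, hu, v, hv, rfl⟩
    refine ⟨c • u, Submodule.smul_mem _ _ hu, c • v, Submodule.smul_mem _ _ hv, ?_⟩
    rw [smul_add, mul_smul_comm, mul_smul_comm]

theorem gen_all (h5 : 11 ≤ ℓ) (h1 : Gen ℓ (2 * ℓ - 8)) (h2 : Gen ℓ (2 * ℓ - 6))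
    (h3 : Gen ℓ (2 * ℓ - 4)) (m : ℕ) (hm : 2 * ℓ - 8 ≤ m) (he : Even m) : Gen ℓ m := by
  induction m using Nat.strong_induction_on with
  | _ m ih =>
    obtain ⟨t, ht⟩ := he
    rcases (show m = 2 * ℓ - 8 ∨ m = 2 * ℓ - 6 ∨ m = 2 * ℓ - 4 ∨ 2 * ℓ - 2 ≤ m by omega) with
      h | h | h | h
    · rwa [h]
    · rwa [h]
    · rwa [h]
    · intro x hx
      obtain ⟨u, hu, v, hv, rfl⟩ := MF_dec ℓ (by omega) (by omega) hx
      obtain ⟨f, hf, g', hg, rfl⟩ := ih (m - 4) (by omega) (by omega) ⟨t - 2, by omega⟩ u hu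
      obtain ⟨f', hf', g'', hg', rfl⟩ := ih (m - 6) (by omega) (by omega) ⟨t - 3, by omega⟩ v hv
      refine ⟨toR (ZMod ℓ) e4 * f + toR (ZMod ℓ) e6 * f', ?_,
        toR (ZMod ℓ) e4 * g' + toR (ZMod ℓ) e6 * g'', ?_, by ring⟩
      · refine Submodule.add_mem _ ?_ ?_
        · have := MF_mul (ZMod ℓ) (toR_e4_mem (ZMod ℓ)) hf
          rwa [show 4 + (m - 4 - (ℓ - 1)) = m - (ℓ - 1) by omega] at this
        · have := MF_mul (ZMod ℓ) (toR_e6_mem (ZMod ℓ)) hf'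
          rwa [show 6 + (m - 6 - (ℓ - 1)) = m - (ℓ - 1) by omega] at this
      · refine Submodule.add_mem _ ?_ ?_
        · have := MF_mul (ZMod ℓ) (toR_e4_mem (ZMod ℓ)) hg
          rwa [show 4 + (m - 4 - (ℓ + 1)) = m - (ℓ + 1) by omega] at this
        · have := MF_mul (ZMod ℓ) (toR_e6_mem (ZMod ℓ)) hg'
          rwa [show 6 + (m - 6 - (ℓ + 1)) = m - (ℓ + 1) by omega] at this

theorem CB_rec (h5 : 11 ≤ ℓ) (hG : ∀ m, 2 * ℓ - 8 ≤ m → Even m → Gen ℓ m) {d s : ℕ} (hd : 4 ≤ d)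
    (he : Even d) (h : CB (T2 (ZMod ℓ) (d + (ℓ - 1))) (SF (ZMod ℓ) d) (SF (ZMod ℓ) (d + (ℓ - 1))) s) :
    CB (T2 (ZMod ℓ) (d + 2 * ℓ)) (SF (ZMod ℓ) (d + (ℓ + 1))) (SF (ZMod ℓ) (d + 2 * ℓ)) s := by
  have h5' : 5 ≤ ℓ := by omega
  have h20 : (2 : ZMod ℓ) ≠ 0 := by
    have : ((2 : ℕ) : ZMod ℓ) ≠ 0 := by
      intro h0
      rw [ZMod.natCast_eq_zero_iff] at h0
      have := Nat.le_of_dvd (by norm_num) h0
      omega
    simpa using this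
  refine CB_push (LinearMap.mulLeft (ZMod ℓ) (toR (ZMod ℓ) e2)) 2 h20 (SF_step ℓ h5' d)
    (fun x hx => T2_mem (ZMod ℓ) hx) ?_ ?_ ?_ h
  · intro x hx
    exact e2_mul ℓ h5' hx
  · intro x hx
    have hx' : x ∈ SF (ZMod ℓ) ((d + 2 * ℓ - 12) + 12) := by
      rwa [show d + 2 * ℓ - 12 + 12 = d + 2 * ℓ by omega]
    obtain ⟨y, hy, rfl⟩ := SF_dl (ZMod ℓ) hx'
    obtain ⟨t, ht⟩ := he
    obtain ⟨f, hf, g', hg, rfl⟩ := hG (d + 2 * ℓ - 12) (by omega) ⟨t + ℓ - 6, by omega⟩ y hy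
    rw [mul_add, add_comm (toR (ZMod ℓ) dl * f)]
    refine Submodule.add_mem_sup ⟨toR (ZMod ℓ) dl * g', ?_, ?_⟩ ?_
    · have := dl_mul (ZMod ℓ) hg
      rwa [show d + 2 * ℓ - 12 - (ℓ + 1) + 12 = d + (ℓ - 1) by omega] at this
    · simp only [LinearMap.mulLeft_apply]
      ring
    · have := dl_mul (ZMod ℓ) hf
      rwa [show d + 2 * ℓ - 12 - (ℓ - 1) + 12 = d + (ℓ + 1) by omega] at this
  · intro x hx
    have hW := W_mem (ZMod ℓ) hx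
    have hper : T2 (ZMod ℓ) (d + 2 * ℓ) = T2 (ZMod ℓ) (d + (ℓ - 1) + 2) := by
      rw [← T2_period ℓ h5' (k := d + (ℓ - 1) + 2) (by omega)]
      congr 1
      omega
    rw [hper]
    simp only [LinearMap.mulLeft_apply]
    rw [show d + (ℓ - 1) + 2 = d + (ℓ + 1) by omega] at hW ⊢
    exact hW

end MP0f16e1
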