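import Pool.Agent.Work.MP_0f16e1_nt.EngE
import Pool.Agent.Work.MP_0f16e1_nt.Rec

/-! # Module `EngF` : the generation certificate

PROOF.  Put `W = SF (k-(l-1)) ⊔ e2 · SF (k-(l+1))`, `W ≤ SF k` (`SF_step`, `e2_mul`).  As in `EngE`
(make its lemmas on `redbP`, `insP`, `pivP`, `allzP` public there: they work for any subspace `U ≤ SF k`,
no stability needed), the list `bs` represents elements of `W` (`formsW_spec`, `e2P_rep`, `zipP_spec`
with `List.replicate`), so `allzP` gives `g_j ∈ W` for all `j`, so `SF k ≤ W`.  Then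
`Gen l (k - 12)`: for `x ∈ MF (k-12)`, `dl x ∈ SF k` (`dl_mul`), `dl x = f + e2 h`, `f = dl f'`,
`h = dl h'` (`SF_dl`; `k - (l-1) ≥ 12`, `k - (l+1) ≥ 12`), and cancel `dl` (`toR (ZMod l) dl ≠ 0`, its
`coeff 1` is `1`; `PowerSeries` over a field is a domain). -/

open PowerSeries

namespace MP0f16e1

private theorem EngF_zip {α : Type} {B l N : ℕ} (hl : 0 < l) (hB : N * (l * l) < B)
    (k : List ℕ → α) (H W : Submodule (ZMod l) (PowerSeries (ZMod l)))
    (E : PowerSeries (ZMod l)) (e : ℕ) (hE : Rep B l N (l - 1) e E)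
    (hW : ∀ h ∈ H, h * E ∈ W) :
    ∀ (xs : List ℕ) (n : ℕ) (acc : List ℕ), xs.length ≤ n →
      (∀ x ∈ xs, ∃ h ∈ H, Rep B l N (l - 1) x h) →
      (∀ x ∈ acc, ∃ u ∈ W, Rep B l N (l - 1) x u) →
      ∃ L : List ℕ, zipP B l N xs (List.replicate n e) acc k = k L ∧
        ∀ x ∈ L, ∃ u ∈ W, Rep B l N (l - 1) x u := by
  intro xs
  induction xs with
  | nil =>
    intro n acc _ _ hacc
    exact ⟨acc, rfl, hacc⟩
  | cons x xs ih =>
    intro n acc hn hxs hacc
    obtain ⟨m, rfl⟩ : ∃ m, n = m + 1 := ⟨n - 1, by rw [List.length_cons] at hn; omega⟩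
    rw [List.length_cons] at hn
    obtain ⟨h, hh, hR⟩ := hxs x List.mem_cons_self
    obtain ⟨L, hL, hLR⟩ := ih m (mulP B l N x e :: acc) (by omega)
      (fun z hz => hxs z (List.mem_cons_of_mem _ hz)) (by
        intro z hz
        rcases List.mem_cons.1 hz with rfl | hz
        · exact ⟨h * E, hW h hh, Rep.mulP hR hE hl hB⟩
        · exact hacc z hz)
    refine ⟨L, ?_, hLR⟩
    have e1 : zipP B l N (x :: xs) (List.replicate (m + 1) e) acc k =
        frc (mulP B l N x e) fun z => zipP B l N xs (List.replicate m e) (z :: acc) k := rfl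
    rw [e1, frc_eq, hL]

private theorem EngF_forms {B l N w : ℕ} (hw : Even w) {L : List ℕ}
    (h : List.Forall₂ (fun x j => Rep B l N (l - 1) x (g (ZMod l) w j)) L
      (List.range' 1 (nS w))) :
    L.length = nS w ∧ ∀ z ∈ L, ∃ u ∈ SF (ZMod l) w, Rep B l N (l - 1) z u := by
  have hlen : L.length = nS w := by rw [h.length_eq, List.length_range']
  refine ⟨hlen, fun x hx => ?_⟩
  obtain ⟨i, hi, rfl⟩ := List.getElem_of_mem hx
  have hi' : i < nS w := by rw [← hlen]; exact hi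
  have h1 := h.get hi (by rw [List.length_range']; exact hi')
  refine ⟨_, ?_, h1⟩
  simp only [List.get_eq_getElem, List.getElem_range']
  exact g_mem (ZMod l) hw (by omega) (by omega)

private theorem EngF_dl (R : Type*) [CommRing R] : toR R dl = mono R 1 0 0 := by
  unfold mono
  congr 1
  ring

theorem gen_of_check {B l k iv : ℕ} [Fact l.Prime] (h5 : 5 ≤ l) {js : List ℕ} (hk : Even k)
    (hk2 : 12 + (l + 1) ≤ k) (hiv : 1728 * iv % l = 1) (hG : Good B l (nS k))
    (hlen : nS (k - (l - 1)) + js.length ≤ nS k) (h : genP B l k iv js = true) :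
    Gen l (k - 12) := by
  have hlp : l.Prime := Fact.out
  have hl : 0 < l := hlp.pos
  have hodd : Odd l := hlp.odd_of_ne_two (by omega)
  have hkd : Even (k - (l - 1)) := by
    obtain ⟨a, ha⟩ := hk
    obtain ⟨b, hb⟩ := hodd
    exact ⟨a - b, by omega⟩
  have hke : Even (k - (l + 1)) := by
    obtain ⟨a, ha⟩ := hk
    obtain ⟨b, hb⟩ := hodd
    exact ⟨a - b - 1, by omega⟩
  have hG' := hG
  unfold Good at hG'
  have hB1 : (nS k + 1) * (l * l) < B := by
    have h6 : (nS k + 1) * (l * l) ≤ 8 * (nS k + 1) * (l * l) := Nat.mul_le_mul_right _ (by omega)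
    omega
  have hlB : l - 1 < B := by
    have h1 := Nat.le_mul_self l
    have h2 : l * l ≤ 8 * (nS k + 1) * (l * l) := Nat.le_mul_of_pos_left _ (by omega)
    omega
  set W : Submodule (ZMod l) (PowerSeries (ZMod l)) := SF (ZMod l) (k - (l - 1)) ⊔
    (SF (ZMod l) (k - (l + 1))).map (LinearMap.mulLeft (ZMod l) (toR (ZMod l) e2)) with hWdef
  have hWle : W ≤ SF (ZMod l) k := by
    refine sup_le ?_ ?_
    · have h1 := SF_step l h5 (k - (l - 1))
      have e1 : k - (l - 1) + (l - 1) = k := by omega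
      rwa [e1] at h1
    · rintro _ ⟨x, hx, rfl⟩
      have h1 := e2_mul l h5 hx
      have e1 : k - (l + 1) + (l + 1) = k := by omega
      rwa [e1] at h1
  unfold genP at h
  rw [frc_eq] at h
  obtain ⟨fs, hfs1, hfs2⟩ := formsW_spec (N := nS k + 1) hlp.one_lt hk hiv hB1 (by omega)
    (fun fs => formsW B l (nS k + 1) (k - (l - 1)) iv fun gs =>
      formsW B l (nS k + 1) (k - (l + 1)) iv fun hs =>
      frc (e2P B l (nS k + 1)) fun e2 =>
      zipP B l (nS k + 1) hs (List.replicate (nS k) e2) [] fun hs' =>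
      insP B l (nS k) js hs' (pivP B (nS k) gs 1 []) fun bs => allzP B l (nS k) bs fs)
  rw [hfs1] at h
  obtain ⟨gs, hgs1, hgs2⟩ := formsW_spec (N := nS k + 1) hlp.one_lt hkd hiv hB1 (by omega)
    (fun gs => formsW B l (nS k + 1) (k - (l + 1)) iv fun hs =>
      frc (e2P B l (nS k + 1)) fun e2 =>
      zipP B l (nS k + 1) hs (List.replicate (nS k) e2) [] fun hs' =>
      insP B l (nS k) js hs' (pivP B (nS k) gs 1 []) fun bs => allzP B l (nS k) bs fs)
  rw [hgs1] at h
  obtain ⟨hs, hhs1, hhs2⟩ := formsW_spec (N := nS k + 1) hlp.one_lt hke hiv hB1 (by omega)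
    (fun hs => frc (e2P B l (nS k + 1)) fun e2 =>
      zipP B l (nS k + 1) hs (List.replicate (nS k) e2) [] fun hs' =>
      insP B l (nS k) js hs' (pivP B (nS k) gs 1 []) fun bs => allzP B l (nS k) bs fs)
  rw [hhs1, frc_eq] at h
  obtain ⟨hflen, -⟩ := EngF_forms hk hfs2
  obtain ⟨hglen, hgmem⟩ := EngF_forms hkd hgs2
  obtain ⟨hhlen, hhmem⟩ := EngF_forms hke hhs2
  have hnle : nS (k - (l + 1)) ≤ nS k := by
    unfold nS
    obtain ⟨a, ha⟩ := hk
    obtain ⟨b, hb⟩ := hodd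
    omega
  obtain ⟨L, hL, hLR⟩ := EngF_zip (B := B) (N := nS k + 1) hl hB1
    (fun hs' => insP B l (nS k) js hs' (pivP B (nS k) gs 1 []) fun bs => allzP B l (nS k) bs fs)
    (SF (ZMod l) (k - (l + 1))) W (toR (ZMod l) e2) (e2P B l (nS k + 1)) (e2P_rep hlp.one_lt)
    (fun x hx => Submodule.mem_sup_right ⟨x, hx, by
      rw [mul_comm]
      rfl⟩) hs (nS k) [] (by rw [hhlen]; exact hnle) hhmem (by intro x hx; simp at hx)
  rw [hL] at h
  obtain ⟨hp1, hp2⟩ := EngE_piv hlB W gs 1 [] (by intro b hb; simp at hb)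
    (fun z hz => by
      obtain ⟨u, hu, hR⟩ := hgmem z hz
      exact ⟨u, Submodule.mem_sup_left hu, hR⟩)
  rw [List.length_nil, zero_add, hglen] at hp2
  obtain ⟨bs, hbs1, hbs2, hbs3⟩ := EngE_ins hl hG W (fun bs => allzP B l (nS k) bs fs) js L
    (pivP B (nS k) gs 1 []) hp1 (fun z hz => by
      obtain ⟨u, hu, hR⟩ := hLR z hz
      exact ⟨u, hu, _, le_rfl, hR⟩) (by rw [hp2]; exact hlen)
  rw [hbs1] at h
  have hbl : bs.length ≤ nS k := by rw [hp2] at hbs3; omega
  have h2 := EngE_allz h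
  have hgW : ∀ j, 1 ≤ j → j ≤ nS k → g (ZMod l) k j ∈ W := by
    intro j h1j hj
    have hi : j - 1 < fs.length := by rw [hflen]; omega
    have h3 := hfs2.get hi (by rw [List.length_range']; omega)
    simp only [List.get_eq_getElem, List.getElem_range'] at h3
    have e1 : 1 + 1 * (j - 1) = j := by omega
    rw [e1] at h3
    refine EngE_zer hl W hWle (g_mem (ZMod l) hk h1j hj) bs hbs2 le_rfl h3 ?_
      (h2 _ (List.getElem_mem hi))
    have h4 : bs.length * (l * l) ≤ nS k * (l * l) := Nat.mul_le_mul_right _ hbl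
    have h5' := Nat.le_mul_self l
    have h7 : (nS k + 1) * (l * l) = nS k * (l * l) + l * l := Nat.succ_mul _ _
    omega
  have hSW : SF (ZMod l) k ≤ W := by
    intro f hf
    obtain ⟨c, rfl⟩ := SF_repr (ZMod l) hk hf
    refine W.sum_mem fun j hj => W.smul_mem _ ?_
    rw [Finset.mem_Icc] at hj
    exact hgW j hj.1 hj.2
  intro x hx
  have h3 := dl_mul (ZMod l) hx
  have e1 : k - 12 + 12 = k := by omega
  rw [e1] at h3
  obtain ⟨y, hy, z, hz, hyz⟩ := Submodule.mem_sup.1 (hSW h3)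
  obtain ⟨v, hv, rfl⟩ := hz
  have e2' : k - (l - 1) = (k - 12 - (l - 1)) + 12 := by omega
  have e3 : k - (l + 1) = (k - 12 - (l + 1)) + 12 := by omega
  rw [e2'] at hy
  have hv' : v ∈ SF (ZMod l) (k - (l + 1)) := hv
  rw [e3] at hv'
  obtain ⟨f', hf', rfl⟩ := SF_dl (ZMod l) hy
  obtain ⟨h', hh', rfl⟩ := SF_dl (ZMod l) hv'
  refine ⟨f', hf', h', hh', ?_⟩
  have hne : toR (ZMod l) dl ≠ 0 := by
    intro h0
    have h6 := Basis_mono_self (ZMod l) 1 0 0
    rw [← EngF_dl, h0, map_zero] at h6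
    exact zero_ne_one h6
  refine mul_left_cancel₀ hne ?_
  rw [← hyz]
  show toR (ZMod l) dl * f' + toR (ZMod l) e2 * (toR (ZMod l) dl * h') = _
  ring

end MP0f16e1
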