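import Mathlib

/-! # Module `Irr` : an irreducibility criterion (Mathlib only)

PROOF.  `p` is not a unit; let `q` be a monic irreducible factor of `p`, `d = deg q`, `1 ≤ d ≤ r`.
`K = AdjoinRoot q` is a field with `l^d` elements, and `AdjoinRoot p → K` is a ring homomorphism
(`q ∣ p`).  The image `b` of `a` satisfies `b^s = 1` and `b ≠ 1` (`b - 1` is a unit), so `orderOf b = s`
divides `l^d - 1` (`b ≠ 0`), i.e. `l^d % s = 1` (`s ≥ 2`).  So `d ≥ r`, `d = r`, and `p` is `q` times a
unit. -/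

open Polynomial

namespace MP0f16e1

theorem irr_of_root {l : ℕ} [Fact l.Prime] (p : (ZMod l)[X]) (hp : p.Monic) {r s : ℕ}
    (hr : p.natDegree = r) (hr1 : 1 ≤ r) (hs : s.Prime) (a u : AdjoinRoot p) (ha : a ^ s = 1)
    (hu : u * (a - 1) = 1) (hord : ∀ d, 1 ≤ d → d < r → l ^ d % s ≠ 1) : Irreducible p := by
  have hp0 : p ≠ 0 := hp.ne_zero
  have hpu : ¬ IsUnit p := by
    intro h
    have := natDegree_eq_zero_of_isUnit h
    omega
  obtain ⟨q, hq, hqp⟩ := WfDvdMonoid.exists_irreducible_factor hpu hp0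
  haveI : Fact (Irreducible q) := ⟨hq⟩
  haveI : Fact s.Prime := ⟨hs⟩
  have hd1 : 1 ≤ q.natDegree := hq.natDegree_pos
  have hdr : q.natDegree ≤ r := hr ▸ natDegree_le_of_dvd hqp hp0
  haveI : Module.Finite (ZMod l) (AdjoinRoot q) := (AdjoinRoot.powerBasis hq.ne_zero).finite
  haveI : Finite (AdjoinRoot q) := Module.finite_of_finite (ZMod l)
  letI : Fintype (AdjoinRoot q) := Fintype.ofFinite _
  have hcard : Fintype.card (AdjoinRoot q) = l ^ q.natDegree := by
    rw [← Nat.card_eq_fintype_card, Module.natCard_eq_pow_finrank (K := ZMod l),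
      (AdjoinRoot.powerBasis hq.ne_zero).finrank, AdjoinRoot.powerBasis_dim, Nat.card_zmod]
  have hev : p.eval₂ (AdjoinRoot.of q) (AdjoinRoot.root q) = 0 := by
    obtain ⟨t, ht⟩ := hqp
    rw [ht, eval₂_mul, AdjoinRoot.eval₂_root, zero_mul]
  set φ : AdjoinRoot p →+* AdjoinRoot q := AdjoinRoot.lift (AdjoinRoot.of q) (AdjoinRoot.root q) hev
  have hb : (φ a) ^ s = 1 := by rw [← map_pow, ha, map_one]
  have hb1 : φ a ≠ 1 := by
    intro h
    have h2 := congrArg φ hu
    rw [map_mul, map_sub, h, map_one, sub_self, mul_zero] at h2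
    exact zero_ne_one h2
  have hb0 : φ a ≠ 0 := by
    intro h
    rw [h, zero_pow hs.ne_zero] at hb
    exact zero_ne_one hb
  have hord2 : orderOf (φ a) = s := orderOf_eq_prime hb hb1
  have h3 := FiniteField.pow_card_sub_one_eq_one (φ a) hb0
  have h4 := orderOf_dvd_of_pow_eq_one h3
  rw [hord2, hcard] at h4
  have h5 : l ^ q.natDegree % s = 1 := by
    obtain ⟨k, hk⟩ := h4
    have h6 : 1 ≤ l ^ q.natDegree := Nat.one_le_pow _ _ (Fact.out : l.Prime).pos
    have h7 : l ^ q.natDegree = 1 + s * k := by omega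
    rw [h7, Nat.add_mul_mod_self_left, Nat.mod_eq_of_lt hs.one_lt]
  have h8 : q.natDegree = r := by
    by_contra hne
    exact hord q.natDegree hd1 (lt_of_le_of_ne hdr hne) h5
  exact (associated_of_dvd_of_natDegree_le hqp hp0 (by omega)).irreducible hq

end MP0f16e1
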