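import Pool.Agent.Work.MP_0f16e1_nt.EngA
import Pool.Agent.Work.MP_0f16e1_nt.Irr

/-! # Module `EngP` : the irreducibility check

PROOF.  Work in `A = (ZMod l)[X] ⧸ (p)` or `AdjoinRoot p`, `p = ofL l ps` monic of degree
`r = ps.length`.  Say that `x` represents `a ∈ A` with bound `M` if `x = ∑_{i<K} c_i B^i`, `c_i ≤ M`,
`K ≤ 2 r`, and `a = ∑ c_i X^i` in `A`.  `packL B L acc pw = acc + pw * ∑ L_i B^i`.  `mmP`: the product of two
representatives (`K = r`, bound `l-1`) is a representative of `a b` with `K = 2r-1`, bound `r (l-1)^2`;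
each step of the loop subtracts `c X^m p` modulo `l`, where `c` is the digit `r+m` modulo `l`: the
represented class in `A` does not change, the digit `r + m` becomes `0` modulo `l` and is not touched
later (`pp * B^m` has digits up to `r+m`); so at the end all digits `≥ r` are `0` modulo `l` and `red B l r`
gives a representative of the same class with `K = r`, bound `l-1`; bounds: at most `(2 r) l^2 < B`
(`hB`).  `powP` with bits: binary powering, `valB`.  So `irrP = true` gives `a^s = 1` and
`u (a - 1) = 1` in `A` (`l - 1 = -1`), and `irr_of_root` applies (`ordP`: `l^d % s ≠ 1` for `1 ≤ d < r`). -/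

open Polynomial

namespace MP0f16e1

/-- the polynomial over the naturals with the coefficients of a list. -/
private noncomputable def engP_N : List ℕ → ℕ[X]
  | [] => 0
  | c :: ps => C c + X * engP_N ps

private theorem engP_N_map (l : ℕ) : ∀ L : List ℕ,
    (engP_N L).map (Nat.castRingHom (ZMod l)) = lowL l L := by
  intro L
  induction L with
  | nil => simp [engP_N, lowL]
  | cons c L ih =>
    simp only [engP_N, lowL]
    rw [Polynomial.map_add, Polynomial.map_mul, ih]
    simp

private theorem engP_N_coeff_zero : ∀ (L : List ℕ) (i : ℕ), L.length ≤ i →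
    (engP_N L).coeff i = 0 := by
  intro L
  induction L with
  | nil => intro i _; simp [engP_N]
  | cons c L ih =>
    intro i hi
    rw [List.length_cons] at hi
    obtain ⟨j, rfl⟩ : ∃ j, i = j + 1 := ⟨i - 1, by omega⟩
    simp only [engP_N]
    rw [coeff_add, coeff_C_succ, coeff_X_mul, ih j (by omega)]

private theorem engP_N_coeff_le {M : ℕ} : ∀ (L : List ℕ), (∀ c ∈ L, c ≤ M) → ∀ i : ℕ,
    (engP_N L).coeff i ≤ M := by
  intro L
  induction L with
  | nil => intro _ i; simp [engP_N]
  | cons c L ih =>
    intro hL i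
    simp only [engP_N]
    cases i with
    | zero =>
      rw [coeff_add, coeff_C_zero, coeff_X_mul_zero, add_zero]
      exact hL c List.mem_cons_self
    | succ j =>
      rw [coeff_add, coeff_C_succ, coeff_X_mul, zero_add]
      exact ih (fun d hd => hL d (List.mem_cons_of_mem _ hd)) j

private theorem engP_ltL {l : ℕ} : ∀ {L : List ℕ}, ltL l L = true → ∀ c ∈ L, c ≤ l - 1 := by
  intro L
  induction L with
  | nil => intro _ c hc; simp at hc
  | cons d L ih =>
    intro h c hc
    have e1 : ltL l (d :: L) = match Nat.blt d l with | true => ltL l L | false => false := rfl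
    rw [e1] at h
    cases hd : Nat.blt d l with
    | false => rw [hd] at h; simp at h
    | true =>
      rw [hd] at h
      rcases List.mem_cons.1 hc with rfl | hc
      · have h2 : c < l := by
          have h3 : Nat.ble (c + 1) l = true := hd
          exact Nat.le_of_ble_eq_true h3
        omega
      · exact ih h c hc

private theorem engP_pack (B : ℕ) : ∀ (L : List ℕ) (acc pw : ℕ),
    packL B L acc pw = acc + pw * (engP_N L).eval B := by
  intro L
  induction L with
  | nil => intro acc pw; simp [engP_N, packL]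
  | cons c L ih =>
    intro acc pw
    have e1 : packL B (c :: L) acc pw =
        frc (acc + c * pw) fun acc' => frc (pw * B) fun pw' => packL B L acc' pw' := rfl
    rw [e1, frc_eq, frc_eq, ih]
    simp only [engP_N]
    rw [eval_add, eval_C, eval_mul, eval_X]
    ring

/-- evaluation as a sum of digits. -/
private theorem engP_eval {N : ℕ} (B : ℕ) {F : ℕ[X]} (h : ∀ i, N ≤ i → F.coeff i = 0) :
    F.eval B = ∑ i ∈ Finset.range N, F.coeff i * B ^ i := by
  rw [eval_eq_sum_range' (n := N + (F.natDegree + 1)) (by omega), Finset.sum_range_add]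
  have h1 : ∑ x ∈ Finset.range (F.natDegree + 1), F.coeff (N + x) * B ^ (N + x) = 0 :=
    Finset.sum_eq_zero fun i _ => by rw [h _ (by omega), zero_mul]
  rw [h1, add_zero]

private theorem engP_dig {B M : ℕ} {F : ℕ[X]} (hM : ∀ i, F.coeff i ≤ M) (hB : M < B) (j : ℕ) :
    F.eval B / B ^ j % B = F.coeff j := by
  have h1 : F.eval B = ∑ i ∈ Finset.range (F.natDegree + 1 + j + 1), F.coeff i * B ^ i :=
    eval_eq_sum_range' (by omega) _
  rw [h1, dig_sum (fun i _ => (hM i).trans_lt hB), if_pos (by omega)]

private theorem engP_red {B l r M : ℕ} (hl : 0 < l) {F : ℕ[X]} (hM : ∀ i, F.coeff i ≤ M)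
    (hB : M < B) (h0 : ∀ i, r ≤ i → ((F.coeff i : ℕ) : ZMod l) = 0) :
    ∃ G : ℕ[X], (∀ i, G.coeff i ≤ l - 1) ∧ (∀ i, r ≤ i → G.coeff i = 0) ∧
      red B l r (F.eval B) = G.eval B ∧
      G.map (Nat.castRingHom (ZMod l)) = F.map (Nat.castRingHom (ZMod l)) := by
  set G : ℕ[X] := ∑ i ∈ Finset.range r, monomial i (F.coeff i % l) with hG
  have hc : ∀ i, G.coeff i = if i < r then F.coeff i % l else 0 := by
    intro i
    rw [hG, finsetSum_coeff]
    simp only [coeff_monomial]
    rw [Finset.sum_ite_eq' (Finset.range r) i]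
    simp only [Finset.mem_range]
  have hz : ∀ i, r ≤ i → G.coeff i = 0 := fun i hi => by rw [hc, if_neg (by omega)]
  refine ⟨G, fun i => ?_, hz, ?_, ?_⟩
  · rw [hc]
    split_ifs
    · have := Nat.mod_lt (F.coeff i) hl
      omega
    · exact Nat.zero_le _
  · rw [engP_eval B hz]
    unfold red
    rw [pk_eq]
    refine Finset.sum_congr rfl fun i hi => ?_
    rw [engP_dig hM hB, hc, if_pos (Finset.mem_range.1 hi)]
  · ext i
    rw [coeff_map, coeff_map, hc]
    show ((if i < r then F.coeff i % l else 0 : ℕ) : ZMod l) = ((F.coeff i : ℕ) : ZMod l)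
    by_cases hi : i < r
    · rw [if_pos hi, ZMod.natCast_mod]
    · rw [if_neg hi, h0 i (by omega), Nat.cast_zero]

private theorem engP_loop {B l r : ℕ} (hl : 0 < l) (P : ℕ[X]) (hP : ∀ i, P.coeff i ≤ l)
    (hP1 : P.coeff r = 1) (hP0 : ∀ i, r < i → P.coeff i = 0) :
    ∀ (k M : ℕ) (F : ℕ[X]), (∀ i, F.coeff i ≤ M) → M + k * (l * l) < B →
      (∀ i, r + k ≤ i → ((F.coeff i : ℕ) : ZMod l) = 0) →
      ∃ G : ℕ[X], (∀ i, G.coeff i ≤ l - 1) ∧ (∀ i, r ≤ i → G.coeff i = 0) ∧
        (Nat.rec (motive := fun _ => ℕ → ℕ) (fun z => red B l r z)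
          (fun m ih z => frc (z + (l - z / B ^ (r + m) % B % l) * (P.eval B * B ^ m)) ih) k :
            ℕ → ℕ) (F.eval B) = G.eval B ∧
        P.map (Nat.castRingHom (ZMod l)) ∣
          F.map (Nat.castRingHom (ZMod l)) - G.map (Nat.castRingHom (ZMod l)) := by
  intro k
  induction k with
  | zero =>
    intro M F hM hB h0
    obtain ⟨G, h1, h2, h3, h4⟩ := engP_red (B := B) (r := r) hl hM (by omega) h0
    refine ⟨G, h1, h2, h3, ?_⟩
    rw [h4, sub_self]
    exact dvd_zero _
  | succ m ih =>
    intro M F hM hB h0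
    rw [Nat.succ_mul] at hB
    set c := F.coeff (r + m) with hc
    have hdig : F.eval B / B ^ (r + m) % B = c := engP_dig hM (by omega) _
    set a := l - c % l with ha
    have hal : a ≤ l := Nat.sub_le _ _
    set F' : ℕ[X] := F + C a * (P * X ^ m) with hF'
    have hF'c : ∀ i, F'.coeff i = F.coeff i + a * (if m ≤ i then P.coeff (i - m) else 0) := by
      intro i
      rw [hF', coeff_add, coeff_C_mul, coeff_mul_X_pow']
    have hF'e : F'.eval B = F.eval B + a * (P.eval B * B ^ m) := by
      rw [hF', eval_add, eval_mul, eval_C, eval_mul, eval_pow, eval_X]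
    have ha0 : ((c + a * 1 : ℕ) : ZMod l) = 0 := by
      have h1 : c % l ≤ l := (Nat.mod_lt c hl).le
      rw [mul_one, Nat.cast_add, ha, Nat.cast_sub h1, ZMod.natCast_self, ZMod.natCast_mod]
      ring
    obtain ⟨G, h1, h2, h3, h4⟩ := ih (M + l * l) F' (by
      intro i
      rw [hF'c]
      refine Nat.add_le_add (hM i) ?_
      split_ifs
      · exact Nat.mul_le_mul hal (hP _)
      · exact Nat.zero_le _) (by omega) (by
      intro i hi
      rw [hF'c, if_pos (by omega)]
      rcases Nat.lt_or_ge (r + m) i with h | h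
      · rw [hP0 (i - m) (by omega), mul_zero, add_zero]
        exact h0 i (by omega)
      · have e1 : i = r + m := by omega
        subst e1
        have e2 : r + m - m = r := by omega
        rw [e2, hP1]
        exact ha0)
    refine ⟨G, h1, h2, ?_, ?_⟩
    · rw [← h3]
      show frc (F.eval B + (l - F.eval B / B ^ (r + m) % B % l) * (P.eval B * B ^ m)) _ = _
      rw [frc_eq, hdig, ← ha, ← hF'e]
    · have e3 : F.map (Nat.castRingHom (ZMod l)) - G.map (Nat.castRingHom (ZMod l)) =
          (F'.map (Nat.castRingHom (ZMod l)) - G.map (Nat.castRingHom (ZMod l))) -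
            P.map (Nat.castRingHom (ZMod l)) *
              ((C a * X ^ m : ℕ[X]).map (Nat.castRingHom (ZMod l))) := by
        have e4 : F'.map (Nat.castRingHom (ZMod l)) = F.map (Nat.castRingHom (ZMod l)) +
            P.map (Nat.castRingHom (ZMod l)) *
              ((C a * X ^ m : ℕ[X]).map (Nat.castRingHom (ZMod l))) := by
          rw [hF', ← Polynomial.map_mul, ← Polynomial.map_add]
          congr 1
          ring
        rw [e4]
        ring
      rw [e3]
      exact dvd_sub h4 (dvd_mul_right _ _)

/-- `x` represents the class `α`. -/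
private def engP_R (B l r : ℕ) (p : (ZMod l)[X]) (x : ℕ) (α : AdjoinRoot p) : Prop :=
  ∃ G : ℕ[X], (∀ i, G.coeff i ≤ l - 1) ∧ (∀ i, r ≤ i → G.coeff i = 0) ∧ x = G.eval B ∧
    AdjoinRoot.mk p (G.map (Nat.castRingHom (ZMod l))) = α

private theorem engP_mul_coeff {r M : ℕ} {F G : ℕ[X]} (hF : ∀ i, F.coeff i ≤ M)
    (hF0 : ∀ i, r ≤ i → F.coeff i = 0) (hG : ∀ i, G.coeff i ≤ M) (i : ℕ) :
    (F * G).coeff i ≤ r * (M * M) := by
  rw [coeff_mul, Finset.Nat.sum_antidiagonal_eq_sum_range_succ_mk]
  have h1 : ∑ k ∈ Finset.range i.succ, F.coeff k * G.coeff (i - k) ≤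
      ∑ k ∈ Finset.range i.succ, if k < r then M * M else 0 := by
    refine Finset.sum_le_sum fun k _ => ?_
    split_ifs with h
    · exact Nat.mul_le_mul (hF k) (hG _)
    · rw [hF0 k (by omega), zero_mul]
  refine h1.trans ?_
  rw [← Finset.sum_filter, Finset.sum_const, smul_eq_mul]
  refine Nat.mul_le_mul_right _ ?_
  calc ((Finset.range i.succ).filter fun k => k < r).card ≤ (Finset.range r).card := by
        refine Finset.card_le_card fun k hk => ?_
        rw [Finset.mem_filter] at hk
        exact Finset.mem_range.2 hk.2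
    _ = r := Finset.card_range r

private theorem engP_mm {B l r : ℕ} (hl : 0 < l) (hr : 1 ≤ r) (P : ℕ[X])
    (hP : ∀ i, P.coeff i ≤ l) (hP1 : P.coeff r = 1) (hP0 : ∀ i, r < i → P.coeff i = 0)
    (hB : 4 * (r + 1) * (l * l) < B) {x y : ℕ}
    {α β : AdjoinRoot (P.map (Nat.castRingHom (ZMod l)))}
    (hx : engP_R B l r _ x α) (hy : engP_R B l r _ y β) :
    engP_R B l r _ (mmP B l r (P.eval B) x y) (α * β) := by
  obtain ⟨F, f1, f2, rfl, rfl⟩ := hx
  obtain ⟨G, g1, g2, rfl, rfl⟩ := hy
  have hll : (l - 1) * (l - 1) ≤ l * l := Nat.mul_le_mul (Nat.sub_le _ _) (Nat.sub_le _ _)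
  have hb : r * (l * l) + (r - 1) * (l * l) < B := by
    have h1 : r * (l * l) + (r - 1) * (l * l) ≤ 4 * (r + 1) * (l * l) := by
      rw [← Nat.add_mul]
      exact Nat.mul_le_mul_right _ (by omega)
    omega
  obtain ⟨H, h1, h2, h3, h4⟩ := engP_loop (B := B) (r := r) hl P hP hP1 hP0 (r - 1)
    (r * (l * l)) (F * G) (fun i => (engP_mul_coeff f1 f2 g1 i).trans
      (Nat.mul_le_mul_left _ hll)) hb (by
      intro i hi
      have h5 : (F * G).coeff i = 0 := by
        rw [coeff_mul]
        refine Finset.sum_eq_zero fun ab hab => ?_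
        have h6 : ab.1 + ab.2 = i := Finset.HasAntidiagonal.mem_antidiagonal.1 hab
        rcases Nat.lt_or_ge ab.1 r with h | h
        · rw [g2 ab.2 (by omega), mul_zero]
        · rw [f2 ab.1 h, zero_mul]
      rw [h5, Nat.cast_zero])
  refine ⟨H, h1, h2, ?_, ?_⟩
  · rw [← h3, eval_mul]
    have e1 : mmP B l r (P.eval B) (F.eval B) (G.eval B) =
      frc (F.eval B * G.eval B) fun z =>
        (Nat.rec (motive := fun _ => ℕ → ℕ) (fun z => red B l r z)
          (fun m ih z => frc (z + (l - z / B ^ (r + m) % B % l) * (P.eval B * B ^ m)) ih)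
            (r - 1) : ℕ → ℕ) z := rfl
    rw [e1, frc_eq]
  · rw [← map_mul, ← Polynomial.map_mul, AdjoinRoot.mk_eq_mk]
    exact (dvd_sub_comm).1 h4

private theorem engP_pow {B l r : ℕ} (hl : 0 < l) (hr : 1 ≤ r) (P : ℕ[X])
    (hP : ∀ i, P.coeff i ≤ l) (hP1 : P.coeff r = 1) (hP0 : ∀ i, r < i → P.coeff i = 0)
    (hB : 4 * (r + 1) * (l * l) < B) {x : ℕ}
    {α : AdjoinRoot (P.map (Nat.castRingHom (ZMod l)))}
    (hx : engP_R B l r _ x α) : ∀ (bits : List Bool) (acc e : ℕ),
      engP_R B l r _ acc (α ^ e) →
      engP_R B l r _ (powP B l r (P.eval B) x bits acc) (α ^ (valB bits e)) := by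
  intro bits
  induction bits with
  | nil => intro acc e h; exact h
  | cons b bits ih =>
    intro acc e h
    have h2 := engP_mm hl hr P hP hP1 hP0 hB h h
    rw [← pow_add] at h2
    cases b with
    | true =>
      have e1 : powP B l r (P.eval B) x (true :: bits) acc =
        frc (mmP B l r (P.eval B) acc acc) fun a => frc (mmP B l r (P.eval B) a x)
          (powP B l r (P.eval B) x bits) := rfl
      have e2 : valB (true :: bits) e = valB bits (2 * e + 1) := rfl
      rw [e1, frc_eq, frc_eq, e2]
      refine ih _ _ ?_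
      have h3 := engP_mm hl hr P hP hP1 hP0 hB h2 hx
      rw [← pow_succ] at h3
      have e3 : 2 * e + 1 = e + e + 1 := by ring
      rw [e3]
      exact h3
    | false =>
      have e1 : powP B l r (P.eval B) x (false :: bits) acc =
        frc (mmP B l r (P.eval B) acc acc) fun a => powP B l r (P.eval B) x bits a := rfl
      have e2 : valB (false :: bits) e = valB bits (2 * e) := rfl
      rw [e1, frc_eq, e2]
      refine ih _ _ ?_
      have e3 : 2 * e = e + e := by ring
      rw [e3]
      exact h2

private theorem engP_one {B l r : ℕ} (hlB : l - 1 < B) (p : (ZMod l)[X]) {α : AdjoinRoot p}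
    (h : engP_R B l r p 1 α) : α = 1 := by
  obtain ⟨G, g1, g2, g3, g4⟩ := h
  have h1 : G = 1 := by
    ext i
    have h2 := engP_dig g1 hlB i
    rw [← g3] at h2
    rw [← h2, coeff_one]
    by_cases hi : i = 0
    · subst hi
      rw [if_pos rfl, pow_zero, Nat.div_one]
      rcases Nat.lt_or_ge 1 B with hB | hB
      · exact Nat.mod_eq_of_lt hB
      · exfalso
        have hB1 : B = 1 := by omega
        have h3 : ∀ i, G.coeff i = 0 := fun i => by
          have := g1 i
          omega
        have h4 : G = 0 := by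
          ext i
          rw [h3 i, coeff_zero]
        rw [h4, eval_zero] at g3
        omega
    · rw [if_neg hi]
      rcases Nat.lt_or_ge 1 B with hB | hB
      · have h3 : 1 / B ^ i = 0 := Nat.div_eq_of_lt (Nat.one_lt_pow hi hB)
        rw [h3, Nat.zero_mod]
      · have hB1 : B = 1 := by omega
        rw [hB1, Nat.mod_one]
  rw [← g4, h1, Polynomial.map_one, map_one]

private theorem engP_ord {l s : ℕ} : ∀ k : ℕ,
    (Nat.rec (motive := fun _ => Bool) true
      (fun m ih => match Nat.beq (l ^ (Nat.succ m) % s) 1 with | true => false | false => ih) k :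
        Bool) = true → ∀ d, 1 ≤ d → d ≤ k → l ^ d % s ≠ 1 := by
  intro k
  induction k with
  | zero => intro _ d h1 h2; omega
  | succ m ih =>
    intro h d h1 h2
    have h' : (match Nat.beq (l ^ (Nat.succ m) % s) 1 with
      | true => false
      | false => (Nat.rec (motive := fun _ => Bool) true
      (fun m ih => match Nat.beq (l ^ (Nat.succ m) % s) 1 with | true => false | false => ih) m :
        Bool)) = true := h
    cases hb : Nat.beq (l ^ (Nat.succ m) % s) 1 with
    | true => rw [hb] at h'; simp at h'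
    | false =>
      rw [hb] at h'
      rcases Nat.lt_or_ge m d with h3 | h3
      · have e1 : d = Nat.succ m := by omega
        rw [e1]
        exact Nat.ne_of_beq_eq_false hb
      · exact ih h' d h1 h3

private theorem engP_deg (l : ℕ) (ps : List ℕ) : (lowL l ps).degree < (ps.length : ℕ) := by
  rw [degree_lt_iff_coeff_zero]
  intro m hm
  rw [← engP_N_map, coeff_map, engP_N_coeff_zero ps m hm, map_zero]

theorem irr_of_check {B l s : ℕ} [Fact l.Prime] {ps gs us : List ℕ} {bits : List Bool}
    (hs : s.Prime) (hr : 1 ≤ ps.length) (hB : 4 * (ps.length + 1) * (l * l) < B)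
    (h : irrP B l ps gs us s bits = true) : Irreducible (ofL l ps) := by
  have hlp : l.Prime := Fact.out
  have hl : 0 < l := hlp.pos
  have hl2 : 2 ≤ l := hlp.two_le
  set r := ps.length with hrdef
  unfold irrP at h
  simp only [frc_eq] at h
  rw [← hrdef] at h
  have hlB : 2 * l < B := by
    have h1 : 2 * l ≤ 4 * (r + 1) * (l * l) := by
      calc 2 * l ≤ l * l := Nat.mul_le_mul_right _ hl2
        _ ≤ 4 * (r + 1) * (l * l) := Nat.le_mul_of_pos_left _ (by omega)
    omega
  -- the polynomial
  set P : ℕ[X] := engP_N ps + X ^ r with hPdef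
  have hPmap : P.map (Nat.castRingHom (ZMod l)) = ofL l ps := by
    rw [hPdef, Polynomial.map_add, engP_N_map, Polynomial.map_pow, Polynomial.map_X]
    unfold ofL
    rw [← hrdef, add_comm]
  have hPeval : packL B ps 0 1 + B ^ r = P.eval B := by
    rw [engP_pack, zero_add, one_mul, hPdef, eval_add, eval_pow, eval_X]
  rw [hPeval] at h
  split at h
  · rename_i hps hgs hus hgl hul hval hord
    have hP : ∀ i, P.coeff i ≤ l := by
      intro i
      rw [hPdef, coeff_add, coeff_X_pow]
      have h1 := engP_N_coeff_le ps (engP_ltL hps) i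
      split_ifs <;> omega
    have hP1 : P.coeff r = 1 := by
      rw [hPdef, coeff_add, coeff_X_pow, if_pos rfl, engP_N_coeff_zero ps r le_rfl, zero_add]
    have hP0 : ∀ i, r < i → P.coeff i = 0 := by
      intro i hi
      rw [hPdef, coeff_add, coeff_X_pow, if_neg (by omega), engP_N_coeff_zero ps i (by omega),
        add_zero]
    have hmon : (ofL l ps).Monic := monic_X_pow_add (engP_deg l ps)
    have hdeg : (ofL l ps).natDegree = r := by
      unfold ofL
      rw [natDegree_add_eq_left_of_degree_lt, natDegree_X_pow]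
      rw [degree_X_pow]
      exact engP_deg l ps
    have hgl' : gs.length ≤ r := Nat.le_of_ble_eq_true hgl
    have hul' : us.length ≤ r := Nat.le_of_ble_eq_true hul
    have hgR : engP_R B l r (P.map (Nat.castRingHom (ZMod l))) (packL B gs 0 1)
        (AdjoinRoot.mk _ (lowL l gs)) := by
      refine ⟨engP_N gs, engP_N_coeff_le gs (engP_ltL hgs), fun i hi =>
        engP_N_coeff_zero gs i (by omega), ?_, ?_⟩
      · rw [engP_pack, zero_add, one_mul]
      · rw [engP_N_map]
    have huR : engP_R B l r (P.map (Nat.castRingHom (ZMod l))) (packL B us 0 1)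
        (AdjoinRoot.mk _ (lowL l us)) := by
      refine ⟨engP_N us, engP_N_coeff_le us (engP_ltL hus), fun i hi =>
        engP_N_coeff_zero us i (by omega), ?_, ?_⟩
      · rw [engP_pack, zero_add, one_mul]
      · rw [engP_N_map]
    have hg1R : engP_R B l r (P.map (Nat.castRingHom (ZMod l)))
        (red B l r (packL B gs 0 1 + (l - 1))) (AdjoinRoot.mk _ (lowL l gs) - 1) := by
      have e1 : packL B gs 0 1 + (l - 1) = (engP_N gs + C (l - 1)).eval B := by
        rw [engP_pack, zero_add, one_mul, eval_add, eval_C]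
      have hz : ∀ i, r ≤ i → (engP_N gs + C (l - 1)).coeff i = 0 := by
        intro i hi
        rw [coeff_add, engP_N_coeff_zero gs i (by omega), coeff_C, if_neg (by omega), add_zero]
      obtain ⟨G, h1, h2, h3, h4⟩ := engP_red (B := B) (l := l) (r := r) (M := 2 * l) hl
        (F := engP_N gs + C (l - 1)) (by
          intro i
          rw [coeff_add, coeff_C]
          have h1 := engP_N_coeff_le gs (engP_ltL hgs) i
          split_ifs <;> omega) hlB (by
          intro i hi
          rw [hz i hi, Nat.cast_zero])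
      refine ⟨G, h1, h2, ?_, ?_⟩
      · rw [e1, h3]
      · have e2 : (Nat.castRingHom (ZMod l)) (l - 1) = -1 := by
          show ((l - 1 : ℕ) : ZMod l) = -1
          rw [Nat.cast_sub (by omega), ZMod.natCast_self]
          simp
        have e3 : (engP_N gs + C (l - 1)).map (Nat.castRingHom (ZMod l)) = lowL l gs - 1 := by
          rw [Polynomial.map_add, engP_N_map, Polynomial.map_C, e2, C_neg, C_1, sub_eq_add_neg]
        rw [h4, e3, map_sub, map_one]
    have h1R : engP_R B l r (P.map (Nat.castRingHom (ZMod l))) 1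
        ((AdjoinRoot.mk _ (lowL l gs)) ^ 0) := by
      refine ⟨1, fun i => ?_, fun i hi => ?_, ?_, ?_⟩
      · rw [coeff_one]
        split_ifs <;> omega
      · rw [coeff_one, if_neg (by omega)]
      · rw [eval_one]
      · rw [Polynomial.map_one, map_one, pow_zero]
    have hpowR := engP_pow (B := B) hl hr P hP hP1 hP0 hB hgR bits 1 0 h1R
    have hbR := engP_mm (B := B) hl hr P hP hP1 hP0 hB huR hg1R
    have hval' : valB bits 0 = s := Nat.eq_of_beq_eq_true hval
    rw [hval'] at hpowR
    split at h
    · rename_i ha hb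
      have ha' := Nat.eq_of_beq_eq_true ha
      have hb' := Nat.eq_of_beq_eq_true hb
      rw [ha'] at hpowR
      rw [hb'] at hbR
      have h5 := engP_one (by omega) _ hpowR
      have h6 := engP_one (by omega) _ hbR
      have h7 : ∀ d, 1 ≤ d → d < r → l ^ d % s ≠ 1 := by
        intro d h1 h2
        exact engP_ord (r - 1) hord d h1 (by omega)
      clear_value P
      subst_vars
      rw [← hPmap] at hmon hdeg ⊢
      exact irr_of_root _ hmon hdeg hr hs _ _ h5 h6 h7
    · simp at h
  · simp at h

theorem irr_one {l : ℕ} [Fact l.Prime] (c : ℕ) : Irreducible (ofL l [c]) := by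
  refine irreducible_of_degree_eq_one ?_
  have e1 : ofL l [c] = X + C (c : ZMod l) := by
    unfold ofL
    simp [lowL]
  rw [e1]
  exact degree_X_add_C _

end MP0f16e1
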