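import Pool.Agent.Work.MP_0f16e1_nt.BaseD
import Pool.Agent.Work.MP_0f16e1_nt.EngD
import Pool.Agent.Work.MP_0f16e1_nt.EngE
import Pool.Agent.Work.MP_0f16e1_nt.EngF
import Pool.Agent.Work.MP_0f16e1_nt.EngP

/-! # MP_0f16e1_nt : soundness of the data checks -/

namespace MP0f16e1

theorem mem_of_memB {s : ℕ} {L : List ℕ} (h : memB s L = true) : s ∈ L := by
  induction L with
  | nil => simp [memB] at h
  | cons c L ih =>
    change (match Nat.beq c s with | true => true | false => memB s L) = true at h
    cases hb : Nat.beq c s with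
    | true => rw [Nat.eq_of_beq_eq_true hb]; exact List.mem_cons_self
    | false => rw [hb] at h; exact List.mem_cons_of_mem _ (ih h)

/-- irreducibility from the data check. -/
theorem irr_of_data {B l s : ℕ} [Fact l.Prime] {PL ps gs us : List ℕ} {bits : List Bool}
    (hPL : ∀ s ∈ PL, s.Prime)
    (h : (match ps with
      | [] => false
      | [_] => true
      | _ => match memB s PL with
        | true => irrP B l ps gs us s bits
        | false => false) = true) (hB : 4 * (ps.length + 1) * (l * l) < B) :
    1 ≤ ps.length ∧ Irreducible (ofL l ps) := by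
  match ps, h, hB with
  | [c], _, _ => exact ⟨le_refl _, irr_one c⟩
  | c :: c' :: t, h, hB =>
    have h' : (match memB s PL with
        | true => irrP B l (c :: c' :: t) gs us s bits
        | false => false) = true := h
    cases hm : memB s PL with
    | false => rw [hm] at h'; exact absurd h' (by simp)
    | true =>
      rw [hm] at h'
      have h1 : 1 ≤ (c :: c' :: t).length := by simp
      exact ⟨h1, irr_of_check (hPL s (mem_of_memB hm)) h1 hB h'⟩

theorem blkI_spec {B l n : ℕ} [Fact l.Prime] {PL : List ℕ} {c : BlkI}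
    (hPL : ∀ s ∈ PL, s.Prime) (hG : Good B l n) (h : blkI B l n PL c = true) :
    ltL l c.cs = true ∧ ltL l c.ps = true ∧ c.ps.length ≤ n ∧ Irreducible (ofL l c.ps) := by
  unfold blkI at h
  cases h1 : ltL l c.cs with
  | false => rw [h1] at h; exact absurd h (by simp)
  | true =>
  cases h2 : ltL l c.ps with
  | false => rw [h1, h2] at h; exact absurd h (by simp)
  | true =>
  cases h3 : Nat.ble c.ps.length n with
  | false => rw [h1, h2, h3] at h; exact absurd h (by simp)
  | true =>
  rw [h1, h2, h3] at h
  have hlen : c.ps.length ≤ n := Nat.le_of_ble_eq_true h3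
  have hB : 4 * (c.ps.length + 1) * (l * l) < B := by
    refine lt_of_le_of_lt ?_ hG
    apply Nat.mul_le_mul_right
    omega
  exact ⟨rfl, rfl, hlen, (irr_of_data hPL h hB).2⟩

theorem allI_spec {B l n : ℕ} {PL : List ℕ} (blks : List BlkI) : ∀ m, allI B l n m PL blks = true →
    (m + ((blks.map BlkI.toBlk).map fun c => c.js.length).sum ≤ n ∧
      ∀ c ∈ blks, blkI B l n PL c = true) := by
  induction blks with
  | nil =>
    intro m h
    have : Nat.ble m n = true := h
    exact ⟨by simpa using Nat.le_of_ble_eq_true this, by simp⟩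
  | cons c blks ih =>
    intro m h
    have h' : (match blkI B l n PL c with
      | true => allI B l n (m + c.js.length) PL blks
      | false => false) = true := h
    cases hc : blkI B l n PL c with
    | false => rw [hc] at h'; exact absurd h' (by simp)
    | true =>
      rw [hc] at h'
      obtain ⟨h1, h2⟩ := ih _ h'
      refine ⟨?_, ?_⟩
      · simp only [List.map_cons, List.sum_cons, BlkI.toBlk] at h1 ⊢
        omega
      · intro x hx
        rcases List.mem_cons.1 hx with rfl | hx
        · exact hc
        · exact h2 x hx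

/-- the window check is sound. -/
theorem win_of_I {B l b d iv : ℕ} [Fact l.Prime] {PL : List ℕ} {blks : List BlkI}
    (hPL : ∀ s ∈ PL, s.Prime) (hb : Even b) (hd : Even d) (hiv : 1728 * iv % l = 1)
    (hG : Good B l (nS b)) (hle : SF (ZMod l) d ≤ SF (ZMod l) b)
    (hst : ∀ x ∈ SF (ZMod l) d, T2 (ZMod l) b x ∈ SF (ZMod l) d)
    (h : winI B l b d iv PL blks = true) :
    CB (T2 (ZMod l) b) (SF (ZMod l) d) (SF (ZMod l) b) blks.length := by
  unfold winI at h
  cases ha : allI B l (nS b) (nS d) PL blks with
  | false => rw [ha] at h; exact absurd h (by simp)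
  | true =>
    rw [ha] at h
    obtain ⟨h1, h2⟩ := allI_spec blks _ ha
    have := win_of_check hb hd hiv hG hle hst h1 (by
      intro c hc
      obtain ⟨c', hc', rfl⟩ := List.mem_map.1 hc
      exact blkI_spec hPL hG (h2 c' hc')) h
    simpa using this

/-- the base check is sound. -/
theorem base_of_cert {B : ℕ} {PL LL : List ℕ} {c : CertB} (hPL : ∀ s ∈ PL, s.Prime)
    (hLL : ∀ l ∈ LL, l.Prime) (h : certP B PL LL c = true) :
    ∃ hp : Fact c.l.Prime, c.l ∈ LL ∧ Even c.w ∧ @Base c.l c.w c.ps.length hp := by
  unfold certP at h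
  cases hs : sideC B PL LL c with
  | false => rw [hs] at h; exact absurd h (by simp)
  | true =>
  rw [hs] at h
  unfold sideC at hs
  cases h1 : Nat.beq (1728 * c.iv % c.l) 1 with
  | false => rw [h1] at hs; exact absurd hs (by simp)
  | true =>
  cases h2 : Nat.blt (8 * (nS c.w + 1) * (c.l * c.l)) B with
  | false => rw [h1, h2] at hs; exact absurd hs (by simp)
  | true =>
  cases h3 : ltL c.l c.cs with
  | false => rw [h1, h2, h3] at hs; exact absurd hs (by simp)
  | true =>
  cases h4 : ltL c.l c.ps with
  | false => rw [h1, h2, h3, h4] at hs; exact absurd hs (by simp)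
  | true =>
  cases h5 : Nat.ble c.ps.length (nS c.w) with
  | false => rw [h1, h2, h3, h4, h5] at hs; exact absurd hs (by simp)
  | true =>
  cases h6 : Nat.beq (c.w % 2) 0 with
  | false => rw [h1, h2, h3, h4, h5, h6] at hs; exact absurd hs (by simp)
  | true =>
  cases h7 : memB c.l LL with
  | false => rw [h1, h2, h3, h4, h5, h6, h7] at hs; exact absurd hs (by simp)
  | true =>
  rw [h1, h2, h3, h4, h5, h6, h7] at hs
  have hmem := mem_of_memB h7
  have hp : Fact c.l.Prime := ⟨hLL _ hmem⟩
  have hG : Good B c.l (nS c.w) := by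
    unfold Good
    have := h2
    rw [Nat.blt_eq] at this
    exact this
  have hlen : c.ps.length ≤ nS c.w := Nat.le_of_ble_eq_true h5
  have hB : 4 * (c.ps.length + 1) * (c.l * c.l) < B := by
    refine lt_of_le_of_lt ?_ hG
    apply Nat.mul_le_mul_right
    omega
  have hw : Even c.w := Nat.even_iff.2 (Nat.eq_of_beq_eq_true h6)
  exact ⟨hp, hmem, hw, base_of_check hw (Nat.eq_of_beq_eq_true h1) hG h3 h4 hlen
    (irr_of_data hPL hs hB).2 h⟩

theorem allC_spec {B : ℕ} {PL LL : List ℕ} (L : List CertB) (h : allC B PL LL L = true) :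
    ∀ c ∈ L, certP B PL LL c = true := by
  induction L with
  | nil => simp
  | cons c L ih =>
    have h' : (match certP B PL LL c with | true => allC B PL LL L | false => false) = true := h
    cases hc : certP B PL LL c with
    | false => rw [hc] at h'; exact absurd h' (by simp)
    | true =>
      rw [hc] at h'
      intro x hx
      rcases List.mem_cons.1 hx with rfl | hx
      · exact hc
      · exact ih h' x hx

end MP0f16e1
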