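import Mathlib

/-! # MP_0f16e1_nt (Maeda): definitions -/

open UpperHalfPlane ModularForm ModularFormClass
open scoped MatrixGroups ArithmeticFunction.sigma

noncomputable section

namespace MP0f16e1

/-! ## Objects of the statement -/

/-- `S k`: the `ℚ`-vector space of the `q`-expansions of the cusp forms of weight `k` for
`SL(2,ℤ)` all of whose coefficients are rational. -/
def S (k : ℕ) : Submodule ℚ (PowerSeries ℚ) where
  carrier := {f | ∃ F : CuspForm 𝒮ℒ (k : ℤ), qExpansion 1 F = f.map (algebraMap ℚ ℂ)}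
  add_mem' := by
    rintro a b ⟨F, hF⟩ ⟨G, hG⟩
    refine ⟨F + G, ?_⟩
    rw [map_add, ← hF, ← hG]
    exact ModularForm.qExpansion_add one_pos one_mem_strictPeriods_SL F G
  zero_mem' := by
    refine ⟨0, ?_⟩
    rw [map_zero]
    exact qExpansion_zero 1
  smul_mem' := by
    rintro c a ⟨F, hF⟩
    refine ⟨(c : ℂ) • F, ?_⟩
    have h := ModularForm.qExpansion_smul one_pos one_mem_strictPeriods_SL (c : ℂ) F
    have h2 : qExpansion 1 ((c : ℂ) • F : CuspForm 𝒮ℒ (k : ℤ)) = (c : ℂ) • qExpansion 1 F := h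
    rw [h2, hF]
    ext n
    simp

/-- The Hecke operator `T_m` of weight `k` on `q`-expansions over `R`:
`(T_m f)(n) = ∑_{d ∣ gcd(m,n)} d^(k-1) f(mn/d²)`. -/
def hecke (R : Type*) [CommRing R] (k m : ℕ) : PowerSeries R →ₗ[R] PowerSeries R where
  toFun f := PowerSeries.mk fun n =>
    ∑ d ∈ (Nat.gcd m n).divisors, (d : R) ^ (k - 1) * PowerSeries.coeff (m * n / d ^ 2) f
  map_add' f g := by
    ext n
    simp [mul_add, Finset.sum_add_distrib]
  map_smul' c f := by
    ext n
    simp only [map_smul, smul_eq_mul, PowerSeries.coeff_mk, RingHom.id_apply, Finset.mul_sum]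
    exact Finset.sum_congr rfl fun d _ => by ring

/-- The vector space `S k` as a type. -/
def Sk (k : ℕ) : Type := S k

instance (k : ℕ) : AddCommGroup (Sk k) := inferInstanceAs (AddCommGroup (S k))

instance (k : ℕ) : Module ℚ (Sk k) := inferInstanceAs (Module ℚ (S k))

/-- The `q`-expansion of an element of `S_k`. -/
def ser {k : ℕ} : Sk k →ₗ[ℚ] PowerSeries ℚ := (S k).subtype

/-- The Hecke algebra `𝕋_k`: the `ℚ`-subalgebra of `End_ℚ(S_k)` generated by the Hecke
operators `T_m`, `m ≥ 1`. -/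
def HeckeAlg (k : ℕ) : Subalgebra ℚ (Module.End ℚ (Sk k)) :=
  Algebra.adjoin ℚ {t | ∃ m : ℕ, 1 ≤ m ∧ ∀ f : Sk k, ser (t f) = hecke ℚ k m (ser f)}

/-! ## Integral power series -/

/-- `E₂` -/
def e2 : PowerSeries ℤ := PowerSeries.mk fun n => if n = 0 then 1 else -24 * (σ 1 n : ℤ)

/-- `E₄` -/
def e4 : PowerSeries ℤ := PowerSeries.mk fun n => if n = 0 then 1 else 240 * (σ 3 n : ℤ)

/-- `E₆` -/
def e6 : PowerSeries ℤ := PowerSeries.mk fun n => if n = 0 then 1 else -504 * (σ 5 n : ℤ)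

/-- `Δ = (E₄³ - E₆²)/1728` (the division is exact, see `dl_spec`). -/
def dl : PowerSeries ℤ := PowerSeries.mk fun n => PowerSeries.coeff n (e4 ^ 3 - e6 ^ 2) / 1728

variable (R : Type*) [CommRing R]

/-- an integral series with coefficients in `R`. -/
def toR (f : PowerSeries ℤ) : PowerSeries R := f.map (Int.castRingHom R)

/-- `Δ^j E₄^a E₆^b`. -/
def mono (j a b : ℕ) : PowerSeries R := toR R (dl ^ j * e4 ^ a * e6 ^ b)

/-- modular forms of weight `k` over `R`. -/
def MF (k : ℕ) : Submodule R (PowerSeries R) :=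
  Submodule.span R {f | ∃ j a b : ℕ, 12 * j + 4 * a + 6 * b = k ∧ f = mono R j a b}

/-- cusp forms of weight `k` over `R`. -/
def SF (k : ℕ) : Submodule R (PowerSeries R) :=
  Submodule.span R {f | ∃ j a b : ℕ, 1 ≤ j ∧ 12 * j + 4 * a + 6 * b = k ∧ f = mono R j a b}

/-- the dimension of `S_k` (`k` even). -/
def nS (k : ℕ) : ℕ := (k - 6 * (k / 2 % 2)) / 12

/-- the triangular basis `g_{k,j} = Δ^j E₄^a E₆^b = q^j + ...`, `b ∈ {0,1}`. -/
def g (k j : ℕ) : PowerSeries R := mono R j ((k - 12 * j - 6 * (k / 2 % 2)) / 4) (k / 2 % 2)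

/-- the Hecke operator `T_2`. -/
def T2 (k : ℕ) : PowerSeries R →ₗ[R] PowerSeries R := hecke R k 2

/-- `θ = q d/dq`. -/
def theta : PowerSeries R →ₗ[R] PowerSeries R where
  toFun f := PowerSeries.mk fun n => (n : R) * PowerSeries.coeff n f
  map_add' f g := by
    ext n
    simp [mul_add]
  map_smul' c f := by
    ext n
    simp only [map_smul, smul_eq_mul, PowerSeries.coeff_mk, RingHom.id_apply]
    ring

/-- the Serre derivative `12 θ f - k E₂ f`. -/
def sD (k : ℕ) (f : PowerSeries R) : PowerSeries R :=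
  12 * theta R f - (k : PowerSeries R) * (toR R e2 * f)

variable {R}

/-- Chain bound: a monotone sequence of `T`-stable subspaces between `U` and `W` jumps at most
`s` times. -/
def CB {F V : Type*} [Field F] [AddCommGroup V] [Module F V] (T : V →ₗ[F] V)
    (U W : Submodule F V) (s : ℕ) : Prop :=
  ∀ (m : ℕ) (C : ℕ → Submodule F V), Monotone C → (∀ i, ∀ x ∈ C i, T x ∈ C i) →
    (∀ i, U ≤ C i ∧ C i ≤ W) → ((Finset.range m).filter fun i => C i ≠ C (i + 1)).card ≤ s

/-- `Base ℓ w r`: there is a cusp form `f = q + ...` of weight `w` modulo `ℓ` killed by `p(T₂)` for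
an irreducible polynomial `p` of degree `r`. -/
def Base (ℓ w r : ℕ) [Fact ℓ.Prime] : Prop :=
  ∃ f ∈ SF (ZMod ℓ) w, PowerSeries.coeff 1 f = 1 ∧ ∃ p : Polynomial (ZMod ℓ), Irreducible p ∧
    p.natDegree = r ∧ Polynomial.aeval (T2 (ZMod ℓ) w) p f = 0

end MP0f16e1

end
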