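import Pool.Agent.Work.MP_0f16e1_nt.Ramanujan

/-! # Module `Deriv` : the Serre derivative preserves `MF`, `SF` over every ring

PROOF.  `theta` is a derivation: `theta (f g) = theta f * g + f * theta g`
(`coeff n (f g) = ∑ a_i b_j`, `n = i + j`); it commutes with `PowerSeries.map`.
`sD k f = 12 θ f - k e2 f`, so `sD (k+k') (f f') = sD k f * f' + f * sD k' f'`.
`sD 4 e4 = -4 e6`, `sD 6 e6 = -6 e4^2` (`ram4`, `ram6`), and `sD 12 dl = 0`: multiply by `1728`:
`sD 12 (e4^3 - e6^2) = 3 e4^2 (-4 e6) - 2 e6 (-6 e4^2) = 0` and `ℤ⟦X⟧` is torsion free.  So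
`sD (12j+4a+6b) (dl^j e4^a e6^b) = dl^j (-4 a e4^(a-1) e6^(b+1) - 6 b e4^(a+2) e6^(b-1))`,
a combination of monomials of weight `k+2` with the same `j`.  `sD` is additive and `R`-linear in `f`
for fixed `k`, conclude by span induction. -/

open PowerSeries

namespace MP0f16e1

theorem theta_mul (R : Type*) [CommRing R] (f h : PowerSeries R) :
    theta R (f * h) = theta R f * h + f * theta R h := by
  ext n
  have h1 : coeff n (theta R (f * h)) = (n : R) * coeff n (f * h) := by
    simp [theta]
  rw [h1, map_add, PowerSeries.coeff_mul, PowerSeries.coeff_mul, PowerSeries.coeff_mul,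
    ← Finset.sum_add_distrib, Finset.mul_sum]
  refine Finset.sum_congr rfl fun p hp => ?_
  have h2 : p.1 + p.2 = n := by simpa using hp
  simp only [theta, LinearMap.coe_mk, AddHom.coe_mk, PowerSeries.coeff_mk]
  rw [← h2]
  push_cast
  ring

theorem theta_map {R R' : Type*} [CommRing R] [CommRing R'] (φ : R →+* R') (f : PowerSeries R) :
    (theta R f).map φ = theta R' (f.map φ) := by
  ext n
  simp [theta]

private theorem sD_mul (R : Type*) [CommRing R] (k k' : ℕ) (f f' : PowerSeries R) :
    sD R (k + k') (f * f') = sD R k f * f' + f * sD R k' f' := by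
  simp only [sD]
  rw [theta_mul]
  push_cast
  ring

private theorem sD_pow (R : Type*) [CommRing R] (k n : ℕ) (f : PowerSeries R) :
    sD R (k * n) (f ^ n) = (n : PowerSeries R) * f ^ (n - 1) * sD R k f := by
  induction n with
  | zero =>
    have h : theta R (1 : PowerSeries R) = 0 := by
      ext n
      simp only [theta, LinearMap.coe_mk, AddHom.coe_mk, PowerSeries.coeff_mk,
        PowerSeries.coeff_one, map_zero]
      split_ifs with h0
      · simp [h0]
      · simp
    simp [sD, h]
  | succ n ih =>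
    rw [Nat.mul_succ, pow_succ, sD_mul, ih]
    rcases Nat.eq_zero_or_pos n with h0 | h0
    · subst h0
      simp
    · obtain ⟨m, rfl⟩ : ∃ m, n = m + 1 := ⟨n - 1, by omega⟩
      simp only [Nat.add_sub_cancel]
      push_cast
      ring

private theorem sD_e4 : sD ℤ 4 e4 = -4 * e6 := by
  have h1 : toR ℤ e2 = e2 := by
    ext n
    simp [toR]
  rw [sD, h1]
  have h := ram4
  linear_combination (norm := (push_cast; ring)) 4 * h

private theorem sD_e6 : sD ℤ 6 e6 = -6 * e4 ^ 2 := by
  have h1 : toR ℤ e2 = e2 := by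
    ext n
    simp [toR]
  rw [sD, h1]
  have h := ram6
  linear_combination (norm := (push_cast; ring)) 6 * h

private theorem sD_add (R : Type*) [CommRing R] (k : ℕ) (f f' : PowerSeries R) :
    sD R k (f + f') = sD R k f + sD R k f' := by
  simp only [sD, map_add]
  ring

private theorem sD_sub (R : Type*) [CommRing R] (k : ℕ) (f f' : PowerSeries R) :
    sD R k (f - f') = sD R k f - sD R k f' := by
  simp only [sD, map_sub]
  ring

private theorem sD_smul (R : Type*) [CommRing R] (k : ℕ) (c : R) (f : PowerSeries R) :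
    sD R k (c • f) = c • sD R k f := by
  simp only [sD, map_smul]
  rw [smul_sub, mul_smul_comm, mul_smul_comm, mul_smul_comm]

private theorem sD_dl : sD ℤ 12 dl = 0 := by
  have h := dl_spec
  have h1 : sD ℤ 12 ((1728 : PowerSeries ℤ) * dl) = (1728 : PowerSeries ℤ) * sD ℤ 12 dl := by
    have key := sD_smul ℤ 12 1728 dl
    rw [PowerSeries.smul_eq_C_mul, PowerSeries.smul_eq_C_mul, map_ofNat] at key
    exact key
  have h3 : sD ℤ 12 (e4 ^ 3 - e6 ^ 2) = 0 := by
    rw [sD_sub]
    have h4 := sD_pow ℤ 4 3 e4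
    have h5 := sD_pow ℤ 6 2 e6
    norm_num at h4 h5
    rw [h4, h5, sD_e4, sD_e6]
    ring
  rw [← h, h1] at h3
  have h6 : (1728 : PowerSeries ℤ) ≠ 0 := by
    intro h7
    have h8 := congrArg (coeff 0) h7
    rw [map_zero] at h8
    have h9 : (1728 : PowerSeries ℤ) = C (1728 : ℤ) := by norm_num
    rw [h9, coeff_zero_C] at h8
    norm_num at h8
  exact (mul_eq_zero.mp h3).resolve_left h6

private theorem sD_mono_int (j a b : ℕ) : sD ℤ (12 * j + 4 * a + 6 * b) (dl ^ j * e4 ^ a * e6 ^ b) =
    (a : PowerSeries ℤ) * (-4) * (dl ^ j * e4 ^ (a - 1) * e6 ^ (b + 1)) +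
    (b : PowerSeries ℤ) * (-6) * (dl ^ j * e4 ^ (a + 2) * e6 ^ (b - 1)) := by
  rw [sD_mul, sD_mul, sD_pow, sD_pow, sD_pow, sD_dl, sD_e4, sD_e6]
  ring

private theorem sD_toR (R : Type*) [CommRing R] (k : ℕ) (f : PowerSeries ℤ) :
    sD R k (toR R f) = toR R (sD ℤ k f) := by
  have h1 : toR ℤ e2 = e2 := by
    ext n
    simp [toR]
  simp only [sD, h1]
  simp only [toR, map_sub, map_mul, map_natCast, map_ofNat, theta_map]

private theorem sD_mono (R : Type*) [CommRing R] (j a b : ℕ) :
    sD R (12 * j + 4 * a + 6 * b) (mono R j a b) =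
    ((a : R) * (-4)) • mono R j (a - 1) (b + 1) + ((b : R) * (-6)) • mono R j (a + 2) (b - 1) := by
  rw [mono, sD_toR, sD_mono_int]
  simp only [mono, toR, map_add, map_mul, map_natCast, map_neg, map_ofNat]
  simp only [PowerSeries.smul_eq_C_mul, map_mul, map_natCast, map_neg, map_ofNat]

private theorem sD_zero (R : Type*) [CommRing R] (k : ℕ) : sD R k 0 = 0 := by
  simp [sD]

theorem sD_MF (R : Type*) [CommRing R] {k : ℕ} {f : PowerSeries R} (hf : f ∈ MF R k) :
    sD R k f ∈ MF R (k + 2) := by
  induction hf using Submodule.span_induction with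
  | mem x hx =>
    obtain ⟨j, a, b, hk, rfl⟩ := hx
    subst hk
    rw [sD_mono]
    refine Submodule.add_mem _ ?_ ?_
    · rcases Nat.eq_zero_or_pos a with h0 | h0
      · subst h0; simp
      · exact Submodule.smul_mem _ _ (Submodule.subset_span ⟨j, a - 1, b + 1, by omega, rfl⟩)
    · rcases Nat.eq_zero_or_pos b with h0 | h0
      · subst h0; simp
      · exact Submodule.smul_mem _ _ (Submodule.subset_span ⟨j, a + 2, b - 1, by omega, rfl⟩)
  | zero => rw [sD_zero]; exact Submodule.zero_mem _
  | add x y _ _ hx hy => rw [sD_add]; exact Submodule.add_mem _ hx hy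
  | smul c x _ hx => rw [sD_smul]; exact Submodule.smul_mem _ _ hx

theorem sD_SF (R : Type*) [CommRing R] {k : ℕ} {f : PowerSeries R} (hf : f ∈ SF R k) :
    sD R k f ∈ SF R (k + 2) := by
  induction hf using Submodule.span_induction with
  | mem x hx =>
    obtain ⟨j, a, b, hj, hk, rfl⟩ := hx
    subst hk
    rw [sD_mono]
    refine Submodule.add_mem _ ?_ ?_
    · rcases Nat.eq_zero_or_pos a with h0 | h0
      · subst h0; simp
      · exact Submodule.smul_mem _ _ (Submodule.subset_span ⟨j, a - 1, b + 1, hj, by omega, rfl⟩)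
    · rcases Nat.eq_zero_or_pos b with h0 | h0
      · subst h0; simp
      · exact Submodule.smul_mem _ _ (Submodule.subset_span ⟨j, a + 2, b - 1, hj, by omega, rfl⟩)
  | zero => rw [sD_zero]; exact Submodule.zero_mem _
  | add x y _ _ hx hy => rw [sD_add]; exact Submodule.add_mem _ hx hy
  | smul c x _ hx => rw [sD_smul]; exact Submodule.smul_mem _ _ hx

end MP0f16e1
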