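import Pool.Agent.Work.MP_0f16e1_nt.Defs

/-! # Module `Dl` : `Δ` is integral

Needed: `1728 * dl = e4^3 - e6^2` in `ℤ⟦X⟧`, and the first coefficients.

PROOF.  Put `e4 = 1 + 240 A`, `e6 = 1 - 504 B` with `A = ∑ σ₃(n) Xⁿ`, `B = ∑ σ₅(n) Xⁿ` (`n ≥ 1`).
`e4^3 - e6^2 = 720 A + 1008 B + 3·240² A² + 240³ A³ - 504² B²
            = 144 (5 A + 7 B) + 1728 (100 A² + 8000 A³ - 147 B²)`.
Each coefficient of `5 A + 7 B` is divisible by `12`: `5 σ₃(n) + 7 σ₅(n) = ∑_{d∣n} (5 d³ + 7 d⁵)` and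
`5 d³ + 7 d⁵ ≡ 0 mod 12` for every `d` (decide in `ZMod 12`).  So every coefficient of `e4^3-e6^2` is
divisible by `1728` and `Int.mul_ediv_cancel'` gives the claim.  `coeff 0`, `coeff 1`: direct
computation with `PowerSeries.coeff_mul`, `Finset.Nat.antidiagonal_succ`:
`coeff 1 (e4^3 - e6^2) = 720 + 1008 = 1728`. -/

open PowerSeries

namespace MP0f16e1

open scoped ArithmeticFunction.sigma

private noncomputable def Dl_A : PowerSeries ℤ := PowerSeries.mk fun n => (σ 3 n : ℤ)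

private noncomputable def Dl_B : PowerSeries ℤ := PowerSeries.mk fun n => (σ 5 n : ℤ)

private noncomputable def Dl_D : PowerSeries ℤ :=
  PowerSeries.mk fun n => (5 * (σ 3 n : ℤ) + 7 * (σ 5 n : ℤ)) / 12

private lemma Dl_e4 : e4 = 1 + 240 * Dl_A := by
  ext n
  unfold e4 Dl_A
  rw [map_add, show (240 : PowerSeries ℤ) = C (240 : ℤ) from rfl, coeff_C_mul, coeff_mk, coeff_mk,
    coeff_one]
  split_ifs with h
  · subst h; simp
  · simp

private lemma Dl_e6 : e6 = 1 - 504 * Dl_B := by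
  ext n
  unfold e6 Dl_B
  rw [map_sub, show (504 : PowerSeries ℤ) = C (504 : ℤ) from rfl, coeff_C_mul, coeff_mk, coeff_mk,
    coeff_one]
  split_ifs with h
  · subst h; simp
  · ring

private lemma Dl_dvd (n : ℕ) : (12 : ℤ) ∣ 5 * (σ 3 n : ℤ) + 7 * (σ 5 n : ℤ) := by
  rw [ArithmeticFunction.sigma_apply, ArithmeticFunction.sigma_apply]
  push_cast
  rw [Finset.mul_sum, Finset.mul_sum, ← Finset.sum_add_distrib]
  apply Finset.dvd_sum
  intro d _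
  have h : ∀ x : ZMod 12, 5 * x ^ 3 + 7 * x ^ 5 = 0 := by decide
  have h2 := h (d : ZMod 12)
  have h3 := (ZMod.intCast_zmod_eq_zero_iff_dvd (5 * (d : ℤ) ^ 3 + 7 * (d : ℤ) ^ 5) 12).1 (by
    push_cast
    exact h2)
  exact_mod_cast h3

private lemma Dl_AB : 5 * Dl_A + 7 * Dl_B = 12 * Dl_D := by
  ext n
  unfold Dl_A Dl_B Dl_D
  rw [map_add, show (5 : PowerSeries ℤ) = C (5 : ℤ) from rfl,
    show (7 : PowerSeries ℤ) = C (7 : ℤ) from rfl, show (12 : PowerSeries ℤ) = C (12 : ℤ) from rfl,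
    coeff_C_mul, coeff_C_mul, coeff_C_mul, coeff_mk, coeff_mk, coeff_mk]
  exact (Int.mul_ediv_cancel' (Dl_dvd n)).symm

private lemma Dl_key : e4 ^ 3 - e6 ^ 2 =
    1728 * (Dl_D + 100 * Dl_A ^ 2 + 8000 * Dl_A ^ 3 - 147 * Dl_B ^ 2) := by
  rw [Dl_e4, Dl_e6]
  linear_combination 144 * Dl_AB

private lemma Dl_eq : dl = Dl_D + 100 * Dl_A ^ 2 + 8000 * Dl_A ^ 3 - 147 * Dl_B ^ 2 := by
  ext n
  unfold dl
  rw [coeff_mk, Dl_key, show (1728 : PowerSeries ℤ) = C (1728 : ℤ) from rfl, coeff_C_mul]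
  rw [Int.mul_ediv_cancel_left _ (by norm_num)]

theorem dl_spec : (1728 : PowerSeries ℤ) * dl = e4 ^ 3 - e6 ^ 2 := by
  rw [Dl_key, Dl_eq]

theorem e2_coeff_zero : coeff 0 e2 = 1 := by
  unfold e2; rw [coeff_mk]; simp
theorem e4_coeff_zero : coeff 0 e4 = 1 := by
  unfold e4; rw [coeff_mk]; simp
theorem e6_coeff_zero : coeff 0 e6 = 1 := by
  unfold e6; rw [coeff_mk]; simp

private lemma Dl_A0 : constantCoeff Dl_A = 0 := by
  rw [← coeff_zero_eq_constantCoeff_apply]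
  unfold Dl_A; rw [coeff_mk]; simp

private lemma Dl_B0 : constantCoeff Dl_B = 0 := by
  rw [← coeff_zero_eq_constantCoeff_apply]
  unfold Dl_B; rw [coeff_mk]; simp

private lemma Dl_D0 : constantCoeff Dl_D = 0 := by
  rw [← coeff_zero_eq_constantCoeff_apply]
  unfold Dl_D; rw [coeff_mk]; simp

theorem dl_coeff_zero : coeff 0 dl = 0 := by
  rw [coeff_zero_eq_constantCoeff_apply, Dl_eq]
  simp [Dl_A0, Dl_B0, Dl_D0]

theorem dl_coeff_one : coeff 1 dl = 1 := by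
  rw [Dl_eq]
  have hA : X ∣ Dl_A := X_dvd_iff.2 Dl_A0
  have hB : X ∣ Dl_B := X_dvd_iff.2 Dl_B0
  have h1 : coeff 1 (100 * Dl_A ^ 2 + 8000 * Dl_A ^ 3 - 147 * Dl_B ^ 2) = 0 := by
    have h2 : (X : PowerSeries ℤ) ^ 2 ∣ 100 * Dl_A ^ 2 + 8000 * Dl_A ^ 3 - 147 * Dl_B ^ 2 := by
      apply dvd_sub
      · apply dvd_add
        · exact Dvd.dvd.mul_left (pow_dvd_pow_of_dvd hA 2) _
        · exact Dvd.dvd.mul_left (dvd_trans (pow_dvd_pow_of_dvd hA 2) (pow_dvd_pow _ (by norm_num))) _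
      · exact Dvd.dvd.mul_left (pow_dvd_pow_of_dvd hB 2) _
    exact X_pow_dvd_iff.1 h2 1 (by norm_num)
  have h3 : Dl_D + 100 * Dl_A ^ 2 + 8000 * Dl_A ^ 3 - 147 * Dl_B ^ 2 =
      Dl_D + (100 * Dl_A ^ 2 + 8000 * Dl_A ^ 3 - 147 * Dl_B ^ 2) := by ring
  rw [h3, map_add, h1, add_zero]
  unfold Dl_D
  rw [coeff_mk]
  simp

end MP0f16e1
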