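import Pool.Agent.Work.MP_0f16e1_nt.Chk

/-! # Module `EngA` : packed numbers (digits in base `B`)

PROOF.  `frc_eq`: cases.  `pk_eq`: by induction on `N` the function `Nat.rec ...` applied to `acc` is
`acc * B^N + ∑_{i<N} F i B^i` (`frc_eq`).  `dig_sum`: digits are unique when all `c i < B`
(split the sum at `j`: `∑_{i<j} c_i B^i < B^j`, `∑_{i>j}` divisible by `B^(j+1)`; or
`Nat.ofDigits`, `Nat.getD_digits`).  The rest follows: a number with `Rep B l N M x f` and `M < B` has
digits `c i`.  `Rep.mulP`: `x y = ∑_{n<2N} (∑_{i+j=n, i,j<N} c_i d_j) B^n` (evaluate the product of two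
polynomials in `ℕ[X]` at `B`), the inner sums are at most `N (l-1)^2 < B`, and for `n < N` they reduce to
the coefficients of the product of power series (`PowerSeries.coeff_mul`, `antidiagonal`). -/

open PowerSeries

namespace MP0f16e1

/-- `x = ∑_{i<N} c i * B^i` with `c i ≤ M` and `c i = coeff i f` modulo `l`. -/
def Rep (B l N M x : ℕ) (f : PowerSeries (ZMod l)) : Prop :=
  ∃ c : ℕ → ℕ, (∀ i, c i ≤ M) ∧ x = ∑ i ∈ Finset.range N, c i * B ^ i ∧
    ∀ i < N, coeff i f = (c i : ZMod l)

theorem frc_eq {α : Type} (x : ℕ) (f : ℕ → α) : frc x f = f x := by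
  cases x <;> rfl

theorem pk_eq (B : ℕ) (F : ℕ → ℕ) (N : ℕ) : pk B F N = ∑ i ∈ Finset.range N, F i * B ^ i := by
  have key : ∀ (N acc : ℕ), (Nat.rec (motive := fun _ => ℕ → ℕ) (fun acc => acc)
      (fun m ih acc => frc (acc * B + F m) ih) N acc : ℕ) =
        acc * B ^ N + ∑ i ∈ Finset.range N, F i * B ^ i := by
    intro N
    induction N with
    | zero =>
      intro acc
      simp
    | succ n ih =>
      intro acc
      show frc (acc * B + F n) _ = _
      rw [frc_eq, ih, Finset.sum_range_succ]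
      ring
  have h := key N 0
  rw [zero_mul, zero_add] at h
  exact h

private theorem engA_lt {B : ℕ} (hB : 0 < B) {N : ℕ} {c : ℕ → ℕ} (hc : ∀ i < N, c i < B) :
    ∑ i ∈ Finset.range N, c i * B ^ i < B ^ N := by
  induction N with
  | zero => simp
  | succ n ih =>
    rw [Finset.sum_range_succ]
    have h1 := ih (fun i hi => hc i (by omega))
    have h2 : c n + 1 ≤ B := hc n (by omega)
    calc ∑ i ∈ Finset.range n, c i * B ^ i + c n * B ^ n < B ^ n + c n * B ^ n := by omega
      _ = (c n + 1) * B ^ n := by ring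
      _ ≤ B * B ^ n := Nat.mul_le_mul_right _ h2
      _ = B ^ (n + 1) := by rw [pow_succ]; ring

theorem dig_sum {B N : ℕ} {c : ℕ → ℕ} (hc : ∀ i < N, c i < B) (j : ℕ) :
    (∑ i ∈ Finset.range N, c i * B ^ i) / B ^ j % B = if j < N then c j else 0 := by
  induction N with
  | zero => simp
  | succ n ih =>
    have hB : 0 < B := lt_of_le_of_lt (Nat.zero_le _) (hc n (by omega))
    have h1 := ih (fun i hi => hc i (by omega))
    have h2 := engA_lt hB (N := n) (fun i hi => hc i (by omega))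
    rw [Finset.sum_range_succ]
    rcases lt_trichotomy j n with h | h | h
    · rw [if_pos h] at h1
      rw [if_pos (by omega)]
      obtain ⟨k, rfl⟩ : ∃ k, n = j + (k + 1) := ⟨n - j - 1, by omega⟩
      have e : c (j + (k + 1)) * B ^ (j + (k + 1)) = (c (j + (k + 1)) * B ^ k * B) * B ^ j := by
        rw [pow_add, pow_succ]
        ring
      rw [e, Nat.add_mul_div_right _ _ (pow_pos hB j), Nat.add_mul_mod_self_right]
      exact h1
    · subst h
      rw [if_pos (by omega), Nat.add_mul_div_right _ _ (pow_pos hB j), Nat.div_eq_of_lt h2,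
        zero_add, Nat.mod_eq_of_lt (hc j (by omega))]
    · rw [if_neg (by omega)]
      have h3 := engA_lt hB (N := n + 1) hc
      rw [Finset.sum_range_succ] at h3
      rw [Nat.div_eq_of_lt (h3.trans_le (Nat.pow_le_pow_right hB h)), Nat.zero_mod]

variable {B l N M M' x y : ℕ} {f h : PowerSeries (ZMod l)}

theorem Rep.mono (H : Rep B l N M x f) (hM : M ≤ M') : Rep B l N M' x f := by
  obtain ⟨c, h1, h2, h3⟩ := H
  exact ⟨c, fun i => (h1 i).trans hM, h2, h3⟩

theorem Rep.dig (H : Rep B l N M x f) (hM : M < B) {i : ℕ} (hi : i < N) :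
    coeff i f = ((x / B ^ i % B : ℕ) : ZMod l) := by
  obtain ⟨c, h1, h2, h3⟩ := H
  rw [h2, dig_sum (fun i _ => (h1 i).trans_lt hM), if_pos hi, h3 i hi]

theorem Rep.dig_le (H : Rep B l N M x f) (hM : M < B) (i : ℕ) : x / B ^ i % B ≤ M := by
  obtain ⟨c, h1, h2, h3⟩ := H
  rw [h2, dig_sum (fun i _ => (h1 i).trans_lt hM)]
  split_ifs
  · exact h1 i
  · exact Nat.zero_le _

theorem Rep.of_pk {F : ℕ → ℕ} (hF : ∀ i, F i ≤ M) (hf : ∀ i < N, coeff i f = (F i : ZMod l)) :
    Rep B l N M (pk B F N) f := ⟨F, hF, pk_eq B F N, hf⟩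

theorem Rep.red (H : Rep B l N M x f) (hM : M < B) (hl : 0 < l) {n : ℕ} (hn : n ≤ N) :
    Rep B l n (l - 1) (red B l n x) f := by
  refine Rep.of_pk (fun i => ?_) (fun i hi => ?_)
  · have := Nat.mod_lt (x / B ^ i % B) hl
    omega
  · rw [ZMod.natCast_mod]
    exact H.dig hM (hi.trans_le hn)

private theorem engA_trunc {B : ℕ} (hB : 0 < B) {N n : ℕ} {c : ℕ → ℕ} (hc : ∀ i, c i < B)
    (hn : n ≤ N) : (∑ i ∈ Finset.range N, c i * B ^ i) % B ^ n =
      ∑ i ∈ Finset.range n, c i * B ^ i := by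
  obtain ⟨k, rfl⟩ := Nat.exists_eq_add_of_le hn
  rw [Finset.sum_range_add]
  have e : ∑ i ∈ Finset.range k, c (n + i) * B ^ (n + i) =
      (∑ i ∈ Finset.range k, c (n + i) * B ^ i) * B ^ n := by
    rw [Finset.sum_mul]
    refine Finset.sum_congr rfl fun i _ => ?_
    rw [pow_add]
    ring
  rw [e, Nat.add_mul_mod_self_right, Nat.mod_eq_of_lt (engA_lt hB fun i _ => hc i)]

theorem Rep.trunc (H : Rep B l N M x f) (hM : M < B) {n : ℕ} (hn : n ≤ N) :
    Rep B l n M (x % B ^ n) f := by
  obtain ⟨c, h1, h2, h3⟩ := H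
  refine ⟨c, h1, ?_, fun i hi => h3 i (hi.trans_le hn)⟩
  rw [h2]
  exact engA_trunc (by omega) (fun i => (h1 i).trans_lt hM) hn

theorem Rep.add_mul (H : Rep B l N M x f) (H' : Rep B l N M' y h) (a : ℕ) :
    Rep B l N (M + a * M') (x + a * y) (f + (a : ZMod l) • h) := by
  obtain ⟨c, h1, h2, h3⟩ := H
  obtain ⟨c', h1', h2', h3'⟩ := H'
  refine ⟨fun i => c i + a * c' i, fun i => Nat.add_le_add (h1 i) (Nat.mul_le_mul_left a (h1' i)),
    ?_, fun i hi => ?_⟩
  · rw [h2, h2', Finset.mul_sum, ← Finset.sum_add_distrib]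
    refine Finset.sum_congr rfl fun i _ => ?_
    ring
  · rw [map_add, coeff_smul, h3 i hi, h3' i hi]
    push_cast
    rfl

theorem Rep.mulP (H : Rep B l N (l - 1) x f) (H' : Rep B l N (l - 1) y h) (hl : 0 < l)
    (hB : N * (l * l) < B) : Rep B l N (l - 1) (mulP B l N x y) (f * h) := by
  obtain ⟨c, h1, h2, h3⟩ := H
  obtain ⟨d, h1', h2', h3'⟩ := H'
  let P : ℕ → (ℕ → ℕ) → Polynomial ℕ := fun N c =>
    ∑ i ∈ Finset.range N, Polynomial.monomial i (c i)
  have hPc : ∀ c n, (P N c).coeff n = if n < N then c n else 0 := by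
    intro c n
    simp only [P, Polynomial.finsetSum_coeff, Polynomial.coeff_monomial]
    rw [Finset.sum_ite_eq']
    simp
  have hPe : ∀ c, (P N c).eval B = ∑ i ∈ Finset.range N, c i * B ^ i := by
    intro c
    simp only [P, Polynomial.eval_finsetSum, Polynomial.eval_monomial]
  have hPd : ∀ c, (P N c).natDegree ≤ N := by
    intro c
    rw [Polynomial.natDegree_le_iff_coeff_eq_zero]
    intro n hn
    rw [hPc, if_neg (by omega)]
  let e : ℕ → ℕ := fun n => (P N c * P N d).coeff n
  have hxy : x * y = ∑ n ∈ Finset.range (2 * N + 1), e n * B ^ n := by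
    rw [h2, h2', ← hPe c, ← hPe d, ← Polynomial.eval_mul]
    refine Polynomial.eval_eq_sum_range' ?_ B
    have := Polynomial.natDegree_mul_le (p := P N c) (q := P N d)
    have h4 := hPd c
    have h5 := hPd d
    omega
  have he : ∀ n, e n ≤ N * (l * l) := by
    intro n
    show (P N c * P N d).coeff n ≤ _
    rw [Polynomial.coeff_mul, Finset.Nat.sum_antidiagonal_eq_sum_range_succ
      (fun i j => (P N c).coeff i * (P N d).coeff j)]
    calc ∑ k ∈ Finset.range n.succ, (P N c).coeff k * (P N d).coeff (n - k) ≤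
          ∑ k ∈ Finset.range n.succ, if k < N then l * l else 0 := by
          refine Finset.sum_le_sum fun k _ => ?_
          rw [hPc, hPc]
          split_ifs
          · exact Nat.mul_le_mul ((h1 k).trans (by omega)) ((h1' _).trans (by omega))
          · exact Nat.zero_le _
          · simp
          · simp
      _ ≤ ∑ k ∈ Finset.range N, l * l := by
          rw [← Finset.sum_filter]
          refine Finset.sum_le_sum_of_subset fun k hk => ?_
          exact Finset.mem_range.2 (Finset.mem_filter.1 hk).2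
      _ = N * (l * l) := by simp
  refine Rep.of_pk (fun i => ?_) (fun i hi => ?_)
  · have := Nat.mod_lt (x * y / B ^ i % B) hl
    omega
  · rw [ZMod.natCast_mod, hxy, dig_sum (fun n _ => (he n).trans_lt hB), if_pos (by omega)]
    show _ = (((P N c * P N d).coeff i : ℕ) : ZMod l)
    rw [Polynomial.coeff_mul, PowerSeries.coeff_mul]
    push_cast
    refine Finset.sum_congr rfl fun p hp => ?_
    have hp' := Finset.HasAntidiagonal.mem_antidiagonal.1 hp
    rw [hPc, hPc, if_pos (by omega), if_pos (by omega), h3 _ (by omega), h3' _ (by omega)]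

theorem Rep.coeff_zero (H : Rep B l N M x f) (hM : M < B) (hl : 0 < l) {n : ℕ} (hn : n ≤ N)
    (h0 : MP0f16e1.red B l n x = 0) {i : ℕ} (hi : i < n) : coeff i f = 0 := by
  have h1 := h0
  unfold MP0f16e1.red at h1
  rw [pk_eq, Finset.sum_eq_zero_iff] at h1
  have h2 := h1 i (Finset.mem_range.2 hi)
  have hB : 0 < B := by omega
  have h3 : x / B ^ i % B % l = 0 := (Nat.mul_eq_zero.1 h2).resolve_right (pow_pos hB i).ne'
  rw [H.dig hM (hi.trans_le hn), ← ZMod.natCast_mod, h3, Nat.cast_zero]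

theorem Rep.coeff_eq (H : Rep B l N M x f) (hM : M < B) {n : ℕ} (hn : n ≤ N)
    (H' : Rep B l n M' y h) (hM' : M' < B) (hxy : x % B ^ n = y) {i : ℕ} (hi : i < n) :
    coeff i f = coeff i h := by
  have h1 := H.trunc hM hn
  rw [hxy] at h1
  rw [h1.dig hM hi, H'.dig hM' hi]

end MP0f16e1
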