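import Pool.Agent.Work.MP_0f16e1_nt.EngA
import Pool.Agent.Work.MP_0f16e1_nt.BasisM

/-! # Module `EngB` : the packed forms `g_1, ..., g_n`

PROOF.  `sgA k n D = ∑_{1 ≤ d ≤ D, d ∣ n} d^k` (induction on `D` with an accumulator, `frc_eq`), so
`sgA k n n = σ k n`.  `e2P_rep`, `e4P_rep`, `e6P_rep`: `Rep.of_pk`, coefficients of `e2`, `e4`, `e6`
(`(l - 24 % l : ℕ) = -24` in `ZMod l`).  `powsP`: by induction, `powsP B l N d n x acc k = k (L ++ acc)`
where `L` is the list of the representatives of `f d^n, ..., f d` if `x` represents `f`.  `zipP`: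
`zipP B l N xs ys acc k = k (L ++ acc)`, `L` = reversed list of products.  In `formsP`, `dl` is
represented by the packed number of `iv (e43 - e62)` (`dl_spec`, `1728 iv = 1`), `ds` represents
`[Δ^n, ..., Δ]`, `cs.reverse` represents `[E₄^a0 E₆^e, E₄^(a0+3) E₆^e, ...]`, so the result is
`[g_1, ..., g_n]`: `g_j = Δ^j E₄^(a0 + 3 (n-j)) E₆^e` because `(w - 12j - 6e)/4 = a0 + 3(n-j)`
(here `w` is even, `e = w/2 % 2`, `4 ∣ w - 6e` and `12 n ≤ w - 6 e < 12 (n+1)`, omega).
`formsW_spec` covers `nS w = 0` (empty list). -/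

open PowerSeries

namespace MP0f16e1

variable {B l N : ℕ}

private theorem EngB_sgA_rec (k n : ℕ) : ∀ (D acc : ℕ),
    (Nat.rec (motive := fun _ => ℕ → ℕ) (fun acc => acc)
      (fun m ih acc => frc (if n % (Nat.succ m) = 0 then acc + (Nat.succ m) ^ k else acc) ih) D :
        ℕ → ℕ) acc =
    acc + ∑ d ∈ Finset.range D, if n % (d + 1) = 0 then (d + 1) ^ k else 0 := by
  intro D
  induction D with
  | zero => intro acc; simp
  | succ D ih =>
    intro acc
    show frc (if n % (Nat.succ D) = 0 then acc + (Nat.succ D) ^ k else acc) _ = _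
    rw [frc_eq, ih, Finset.sum_range_succ]
    by_cases h : n % (D + 1) = 0
    · rw [if_pos h, if_pos h]
      show acc + (D + 1) ^ k + _ = _
      ring
    · rw [if_neg h, if_neg h]
      ring

private theorem EngB_sgA (k n : ℕ) : sgA k n n = ArithmeticFunction.sigma k n := by
  have h := EngB_sgA_rec k n n 0
  have h2 : sgA k n n = 0 + ∑ d ∈ Finset.range n, if n % (d + 1) = 0 then (d + 1) ^ k else 0 := h
  rw [h2, zero_add, ArithmeticFunction.sigma_apply]
  rw [Nat.divisors, Finset.sum_filter, Finset.sum_Ico_eq_sum_range]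
  rw [Nat.add_sub_cancel]
  refine Finset.sum_congr rfl fun d _ => ?_
  rw [Nat.add_comm 1 d]
  by_cases h : n % (d + 1) = 0
  · rw [if_pos h, if_pos (Nat.dvd_of_mod_eq_zero h)]
  · rw [if_neg h, if_neg (fun hd => h (Nat.mod_eq_zero_of_dvd hd))]

private theorem EngB_neg {l : ℕ} (hl : 0 < l) (c : ℕ) :
    ((l - c % l : ℕ) : ZMod l) = -(c : ZMod l) := by
  have h1 : c % l ≤ l := (Nat.mod_lt c hl).le
  rw [Nat.cast_sub h1, ZMod.natCast_self, ZMod.natCast_mod, zero_sub]

theorem e2P_rep (hl : 1 < l) : Rep B l N (l - 1) (e2P B l N) (toR (ZMod l) e2) := by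
  unfold e2P
  refine Rep.of_pk (fun i => ?_) (fun i _ => ?_)
  · by_cases h : i = 0
    · rw [if_pos h]; omega
    · rw [if_neg h]
      have := Nat.mod_lt ((l - 24 % l) * sgA 1 i i) (show 0 < l by omega)
      omega
  · rw [Basis_coeff_toR]
    unfold e2
    rw [coeff_mk]
    by_cases h : i = 0
    · rw [if_pos h, if_pos h]; simp
    · rw [if_neg h, if_neg h, EngB_sgA, ZMod.natCast_mod, Nat.cast_mul, EngB_neg (by omega)]
      push_cast
      ring

theorem e4P_rep (hl : 1 < l) : Rep B l N (l - 1) (e4P B l N) (toR (ZMod l) e4) := by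
  unfold e4P
  refine Rep.of_pk (fun i => ?_) (fun i _ => ?_)
  · by_cases h : i = 0
    · rw [if_pos h]; omega
    · rw [if_neg h]
      have := Nat.mod_lt (240 * sgA 3 i i) (show 0 < l by omega)
      omega
  · rw [Basis_coeff_toR]
    unfold e4
    rw [coeff_mk]
    by_cases h : i = 0
    · rw [if_pos h, if_pos h]; simp
    · rw [if_neg h, if_neg h, EngB_sgA, ZMod.natCast_mod]
      push_cast
      ring

theorem e6P_rep (hl : 1 < l) : Rep B l N (l - 1) (e6P B l N) (toR (ZMod l) e6) := by
  unfold e6P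
  refine Rep.of_pk (fun i => ?_) (fun i _ => ?_)
  · by_cases h : i = 0
    · rw [if_pos h]; omega
    · rw [if_neg h]
      have := Nat.mod_lt ((l - 504 % l) * sgA 5 i i) (show 0 < l by omega)
      omega
  · rw [Basis_coeff_toR]
    unfold e6
    rw [coeff_mk]
    by_cases h : i = 0
    · rw [if_pos h, if_pos h]; simp
    · rw [if_neg h, if_neg h, EngB_sgA, ZMod.natCast_mod, Nat.cast_mul, EngB_neg (by omega)]
      push_cast
      ring

theorem zipP_spec {α : Type} (hl : 0 < l) (hB : N * (l * l) < B) (k : List ℕ → α) :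
    ∀ (xs ys : List ℕ) (fs hs : List (PowerSeries (ZMod l))) (acc : List ℕ),
      List.Forall₂ (fun x f => Rep B l N (l - 1) x f) xs fs →
      List.Forall₂ (fun x f => Rep B l N (l - 1) x f) ys hs → xs.length = ys.length →
      ∃ L : List ℕ, zipP B l N xs ys acc k = k (L ++ acc) ∧
        List.Forall₂ (fun x f => Rep B l N (l - 1) x f) L (List.zipWith (· * ·) fs hs).reverse := by
  intro xs
  induction xs with
  | nil =>
    intro ys fs hs acc hf hh _
    cases hf
    exact ⟨[], rfl, by simp⟩
  | cons x xs ih =>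
    intro ys fs hs acc hf hh hlen
    cases ys with
    | nil => simp at hlen
    | cons y ys =>
      cases hf with
      | cons hxf hf =>
        cases hh with
        | cons hyh hh =>
          rename_i f fs h hs
          obtain ⟨L, hL, hR⟩ := ih ys fs hs (mulP B l N x y :: acc) hf hh
            (by simpa using hlen)
          refine ⟨L ++ [mulP B l N x y], ?_, ?_⟩
          · have e1 : zipP B l N (x :: xs) (y :: ys) acc k =
                frc (mulP B l N x y) fun z => zipP B l N xs ys (z :: acc) k := rfl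
            rw [e1, frc_eq, hL, List.append_assoc]
            rfl
          · rw [List.zipWith_cons_cons, List.reverse_cons]
            exact List.rel_append hR (List.Forall₂.cons (Rep.mulP hxf hyh hl hB) List.Forall₂.nil)

private theorem EngB_range2 (n : ℕ) : List.range' 2 n = (List.range' 1 n).map fun i => i + 1 := by
  apply List.ext_getElem
  · simp
  · intro i h1 h2
    simp only [List.getElem_map, List.getElem_range']
    omega

private theorem EngB_pows {α : Type} (hl : 0 < l) (hB : N * (l * l) < B) (d : ℕ)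
    (D : PowerSeries (ZMod l)) (hd : Rep B l N (l - 1) d D) (k : List ℕ → α) :
    ∀ (n x : ℕ) (f : PowerSeries (ZMod l)) (acc : List ℕ), Rep B l N (l - 1) x f →
      ∃ L : List ℕ, powsP B l N d n x acc k = k (L ++ acc) ∧
        List.Forall₂ (fun x i => Rep B l N (l - 1) x (f * D ^ i)) L (List.range' 1 n).reverse := by
  intro n
  induction n with
  | zero =>
    intro x f acc _
    exact ⟨[], rfl, by simp⟩
  | succ n ih =>
    intro x f acc hx
    have hx' := Rep.mulP hx hd hl hB
    obtain ⟨L, hL, hR⟩ := ih (mulP B l N x d) (f * D) (mulP B l N x d :: acc) hx'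
    refine ⟨L ++ [mulP B l N x d], ?_, ?_⟩
    · have e1 : powsP B l N d (n + 1) x acc k =
          frc (mulP B l N x d) fun x' => powsP B l N d n x' (x' :: acc) k := rfl
      rw [e1, frc_eq, hL, List.append_assoc]
      rfl
    · have e2 : (List.range' 1 (n + 1)).reverse =
          ((List.range' 1 n).reverse.map fun i => i + 1) ++ [1] := by
        rw [List.range'_succ, List.reverse_cons]
        congr 1
        rw [List.map_reverse]
        congr 1
        exact EngB_range2 n
      rw [e2]
      refine List.rel_append ?_ (List.Forall₂.cons ?_ List.Forall₂.nil)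
      · rw [List.forall₂_map_right_iff]
        refine hR.imp fun a i h => ?_
        have e3 : f * D ^ (i + 1) = f * D * D ^ i := by ring
        rw [e3]
        exact h
      · rw [pow_one]
        exact hx'

private theorem EngB_zip {R : Type*} [CommRing R] (n : ℕ) (A C : ℕ → R) :
    (List.zipWith (· * ·) ((List.range' 1 n).reverse.map A) ((List.range n).map C)).reverse =
      (List.range' 1 n).map fun j => A j * C (n - j) := by
  apply List.ext_getElem
  · simp
  · intro i h1 h2
    simp only [List.length_reverse, List.length_zipWith, List.length_map, List.length_range',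
      List.length_range, min_self] at h1
    simp only [List.getElem_reverse, List.getElem_zipWith, List.getElem_map, List.getElem_range',
      List.getElem_range, List.length_zipWith, List.length_map, List.length_reverse,
      List.length_range', List.length_range, min_self, one_mul]
    have e1 : n - 1 - (n - 1 - i) = i := by omega
    have e2 : n - 1 - i = n - (1 + i) := by omega
    rw [e1, e2]

private theorem EngB_tail {α : Type} (hl : 1 < l) {n e a0 : ℕ} (hn : 1 ≤ n)
    (hB : N * (l * l) < B) (vd v43 vc : ℕ)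
    (rd : Rep B l N (l - 1) vd (toR (ZMod l) dl))
    (r43 : Rep B l N (l - 1) v43 (toR (ZMod l) e4 * toR (ZMod l) e4 * toR (ZMod l) e4))
    (rc : Rep B l N (l - 1) vc (toR (ZMod l) (e4 ^ a0 * e6 ^ e))) (k : List ℕ → α) :
    ∃ L : List ℕ, (powsP B l N vd (n - 1) vd [vd] fun ds =>
      powsP B l N v43 (n - 1) vc [vc] fun cs => zipP B l N ds cs.reverse [] k) = k L ∧
      List.Forall₂ (fun x f => Rep B l N (l - 1) x f) L ((List.range' 1 n).map fun j =>
        toR (ZMod l) (dl ^ j * e4 ^ (a0 + 3 * (n - j)) * e6 ^ e)) := by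
  have hl0 : 0 < l := by omega
  obtain ⟨Ld, hLd, hRd⟩ := EngB_pows hl0 hB vd _ rd (fun ds =>
    powsP B l N v43 (n - 1) vc [vc] fun cs => zipP B l N ds cs.reverse [] k) (n - 1) vd _ [vd] rd
  rw [hLd]
  obtain ⟨Lc, hLc, hRc⟩ := EngB_pows hl0 hB v43 _ r43 (fun cs =>
    zipP B l N (Ld ++ [vd]) cs.reverse [] k) (n - 1) vc _ [vc] rc
  rw [hLc]
  -- the two lists
  have hds : List.Forall₂ (fun x f => Rep B l N (l - 1) x f) (Ld ++ [vd])
      ((List.range' 1 n).reverse.map fun j => toR (ZMod l) dl ^ j) := by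
    have e1 : (List.range' 1 n).reverse.map (fun j => toR (ZMod l) dl ^ j) =
        ((List.range' 1 (n - 1)).reverse.map fun i => toR (ZMod l) dl * toR (ZMod l) dl ^ i) ++
          [toR (ZMod l) dl] := by
      obtain ⟨m, rfl⟩ : ∃ m, n = m + 1 := ⟨n - 1, by omega⟩
      rw [Nat.add_sub_cancel, List.range'_succ, List.reverse_cons, List.map_append]
      congr 1
      · rw [List.map_reverse, List.map_reverse]
        congr 1
        show (List.range' 2 m).map _ = _
        rw [EngB_range2 m, List.map_map]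
        refine List.map_congr_left fun i _ => ?_
        show toR (ZMod l) dl ^ (i + 1) = _
        rw [pow_succ, mul_comm]
      · simp
    rw [e1]
    refine List.rel_append ?_ (List.Forall₂.cons rd List.Forall₂.nil)
    rw [List.forall₂_map_right_iff]
    exact hRd
  have hcs : List.Forall₂ (fun x f => Rep B l N (l - 1) x f) (Lc ++ [vc]).reverse
      ((List.range n).map fun i => toR (ZMod l) (e4 ^ a0 * e6 ^ e) *
        (toR (ZMod l) e4 * toR (ZMod l) e4 * toR (ZMod l) e4) ^ i) := by
    have e1 : (List.range n).map (fun i => toR (ZMod l) (e4 ^ a0 * e6 ^ e) *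
        (toR (ZMod l) e4 * toR (ZMod l) e4 * toR (ZMod l) e4) ^ i) =
        toR (ZMod l) (e4 ^ a0 * e6 ^ e) :: ((List.range' 1 (n - 1)).map fun i =>
          toR (ZMod l) (e4 ^ a0 * e6 ^ e) *
            (toR (ZMod l) e4 * toR (ZMod l) e4 * toR (ZMod l) e4) ^ i) := by
      obtain ⟨m, rfl⟩ : ∃ m, n = m + 1 := ⟨n - 1, by omega⟩
      rw [Nat.add_sub_cancel, List.range_eq_range', List.range'_succ, List.map_cons, pow_zero,
        mul_one]
    rw [e1, List.reverse_append]
    refine List.Forall₂.cons rc ?_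
    have h1 : Lc.reverse = [].reverse ++ Lc.reverse := by simp
    rw [List.forall₂_map_right_iff]
    have h2 := List.forall₂_reverse_iff.2 hRc
    rw [List.reverse_reverse] at h2
    simpa using h2
  have hlen : (Ld ++ [vd]).length = (Lc ++ [vc]).reverse.length := by
    rw [List.length_reverse, hds.length_eq]
    have := hcs.length_eq
    rw [List.length_reverse] at this
    rw [this]
    simp
  obtain ⟨L, hL, hR⟩ := zipP_spec hl0 hB k _ _ _ _ [] hds hcs hlen
  refine ⟨L, ?_, ?_⟩
  · rw [hL, List.append_nil]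
  · rw [EngB_zip] at hR
    have e2 : ((List.range' 1 n).map fun j => toR (ZMod l) dl ^ j *
        (toR (ZMod l) (e4 ^ a0 * e6 ^ e) *
          (toR (ZMod l) e4 * toR (ZMod l) e4 * toR (ZMod l) e4) ^ (n - j))) =
        (List.range' 1 n).map fun j =>
          toR (ZMod l) (dl ^ j * e4 ^ (a0 + 3 * (n - j)) * e6 ^ e) := by
      refine List.map_congr_left fun j _ => ?_
      unfold toR
      simp only [map_mul, map_pow]
      ring
    rw [← e2]
    exact hR

private theorem EngB_formsP {α : Type} (hl : 1 < l) {n e a0 iv : ℕ} (hn : 1 ≤ n) (ha : a0 ≤ 2)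
    (he : e ≤ 1) (hiv : 1728 * iv % l = 1) (hB : N * (l * l) < B) (hN : 1 ≤ N)
    (k : List ℕ → α) :
    ∃ L : List ℕ, formsP B l N n e a0 iv k = k L ∧
      List.Forall₂ (fun x f => Rep B l N (l - 1) x f) L ((List.range' 1 n).map fun j =>
        toR (ZMod l) (dl ^ j * e4 ^ (a0 + 3 * (n - j)) * e6 ^ e)) := by
  have hl0 : 0 < l := by omega
  have hlB : l - 1 < B := by
    have h1 := Nat.le_mul_of_pos_left (l * l) hN
    have h2 := Nat.le_mul_self l
    omega
  unfold formsP
  simp only [frc_eq]
  have r4 := e4P_rep (B := B) (N := N) hl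
  have r6 := e6P_rep (B := B) (N := N) hl
  generalize e4P B l N = v4 at r4 ⊢
  generalize e6P B l N = v6 at r6 ⊢
  have r42 := Rep.mulP r4 r4 hl0 hB
  generalize mulP B l N v4 v4 = v42 at r42 ⊢
  have r43 := Rep.mulP r42 r4 hl0 hB
  generalize mulP B l N v42 v4 = v43 at r43 ⊢
  have r62 := Rep.mulP r6 r6 hl0 hB
  generalize mulP B l N v6 v6 = v62 at r62 ⊢
  -- delta
  have rd : Rep B l N (l - 1)
      (pk B (fun m => iv * (v43 / B ^ m % B + (l - v62 / B ^ m % B)) % l) N)
      (toR (ZMod l) dl) := by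
    refine Rep.of_pk (fun i => ?_) (fun i hi => ?_)
    · have := Nat.mod_lt (iv * (v43 / B ^ i % B + (l - v62 / B ^ i % B))) hl0
      omega
    · have h1 := Rep.dig r43 hlB hi
      have h2 := Rep.dig r62 hlB hi
      have h3 := Rep.dig_le r62 hlB i
      have h3' : v62 / B ^ i % B ≤ l := by omega
      rw [ZMod.natCast_mod, Nat.cast_mul, Nat.cast_add, Nat.cast_sub h3', ZMod.natCast_self,
        ← h1, ← h2]
      have h4 : (1728 : PowerSeries (ZMod l)) * toR (ZMod l) dl =
          toR (ZMod l) e4 * toR (ZMod l) e4 * toR (ZMod l) e4 -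
            toR (ZMod l) e6 * toR (ZMod l) e6 := by
        have h5 := congrArg (toR (ZMod l)) dl_spec
        unfold toR at h5 ⊢
        simp only [map_mul, map_sub, map_pow, map_ofNat] at h5
        rw [h5]
        ring
      have h6 : ((1728 : ℕ) : ZMod l) * (iv : ZMod l) = 1 := by
        rw [← Nat.cast_mul, ← ZMod.natCast_mod, hiv, Nat.cast_one]
      have h7 := congrArg (coeff i) h4
      rw [map_sub] at h7
      have h8 : coeff i ((1728 : PowerSeries (ZMod l)) * toR (ZMod l) dl) =
          ((1728 : ℕ) : ZMod l) * coeff i (toR (ZMod l) dl) := by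
        have h9 : (1728 : PowerSeries (ZMod l)) = C ((1728 : ℕ) : ZMod l) := by
          rw [map_natCast]; norm_num
        rw [h9, coeff_C_mul]
      rw [h8] at h7
      rw [zero_sub, ← sub_eq_add_neg, ← h7, ← mul_assoc, mul_comm (iv : ZMod l), h6, one_mul]
  generalize pk B (fun m => iv * (v43 / B ^ m % B + (l - v62 / B ^ m % B)) % l) N = vd at rd ⊢
  -- the unit
  have r1 : Rep B l N (l - 1) 1 (1 : PowerSeries (ZMod l)) := by
    refine ⟨fun i => if i = 0 then 1 else 0, fun i => ?_, ?_, fun i _ => ?_⟩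
    · dsimp only
      split_ifs <;> omega
    · rw [Finset.sum_eq_single 0]
      · simp
      · intro b _ hb
        simp [hb]
      · intro h0
        exact absurd (Finset.mem_range.2 (by omega)) h0
    · rw [coeff_one]
      by_cases h : i = 0
      · simp [h]
      · simp [h]
  have hc : (a0 = 0 ∨ a0 = 1 ∨ a0 = 2) ∧ (e = 0 ∨ e = 1) := by omega
  have r40 : Rep B l N (l - 1) 1 (toR (ZMod l) (e4 ^ 0)) := by
    have : toR (ZMod l) (e4 ^ 0) = 1 := by rw [pow_zero]; unfold toR; rw [map_one]
    rw [this]; exact r1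
  have r41 : Rep B l N (l - 1) v4 (toR (ZMod l) (e4 ^ 1)) := by rw [pow_one]; exact r4
  have r42' : Rep B l N (l - 1) v42 (toR (ZMod l) (e4 ^ 2)) := by
    rw [pow_two, Basis_toR_mul]; exact r42
  have re0 : ∀ (v a : ℕ), Rep B l N (l - 1) v (toR (ZMod l) (e4 ^ a)) →
      Rep B l N (l - 1) v (toR (ZMod l) (e4 ^ a * e6 ^ 0)) := by
    intro v a h
    rw [pow_zero, mul_one]; exact h
  have re1 : ∀ (v a : ℕ), Rep B l N (l - 1) v (toR (ZMod l) (e4 ^ a)) →
      Rep B l N (l - 1) (mulP B l N v v6) (toR (ZMod l) (e4 ^ a * e6 ^ 1)) := by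
    intro v a h
    rw [pow_one, Basis_toR_mul]; exact Rep.mulP h r6 hl0 hB
  obtain ⟨hc1, hc2⟩ := hc
  rcases hc1 with rfl | rfl | rfl
  · rcases hc2 with rfl | rfl
    · exact EngB_tail hl hn hB vd v43 _ rd r43 (re0 _ _ r40) k
    · exact EngB_tail hl hn hB vd v43 _ rd r43 (re1 _ _ r40) k
  · rcases hc2 with rfl | rfl
    · exact EngB_tail hl hn hB vd v43 _ rd r43 (re0 _ _ r41) k
    · exact EngB_tail hl hn hB vd v43 _ rd r43 (re1 _ _ r41) k
  · rcases hc2 with rfl | rfl
    · exact EngB_tail hl hn hB vd v43 _ rd r43 (re0 _ _ r42') k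
    · exact EngB_tail hl hn hB vd v43 _ rd r43 (re1 _ _ r42') k

/-- the forms `g_1, ..., g_n` of weight `w`. -/
theorem formsW_spec {α : Type} (hl : 1 < l) {w iv : ℕ} (hw : Even w) (hiv : 1728 * iv % l = 1)
    (hB : N * (l * l) < B) (hN : 1 ≤ N) (k : List ℕ → α) :
    ∃ L : List ℕ, formsW B l N w iv k = k L ∧
      List.Forall₂ (fun x j => Rep B l N (l - 1) x (g (ZMod l) w j)) L (List.range' 1 (nS w)) := by
  unfold formsW
  simp only [frc_eq]
  rcases Nat.eq_zero_or_pos (nS w) with h0 | hpos
  · refine ⟨[], ?_, ?_⟩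
    · rw [h0]
    · rw [h0]; simp
  · have hnS : nS w = (w - 6 * (w / 2 % 2)) / 12 := rfl
    obtain ⟨m, hm⟩ := hw
    set e := w / 2 % 2 with he
    have he1 : e ≤ 1 := by omega
    have ha : (w - 12 * nS w - 6 * e) / 4 ≤ 2 := by omega
    obtain ⟨L, hL, hR⟩ := EngB_formsP (B := B) (l := l) (N := N) hl hpos ha he1 hiv hB hN k
    refine ⟨L, ?_, ?_⟩
    · obtain ⟨n', hn'⟩ : ∃ n', nS w = n' + 1 := ⟨nS w - 1, by omega⟩
      rw [← hL, hn']
    · have e1 : ((List.range' 1 (nS w)).map fun j => toR (ZMod l)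
          (dl ^ j * e4 ^ ((w - 12 * nS w - 6 * e) / 4 + 3 * (nS w - j)) * e6 ^ e)) =
          (List.range' 1 (nS w)).map fun j => g (ZMod l) w j := by
        refine List.map_congr_left fun j hj => ?_
        rw [List.mem_range'_1] at hj
        unfold g mono
        rw [← he]
        have e2 : (w - 12 * nS w - 6 * e) / 4 + 3 * (nS w - j) = (w - 12 * j - 6 * e) / 4 := by
          omega
        rw [e2]
      rw [e1, List.forall₂_map_right_iff] at hR
      exact hR

end MP0f16e1
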