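import Pool.Agent.Work.MP_0f16e1_nt.HeckeInt

/-! # Module `HAlg` : a big irreducible factor of `T₂` gives a big simple quotient of `𝕋_k`

PROOF.  `T₂` restricts to an endomorphism `t` of `Sk k` (`S k = SF ℚ k`: `S_eq`, `T2_mem`), and
`t ∈ HeckeAlg k` (generator `m = 2`, `Algebra.subset_adjoin`).  `P(t) ∈ HeckeAlg k` kills the nonzero
`f`, so it has no left inverse; let `I` be a maximal (left) ideal containing the left ideal generated
by `P(t)` (`Ideal.exists_le_maximal`, `Ideal.span {P(t)} ≠ ⊤` because `1 = s * P(t)` would give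
`f = s (P(t) f) = 0`).  In the `ℚ`-space `V = HeckeAlg k ⧸ I` let `v` be the class of `1`, `v ≠ 0`.  The
map `ℚ[X] → V`, `Q ↦ class of Q(t)`, is `ℚ`-linear; its kernel `{Q : Q(t) ∈ I}` is an ideal of `ℚ[X]`
containing `P` and not `1`, so it is `(P)` (`P` irreducible); so the classes of
`1, t, ..., t^(deg P - 1)` are linearly independent and `deg P ≤ finrank` (`V` is finite dimensional:
`Sk k` is finite dimensional by `SF_repr`, so is `Module.End ℚ (S k)`, its subalgebra and the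
quotient). -/

open PowerSeries Polynomial

namespace MP0f16e1

theorem finite_S (k : ℕ) (hk : Even k) : Module.Finite ℚ (Sk k) := by
  classical
  have h1 : S k ≤ Submodule.span ℚ
      (((Finset.Icc 1 (nS k)).image fun j => g ℚ k j : Finset (PowerSeries ℚ)) :
        Set (PowerSeries ℚ)) := by
    intro f hf
    rw [S_eq k hk] at hf
    obtain ⟨c, rfl⟩ := SF_repr ℚ hk hf
    refine Submodule.sum_mem _ fun j hj => Submodule.smul_mem _ _ (Submodule.subset_span ?_)
    exact Finset.mem_coe.2 (Finset.mem_image_of_mem _ hj)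
  have h2 : FiniteDimensional ℚ (S k) := Submodule.finiteDimensional_of_le h1
  exact h2

theorem max_of_irr {k r : ℕ} (hk : Even k) (P : Polynomial ℚ) (hP : Irreducible P)
    (hr : r ≤ P.natDegree) (f : PowerSeries ℚ) (hf : f ∈ SF ℚ k) (hf0 : f ≠ 0)
    (hPf : aeval (T2 ℚ k) P f = 0) :
    ∃ I : Ideal (HeckeAlg k), I.IsMaximal ∧ r ≤ Module.finrank ℚ (HeckeAlg k ⧸ I) := by
  have hfinS : Module.Finite ℚ (Sk k) := finite_S k hk
  have hfinA : Module.Finite ℚ (HeckeAlg k) := by
    exact FiniteDimensional.finiteDimensional_submodule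
      (Subalgebra.toSubmodule (HeckeAlg k))
  have hS := S_eq k hk
  have hT : ∀ x ∈ S k, T2 ℚ k x ∈ S k := by
    intro x hx
    rw [hS] at hx ⊢
    exact T2_mem ℚ hx
  let τ : Module.End ℚ (Sk k) := (T2 ℚ k).restrict hT
  have hτ : ∀ x : Sk k, ser (τ x) = T2 ℚ k (ser x) := fun x => rfl
  have hτm : τ ∈ HeckeAlg k := Algebra.subset_adjoin ⟨2, by norm_num, hτ⟩
  let a : HeckeAlg k := ⟨τ, hτm⟩
  have hser : Function.Injective (ser : Sk k →ₗ[ℚ] PowerSeries ℚ) :=
    Subtype.val_injective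
  have hpow : ∀ (n : ℕ) (x : Sk k), ser ((τ ^ n) x) = ((T2 ℚ k) ^ n) (ser x) := by
    intro n
    induction n with
    | zero => intro x; rfl
    | succ n ih =>
      intro x
      rw [pow_succ, pow_succ, Module.End.mul_apply, Module.End.mul_apply, ih, hτ]
  have haev : ∀ (Q : ℚ[X]) (x : Sk k), ser ((aeval τ Q) x) = (aeval (T2 ℚ k) Q) (ser x) := by
    intro Q x
    rw [aeval_eq_sum_range, aeval_eq_sum_range, LinearMap.sum_apply, LinearMap.sum_apply, map_sum]
    refine Finset.sum_congr rfl fun n _ => ?_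
    rw [LinearMap.smul_apply, LinearMap.smul_apply, map_smul, hpow]
  have hfS : f ∈ S k := by rw [hS]; exact hf
  let x0 : Sk k := (⟨f, hfS⟩ : S k)
  have hx0 : ser x0 = f := rfl
  have hx0ne : x0 ≠ 0 := by
    intro h0
    apply hf0
    rw [← hx0, h0, map_zero]
  have hPx : (aeval τ P) x0 = 0 := by
    apply hser
    rw [haev, hx0, hPf, map_zero]
  have hcoe : ∀ Q : ℚ[X], ((aeval a Q : HeckeAlg k) : Module.End ℚ (Sk k)) = aeval τ Q := by
    intro Q
    exact Polynomial.aeval_subalgebra_coe Q (HeckeAlg k) a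
  have hne : Ideal.span {(aeval a P : HeckeAlg k)} ≠ ⊤ := by
    intro htop
    have h1 : (1 : HeckeAlg k) ∈ Ideal.span {(aeval a P : HeckeAlg k)} := htop ▸ Submodule.mem_top
    obtain ⟨s, hs⟩ := Ideal.mem_span_singleton'.1 h1
    have h2 : ((s : Module.End ℚ (Sk k)) * (aeval τ P)) x0 = x0 := by
      rw [← hcoe]
      have h3 : ((s * aeval a P : HeckeAlg k) : Module.End ℚ (Sk k)) = 1 := by rw [hs]; rfl
      have h4 : ((s * aeval a P : HeckeAlg k) : Module.End ℚ (Sk k)) x0 = x0 := by rw [h3]; rfl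
      exact h4
    rw [Module.End.mul_apply, hPx, map_zero] at h2
    exact hx0ne h2.symm
  obtain ⟨I, hI, hle⟩ := Ideal.exists_le_maximal _ hne
  have hPI : (aeval a P : HeckeAlg k) ∈ I := hle (Ideal.subset_span rfl)
  refine ⟨I, hI, ?_⟩
  let ψ : ℚ[X] →ₗ[ℚ] (HeckeAlg k ⧸ I) :=
    (Submodule.mkQ I).restrictScalars ℚ ∘ₗ (aeval a : ℚ[X] →ₐ[ℚ] HeckeAlg k).toLinearMap
  have hψ : ∀ Q : ℚ[X], ψ Q = 0 → (aeval a Q : HeckeAlg k) ∈ I := by
    intro Q hQ
    exact (Submodule.Quotient.mk_eq_zero I).1 hQ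
  let φ : Polynomial.degreeLT ℚ r →ₗ[ℚ] (HeckeAlg k ⧸ I) :=
    ψ ∘ₗ (Polynomial.degreeLT ℚ r).subtype
  have hφ : Function.Injective φ := by
    rw [← LinearMap.ker_eq_bot, LinearMap.ker_eq_bot']
    rintro ⟨Q, hQ⟩ h0
    have hQI : (aeval a Q : HeckeAlg k) ∈ I := hψ Q h0
    by_contra hne0
    have hQ0 : Q ≠ 0 := fun h => hne0 (Subtype.ext h)
    have hdeg : Q.natDegree < P.natDegree := by
      have h1 := Polynomial.mem_degreeLT.1 hQ
      have h2 : Q.natDegree < r := (Polynomial.natDegree_lt_iff_degree_lt hQ0).2 h1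
      omega
    have hcop : IsCoprime P Q := by
      rcases hP.isCoprime_or_dvd Q with h | h
      · exact h
      · exact absurd (Polynomial.natDegree_le_of_dvd h hQ0) (by omega)
    obtain ⟨u, w, huw⟩ := hcop
    have h1 : (1 : HeckeAlg k) ∈ I := by
      have h2 : (aeval a (u * P + w * Q) : HeckeAlg k) = 1 := by rw [huw, map_one]
      rw [← h2, map_add, map_mul, map_mul]
      exact I.add_mem (I.mul_mem_left _ hPI) (I.mul_mem_left _ hQI)
    exact hI.ne_top ((Ideal.eq_top_iff_one I).2 h1)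
  have hfr := LinearMap.finrank_le_finrank_of_injective hφ
  have h5 : Module.finrank ℚ (Polynomial.degreeLT ℚ r) = r := by
    rw [(Polynomial.degreeLTEquiv ℚ r).finrank_eq, Module.finrank_fin_fun]
  rw [h5] at hfr
  exact hfr

end MP0f16e1
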