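import Pool.Agent.Work.MP_0f16e1_nt.Bridge

/-! # Module `Hasse` : `E_{ℓ-1} ≡ 1 mod ℓ`

PROOF.  Let `k = ℓ - 1 ≥ 4`, even.  `EisensteinSeries.E_qExpansion_coeff` (`3 ≤ k`): the
`q`-expansion of `E_k` is `1 - (2k/B_k) ∑ σ_{k-1}(n) X^n`, rational, and it lies in `MF ℂ k`
(`form_mem`), so the rational series lies in `MF ℚ k` (`MF_sat`).  By von Staudt-Clausen
(`Bernoulli.vonStaudt_clausen` in `Mathlib/NumberTheory/Bernoulli.lean`; or the elementary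
recursion) `B_k = N / (ℓ M)` with integers `N`, `M` prime to `ℓ`.  So `2k/B_k = 2 k ℓ M / N`.  Take an
integer `c` with `N ∣ c` and `c ≡ 1 mod ℓ`; then `c E_k = c - 2 k ℓ M (c/N) ∑ σ_{k-1}(n) X^n` has
integral coefficients, lies in `MF ℤ k` (`MF_sat` for `ℤ → ℚ`) and reduces to `1` modulo `ℓ`
(`MF_map`). -/

open PowerSeries
open scoped ArithmeticFunction.sigma MatrixGroups

namespace MP0f16e1

private lemma Hasse_bernoulli (ℓ m : ℕ) [hℓ : Fact ℓ.Prime] (hm : ℓ = 2 * m + 1) :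
    ∃ N M : ℤ, ¬ (ℓ : ℤ) ∣ N ∧ (N : ℚ) = ℓ * M * bernoulli (2 * m) := by
  obtain ⟨n, hn⟩ := Bernoulli.vonStaudt_clausen m
  set s : Finset ℕ := (Finset.range (2 * m + 2)).filter fun p => p.Prime ∧ (p - 1) ∣ 2 * m with hs
  have hmem : ℓ ∈ s := by
    rw [hs, Finset.mem_filter, Finset.mem_range]
    refine ⟨by omega, hℓ.out, ?_⟩
    rw [hm]
    simp
  have hprime : ∀ p ∈ s, p.Prime := fun p hp => (Finset.mem_filter.mp hp).2.1
  have hint : ∀ p ∈ s.erase ℓ, ∃ z : ℤ, ((∏ q ∈ s.erase ℓ, q : ℕ) : ℚ) * (1 / (p : ℚ)) = z := by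
    intro p hp
    obtain ⟨c, hc⟩ := Finset.dvd_prod_of_mem (fun q : ℕ => q) hp
    refine ⟨c, ?_⟩
    have hp0 : (p : ℚ) ≠ 0 := by
      exact_mod_cast (hprime p (Finset.mem_of_mem_erase hp)).ne_zero
    rw [hc]
    push_cast
    field_simp
  choose! z hz using hint
  refine ⟨ℓ * (∏ q ∈ s.erase ℓ, q : ℕ) * n - (∏ q ∈ s.erase ℓ, q : ℕ) -
    ℓ * ∑ p ∈ s.erase ℓ, z p, (∏ q ∈ s.erase ℓ, q : ℕ), ?_, ?_⟩
  · intro hd
    have h1 : (ℓ : ℤ) ∣ ((∏ q ∈ s.erase ℓ, q : ℕ) : ℤ) := by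
      have h2 : (ℓ : ℤ) ∣ ℓ * (∏ q ∈ s.erase ℓ, q : ℕ) * n - ℓ * ∑ p ∈ s.erase ℓ, z p :=
        dvd_sub ⟨(∏ q ∈ s.erase ℓ, q : ℕ) * n, by ring⟩ ⟨∑ p ∈ s.erase ℓ, z p, rfl⟩
      have h3 := dvd_sub h2 hd
      convert! h3 using 1
      ring
    have h4 : ℓ ∣ ∏ q ∈ s.erase ℓ, q := by exact_mod_cast h1
    rw [hℓ.out.prime.dvd_finsetProd_iff] at h4
    obtain ⟨q, hq, hq2⟩ := h4
    have hqp := hprime q (Finset.mem_of_mem_erase hq)
    have := (Nat.prime_dvd_prime_iff_eq hℓ.out hqp).mp hq2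
    exact Finset.ne_of_mem_erase hq this.symm
  · have h1 : bernoulli (2 * m) = n - 1 / ℓ - ∑ p ∈ s.erase ℓ, (1 : ℚ) / p := by
      rw [hn, ← Finset.add_sum_erase s _ hmem]
      ring
    have hℓ0 : (ℓ : ℚ) ≠ 0 := by exact_mod_cast hℓ.out.ne_zero
    have h2 : ((∏ q ∈ s.erase ℓ, q : ℕ) : ℚ) * ∑ p ∈ s.erase ℓ, (1 : ℚ) / p =
        ∑ p ∈ s.erase ℓ, (z p : ℚ) := by
      rw [Finset.mul_sum]
      exact Finset.sum_congr rfl fun p hp => hz p hp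
    rw [h1]
    push_cast at h2 ⊢
    have h3 : (ℓ : ℚ) * (1 / ℓ) = 1 := by field_simp
    linear_combination (∏ q ∈ s.erase ℓ, (q : ℚ)) * h3 + (ℓ : ℚ) * h2

theorem one_mem (ℓ : ℕ) [Fact ℓ.Prime] (h5 : 5 ≤ ℓ) :
    (1 : PowerSeries (ZMod ℓ)) ∈ MF (ZMod ℓ) (ℓ - 1) := by
  have hℓ := (Fact.out : ℓ.Prime)
  obtain ⟨m, hm⟩ := hℓ.odd_of_ne_two (by omega)
  obtain ⟨N, M, hN, hNM⟩ := Hasse_bernoulli ℓ m hm
  have hk3 : 3 ≤ 2 * m := by omega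
  have hkev : Even (2 * m) := even_two_mul m
  set P : PowerSeries ℤ := PowerSeries.mk fun n =>
    if n = 0 then N else -(2 * (2 * m) * ℓ * M) * (σ (2 * m - 1) n : ℤ) with hP
  have hNC : (N : ℂ) = ℓ * M * (bernoulli (2 * m) : ℂ) := by
    have := congrArg (fun x : ℚ => (x : ℂ)) hNM
    push_cast at this
    exact this
  have hN0 : (N : ℂ) ≠ 0 := by
    intro h
    apply hN
    have : N = 0 := by exact_mod_cast h
    rw [this]
    exact dvd_zero _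
  have hB0 : (bernoulli (2 * m) : ℂ) ≠ 0 := by
    intro h
    rw [h, mul_zero] at hNC
    exact hN0 hNC
  have h1 : toR ℂ P = (N : ℂ) • UpperHalfPlane.qExpansion 1 (ModularForm.E hk3 : UpperHalfPlane → ℂ) := by
    ext n
    rw [Basis_coeff_toR, coeff_smul, EisensteinSeries.E_qExpansion_coeff hk3 hkev, hP, coeff_mk]
    split_ifs with h0
    · simp
    · push_cast
      rw [smul_eq_mul, hNC]
      field_simp
  have h2 : toR ℂ P ∈ MF ℂ (2 * m) := by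
    rw [h1]
    exact Submodule.smul_mem _ _ (form_mem (2 * m) hkev _)
  have h3 : P ∈ MF ℤ (2 * m) := MF_sat (Int.castRingHom ℂ) (RingHom.injective_int _) h2
  have h4 := MF_map (Int.castRingHom (ZMod ℓ)) h3
  have h5 : P.map (Int.castRingHom (ZMod ℓ)) = (N : ZMod ℓ) • (1 : PowerSeries (ZMod ℓ)) := by
    ext n
    rw [coeff_map, hP, coeff_mk, coeff_smul, coeff_one]
    split_ifs with h0
    · simp
    · simp
  have hNz : (N : ZMod ℓ) ≠ 0 := by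
    rwa [Ne, ZMod.intCast_zmod_eq_zero_iff_dvd]
  rw [h5] at h4
  have h6 := (MF (ZMod ℓ) (2 * m)).smul_mem (N : ZMod ℓ)⁻¹ h4
  rw [smul_smul, inv_mul_cancel₀ hNz, one_smul] at h6
  rwa [show ℓ - 1 = 2 * m by omega]

end MP0f16e1
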