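import Pool.Agent.Work.MP_0f16e1_nt.Defs

/-! # Module `HeckeAll` (bonus: shows that the formula used for `T_m` is the usual operator on `S_k`)

PROOF.  As in `HeckeTwo`, with the sum over the matrices `!![a,b;0,d]`, `ad = m`, `0 ≤ b < d`:
`G = ∑ F ∣[k] !![a,b;0,d]`, i.e. `G τ = m^(k-1) ∑ d^(-k) F((aτ+b)/d)`.  Invariance: for
`γ ∈ SL(2,ℤ)` right multiplication by `γ` permutes the left cosets `SL(2,ℤ) \ {det = m}`, of which
these matrices are representatives (Mathlib: `Mathlib/LinearAlgebra/Matrix/FixedDetMatrices.lean`,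
`FixedDetMatrices.reps`).  The sum over `b` picks the
coefficients `a_n` with `d ∣ n`: `∑_b F((aτ+b)/d) = d ∑_n a_{dn} q^{an}`, so the coefficient at `N` is
`∑_{a ∣ (m,N)} a^(k-1) a_{mN/a²}`. -/

open UpperHalfPlane ModularForm ModularFormClass
open scoped MatrixGroups

namespace MP0f16e1

private lemma ha_val (γ : SL(2, ℤ)) :
    ((γ : GL (Fin 2) ℝ) : Matrix (Fin 2) (Fin 2) ℝ) =
      (γ : Matrix (Fin 2) (Fin 2) ℤ).map (Int.castRingHom ℝ) := by
  ext i j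
  rfl

/-- index set: `(a, b)`, `a ∣ m`, `0 ≤ b < m / a` -/
private def ix (m : ℕ) : Finset (Σ _ : ℕ, ℕ) := m.divisors.sigma fun a => Finset.range (m / a)

/-- the representatives -/
private def mZ (m : ℕ) (i : Σ _ : ℕ, ℕ) : Matrix (Fin 2) (Fin 2) ℤ :=
  !![(i.1 : ℤ), (i.2 : ℤ); 0, ((m / i.1 : ℕ) : ℤ)]

private lemma ix_mem {m : ℕ} {i : Σ _ : ℕ, ℕ} (hi : i ∈ ix m) :
    0 < i.1 ∧ i.1 ∣ m ∧ i.1 * (m / i.1) = m ∧ 0 < m / i.1 ∧ i.2 < m / i.1 := by
  unfold ix at hi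
  rw [Finset.mem_sigma, Nat.mem_divisors, Finset.mem_range] at hi
  obtain ⟨⟨h1, h2⟩, h3⟩ := hi
  have h4 : 0 < i.1 := Nat.pos_of_dvd_of_pos h1 (Nat.pos_of_ne_zero h2)
  exact ⟨h4, h1, Nat.mul_div_cancel' h1, by omega, h3⟩

private lemma mZ_det {m : ℕ} {i : Σ _ : ℕ, ℕ} (hi : i ∈ ix m) : (mZ m i).det = m := by
  obtain ⟨-, -, h3, -, -⟩ := ix_mem hi
  unfold mZ
  rw [Matrix.det_fin_two]
  simp
  exact_mod_cast h3

private noncomputable def gA (A : Matrix (Fin 2) (Fin 2) ℤ) : GL (Fin 2) ℝ :=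
  open Classical in
  if h : (A.map (Int.castRingHom ℝ)).det ≠ 0 then Matrix.GeneralLinearGroup.mkOfDetNeZero _ h else 1

private lemma gA_val {A : Matrix (Fin 2) (Fin 2) ℤ} (hA : A.det ≠ 0) :
    ((gA A : GL (Fin 2) ℝ) : Matrix (Fin 2) (Fin 2) ℝ) = A.map (Int.castRingHom ℝ) := by
  have h : (A.map (Int.castRingHom ℝ)).det ≠ 0 := by
    rw [← RingHom.mapMatrix_apply, ← RingHom.map_det]
    simpa using hA
  unfold gA
  rw [dif_pos h]
  rfl

private lemma gA_mul_right {A : Matrix (Fin 2) (Fin 2) ℤ} (hA : A.det ≠ 0) (γ : SL(2, ℤ)) :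
    gA (A * (γ : Matrix (Fin 2) (Fin 2) ℤ)) = gA A * (γ : GL (Fin 2) ℝ) := by
  apply Units.ext
  have h2 : (A * (γ : Matrix (Fin 2) (Fin 2) ℤ)).det ≠ 0 := by
    rw [Matrix.det_mul, Matrix.SpecialLinearGroup.det_coe, mul_one]
    exact hA
  rw [Units.val_mul, gA_val h2, gA_val hA, ha_val, Matrix.map_mul]

private lemma gA_mul_left {A : Matrix (Fin 2) (Fin 2) ℤ} (hA : A.det ≠ 0) (γ : SL(2, ℤ)) :
    gA ((γ : Matrix (Fin 2) (Fin 2) ℤ) * A) = (γ : GL (Fin 2) ℝ) * gA A := by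
  apply Units.ext
  have h2 : ((γ : Matrix (Fin 2) (Fin 2) ℤ) * A).det ≠ 0 := by
    rw [Matrix.det_mul, Matrix.SpecialLinearGroup.det_coe, one_mul]
    exact hA
  rw [Units.val_mul, gA_val h2, gA_val hA, ha_val, Matrix.map_mul]

private lemma ha_exists (m : ℕ) (hm : 1 ≤ m) (A : Matrix (Fin 2) (Fin 2) ℤ) (hA : A.det = m) :
    ∃ δ : SL(2, ℤ), ∃ i ∈ ix m, A = (δ : Matrix (Fin 2) (Fin 2) ℤ) * mZ m i := by
  have key : ∀ A : FixedDetMatrix (Fin 2) ℤ (m : ℤ), ∃ δ : SL(2, ℤ), ∃ i ∈ ix m,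
      A.1 = (δ : Matrix (Fin 2) (Fin 2) ℤ) * mZ m i := by
    intro A
    refine FixedDetMatrices.induction_on (A := A) (by exact_mod_cast (by omega : m ≠ 0)) ?_ ?_ ?_
    · intro A h10 h00 h01 hlt
      have hdet := A.2
      rw [Matrix.det_fin_two, h10, mul_zero, sub_zero] at hdet
      have hm0 : (0 : ℤ) < m := by exact_mod_cast hm
      have h11 : 0 < A.1 1 1 := by
        by_contra h
        push Not at h
        nlinarith
      obtain ⟨a, ha⟩ := Int.eq_ofNat_of_zero_le h00.le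
      obtain ⟨d, hd⟩ := Int.eq_ofNat_of_zero_le h11.le
      obtain ⟨b, hb⟩ := Int.eq_ofNat_of_zero_le h01
      rw [ha, hd] at hdet
      have had : a * d = m := by exact_mod_cast hdet
      have ha0 : 0 < a := by
        rw [ha] at h00
        exact_mod_cast h00
      have hmd : m / a = d := by rw [← had, Nat.mul_div_cancel_left _ ha0]
      rw [hb, hd] at hlt
      have hbd : b < d := by
        have : |(b : ℤ)| < |(d : ℤ)| := hlt
        rw [Nat.abs_cast, Nat.abs_cast] at this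
        exact_mod_cast this
      refine ⟨1, ⟨a, b⟩, ?_, ?_⟩
      · unfold ix
        rw [Finset.mem_sigma, Nat.mem_divisors, Finset.mem_range]
        exact ⟨⟨⟨d, had.symm⟩, by omega⟩, by simp only [hmd]; exact hbd⟩
      · rw [Matrix.SpecialLinearGroup.coe_one, one_mul]
        unfold mZ
        ext i j
        fin_cases i <;> fin_cases j
        · simpa using ha
        · simpa using hb
        · simpa using h10
        · simp only [hmd]
          simpa using hd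
    · rintro B ⟨δ, i, hi, h⟩
      refine ⟨ModularGroup.S * δ, i, hi, ?_⟩
      rw [FixedDetMatrices.smul_coe, h, Matrix.SpecialLinearGroup.coe_mul, Matrix.mul_assoc]
    · rintro B ⟨δ, i, hi, h⟩
      refine ⟨ModularGroup.T * δ, i, hi, ?_⟩
      rw [FixedDetMatrices.smul_coe, h, Matrix.SpecialLinearGroup.coe_mul, Matrix.mul_assoc]
  exact key ⟨A, hA⟩

private lemma ha_inj {m : ℕ} {i j : Σ _ : ℕ, ℕ} (hi : i ∈ ix m) (hj : j ∈ ix m) (ε : SL(2, ℤ))
    (h : mZ m j = (ε : Matrix (Fin 2) (Fin 2) ℤ) * mZ m i) : i = j := by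
  obtain ⟨a, b⟩ := i
  obtain ⟨a', b'⟩ := j
  obtain ⟨ha, -, had, hd, hb⟩ := ix_mem hi
  obtain ⟨ha', -, had', hd', hb'⟩ := ix_mem hj
  simp only at ha had hd hb ha' had' hd' hb'
  have hdet : (ε : Matrix (Fin 2) (Fin 2) ℤ).det = 1 := Matrix.SpecialLinearGroup.det_coe ε
  rw [Matrix.det_fin_two] at hdet
  set x := (ε : Matrix (Fin 2) (Fin 2) ℤ) 0 0 with hx
  set y := (ε : Matrix (Fin 2) (Fin 2) ℤ) 0 1 with hy
  set z := (ε : Matrix (Fin 2) (Fin 2) ℤ) 1 0 with hz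
  set w := (ε : Matrix (Fin 2) (Fin 2) ℤ) 1 1 with hw
  have h00 := congrFun (congrFun h 0) 0
  have h01 := congrFun (congrFun h 0) 1
  have h10 := congrFun (congrFun h 1) 0
  have h11 := congrFun (congrFun h 1) 1
  rw [Matrix.mul_apply, Fin.sum_univ_two] at h00 h01 h10 h11
  simp only [mZ, Matrix.of_apply, Matrix.cons_val', Matrix.cons_val_zero, Matrix.cons_val_one,
    Matrix.cons_val_fin_one, mul_zero, add_zero] at h00 h01 h10 h11
  rw [← hx] at h00
  rw [← hx, ← hy] at h01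
  rw [← hz] at h10
  rw [← hz, ← hw] at h11
  have haZ : (0 : ℤ) < a := by exact_mod_cast ha
  have haZ' : (0 : ℤ) < a' := by exact_mod_cast ha'
  have hz0 : z = 0 := by
    rcases mul_eq_zero.mp h10.symm with h | h
    · exact h
    · omega
  rw [hz0, mul_zero, sub_zero] at hdet
  have hx1 : x = 1 := by
    rcases Int.eq_one_or_neg_one_of_mul_eq_one hdet with h | h
    · exact h
    · rw [h] at h00
      omega
  have haa : a' = a := by
    rw [hx1, one_mul] at h00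
    exact_mod_cast h00
  subst haa
  have hb1 : (b' : ℤ) = b + y * ((m / a' : ℕ) : ℤ) := by rw [h01, hx1, one_mul]
  have hdZ : (0 : ℤ) < ((m / a' : ℕ) : ℤ) := by exact_mod_cast hd
  have hbZ : (b : ℤ) < ((m / a' : ℕ) : ℤ) := by exact_mod_cast hb
  have hbZ' : (b' : ℤ) < ((m / a' : ℕ) : ℤ) := by exact_mod_cast hb'
  have hy0 : y = 0 := by
    by_contra hne
    rcases lt_or_gt_of_ne hne with h | h
    · nlinarith [Int.natCast_nonneg b']
    · nlinarith [Int.natCast_nonneg b]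
  have hbb : b' = b := by
    rw [hy0, zero_mul, add_zero] at hb1
    exact_mod_cast hb1
  rw [hbb]

variable {k : ℤ}

private noncomputable def hG (m : ℕ) (k : ℤ) (f : ℍ → ℂ) : ℍ → ℂ :=
  ∑ i ∈ ix m, f ∣[k] gA (mZ m i)

private lemma hG_inv (m : ℕ) (hm : 1 ≤ m) {f : ℍ → ℂ}
    (hf : ∀ γ : SL(2, ℤ), f ∣[k] (γ : GL (Fin 2) ℝ) = f) (γ : SL(2, ℤ)) :
    hG m k f ∣[k] γ = hG m k f := by
  have hm0 : (m : ℤ) ≠ 0 := by exact_mod_cast (by omega : m ≠ 0)
  have hex : ∀ i : Σ _ : ℕ, ℕ, ∃ δ : SL(2, ℤ), ∃ j, i ∈ ix m → (j ∈ ix m ∧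
      mZ m i * (γ : Matrix (Fin 2) (Fin 2) ℤ) = (δ : Matrix (Fin 2) (Fin 2) ℤ) * mZ m j) := by
    intro i
    by_cases hi : i ∈ ix m
    · have hdet : (mZ m i * (γ : Matrix (Fin 2) (Fin 2) ℤ)).det = m := by
        rw [Matrix.det_mul, Matrix.SpecialLinearGroup.det_coe, mul_one, mZ_det hi]
      obtain ⟨δ, j, hj, h⟩ := ha_exists m hm _ hdet
      exact ⟨δ, j, fun _ => ⟨hj, h⟩⟩
    · exact ⟨1, i, fun h => absurd h hi⟩
  choose δ σ hσ using hex
  have hinj : Set.InjOn σ (ix m : Set (Σ _ : ℕ, ℕ)) := by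
    intro i hi j hj hij
    obtain ⟨h1, h2⟩ := hσ i hi
    obtain ⟨h3, h4⟩ := hσ j hj
    rw [← hij] at h4
    -- mZ j = δ j * (δ i)⁻¹ * mZ i
    refine ha_inj hi hj (δ j * (δ i)⁻¹) ?_
    have e1 : mZ m (σ i) = ((δ i)⁻¹ : SL(2, ℤ)) * (mZ m i * (γ : Matrix (Fin 2) (Fin 2) ℤ)) := by
      rw [h2, ← Matrix.mul_assoc, ← Matrix.SpecialLinearGroup.coe_mul, inv_mul_cancel,
        Matrix.SpecialLinearGroup.coe_one, Matrix.one_mul]
    rw [e1] at h4
    have e2 : mZ m j = mZ m j * (γ : Matrix (Fin 2) (Fin 2) ℤ) *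
        ((γ⁻¹ : SL(2, ℤ)) : Matrix (Fin 2) (Fin 2) ℤ) := by
      rw [Matrix.mul_assoc, ← Matrix.SpecialLinearGroup.coe_mul, mul_inv_cancel,
        Matrix.SpecialLinearGroup.coe_one, Matrix.mul_one]
    rw [e2, h4, Matrix.SpecialLinearGroup.coe_mul]
    simp only [Matrix.mul_assoc]
    rw [← Matrix.SpecialLinearGroup.coe_mul γ, mul_inv_cancel,
      Matrix.SpecialLinearGroup.coe_one, Matrix.mul_one]
  have hmaps : Set.MapsTo σ (ix m : Set (Σ _ : ℕ, ℕ)) (ix m : Set (Σ _ : ℕ, ℕ)) :=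
    fun i hi => (hσ i hi).1
  rw [SL_slash]
  unfold hG
  rw [SlashAction.sum_slash]
  refine Finset.sum_nbij σ (fun i hi => (hσ i hi).1) hinj
    (Finset.surjOn_of_injOn_of_card_le σ hmaps hinj le_rfl) ?_
  intro i hi
  obtain ⟨h1, h2⟩ := hσ i hi
  have hdi : (mZ m i).det ≠ 0 := by rw [mZ_det hi]; exact hm0
  have hdj : (mZ m (σ i)).det ≠ 0 := by rw [mZ_det h1]; exact hm0
  rw [← SlashAction.slash_mul, ← gA_mul_right hdi, h2, gA_mul_left hdj, SlashAction.slash_mul, hf]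

private lemma gA_entry {m : ℕ} (hm : 1 ≤ m) {i : Σ _ : ℕ, ℕ} (hi : i ∈ ix m) :
    ((gA (mZ m i) : GL (Fin 2) ℝ) : Matrix (Fin 2) (Fin 2) ℝ) =
      !![(i.1 : ℝ), (i.2 : ℝ); 0, ((m / i.1 : ℕ) : ℝ)] := by
  have hm0 : (m : ℤ) ≠ 0 := by exact_mod_cast (by omega : m ≠ 0)
  rw [gA_val (by rw [mZ_det hi]; exact hm0)]
  ext a b
  fin_cases a <;> fin_cases b
  · simp [mZ]
  · simp [mZ]
  · simp [mZ]
  · exact Int.cast_natCast (m / i.1)

private noncomputable def hForm (m : ℕ) (hm : 1 ≤ m) (F : CuspForm 𝒮ℒ k) : CuspForm 𝒮ℒ k where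
  toFun := hG m k F
  slash_action_eq' := fun _ ⟨γ, hγ⟩ ↦ hγ ▸ hG_inv m hm
    (fun γ => SlashInvariantForm.slash_action_eqn F _ ⟨γ, rfl⟩) γ
  holo' := by
    have h := CuspFormClass.holo F
    exact MDifferentiable.sum fun i _ => h.slash k _
  zero_at_cusps' {c} hc := by
    rw [Subgroup.IsArithmetic.isCusp_iff_isCusp_SL2Z] at hc
    rw [OnePoint.isZeroAt_iff_forall_SL2Z hc]
    intro γ _
    rw [hG_inv m hm (fun γ => SlashInvariantForm.slash_action_eqn F _ ⟨γ, rfl⟩)]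
    have h0 : IsZeroAtImInfty F := CuspFormClass.zero_at_infty F
    unfold hG
    refine Finset.sum_induction _ IsZeroAtImInfty (fun a b ha hb => ha.add hb) ?_ ?_
    · exact Filter.zero_zeroAtFilter _
    · intro i hi
      refine h0.slash k ?_
      have := congrFun (congrFun (gA_entry hm hi) 1) 0
      simpa using this

private lemma hA_coe {m : ℕ} (hm : 1 ≤ m) {i : Σ _ : ℕ, ℕ} (hi : i ∈ ix m) (τ : ℍ) :
    ((gA (mZ m i) • τ : ℍ) : ℂ) = ((i.1 : ℂ) * τ + i.2) / ((m / i.1 : ℕ) : ℂ) := by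
  obtain ⟨h1, -, h3, h4, -⟩ := ix_mem hi
  have he := gA_entry hm hi
  have hdet : (0 : ℝ) < (gA (mZ m i)).det := by
    rw [Matrix.GeneralLinearGroup.val_det_apply, he, Matrix.det_fin_two]
    simp only [Matrix.of_apply, Matrix.cons_val', Matrix.cons_val_zero, Matrix.cons_val_one,
      Matrix.cons_val_fin_one]
    have : (0 : ℝ) < (i.1 : ℝ) * ((m / i.1 : ℕ) : ℝ) := by positivity
    simpa using this
  rw [coe_smul_of_det_pos hdet, num, denom, he]
  simp only [Matrix.of_apply, Matrix.cons_val', Matrix.cons_val_zero, Matrix.cons_val_one,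
      Matrix.cons_val_fin_one]
  push_cast
  simp

private lemma hA_slash {m : ℕ} (hm : 1 ≤ m) {i : Σ _ : ℕ, ℕ} (hi : i ∈ ix m) (f : ℍ → ℂ) (τ : ℍ) :
    (f ∣[k] gA (mZ m i)) τ =
      ((m : ℂ) ^ (k - 1) * ((m / i.1 : ℕ) : ℂ) ^ (-k)) * f (gA (mZ m i) • τ) := by
  obtain ⟨h1, -, h3, h4, -⟩ := ix_mem hi
  have he := gA_entry hm hi
  have hdet : ((gA (mZ m i)).det : ℝ) = m := by
    rw [Matrix.GeneralLinearGroup.val_det_apply, he, Matrix.det_fin_two]
    simp only [Matrix.of_apply, Matrix.cons_val', Matrix.cons_val_zero, Matrix.cons_val_one,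
      Matrix.cons_val_fin_one, mul_zero, sub_zero]
    exact_mod_cast h3
  have hm0 : (0 : ℝ) < m := by exact_mod_cast hm
  rw [slash_apply]
  have hσ : σ (gA (mZ m i)) (f (gA (mZ m i) • τ)) = f (gA (mZ m i) • τ) := by
    rw [σ, if_pos (by rw [hdet]; exact hm0)]
    rfl
  have hden : denom (gA (mZ m i)) τ = ((m / i.1 : ℕ) : ℂ) := by
    rw [denom, he]
    simp
  rw [hσ, hden, hdet, abs_of_pos hm0]
  push_cast
  ring

private lemma root_sum (d n : ℕ) (hd : 0 < d) :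
    ∑ b ∈ Finset.range d, (Complex.exp (2 * Real.pi * Complex.I / d) ^ b) ^ n =
      if d ∣ n then (d : ℂ) else 0 := by
  have hζ := Complex.isPrimitiveRoot_exp d hd.ne'
  set ζ : ℂ := Complex.exp (2 * Real.pi * Complex.I / d) with hζd
  have h1 : ∀ b, (ζ ^ b) ^ n = (ζ ^ n) ^ b := fun b => by rw [← pow_mul, ← pow_mul, mul_comm]
  simp only [h1]
  split_ifs with h
  · rw [(hζ.pow_eq_one_iff_dvd n).mpr h]
    simp
  · have hne : ζ ^ n ≠ 1 := fun h2 => h ((hζ.pow_eq_one_iff_dvd n).mp h2)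
    rw [geom_sum_eq hne, ← pow_mul, mul_comm, pow_mul, hζ.pow_eq_one, one_pow, sub_self, zero_div]

private lemma inner_sum (a d : ℕ) (ha : 0 < a) (hd : 0 < d) (c : ℕ → ℂ) (τ : ℂ) (S : ℕ → ℂ)
    (hS : ∀ b ∈ Finset.range d, HasSum (fun n => c n * Function.Periodic.qParam 1
      (((a : ℂ) * τ + b) / d) ^ n) (S b)) :
    HasSum (fun N => (if a ∣ N then (d : ℂ) * c (d * (N / a)) else 0) *
      Function.Periodic.qParam 1 τ ^ N) (∑ b ∈ Finset.range d, S b) := by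
  have hd0 : (d : ℂ) ≠ 0 := by exact_mod_cast hd.ne'
  set ζ : ℂ := Complex.exp (2 * Real.pi * Complex.I / d) with hζ
  set r : ℂ := Function.Periodic.qParam 1 ((a : ℂ) * τ / d) with hr
  have hq : ∀ b : ℕ, Function.Periodic.qParam 1 (((a : ℂ) * τ + b) / d) = r * ζ ^ b := by
    intro b
    rw [hr, hζ, Function.Periodic.qParam, Function.Periodic.qParam, ← Complex.exp_nat_mul,
      ← Complex.exp_add]
    congr 1
    push_cast
    field_simp
  have hrd : r ^ d = Function.Periodic.qParam 1 τ ^ a := by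
    rw [hr, Function.Periodic.qParam, Function.Periodic.qParam, ← Complex.exp_nat_mul,
      ← Complex.exp_nat_mul]
    congr 1
    push_cast
    field_simp
  have h1 : HasSum (fun n => (if d ∣ n then (d : ℂ) else 0) * c n * r ^ n)
      (∑ b ∈ Finset.range d, S b) := by
    have h2 := hasSum_sum hS
    convert! h2 using 1
    funext n
    simp only [hq]
    have h3 : ∀ b ∈ Finset.range d, c n * (r * ζ ^ b) ^ n = (c n * r ^ n) * (ζ ^ b) ^ n := by
      intro b _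
      rw [mul_pow]
      ring
    rw [Finset.sum_congr rfl h3, ← Finset.mul_sum, root_sum d n hd]
    ring
  have hinj : Function.Injective fun n : ℕ => d * n := fun x y h => Nat.eq_of_mul_eq_mul_left hd h
  rw [← hinj.hasSum_iff] at h1
  · have hinj2 : Function.Injective fun n : ℕ => a * n :=
      fun x y h => Nat.eq_of_mul_eq_mul_left ha h
    rw [← hinj2.hasSum_iff]
    · convert! h1 using 1
      funext n
      simp only [Function.comp_apply]
      rw [if_pos (Dvd.intro _ rfl), if_pos (Dvd.intro _ rfl), Nat.mul_div_cancel_left _ ha,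
        pow_mul, pow_mul, hrd]
    · intro n hn
      rw [if_neg, zero_mul]
      rintro ⟨t, ht⟩
      exact hn ⟨t, ht.symm⟩
  · intro n hn
    rw [if_neg, zero_mul, zero_mul]
    rintro ⟨t, ht⟩
    exact hn ⟨t, ht.symm⟩

private lemma hecke_coeff_sum (k m N : ℕ) (hk : 1 ≤ k) (hm : 1 ≤ m) (f : PowerSeries ℂ) :
    (hecke ℂ k m f).coeff N = ∑ a ∈ m.divisors, ((m : ℂ) ^ ((k : ℤ) - 1) *
      ((m / a : ℕ) : ℂ) ^ (-(k : ℤ))) *
        (if a ∣ N then ((m / a : ℕ) : ℂ) * f.coeff ((m / a) * (N / a)) else 0) := by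
  simp only [hecke, LinearMap.coe_mk, AddHom.coe_mk, PowerSeries.coeff_mk]
  have hdiv : (Nat.gcd m N).divisors = m.divisors.filter fun a => a ∣ N := by
    ext a
    simp only [Nat.mem_divisors, Finset.mem_filter, Nat.dvd_gcd_iff]
    have : Nat.gcd m N ≠ 0 := (Nat.gcd_pos_of_pos_left _ hm).ne'
    constructor
    · rintro ⟨⟨h1, h2⟩, -⟩
      exact ⟨⟨h1, by omega⟩, h2⟩
    · rintro ⟨⟨h1, -⟩, h2⟩
      exact ⟨⟨h1, h2⟩, this⟩
  rw [hdiv, Finset.sum_filter]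
  refine Finset.sum_congr rfl fun a ha => ?_
  obtain ⟨ham, -⟩ := Nat.mem_divisors.mp ha
  obtain ⟨d, hd⟩ := ham
  have ha0 : 0 < a := by
    rcases Nat.eq_zero_or_pos a with h | h
    · rw [h, zero_mul] at hd; omega
    · exact h
  have hd0 : 0 < d := by
    rcases Nat.eq_zero_or_pos d with h | h
    · rw [h, mul_zero] at hd; omega
    · exact h
  have hmd : m / a = d := by rw [hd, Nat.mul_div_cancel_left _ ha0]
  rw [hmd]
  split_ifs with hN
  · obtain ⟨t, rfl⟩ := hN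
    rw [Nat.mul_div_cancel_left _ ha0]
    have h1 : m * (a * t) / a ^ 2 = d * t := by
      rw [hd]
      have : a * d * (a * t) = a ^ 2 * (d * t) := by ring
      rw [this, Nat.mul_div_cancel_left _ (by positivity)]
    rw [h1, ← mul_assoc]
    congr 1
    have hdC : (d : ℂ) ≠ 0 := by exact_mod_cast hd0.ne'
    have haC : (a : ℂ) ≠ 0 := by exact_mod_cast ha0.ne'
    have hmC : (m : ℂ) = a * d := by rw [hd]; push_cast; ring
    rw [hmC, mul_zpow, zpow_neg, zpow_sub₀ hdC, zpow_one,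
      show ((k : ℤ) - 1) = ((k - 1 : ℕ) : ℤ) by omega, zpow_natCast, zpow_natCast]
    have : (d : ℂ) ^ k ≠ 0 := pow_ne_zero _ hdC
    field_simp
  · rw [mul_zero]

theorem hecke_all (k m : ℕ) (hk : 1 ≤ k) (hm : 1 ≤ m) (F : CuspForm 𝒮ℒ (k : ℤ)) :
    ∃ G : CuspForm 𝒮ℒ (k : ℤ), qExpansion 1 G = hecke ℂ k m (qExpansion 1 F) := by
  refine ⟨hForm m hm F, ?_⟩
  ext N
  symm
  refine ModularFormClass.qExpansion_coeff_unique (f := hForm m hm F)
    (c := fun N => (hecke ℂ k m (qExpansion 1 F)).coeff N) one_pos one_mem_strictPeriods_SL ?_ N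
  intro τ
  have hF : ∀ σ : ℍ, HasSum (fun m : ℕ => (qExpansion 1 F).coeff m *
      Function.Periodic.qParam 1 (σ : ℂ) ^ m) (F σ) := fun σ =>
    ModularForm.hasSum_qExpansion (h := 1) F one_pos one_mem_strictPeriods_SL σ
  have hval : (hForm m hm F) τ = ∑ a ∈ m.divisors, ((m : ℂ) ^ ((k : ℤ) - 1) *
      ((m / a : ℕ) : ℂ) ^ (-(k : ℤ))) * ∑ b ∈ Finset.range (m / a), F (gA (mZ m ⟨a, b⟩) • τ) := by
    change hG m (k : ℤ) F τ = _
    unfold hG
    rw [Finset.sum_apply]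
    have h1 : ∀ i ∈ ix m, ((F : ℍ → ℂ) ∣[(k : ℤ)] gA (mZ m i)) τ =
        ((m : ℂ) ^ ((k : ℤ) - 1) * ((m / i.1 : ℕ) : ℂ) ^ (-(k : ℤ))) * F (gA (mZ m i) • τ) :=
      fun i hi => hA_slash hm hi F τ
    rw [Finset.sum_congr rfl h1]
    unfold ix
    rw [Finset.sum_sigma]
    refine Finset.sum_congr rfl fun a _ => ?_
    rw [Finset.mul_sum]
  rw [hval]
  have hsum : HasSum (fun N => ∑ a ∈ m.divisors, ((m : ℂ) ^ ((k : ℤ) - 1) *
      ((m / a : ℕ) : ℂ) ^ (-(k : ℤ))) * ((if a ∣ N then ((m / a : ℕ) : ℂ) *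
        (qExpansion 1 F).coeff ((m / a) * (N / a)) else 0) * Function.Periodic.qParam 1 (τ : ℂ) ^ N))
      (∑ a ∈ m.divisors, ((m : ℂ) ^ ((k : ℤ) - 1) *
      ((m / a : ℕ) : ℂ) ^ (-(k : ℤ))) * ∑ b ∈ Finset.range (m / a), F (gA (mZ m ⟨a, b⟩) • τ)) := by
    refine hasSum_sum fun a ha => ?_
    refine HasSum.mul_left _ ?_
    obtain ⟨ham, -⟩ := Nat.mem_divisors.mp ha
    have ha0 : 0 < a := Nat.pos_of_dvd_of_pos ham hm
    have hd0 : 0 < m / a := Nat.div_pos (Nat.le_of_dvd hm ham) ha0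
    refine inner_sum a (m / a) ha0 hd0 (fun n => (qExpansion 1 F).coeff n) (τ : ℂ)
      (fun b => F (gA (mZ m ⟨a, b⟩) • τ)) ?_
    intro b hb
    have hi : (⟨a, b⟩ : Σ _ : ℕ, ℕ) ∈ ix m := by
      unfold ix
      rw [Finset.mem_sigma]
      exact ⟨ha, hb⟩
    have h2 := hF (gA (mZ m ⟨a, b⟩) • τ)
    rw [hA_coe hm hi] at h2
    exact h2
  convert! hsum using 1
  funext N
  rw [hecke_coeff_sum k m N hk hm, smul_eq_mul, Finset.sum_mul]
  refine Finset.sum_congr rfl fun a _ => ?_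
  ring

theorem hecke_S (k m : ℕ) (hm : 1 ≤ m) (f : PowerSeries ℚ) (hf : f ∈ S k) :
    hecke ℚ k m f ∈ S k := by
  obtain ⟨F, hF⟩ := hf
  have hmap : (hecke ℚ k m f).map (algebraMap ℚ ℂ) = hecke ℂ k m (f.map (algebraMap ℚ ℂ)) := by
    ext n
    simp [hecke]
  rcases Nat.eq_zero_or_pos k with h0 | h0
  · subst h0
    have hr := CuspForm.rank_eq_zero_of_weight_lt_twelve (k := ((0 : ℕ) : ℤ)) (by norm_num)
    have hsub : Subsingleton (CuspForm 𝒮ℒ ((0 : ℕ) : ℤ)) := rank_zero_iff.mp hr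
    have hz : F = 0 := Subsingleton.elim _ _
    have hf0 : f = 0 := by
      rw [hz] at hF
      have h1 : qExpansion 1 ((0 : CuspForm 𝒮ℒ ((0 : ℕ) : ℤ)) : ℍ → ℂ) = 0 := qExpansion_zero 1
      rw [h1] at hF
      have hinj : Function.Injective (PowerSeries.map (algebraMap ℚ ℂ)) :=
        PowerSeries.map_injective _ (algebraMap ℚ ℂ).injective
      exact hinj (by rw [← hF, map_zero])
    rw [hf0, map_zero]
    exact Submodule.zero_mem _
  · obtain ⟨G, hG⟩ := hecke_all k m h0 hm F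
    exact ⟨G, by rw [hG, hF, hmap]⟩

end MP0f16e1
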