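import Pool.Agent.Work.MP_0f16e1_nt.HAlg
import Pool.Agent.Work.MP_0f16e1_nt.HComm

/-! # Module `MaxChain` : the number of maximal ideals of `𝕋_k` is bounded by chains

PROOF.  Let `A = HeckeAlg k`, commutative by `HeckeAlg_comm` (make it a `CommRing` locally with
`{ inferInstanceAs (Ring (HeckeAlg k)) with mul_comm := HeckeAlg_comm k }`, ideals of the ring are the same
as left ideals), finite dimensional over `ℚ` (`finite_S`), `V = Sk k` a faithful finite `A`-module.
Suppose there are `N` distinct maximal ideals `I_1, ..., I_N` (finitely many chosen from the set; the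
bound `encard ≤ s` follows if every finite subset has at most `s` elements).
(1) For every `i` there is `v_i ∈ V`, `v_i ≠ 0`, with `I_i v_i = 0`, hence `Ann(v_i) = I_i`: `A` is
artinian, so `I_i` is a minimal prime of `⊥ = Ann(V)`, hence an associated prime of the finite module
`V` (Mathlib: `Module.associatedPrimes.minimalPrimes_annihilator_subset_associatedPrimes` or similar);
or by hand: the product of the other maximal ideals to a high power is nonzero, etc.
(2) `W_i = A v_1 + ... + A v_i` (as `ℚ`-subspaces of `V`, then mapped by `ser` into `ℚ⟦X⟧`) is a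
monotone sequence of subspaces stable under `T₂`, with `W_0 = ⊥` and `W_i ≠ W_{i+1}` for `i < N`: if
`v_{i+1} ∈ W_i` then `I_1 ⋯ I_i v_{i+1} = 0`, so `I_1 ⋯ I_i ≤ I_{i+1}`, so some `I_j = I_{i+1}`.
All `W_i ≤ SF ℚ k` (`S_eq`), continue the sequence constantly after `N`.  So `N ≤ s`. -/

open PowerSeries Polynomial

namespace MP0f16e1

/-- every maximal ideal of an artinian ring acting faithfully is an annihilator -/
private theorem exists_ann {A V : Type*} [CommRing A] [IsArtinianRing A] [AddCommGroup V]
    [Module A V] [Module.Finite A V] (hfaith : ∀ a : A, (∀ v : V, a • v = 0) → a = 0)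
    (I : Ideal A) (hI : I.IsMaximal) : ∃ v : V, ∀ a : A, a ∈ I ↔ a • v = 0 := by
  have h1 : I ∈ (Module.annihilator A V).minimalPrimes := by
    refine ⟨⟨hI.isPrime, ?_⟩, ?_⟩
    · intro a ha
      rw [Module.mem_annihilator] at ha
      rw [hfaith a ha]
      exact I.zero_mem
    · intro J hJ hJI
      have := hJ.1
      have hJm : J.IsMaximal := IsArtinianRing.isMaximal_of_isPrime J
      exact (hJm.eq_of_le hI.ne_top hJI).ge
  have h2 := Module.associatedPrimes.minimalPrimes_annihilator_subset_associatedPrimes A V h1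
  obtain ⟨-, v, hv⟩ := (isAssociatedPrime_iff).1 (AssociatedPrimes.mem_iff.1 h2)
  refine ⟨v, fun a => ?_⟩
  rw [hv, Submodule.mem_colon_singleton]
  simp

private theorem exists_chain {A V : Type*} [CommRing A] [IsArtinianRing A] [AddCommGroup V]
    [Module A V] [Module.Finite A V] (hfaith : ∀ a : A, (∀ v : V, a • v = 0) → a = 0)
    (n : ℕ) (I : ℕ → Ideal A) (hI : ∀ i < n, (I i).IsMaximal)
    (hinj : ∀ i < n, ∀ j < n, I i = I j → i = j) :
    ∃ W : ℕ → Submodule A V, Monotone W ∧ ∀ i < n, W i ≠ W (i + 1) := by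
  have hex : ∀ i : ℕ, ∃ v : V, i < n → ∀ a : A, a ∈ I i ↔ a • v = 0 := by
    intro i
    by_cases hi : i < n
    · obtain ⟨v, hv⟩ := exists_ann hfaith (I i) (hI i hi)
      exact ⟨v, fun _ => hv⟩
    · exact ⟨0, fun h => absurd h hi⟩
  choose v hv using hex
  refine ⟨fun i => Submodule.span A (v '' {j | j < i}), ?_, ?_⟩
  · intro i j hij
    exact Submodule.span_mono (Set.image_mono fun a (ha : a < i) => lt_of_lt_of_le ha hij)
  · intro i hi heq
    have heq' : Submodule.span A (v '' {j | j < i}) = Submodule.span A (v '' {j | j < i + 1}) :=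
      heq
    have h1 : v i ∈ Submodule.span A (v '' {j | j < i}) := by
      rw [heq']
      exact Submodule.subset_span ⟨i, Nat.lt_succ_self i, rfl⟩
    have h2 : ∀ a ∈ ∏ j ∈ Finset.range i, I j, ∀ x ∈ Submodule.span A (v '' {j | j < i}),
        a • x = 0 := by
      intro a ha x hx
      induction hx using Submodule.span_induction with
      | mem x hx =>
        obtain ⟨j, hj, rfl⟩ := hx
        have hj' : j < i := hj
        have h3 : a ∈ I j := by
          have h4 := (Ideal.prod_le_inf (s := Finset.range i) (f := I)) ha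
          exact ((Finset.inf_le (Finset.mem_range.2 hj') : (Finset.range i).inf I ≤ I j)) h4
        exact (hv j (hj'.trans hi) a).1 h3
      | zero => simp
      | add x y _ _ hx hy => rw [smul_add, hx, hy, add_zero]
      | smul b x _ hx => rw [smul_comm, hx, smul_zero]
    have h3 : ∏ j ∈ Finset.range i, I j ≤ I i := fun a ha => (hv i hi a).2 (h2 a ha _ h1)
    obtain ⟨j, hj, hji⟩ := ((hI i hi).isPrime.prod_le).1 h3
    have hj' : j < i := Finset.mem_range.1 hj
    have := (hI j (hj'.trans hi)).eq_of_le (hI i hi).ne_top hji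
    have := hinj j (hj'.trans hi) i hi this
    omega

private theorem exists_chain' {F A V : Type*} [Field F] [Ring A] [Algebra F A] [Module.Finite F A]
    (hcomm : ∀ a b : A, a * b = b * a) [AddCommGroup V] [Module F V]
    [Module A V] [IsScalarTower F A V] [Module.Finite F V]
    (hfaith : ∀ a : A, (∀ v : V, a • v = 0) → a = 0)
    (n : ℕ) (I : ℕ → Ideal A) (hI : ∀ i < n, (I i).IsMaximal)
    (hinj : ∀ i < n, ∀ j < n, I i = I j → i = j) :
    ∃ W : ℕ → Submodule A V, Monotone W ∧ ∀ i < n, W i ≠ W (i + 1) := by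
  let cr : CommRing A := { (inferInstance : Ring A) with mul_comm := hcomm }
  have h1 : IsArtinianRing A := IsArtinianRing.of_finite F A
  have h2 : Module.Finite A V := Module.Finite.of_restrictScalars_finite F A V
  exact exists_chain hfaith n I hI hinj

theorem max_encard {k s : ℕ} (hk : Even k) (h : CB (T2 ℚ k) ⊥ (SF ℚ k) s) :
    {I : Ideal (HeckeAlg k) | I.IsMaximal}.encard ≤ s := by
  classical
  by_contra hcon
  push Not at hcon
  have h1 : ((s + 1 : ℕ) : ℕ∞) ≤ {I : Ideal (HeckeAlg k) | I.IsMaximal}.encard := by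
    have := Order.add_one_le_of_lt hcon
    exact_mod_cast this
  obtain ⟨t, ht, htc⟩ := Set.exists_subset_encard_eq h1
  have hfin : t.Finite := Set.finite_of_encard_eq_coe htc
  let _ : Fintype t := hfin.fintype
  have hcard : Fintype.card t = s + 1 := by
    have : t.encard = (Fintype.card t : ℕ∞) := Set.encard_eq_coe_toFinset_card t |>.trans (by
      rw [Set.toFinset_card])
    rw [htc] at this
    exact_mod_cast this.symm
  let e : t ≃ Fin (s + 1) := Fintype.equivFinOfCardEq hcard
  let I : ℕ → Ideal (HeckeAlg k) := fun i => if hi : i < s + 1 then (e.symm ⟨i, hi⟩).1 else ⊥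
  have hI : ∀ i < s + 1, (I i).IsMaximal := by
    intro i hi
    have : I i = (e.symm ⟨i, hi⟩).1 := dif_pos hi
    rw [this]
    exact ht (e.symm ⟨i, hi⟩).2
  have hinj : ∀ i < s + 1, ∀ j < s + 1, I i = I j → i = j := by
    intro i hi j hj hij
    have h1 : I i = (e.symm ⟨i, hi⟩).1 := dif_pos hi
    have h2 : I j = (e.symm ⟨j, hj⟩).1 := dif_pos hj
    rw [h1, h2] at hij
    have := e.symm.injective (Subtype.ext hij)
    exact congrArg Fin.val this
  have hfinS : Module.Finite ℚ (Sk k) := finite_S k hk
  have hfinA : Module.Finite ℚ (HeckeAlg k) := by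
    exact FiniteDimensional.finiteDimensional_submodule
      (Subalgebra.toSubmodule (HeckeAlg k))
  have htower : IsScalarTower ℚ (HeckeAlg k) (Sk k) := inferInstance
  have hfaith : ∀ a : HeckeAlg k, (∀ v : Sk k, a • v = 0) → a = 0 := by
    intro a ha
    apply Subtype.ext
    exact LinearMap.ext fun v => ha v
  obtain ⟨W, hWm, hWn⟩ := exists_chain' (F := ℚ) (V := Sk k) (HeckeAlg_comm k) hfaith (s + 1) I
    hI hinj
  have hS := S_eq k hk
  have hT : ∀ x ∈ S k, T2 ℚ k x ∈ S k := by
    intro x hx
    rw [hS] at hx ⊢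
    exact T2_mem ℚ hx
  let τ : Module.End ℚ (Sk k) := (T2 ℚ k).restrict hT
  have hτ : ∀ x : Sk k, ser (τ x) = T2 ℚ k (ser x) := fun x => rfl
  have hτm : τ ∈ HeckeAlg k := Algebra.subset_adjoin ⟨2, by norm_num, hτ⟩
  let C : ℕ → Submodule ℚ (PowerSeries ℚ) := fun i => ((W i).restrictScalars ℚ).map ser
  have hser : Function.Injective (ser : Sk k →ₗ[ℚ] PowerSeries ℚ) :=
    Subtype.val_injective
  have hC := h (s + 1) C ?_ ?_ ?_
  · have hall : ((Finset.range (s + 1)).filter fun i => C i ≠ C (i + 1)) = Finset.range (s + 1) := by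
      apply Finset.filter_true_of_mem
      intro i hi heq
      have h3 := Submodule.map_injective_of_injective hser heq
      exact hWn i (Finset.mem_range.1 hi) (Submodule.restrictScalars_injective ℚ _ _ h3)
    rw [hall, Finset.card_range] at hC
    omega
  · intro i j hij
    exact Submodule.map_mono (fun x hx => hWm hij hx)
  · rintro i _ ⟨x, hx, rfl⟩
    refine ⟨τ x, ?_, hτ x⟩
    exact (W i).smul_mem (⟨τ, hτm⟩ : HeckeAlg k) hx
  · intro i
    refine ⟨bot_le, ?_⟩
    rintro _ ⟨x, -, rfl⟩
    rw [← hS]
    exact x.2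

end MP0f16e1
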