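import Pool.Agent.Work.MP_0f16e1_nt.Hasse
import Pool.Agent.Work.MP_0f16e1_nt.Deriv
import Pool.Agent.Work.MP_0f16e1_nt.HeckeInt

/-! # Module `Mod` : the structure modulo `ℓ`

PROOF.  `SF_step`: `f = 1 * f` with `one_mem` and `MF_mul_SF`.
`e2_mem`: apply `sD_MF` to `1 ∈ MF (ℓ-1)`: `theta 1 = 0`, so `sD (ℓ-1) 1 = -(ℓ-1) e2 = e2` in
`ZMod ℓ`, of weight `ℓ - 1 + 2 = ℓ + 1`.  `e2_mul`: `MF_mul_SF`.
`theta_SF`: `12 θ f = sD k f + k e2 f`, `sD k f ∈ SF (k+2) ≤ SF (k+2+(ℓ-1))`, and `12` is invertible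
modulo `ℓ` (`ℓ ≥ 5`).
`T2_period`: `T2_coeff`, `2^(ℓ-1) = 1` in `ZMod ℓ` (`ZMod.pow_card_sub_one_eq_one`, `ℓ` odd).
`T2_theta`: `T2_coeff`; at `n`: `2n a(2n) + 2^(k+ℓ) (n/2) a(n/2) = 2 n (a(2n) + 2^(k-1) a(n/2))` since
`2^(k+ℓ) = 2^(k+1)` in `ZMod ℓ`. -/

open PowerSeries

namespace MP0f16e1

variable (ℓ : ℕ) [Fact ℓ.Prime]

private theorem cast_ne_zero_of_lt {m : ℕ} (h0 : 0 < m) (hm : m < ℓ) : (m : ZMod ℓ) ≠ 0 := by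
  intro h
  rw [ZMod.natCast_eq_zero_iff] at h
  exact absurd (Nat.le_of_dvd h0 h) (by omega)

private theorem two_ne (h5 : 5 ≤ ℓ) : (2 : ZMod ℓ) ≠ 0 := by
  have := cast_ne_zero_of_lt ℓ (m := 2) (by norm_num) (by omega)
  exact_mod_cast this

private theorem twelve_ne (h5 : 5 ≤ ℓ) : (12 : ZMod ℓ) ≠ 0 := by
  have h3 : (3 : ZMod ℓ) ≠ 0 := by
    have := cast_ne_zero_of_lt ℓ (m := 3) (by norm_num) (by omega)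
    exact_mod_cast this
  have h : (12 : ZMod ℓ) = 2 * 2 * 3 := by norm_num
  rw [h]
  exact mul_ne_zero (mul_ne_zero (two_ne ℓ h5) (two_ne ℓ h5)) h3

private theorem two_pow (h5 : 5 ≤ ℓ) : (2 : ZMod ℓ) ^ (ℓ - 1) = 1 :=
  ZMod.pow_card_sub_one_eq_one (two_ne ℓ h5)

theorem SF_step (h5 : 5 ≤ ℓ) (k : ℕ) : SF (ZMod ℓ) k ≤ SF (ZMod ℓ) (k + (ℓ - 1)) := by
  intro f hf
  have h := MF_mul_SF (ZMod ℓ) (one_mem ℓ h5) hf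
  rw [one_mul, add_comm] at h
  exact h

theorem e2_mem (h5 : 5 ≤ ℓ) : toR (ZMod ℓ) e2 ∈ MF (ZMod ℓ) (ℓ + 1) := by
  have h := sD_MF (ZMod ℓ) (one_mem ℓ h5)
  have h1 : theta (ZMod ℓ) (1 : PowerSeries (ZMod ℓ)) = 0 := by
    ext n
    simp only [theta, LinearMap.coe_mk, AddHom.coe_mk, PowerSeries.coeff_mk,
      PowerSeries.coeff_one, map_zero]
    split_ifs with h0
    · simp [h0]
    · simp
  have h2 : ((ℓ - 1 : ℕ) : PowerSeries (ZMod ℓ)) = -1 := by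
    rw [Nat.cast_sub (by omega)]
    have h3 : ((ℓ : ℕ) : PowerSeries (ZMod ℓ)) = 0 := by
      have h4 : ((ℓ : ℕ) : PowerSeries (ZMod ℓ)) = C ((ℓ : ℕ) : ZMod ℓ) := by
        rw [map_natCast]
      rw [h4, ZMod.natCast_self, map_zero]
    rw [h3]
    simp
  have h5' : sD (ZMod ℓ) (ℓ - 1) 1 = toR (ZMod ℓ) e2 := by
    rw [sD, h1, h2]
    ring
  rw [h5'] at h
  have h6 : ℓ - 1 + 2 = ℓ + 1 := by omega
  rwa [h6] at h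

theorem e2_mul (h5 : 5 ≤ ℓ) {k : ℕ} {f : PowerSeries (ZMod ℓ)} (hf : f ∈ SF (ZMod ℓ) k) :
    toR (ZMod ℓ) e2 * f ∈ SF (ZMod ℓ) (k + (ℓ + 1)) := by
  have h := MF_mul_SF (ZMod ℓ) (e2_mem ℓ h5) hf
  rwa [add_comm] at h

theorem theta_SF (h5 : 5 ≤ ℓ) {k : ℕ} {f : PowerSeries (ZMod ℓ)} (hf : f ∈ SF (ZMod ℓ) k) :
    theta (ZMod ℓ) f ∈ SF (ZMod ℓ) (k + (ℓ + 1)) := by
  have h1 : sD (ZMod ℓ) k f ∈ SF (ZMod ℓ) (k + (ℓ + 1)) := by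
    have h2 := SF_step ℓ h5 (k + 2) (sD_SF (ZMod ℓ) hf)
    have h6 : k + 2 + (ℓ - 1) = k + (ℓ + 1) := by omega
    rwa [h6] at h2
  have h3 := Submodule.smul_mem (SF (ZMod ℓ) (k + (ℓ + 1))) (k : ZMod ℓ) (e2_mul ℓ h5 hf)
  have h4 := Submodule.smul_mem (SF (ZMod ℓ) (k + (ℓ + 1))) ((12 : ZMod ℓ)⁻¹)
    (Submodule.add_mem _ h1 h3)
  have h7 : (12 : ZMod ℓ)⁻¹ • (sD (ZMod ℓ) k f + (k : ZMod ℓ) • (toR (ZMod ℓ) e2 * f)) =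
      theta (ZMod ℓ) f := by
    rw [sD, smul_eq_C_mul, smul_eq_C_mul, map_natCast]
    have h8 : (C ((12 : ZMod ℓ)⁻¹) : PowerSeries (ZMod ℓ)) * 12 = 1 := by
      have h9 : (12 : PowerSeries (ZMod ℓ)) = C (12 : ZMod ℓ) := by rw [map_ofNat]
      rw [h9, ← map_mul, inv_mul_cancel₀ (twelve_ne ℓ h5), map_one]
    linear_combination theta (ZMod ℓ) f * h8
  rwa [h7] at h4

theorem T2_period (h5 : 5 ≤ ℓ) {k : ℕ} (hk : 1 ≤ k) :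
    T2 (ZMod ℓ) (k + (ℓ - 1)) = T2 (ZMod ℓ) k := by
  ext f n
  rw [T2_coeff, T2_coeff]
  have h : k + (ℓ - 1) - 1 = (k - 1) + (ℓ - 1) := by omega
  rw [h, pow_add, two_pow ℓ h5, mul_one]

theorem T2_theta (h5 : 5 ≤ ℓ) {k : ℕ} (hk : 1 ≤ k) (f : PowerSeries (ZMod ℓ)) :
    T2 (ZMod ℓ) (k + (ℓ + 1)) (theta (ZMod ℓ) f) = (2 : ZMod ℓ) • theta (ZMod ℓ) (T2 (ZMod ℓ) k f) := by
  ext n
  rw [T2_coeff]
  have h : k + (ℓ + 1) - 1 = (k - 1) + (ℓ - 1) + 2 := by omega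
  rw [h, pow_add, pow_add, two_pow ℓ h5, mul_one, map_smul]
  have h2 : ∀ (x : PowerSeries (ZMod ℓ)) (i : ℕ), coeff i (theta (ZMod ℓ) x) = (i : ZMod ℓ) * coeff i x := by
    intro x i
    simp [theta]
  rw [h2, h2 (T2 (ZMod ℓ) k f) n, T2_coeff]
  by_cases hn : 2 ∣ n
  · rw [if_pos hn, if_pos hn, h2]
    obtain ⟨m, rfl⟩ := hn
    rw [Nat.mul_div_cancel_left _ (by norm_num : 0 < 2)]
    push_cast
    simp only [smul_eq_mul]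
    ring
  · rw [if_neg hn, if_neg hn]
    push_cast
    simp only [smul_eq_mul]
    ring

end MP0f16e1
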