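import Pool.Agent.Work.MP_0f16e1_nt.Bridge

/-! # Module `Ramanujan` : the identities of Ramanujan for `E₄` and `E₆`

PROOF.  `Mathlib/NumberTheory/ModularForms/Derivative.lean` has `Derivative.serreDerivative k F =
D F - k/12 E₂ F` and `serreDerivative_slash_invariant` (and `serreDerivative_mdifferentiable`).
For `F = E₄`, `G = serreDerivative 4 E₄` is slash invariant of weight `6`, holomorphic, and bounded at
`i∞` because it has a convergent `q`-expansion
(`isBoundedAtImInfty_of_hasSum_qExpansion`: `D F = ∑ n a(n) q^n`, `E₂ = 1 - 24 ∑ σ₁(n) q^n` by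
`hasSum_qExpansion_E2` / `E2_eq_tsum_cexp`, product of power series: Cauchy product or analyticity of
the cusp functions, `UpperHalfPlane.qExpansion_mul`).  So it is a modular form of weight `6`, a
multiple of `E₆` (`form_mem` with `MF ℂ 6` spanned by `e6`, or
`ModularForm.levelOne_weight_six_rank_one`), and the constant term gives the factor `-1/3`:
`θ e4 - e2 e4 / 3 = - e6 / 3`.  Same for `E₆`: weight `8`, `MF ℂ 8` is spanned by `e4^2`, factor
`-1/2`.  Finally go from `ℂ⟦X⟧` to `ℤ⟦X⟧` (injectivity of `PowerSeries.map`). -/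

open PowerSeries
open UpperHalfPlane ModularForm ModularFormClass EisensteinSeries
open scoped MatrixGroups Manifold

namespace MP0f16e1

/-- `f` has the convergent `q`-expansion `p`. -/
private def Ramanujan_Q (f : ℍ → ℂ) (p : PowerSeries ℂ) : Prop :=
  ∀ τ : ℍ, HasSum (fun m : ℕ => p.coeff m • Function.Periodic.qParam 1 τ ^ m) (f τ)

private lemma Ramanujan_Q_smul {f : ℍ → ℂ} {p : PowerSeries ℂ} (c : ℂ) (hf : Ramanujan_Q f p) :
    Ramanujan_Q (c • f) (c • p) := by
  intro τ
  have h := (hf τ).mul_left c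
  convert! h using 1
  funext m
  rw [PowerSeries.coeff_smul]
  simp only [smul_eq_mul]
  ring

private lemma Ramanujan_Q_sub {f g : ℍ → ℂ} {p r : PowerSeries ℂ} (hf : Ramanujan_Q f p)
    (hg : Ramanujan_Q g r) : Ramanujan_Q (f - g) (p - r) := by
  intro τ
  have h := (hf τ).sub (hg τ)
  convert! h using 1
  funext m
  rw [map_sub, sub_smul]

private lemma Ramanujan_Q_mul {f g : ℍ → ℂ} {p r : PowerSeries ℂ} (hf : Ramanujan_Q f p)
    (hg : Ramanujan_Q g r) : Ramanujan_Q (f * g) (p * r) := by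
  intro τ
  have h1 := hf τ
  have h2 := hg τ
  have h3 := summable_norm_sum_mul_antidiagonal_of_summable_norm h1.summable.norm h2.summable.norm
  have h4 := tsum_mul_tsum_eq_tsum_sum_antidiagonal_of_summable_norm h1.summable.norm
    h2.summable.norm
  rw [h1.tsum_eq, h2.tsum_eq] at h4
  have h5 := h3.of_norm.hasSum
  rw [← h4] at h5
  convert! h5 using 1
  funext m
  rw [PowerSeries.coeff_mul, Finset.sum_smul]
  refine Finset.sum_congr rfl fun x hx => ?_
  rw [Finset.HasAntidiagonal.mem_antidiagonal] at hx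
  rw [← hx, pow_add]
  simp only [smul_eq_mul]
  ring

private lemma Ramanujan_hasSum_deriv {c : ℂ → ℂ} (hd : DifferentiableOn ℂ c (Metric.ball 0 1))
    {q : ℂ} (hq : ‖q‖ < 1) :
    HasSum (fun m : ℕ => ((m : ℂ) * ((m.factorial : ℂ)⁻¹ * iteratedDeriv m c 0)) * q ^ m)
      (q * deriv c q) := by
  have h1 := Complex.hasSum_taylorSeries_on_ball (hd.deriv Metric.isOpen_ball)
    (mem_ball_zero_iff.mpr hq)
  have h2 := h1.mul_left q
  rw [← hasSum_nat_add_iff' 1]
  convert! h2 using 1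
  · funext m
    rw [iteratedDeriv_succ', Nat.factorial_succ]
    have hm : ((m : ℂ) + 1) ≠ 0 := Nat.cast_add_one_ne_zero m
    have hf : ((m.factorial : ℕ) : ℂ) ≠ 0 := Nat.cast_ne_zero.mpr m.factorial_ne_zero
    simp only [smul_eq_mul, sub_zero]
    push_cast
    field_simp
    ring
  · simp

private lemma Ramanujan_Q_D {k : ℤ} (F : ModularForm 𝒮ℒ k) :
    Ramanujan_Q (Derivative.normalizedDerivOfComplex F) (theta ℂ (qExpansion 1 F)) := by
  intro τ
  have hper := SlashInvariantFormClass.periodic_comp_ofComplex F one_mem_strictPeriods_SL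
  have hd := UpperHalfPlane.differentiableOn_cuspFunction_ball (h := 1) one_pos
    hper (ModularFormClass.holo F) (ModularFormClass.bdd_at_infty F)
  have hq : ‖Function.Periodic.qParam 1 (τ : ℂ)‖ < 1 :=
    Function.Periodic.norm_qParam_lt_one one_pos τ.im_pos
  have h1 := Ramanujan_hasSum_deriv hd hq
  have hq' : HasDerivAt (fun z : ℂ => Function.Periodic.qParam 1 z)
      (2 * Real.pi * Complex.I * Function.Periodic.qParam 1 (τ : ℂ)) (τ : ℂ) := by
    unfold Function.Periodic.qParam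
    have h := ((hasDerivAt_id (τ : ℂ)).const_mul (2 * Real.pi * Complex.I)).cexp
    convert! h using 1
    · funext z
      simp
    · simp
      ring
  have hcd : HasDerivAt (cuspFunction 1 F) (deriv (cuspFunction 1 F) (Function.Periodic.qParam 1 (τ : ℂ)))
      (Function.Periodic.qParam 1 (τ : ℂ)) :=
    ((hd _ (mem_ball_zero_iff.mpr hq)).differentiableAt
      (Metric.isOpen_ball.mem_nhds (mem_ball_zero_iff.mpr hq))).hasDerivAt
  have hcomp := hcd.comp (τ : ℂ) hq'
  have hev : ((F : ℍ → ℂ) ∘ ofComplex) =ᶠ[nhds (τ : ℂ)]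
      (cuspFunction 1 F ∘ fun z : ℂ => Function.Periodic.qParam 1 z) := by
    filter_upwards [isOpen_upperHalfPlaneSet.mem_nhds τ.im_pos] with z hz
    have h := UpperHalfPlane.eq_cuspFunction (h := 1) (f := F) ⟨z, hz⟩ one_ne_zero hper
    simp only [Function.comp_apply, ofComplex_apply_of_im_pos hz]
    exact h.symm
  have hD : Derivative.normalizedDerivOfComplex F τ = Function.Periodic.qParam 1 (τ : ℂ) *
      deriv (cuspFunction 1 F) (Function.Periodic.qParam 1 (τ : ℂ)) := by
    unfold Derivative.normalizedDerivOfComplex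
    rw [hev.deriv_eq, hcomp.deriv]
    have := Complex.two_pi_I_ne_zero
    field_simp
  rw [hD]
  convert! h1 using 1
  funext m
  simp only [theta, LinearMap.coe_mk, AddHom.coe_mk, PowerSeries.coeff_mk, qExpansion_coeff,
    smul_eq_mul]

private lemma Ramanujan_Q_E2 : Ramanujan_Q E2 (toR ℂ e2) := by
  intro τ
  have h := hasSum_qExpansion_E2 (z := τ)
  convert! h using 1
  funext m
  rw [Basis_coeff_toR, e2, PowerSeries.coeff_mk]
  simp [Function.Periodic.qParam]

private lemma Ramanujan_Q_self {k : ℤ} (F : ModularForm 𝒮ℒ k) :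
    Ramanujan_Q F (qExpansion 1 F) := by
  intro τ
  exact ModularForm.hasSum_qExpansion (h := 1) F one_pos one_mem_strictPeriods_SL τ

private lemma Ramanujan_form (k : ℕ) (hk : Even k) (F : ModularForm 𝒮ℒ (k : ℤ)) :
    theta ℂ (qExpansion 1 F) - ((k : ℂ) * 12⁻¹) • (toR ℂ e2 * qExpansion 1 F) ∈ MF ℂ (k + 2) := by
  set f : ℍ → ℂ := Derivative.serreDerivative ((k : ℤ) : ℂ) F with hf
  have hQ : Ramanujan_Q f (theta ℂ (qExpansion 1 F) -
      ((k : ℂ) * 12⁻¹) • (toR ℂ e2 * qExpansion 1 F)) := by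
    have h := Ramanujan_Q_sub (Ramanujan_Q_D F)
      (Ramanujan_Q_smul ((k : ℂ) * 12⁻¹) (Ramanujan_Q_mul Ramanujan_Q_E2 (Ramanujan_Q_self F)))
    have e : f = Derivative.normalizedDerivOfComplex F - ((k : ℂ) * 12⁻¹) • (E2 * (F : ℍ → ℂ)) := by
      funext z
      simp [hf, mul_assoc]
    rw [e]
    exact h
  have hinv : ∀ γ : SL(2, ℤ), f ∣[(k : ℤ) + 2] γ = f := by
    intro γ
    apply Derivative.serreDerivative_slash_invariant (ModularFormClass.holo F)
    exact SlashInvariantForm.slash_action_eqn F _ ⟨γ, rfl⟩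
  have hbd : IsBoundedAtImInfty f := isBoundedAtImInfty_of_hasSum_qExpansion one_pos hQ
  let G : ModularForm 𝒮ℒ ((k : ℤ) + 2) :=
    { toFun := f
      slash_action_eq' := fun _ ⟨γ, hγ⟩ ↦ hγ ▸ hinv γ
      holo' := Derivative.serreDerivative_mdifferentiable _ (ModularFormClass.holo F)
      bdd_at_cusps' {c} hc := by
        rw [Subgroup.IsArithmetic.isCusp_iff_isCusp_SL2Z] at hc
        rw [OnePoint.isBoundedAt_iff_forall_SL2Z hc]
        intro γ _
        rw [hinv γ]
        exact hbd }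
  have he : ((k : ℤ) + 2) = ((k + 2 : ℕ) : ℤ) := by push_cast; ring
  let G' : ModularForm 𝒮ℒ ((k + 2 : ℕ) : ℤ) := ModularForm.mcast he G rfl
  have hG : qExpansion 1 G' = theta ℂ (qExpansion 1 F) -
      ((k : ℂ) * 12⁻¹) • (toR ℂ e2 * qExpansion 1 F) := by
    ext m
    exact (ModularFormClass.qExpansion_coeff_unique (f := G') one_pos one_mem_strictPeriods_SL
      hQ m).symm
  rw [← hG]
  exact form_mem (k + 2) (by grind) G'

private lemma Ramanujan_theta_toR (f : PowerSeries ℤ) : theta ℂ (toR ℂ f) = toR ℂ (theta ℤ f) := by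
  ext n
  simp only [theta, LinearMap.coe_mk, AddHom.coe_mk, PowerSeries.coeff_mk, Basis_coeff_toR]
  push_cast
  rfl

private lemma Ramanujan_theta_zero (f : PowerSeries ℤ) : coeff 0 (theta ℤ f) = 0 := by
  simp only [theta, LinearMap.coe_mk, AddHom.coe_mk, PowerSeries.coeff_mk]
  simp

theorem ram4 : 3 * theta ℤ e4 = e2 * e4 - e6 := by
  have h1 := Ramanujan_form 4 (by decide) E₄
  have h2 : qExpansion 1 (E₄ : ℍ → ℂ) = toR ℂ e4 := qE4
  rw [h2, Ramanujan_theta_toR, ← Basis_toR_mul] at h1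
  have h3 : toR ℂ e6 ∈ MF ℂ (4 + 2) := by
    apply Submodule.subset_span
    refine ⟨0, 0, 1, rfl, ?_⟩
    simp [mono]
  have h4 := (MF ℂ (4 + 2)).add_mem h1 ((MF ℂ (4 + 2)).smul_mem (3 : ℂ)⁻¹ h3)
  have h5 := MF_ext ℂ h4 (by
    intro i hi
    have : i = 0 := by
      simpa [nS] using hi
    subst this
    rw [map_add, map_sub, coeff_smul, coeff_smul, Basis_coeff_toR, Basis_coeff_toR,
      Basis_coeff_toR, Ramanujan_theta_zero, coeff_mul]
    simp [e2_coeff_zero, e4_coeff_zero, e6_coeff_zero]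
    norm_num)
  ext n
  have h6 := congrArg (coeff n) h5
  rw [map_add, map_sub, coeff_smul, coeff_smul, Basis_coeff_toR, Basis_coeff_toR,
    Basis_coeff_toR, map_zero, smul_eq_mul, smul_eq_mul] at h6
  rw [map_sub, show (3 : PowerSeries ℤ) = C (3 : ℤ) from rfl, coeff_C_mul]
  have h7 : ((3 * coeff n (theta ℤ e4) : ℤ) : ℂ) = ((coeff n (e2 * e4) - coeff n e6 : ℤ) : ℂ) := by
    push_cast at h6 ⊢
    linear_combination 3 * h6
  exact_mod_cast h7

theorem ram6 : 2 * theta ℤ e6 = e2 * e6 - e4 ^ 2 := by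
  have h1 := Ramanujan_form 6 (by decide) E₆
  have h2 : qExpansion 1 (E₆ : ℍ → ℂ) = toR ℂ e6 := qE6
  rw [h2, Ramanujan_theta_toR, ← Basis_toR_mul] at h1
  have h3 : toR ℂ (e4 ^ 2) ∈ MF ℂ (6 + 2) := by
    apply Submodule.subset_span
    refine ⟨0, 2, 0, rfl, ?_⟩
    simp [mono]
  have h4 := (MF ℂ (6 + 2)).add_mem h1 ((MF ℂ (6 + 2)).smul_mem (2 : ℂ)⁻¹ h3)
  have h5 := MF_ext ℂ h4 (by
    intro i hi
    have : i = 0 := by
      simpa [nS] using hi
    subst this
    rw [map_add, map_sub, coeff_smul, coeff_smul, Basis_coeff_toR, Basis_coeff_toR,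
      Basis_coeff_toR, Ramanujan_theta_zero, coeff_mul, pow_two, coeff_mul]
    simp [e2_coeff_zero, e4_coeff_zero, e6_coeff_zero]
    norm_num)
  ext n
  have h6 := congrArg (coeff n) h5
  rw [map_add, map_sub, coeff_smul, coeff_smul, Basis_coeff_toR, Basis_coeff_toR,
    Basis_coeff_toR, map_zero, smul_eq_mul, smul_eq_mul] at h6
  rw [map_sub, show (2 : PowerSeries ℤ) = C (2 : ℤ) from rfl, coeff_C_mul]
  have h7 : ((2 * coeff n (theta ℤ e6) : ℤ) : ℂ) =
      ((coeff n (e2 * e6) - coeff n (e4 ^ 2) : ℤ) : ℂ) := by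
    push_cast at h6 ⊢
    linear_combination 2 * h6
  exact_mod_cast h7

end MP0f16e1
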