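import Pool.Agent.Work.MP_0f16e1_nt.Mod

/-! # Module `WMap` : `T₂` and multiplication by `E₂`

PROOF.  `W f = T₂^{(k+2)} (e2 f) - 2 e2 T₂^{(k)} f`.  With `sD k f = 12 θ f - k e2 f` one has
`k W f = T₂^{(k+2)} (12 θ f - sD k f) - 2 (12 θ T₂ f - sD k (T₂ f))
       = 2 sD k (T₂ f) - T₂^{(k+2)} (sD k f)`,
because `T₂^{(k+2)} θ f = 2 θ T₂^{(k)} f` over every ring (coefficients: `T2_coeff`,
`2n a(2n) + 2^(k+1) (n/2) a(n/2)`).  Both terms on the right are in `SF R (k+2)` (`sD_SF`, `T2_mem`).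
For `R = ℚ` and `k ≠ 0` divide by `k`.  For `R = ℤ` use `SF_sat` (`ℤ → ℚ`).  For general `R`: `W` is
`R`-linear in `f` and commutes with base change (`T2_map`), and `SF R k` is spanned by the
`mono R j a b = (mono ℤ j a b).map`.  (`SF R k = ⊥` for `k < 12`, so `k ≥ 1` is no problem.) -/

open PowerSeries

namespace MP0f16e1

private theorem T2_theta' (R : Type*) [CommRing R] {k : ℕ} (hk : 1 ≤ k) (f : PowerSeries R) :
    T2 R (k + 2) (theta R f) = 2 * theta R (T2 R k f) := by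
  ext n
  rw [T2_coeff]
  have h : k + 2 - 1 = (k - 1) + 2 := by omega
  rw [h, pow_add]
  have h2 : ∀ (x : PowerSeries R) (i : ℕ), coeff i (theta R x) = (i : R) * coeff i x := by
    intro x i
    simp [theta]
  have h3 : coeff n (2 * theta R (T2 R k f)) = 2 * coeff n (theta R (T2 R k f)) := by
    have : (2 : PowerSeries R) = C (2 : R) := by rw [map_ofNat]
    rw [this, coeff_C_mul]
  rw [h3, h2, h2 (T2 R k f) n, T2_coeff]
  by_cases hn : 2 ∣ n
  · rw [if_pos hn, if_pos hn, h2]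
    obtain ⟨m, rfl⟩ := hn
    rw [Nat.mul_div_cancel_left _ (by norm_num : 0 < 2)]
    push_cast
    ring
  · rw [if_neg hn, if_neg hn]
    push_cast
    ring

private theorem W_id (R : Type*) [CommRing R] {k : ℕ} (hk : 1 ≤ k) (f : PowerSeries R) :
    (k : R) • (T2 R (k + 2) (toR R e2 * f) - (2 : R) • (toR R e2 * T2 R k f)) =
      (2 : R) • sD R k (T2 R k f) - T2 R (k + 2) (sD R k f) := by
  have h1 : T2 R (k + 2) (sD R k f) =
      (12 : R) • T2 R (k + 2) (theta R f) - (k : R) • T2 R (k + 2) (toR R e2 * f) := by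
    have h2 : sD R k f = (12 : R) • theta R f - (k : R) • (toR R e2 * f) := by
      rw [sD, smul_eq_C_mul, smul_eq_C_mul, map_natCast, map_ofNat]
    rw [h2, map_sub, LinearMap.map_smul, LinearMap.map_smul]
  rw [h1, T2_theta' R hk, sD]
  simp only [smul_eq_C_mul, map_natCast, map_ofNat]
  ring

theorem W_mem (R : Type*) [CommRing R] {k : ℕ} {f : PowerSeries R} (hf : f ∈ SF R k) :
    T2 R (k + 2) (toR R e2 * f) - (2 : R) • (toR R e2 * T2 R k f) ∈ SF R (k + 2) := by
  by_cases hk : k < 12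
  · rw [SF_lt R hk, Submodule.mem_bot] at hf
    rw [hf]
    simp
  have hQ : ∀ f : PowerSeries ℚ, f ∈ SF ℚ k →
      T2 ℚ (k + 2) (toR ℚ e2 * f) - (2 : ℚ) • (toR ℚ e2 * T2 ℚ k f) ∈ SF ℚ (k + 2) := by
    intro f hf
    have h1 := W_id ℚ (by omega : 1 ≤ k) f
    have h2 : (2 : ℚ) • sD ℚ k (T2 ℚ k f) - T2 ℚ (k + 2) (sD ℚ k f) ∈ SF ℚ (k + 2) :=
      Submodule.sub_mem _ (Submodule.smul_mem _ _ (sD_SF ℚ (T2_mem ℚ hf))) (T2_mem ℚ (sD_SF ℚ hf))
    rw [← h1] at h2
    have hk0 : (k : ℚ) ≠ 0 := by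
      have : k ≠ 0 := by omega
      exact_mod_cast this
    exact (Submodule.smul_mem_iff _ hk0).mp h2
  have htoR : ∀ (R' R'' : Type) [CommRing R'] [CommRing R''] (φ : R' →+* R''),
      (toR R' e2).map φ = toR R'' e2 := by
    intro R' R'' _ _ φ
    ext n
    simp [toR]
  have hZ : ∀ f : PowerSeries ℤ, f ∈ SF ℤ k →
      T2 ℤ (k + 2) (toR ℤ e2 * f) - (2 : ℤ) • (toR ℤ e2 * T2 ℤ k f) ∈ SF ℤ (k + 2) := by
    intro f hf
    refine SF_sat (Int.castRingHom ℚ) (RingHom.injective_int _) ?_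
    have h1 := hQ _ (SF_map (Int.castRingHom ℚ) hf)
    rw [map_sub, T2_map, RingHom.map_mul, htoR]
    rw [zsmul_eq_mul, RingHom.map_mul, RingHom.map_mul, T2_map, htoR, map_intCast]
    rw [smul_eq_C_mul, map_ofNat] at h1
    exact_mod_cast h1
  induction hf using Submodule.span_induction with
  | mem x hx =>
    obtain ⟨j, a, b, hj, hk', rfl⟩ := hx
    have h1 := hZ (mono ℤ j a b) (Submodule.subset_span ⟨j, a, b, hj, hk', rfl⟩)
    have h2 := SF_map (Int.castRingHom R) h1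
    have htoR' : (toR ℤ e2).map (Int.castRingHom R) = toR R e2 := by
      ext n
      simp [toR]
    rw [map_sub, T2_map, RingHom.map_mul, htoR', mono_map] at h2
    rw [zsmul_eq_mul, RingHom.map_mul, RingHom.map_mul, T2_map, htoR', mono_map, map_intCast] at h2
    rw [smul_eq_C_mul, map_ofNat]
    exact_mod_cast h2
  | zero => simp
  | add x y _ _ hx hy =>
    have := Submodule.add_mem _ hx hy
    convert this using 1
    simp only [map_add, mul_add, smul_add]
    ring
  | smul c x _ hx =>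
    have := Submodule.smul_mem _ c hx
    convert this using 1
    simp only [map_smul, mul_smul_comm, smul_sub]
    rw [smul_comm]

end MP0f16e1
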