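import Pool.Agent.Work.MP_0f16e1_nt.WinD

/-! # MP_0f16e1_nt : primes of the window certificates (l = 293), generation certificates -/

namespace MP0f16e1

set_option maxRecDepth 100000

/-- the auxiliary primes -/
def PLw : List ℕ := [3, 5, 11, 13, 19, 31, 37, 43, 53, 67, 277, 353, 379, 9463, 14197, 17911, 25673, 86143]

theorem gen590 : genP 67108879 293 590 166 [25,26,27,28,29,30,31,32,33,34,35,36,37,38,39,40,41,42,43,44,45,46,47,48] = true := by decide +kernel

theorem gen592 : genP 67108879 293 592 166 [26,27,28,29,30,31,32,33,34,35,36,37,38,39,40,41,42,43,44,45,46,47,48,49] = true := by decide +kernel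

theorem gen594 : genP 67108879 293 594 166 [25,26,27,28,29,30,31,32,33,34,35,36,37,38,39,40,41,42,43,44,45,46,47,48,49] = true := by decide +kernel

end MP0f16e1
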