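import Pool.Agent.Work.MP_0f16e1_nt.WD01
import Pool.Agent.Work.MP_0f16e1_nt.WD02
import Pool.Agent.Work.MP_0f16e1_nt.WD03
import Pool.Agent.Work.MP_0f16e1_nt.WD04
import Pool.Agent.Work.MP_0f16e1_nt.WD05
import Pool.Agent.Work.MP_0f16e1_nt.WD06
import Pool.Agent.Work.MP_0f16e1_nt.WD07
import Pool.Agent.Work.MP_0f16e1_nt.WD08
import Pool.Agent.Work.MP_0f16e1_nt.WD09
import Pool.Agent.Work.MP_0f16e1_nt.WD10
import Pool.Agent.Work.MP_0f16e1_nt.WD11
import Pool.Agent.Work.MP_0f16e1_nt.WD12
import Pool.Agent.Work.MP_0f16e1_nt.DataI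
import Pool.Agent.Work.MP_0f16e1_nt.Count
import Pool.Agent.Work.MP_0f16e1_nt.MaxChain
import Pool.Agent.Work.MP_0f16e1_nt.ChainMod
import Pool.Agent.Work.MP_0f16e1_nt.Dim

/-! # MP_0f16e1_nt : assembly of the window certificates for l = 293 -/

namespace MP0f16e1

set_option maxRecDepth 100000

/-- the window certificates. -/
def wbs (i : ℕ) : List BlkI :=
  match i with
  | 0 => wb4
  | 1 => wb6
  | 2 => wb8
  | 3 => wb10
  | 4 => wb12
  | 5 => wb14
  | 6 => wb16
  | 7 => wb18
  | 8 => wb20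
  | 9 => wb22
  | 10 => wb24
  | 11 => wb26
  | 12 => wb28
  | 13 => wb30
  | 14 => wb32
  | 15 => wb34
  | 16 => wb36
  | 17 => wb38
  | 18 => wb40
  | 19 => wb42
  | 20 => wb44
  | 21 => wb46
  | 22 => wb48
  | 23 => wb50
  | 24 => wb52
  | 25 => wb54
  | 26 => wb56
  | 27 => wb58
  | 28 => wb60
  | 29 => wb62
  | 30 => wb64
  | 31 => wb66
  | 32 => wb68
  | 33 => wb70
  | 34 => wb72
  | 35 => wb74
  | 36 => wb76
  | 37 => wb78
  | 38 => wb80
  | 39 => wb82
  | 40 => wb84
  | 41 => wb86
  | 42 => wb88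
  | 43 => wb90
  | 44 => wb92
  | 45 => wb94
  | 46 => wb96
  | 47 => wb98
  | 48 => wb100
  | 49 => wb102
  | 50 => wb104
  | 51 => wb106
  | 52 => wb108
  | 53 => wb110
  | 54 => wb112
  | 55 => wb114
  | 56 => wb116
  | 57 => wb118
  | 58 => wb120
  | 59 => wb122
  | 60 => wb124
  | 61 => wb126
  | 62 => wb128
  | 63 => wb130
  | 64 => wb132
  | 65 => wb134
  | 66 => wb136
  | 67 => wb138
  | 68 => wb140
  | 69 => wb142
  | 70 => wb144
  | 71 => wb146
  | 72 => wb148
  | 73 => wb150
  | 74 => wb152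
  | 75 => wb154
  | 76 => wb156
  | 77 => wb158
  | 78 => wb160
  | 79 => wb162
  | 80 => wb164
  | 81 => wb166
  | 82 => wb168
  | 83 => wb170
  | 84 => wb172
  | 85 => wb174
  | 86 => wb176
  | 87 => wb178
  | 88 => wb180
  | 89 => wb182
  | 90 => wb184
  | 91 => wb186
  | 92 => wb188
  | 93 => wb190
  | 94 => wb192
  | 95 => wb194
  | 96 => wb196
  | 97 => wb198
  | 98 => wb200
  | 99 => wb202
  | 100 => wb204
  | 101 => wb206
  | 102 => wb208
  | 103 => wb210
  | 104 => wb212
  | 105 => wb214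
  | 106 => wb216
  | 107 => wb218
  | 108 => wb220
  | 109 => wb222
  | 110 => wb224
  | 111 => wb226
  | 112 => wb228
  | 113 => wb230
  | 114 => wb232
  | 115 => wb234
  | 116 => wb236
  | 117 => wb238
  | 118 => wb240
  | 119 => wb242
  | 120 => wb244
  | 121 => wb246
  | 122 => wb248
  | 123 => wb250
  | 124 => wb252
  | 125 => wb254
  | 126 => wb256
  | 127 => wb258
  | 128 => wb260
  | 129 => wb262
  | 130 => wb264
  | 131 => wb266
  | 132 => wb268
  | 133 => wb270
  | 134 => wb272
  | 135 => wb274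
  | 136 => wb276
  | 137 => wb278
  | 138 => wb280
  | 139 => wb282
  | 140 => wb284
  | 141 => wb286
  | 142 => wb288
  | 143 => wb290
  | 144 => wb292
  | 145 => wb294
  | 146 => wb296
  | _ => []

theorem wall : ∀ i < 147, winI 67108879 293 (4 + 2 * i + 292) (4 + 2 * i) 166 PLw (wbs i) = true := by
  intro i hi
  interval_cases i
  · exact wb4_ok
  · exact wb6_ok
  · exact wb8_ok
  · exact wb10_ok
  · exact wb12_ok
  · exact wb14_ok
  · exact wb16_ok
  · exact wb18_ok
  · exact wb20_ok
  · exact wb22_ok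
  · exact wb24_ok
  · exact wb26_ok
  · exact wb28_ok
  · exact wb30_ok
  · exact wb32_ok
  · exact wb34_ok
  · exact wb36_ok
  · exact wb38_ok
  · exact wb40_ok
  · exact wb42_ok
  · exact wb44_ok
  · exact wb46_ok
  · exact wb48_ok
  · exact wb50_ok
  · exact wb52_ok
  · exact wb54_ok
  · exact wb56_ok
  · exact wb58_ok
  · exact wb60_ok
  · exact wb62_ok
  · exact wb64_ok
  · exact wb66_ok
  · exact wb68_ok
  · exact wb70_ok
  · exact wb72_ok
  · exact wb74_ok
  · exact wb76_ok
  · exact wb78_ok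
  · exact wb80_ok
  · exact wb82_ok
  · exact wb84_ok
  · exact wb86_ok
  · exact wb88_ok
  · exact wb90_ok
  · exact wb92_ok
  · exact wb94_ok
  · exact wb96_ok
  · exact wb98_ok
  · exact wb100_ok
  · exact wb102_ok
  · exact wb104_ok
  · exact wb106_ok
  · exact wb108_ok
  · exact wb110_ok
  · exact wb112_ok
  · exact wb114_ok
  · exact wb116_ok
  · exact wb118_ok
  · exact wb120_ok
  · exact wb122_ok
  · exact wb124_ok
  · exact wb126_ok
  · exact wb128_ok
  · exact wb130_ok
  · exact wb132_ok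
  · exact wb134_ok
  · exact wb136_ok
  · exact wb138_ok
  · exact wb140_ok
  · exact wb142_ok
  · exact wb144_ok
  · exact wb146_ok
  · exact wb148_ok
  · exact wb150_ok
  · exact wb152_ok
  · exact wb154_ok
  · exact wb156_ok
  · exact wb158_ok
  · exact wb160_ok
  · exact wb162_ok
  · exact wb164_ok
  · exact wb166_ok
  · exact wb168_ok
  · exact wb170_ok
  · exact wb172_ok
  · exact wb174_ok
  · exact wb176_ok
  · exact wb178_ok
  · exact wb180_ok
  · exact wb182_ok
  · exact wb184_ok
  · exact wb186_ok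
  · exact wb188_ok
  · exact wb190_ok
  · exact wb192_ok
  · exact wb194_ok
  · exact wb196_ok
  · exact wb198_ok
  · exact wb200_ok
  · exact wb202_ok
  · exact wb204_ok
  · exact wb206_ok
  · exact wb208_ok
  · exact wb210_ok
  · exact wb212_ok
  · exact wb214_ok
  · exact wb216_ok
  · exact wb218_ok
  · exact wb220_ok
  · exact wb222_ok
  · exact wb224_ok
  · exact wb226_ok
  · exact wb228_ok
  · exact wb230_ok
  · exact wb232_ok
  · exact wb234_ok
  · exact wb236_ok
  · exact wb238_ok
  · exact wb240_ok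
  · exact wb242_ok
  · exact wb244_ok
  · exact wb246_ok
  · exact wb248_ok
  · exact wb250_ok
  · exact wb252_ok
  · exact wb254_ok
  · exact wb256_ok
  · exact wb258_ok
  · exact wb260_ok
  · exact wb262_ok
  · exact wb264_ok
  · exact wb266_ok
  · exact wb268_ok
  · exact wb270_ok
  · exact wb272_ok
  · exact wb274_ok
  · exact wb276_ok
  · exact wb278_ok
  · exact wb280_ok
  · exact wb282_ok
  · exact wb284_ok
  · exact wb286_ok
  · exact wb288_ok
  · exact wb290_ok
  · exact wb292_ok
  · exact wb294_ok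
  · exact wb296_ok

/-- the number of blocks. -/
def mu (d : ℕ) : ℕ := (wbs ((d / 2 + 145) % 147)).length

theorem mu_sum : ∑ i ∈ Finset.range 147, mu (4 + 2 * i) = 1001 := by
  decide +kernel

instance : Fact (Nat.Prime 293) := ⟨by norm_num⟩

theorem PLw_prime : ∀ s ∈ PLw, s.Prime := by
  unfold PLw
  intro s hs
  simp only [List.mem_cons, List.not_mem_nil, or_false] at hs
  rcases hs with rfl | rfl | rfl | rfl | rfl | rfl | rfl | rfl | rfl | rfl | rfl | rfl | rfl | rfl | rfl |
    rfl | rfl | rfl <;> norm_num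

theorem hGen : ∀ m, 2 * 293 - 8 ≤ m → Even m → Gen 293 m := by
  have hiv : 1728 * 166 % 293 = 1 := by norm_num
  have h1 := gen_of_check (B := 67108879) (l := 293) (k := 590) (iv := 166) (by norm_num)
    (by decide) (by norm_num) hiv (by unfold Good nS; norm_num) (by decide) gen590
  have h2 := gen_of_check (B := 67108879) (l := 293) (k := 592) (iv := 166) (by norm_num)
    (by decide) (by norm_num) hiv (by unfold Good nS; norm_num) (by decide) gen592
  have h3 := gen_of_check (B := 67108879) (l := 293) (k := 594) (iv := 166) (by norm_num)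
    (by decide) (by norm_num) hiv (by unfold Good nS; norm_num) (by decide) gen594
  exact gen_all 293 (by norm_num) h1 h2 h3

theorem hWin (d : ℕ) (h4 : 4 ≤ d) (h : d ≤ 293 + 3) (hd : Even d) :
    CB (T2 (ZMod 293) (d + (293 - 1))) (SF (ZMod 293) d) (SF (ZMod 293) (d + (293 - 1))) (mu d) := by
  obtain ⟨i, rfl⟩ : ∃ i, d = 4 + 2 * i := by
    obtain ⟨t, ht⟩ := hd
    exact ⟨t - 2, by omega⟩
  have hi : i < 147 := by omega
  have hmu : mu (4 + 2 * i) = (wbs i).length := by
    unfold mu
    congr 2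
    omega
  rw [hmu]
  have hb : Even (4 + 2 * i + 292) := ⟨2 + i + 146, by ring⟩
  have hT : T2 (ZMod 293) (4 + 2 * i + 292) = T2 (ZMod 293) (4 + 2 * i) :=
    T2_period 293 (by norm_num) (by omega)
  refine win_of_I PLw_prime hb hd (by norm_num) ?_ ?_ ?_ (wall i hi)
  · unfold Good nS
    omega
  · exact SF_step 293 (by norm_num) _
  · intro x hx
    rw [hT]
    exact T2_mem (ZMod 293) hx

/-- The chain bound in every even weight. -/
theorem CB_all (k : ℕ) (hk : Even k) :
    CB (T2 ℚ k) ⊥ (SF ℚ k) (1001 * (k / 42924 + 1) + 293) := by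
  have h := count 293 (by norm_num) hGen mu (fun d => by
    unfold mu
    congr 2
    omega) hWin k hk
  have e : (293 + 1) / 2 = 147 := by norm_num
  rw [e, mu_sum] at h
  exact CB_of_mod 293 hk h

/-- The number of simple factors of the Hecke algebra. -/
theorem orbits (k : ℕ) :
    {I : Ideal (HeckeAlg k) | I.IsMaximal}.encard ≤
      ((28 * Module.finrank ℚ (Sk k) / 100 + 1295 : ℕ) : ℕ∞) := by
  by_cases hk : Even k
  · refine (max_encard hk (CB_all k hk)).trans ?_
    rw [finrank_Sk k hk]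
    have : 1001 * (k / 42924 + 1) + 293 ≤ 28 * nS k / 100 + 1295 := by
      unfold nS
      omega
    exact_mod_cast this
  · rw [max_odd k hk, Set.encard_empty]
    exact bot_le

end MP0f16e1
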