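import Pool.Agent.Work.MP_0f16e1_nt.Chk

/-! # MP_0f16e1_nt : window certificates with irreducibility data -/

namespace MP0f16e1

/-- a block with its irreducibility certificate. -/
structure BlkI where
  cs : List ℕ
  ps : List ℕ
  js : List ℕ
  gs : List ℕ
  us : List ℕ
  s : ℕ
  bits : List Bool

def BlkI.toBlk (c : BlkI) : Blk := ⟨c.cs, c.ps, c.js⟩

/-- membership -/
def memB (s : ℕ) (L : List ℕ) : Bool :=
  List.rec (motive := fun _ => Bool) false
    (fun c _ ih => match Nat.beq c s with | true => true | false => ih) L

/-- data checks of one block (`n = nS b`). -/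
def blkI (B l n : ℕ) (PL : List ℕ) (c : BlkI) : Bool :=
  match ltL l c.cs, ltL l c.ps, Nat.ble c.ps.length n with
  | true, true, true =>
    match c.ps with
    | [] => false
    | [_] => true
    | _ => match memB c.s PL with
      | true => irrP B l c.ps c.gs c.us c.s c.bits
      | false => false
  | _, _, _ => false

/-- all data checks, with the total number of pivots `m`. -/
def allI (B l n m : ℕ) (PL : List ℕ) (blks : List BlkI) : Bool :=
  (List.rec (motive := fun _ => ℕ → Bool) (fun m => Nat.ble m n)
    (fun c _ ih m => match blkI B l n PL c with | true => ih (m + c.js.length) | false => false)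
    blks) m

/-- the complete window check. -/
def winI (B l b d iv : ℕ) (PL : List ℕ) (blks : List BlkI) : Bool :=
  match allI B l (nS b) (nS d) PL blks with
  | true => winP B l b d iv (blks.map BlkI.toBlk)
  | false => false

end MP0f16e1
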